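/-
LH/Defs : common definitions for the Lehmer project (MP_022f22_nt).
Paper proof: /team-store/lehmer_proof.md
Everything lives in namespace LEH.  K is a number field, v a finite prime of K (HeightOneSpectrum (RingOfIntegers K)),
W a Weierstrass curve over K; L a finite extension of K (number field).
-/
import Mathlib

open NumberField IsDedekindDomain Polynomial Height Filter Topology

namespace LEH

/-- first duplication form: `x(2P) = dupA / dupB` at `(x, z) = (x(P), 1)` -/
def dupA {R : Type*} [CommRing R] (W : WeierstrassCurve R) (x z : R) : R :=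
  x ^ 4 - W.b₄ * x ^ 2 * z ^ 2 - 2 * W.b₆ * x * z ^ 3 - W.b₈ * z ^ 4

/-- second duplication form -/
def dupB {R : Type*} [CommRing R] (W : WeierstrassCurve R) (x z : R) : R :=
  4 * x ^ 3 * z + W.b₂ * x ^ 2 * z ^ 2 + 2 * W.b₄ * x * z ^ 3 + W.b₆ * z ^ 4

/-- the `l`-fold iterate of the duplication forms, started at `(x, 1)` -/
def dupIt {R : Type*} [CommRing R] (W : WeierstrassCurve R) : ℕ → R → R × R
  | 0, x => (x, 1)
  | l + 1, x => (dupA W (dupIt W l x).1 (dupIt W l x).2, dupB W (dupIt W l x).1 (dupIt W l x).2)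

/-- the iterated duplication forms as polynomials in `x` -/
noncomputable def dupP {R : Type*} [CommRing R] (W : WeierstrassCurve R) (l : ℕ) : R[X] × R[X] :=
  dupIt (W.map (C : R →+* R[X])) l X

/-- the `x`-coordinate of a point (the value `1` at the point at infinity is junk) -/
noncomputable def xc {F : Type*} [Field F] {E : WeierstrassCurve F} (P : E.toAffine.Point) : F :=
  P.xRep 0

/-- homogeneous evaluation of a polynomial regarded as a form of degree `d` -/
noncomputable def hev {R : Type*} [CommRing R] (d : ℕ) (f : R[X]) (x z : R) : R :=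
  ∑ i ∈ Finset.range (d + 1), f.coeff i * x ^ i * z ^ (d - i)

/-- chordal distance of two finite points for an absolute value -/
noncomputable def cd {F : Type*} [Field F] (w : AbsoluteValue F ℝ) (x y : F) : ℝ :=
  w (x - y) / (max (w x) 1 * max (w y) 1)

/-- chordal distance of a finite point to infinity -/
noncomputable def cdi {F : Type*} [Field F] (w : AbsoluteValue F ℝ) (x : F) : ℝ :=
  1 / max (w x) 1

/-- logarithmic distance in units of `ρ` -/
noncomputable def tt {F : Type*} [Field F] (w : AbsoluteValue F ℝ) (ρ : ℝ) (x y : F) : ℝ :=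
  Real.log (cd w x y) / Real.log ρ

/-- the gain function `t ↦ min (Q t) (t+1)` -/
noncomputable def ph (Q : ℕ) (t : ℝ) : ℝ := min ((Q : ℝ) * t) (t + 1)

/-- canonical height on the `x`-line over the number field `L` (absolute normalisation),
relative to the duplication map of `W` -/
noncomputable def hx {L : Type*} [Field L] [NumberField L] (W : WeierstrassCurve L) (β : L) : ℝ :=
  limUnder atTop (fun l : ℕ =>
    logHeight ![(dupIt W l β).1, (dupIt W l β).2] / (4 ^ l * (Module.finrank ℚ L : ℝ)))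

/-- the finite place `w` of `L` lies above the prime `v` of `K` -/
def Above {K L : Type*} [Field K] [NumberField K] [Field L] [NumberField L] [Algebra K L]
    (v : HeightOneSpectrum (𝓞 K)) (w : FinitePlace L) : Prop :=
  w.maximalIdeal.asIdeal.comap (algebraMap (𝓞 K) (𝓞 L)) = v.asIdeal

/-- `W` is a Weierstrass equation over `K`, integral at `v` with discriminant a unit at `v` -/
structure GoodRed {K : Type*} [Field K] [NumberField K] (v : HeightOneSpectrum (𝓞 K))
    (W : WeierstrassCurve K) : Prop where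
  a₁ : v.valuation K W.a₁ ≤ 1
  a₂ : v.valuation K W.a₂ ≤ 1
  a₃ : v.valuation K W.a₃ ≤ 1
  a₄ : v.valuation K W.a₄ ≤ 1
  a₆ : v.valuation K W.a₆ ≤ 1
  disc : v.valuation K W.Δ = 1

/-- a pair of polynomials which is the `Q`-power map modulo elements of absolute value `≤ ρ` -/
structure GoodMap {L : Type*} [Field L] (w : AbsoluteValue L ℝ) (ρ : ℝ) (p Q : ℕ)
    (A B : L[X]) : Prop where
  nonarch : IsNonarchimedean w
  rho_pos : 0 < ρ
  rho_lt : ρ < 1
  prime : p.Prime
  pow : ∃ m, 0 < m ∧ Q = p ^ m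
  four : 4 ≤ Q
  char : w (p : L) ≤ ρ
  A_top : A.coeff Q = 1
  A_deg : A.natDegree ≤ Q
  A_low : ∀ i < Q, w (A.coeff i) ≤ ρ
  B_deg : B.natDegree < Q
  B_zero : w (B.coeff 0 - 1) ≤ ρ
  B_low : ∀ i, 1 ≤ i → w (B.coeff i) ≤ ρ

/-- the rational map `A/B` on the affine line over `L`, with coefficients in `K` -/
noncomputable def Fm {K L : Type*} [Field K] [Field L] [Algebra K L] (A B : K[X]) (x : L) : L :=
  (A.map (algebraMap K L)).eval x / (B.map (algebraMap K L)).eval x

/-- inertia and Frobenius data at an absolute value `w` of `L` -/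
structure InertiaData {K L : Type*} [Field K] [Field L] [Algebra K L] (w : AbsoluteValue L ℝ)
    (ρ : ℝ) (p Q : ℕ) (I : Subgroup (L ≃ₐ[K] L)) (φ : L ≃ₐ[K] L) : Prop where
  nonarch : IsNonarchimedean w
  rho_pos : 0 < ρ
  rho_lt : ρ < 1
  prime : p.Prime
  pow : ∃ m, 0 < m ∧ Q = p ^ m
  char : w (p : L) ≤ ρ
  inert_abs : ∀ σ ∈ I, ∀ x, w (σ x) = w x
  inert : ∀ σ ∈ I, ∀ x, w x ≤ 1 → w (σ x - x) < 1
  unram : ∀ x, (∀ σ ∈ I, σ x = x) → w x < 1 → w x ≤ ρ
  frob_abs : ∀ x, w (φ x) = w x
  norm : ∀ σ, σ ∈ I ↔ φ * σ * φ⁻¹ ∈ I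
  frob : ∀ x, w x ≤ 1 → w (φ x - x ^ Q) < 1

open Classical in
/-- the orbit of `a` under a subgroup of the (finite) Galois group, as a finite set -/
noncomputable def orbF {K L : Type*} [Field K] [Field L] [Algebra K L] [FiniteDimensional K L]
    (I : Subgroup (L ≃ₐ[K] L)) (a : L) : Finset L :=
  Finset.univ.image (fun σ : I => (σ : L ≃ₐ[K] L) a)

/-- number of conjugates over `K` (for `L/K` Galois) -/
noncomputable def dg (K : Type*) {L : Type*} [Field K] [Field L] [Algebra K L]
    [FiniteDimensional K L] (a : L) : ℕ :=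
  (orbF (⊤ : Subgroup (L ≃ₐ[K] L)) a).card

/-- the standing data of section 0.1 of the paper proof -/
structure Setup (K : Type) [Field K] [NumberField K] (v : HeightOneSpectrum (𝓞 K))
    (W : WeierstrassCurve K) (p N Q : ℕ) (A B : K[X]) : Prop where
  good : GoodRed v W
  prime : p.Prime
  N_pow : ∃ s, 0 < s ∧ N = p ^ s
  Q_eq : Q = N ^ 2
  p_mem : v.valuation K (p : K) < 1
  q0 : ∃ m, 0 < m ∧ Q = (Ideal.absNorm v.asIdeal) ^ m
  A_top : A.coeff Q = 1
  A_deg : A.natDegree ≤ Q
  A_low : ∀ i < Q, v.valuation K (A.coeff i) < 1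
  B_deg : B.natDegree < Q
  B_top : B.coeff (Q - 1) = (Q : K)
  B_zero : v.valuation K (B.coeff 0 - 1) < 1
  B_low : ∀ i, 1 ≤ i → v.valuation K (B.coeff i) < 1
  mul : ∀ (L : Type) [Field L] [Algebra K L] [DecidableEq L] (P : (W.baseChange L).toAffine.Point),
    P ≠ 0 → ((N • P = 0 ↔ (B.map (algebraMap K L)).eval (xc P) = 0) ∧
      (N • P ≠ 0 → xc (N • P) = Fm A B (xc P)))

/-- `x`-coordinates of non-torsion points: what is used of them on the `x`-line -/
structure Nice {K L : Type*} [Field K] [Field L] [NumberField L] [Algebra K L]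
    [FiniteDimensional K L] (W : WeierstrassCurve K) (Q : ℕ) (A B : K[X]) (a : L) : Prop where
  ne : ∀ n, (B.map (algebraMap K L)).eval ((Fm A B)^[n] a) ≠ 0
  disj : ∀ (σ : L ≃ₐ[K] L) (n m : ℕ), (Fm A B)^[n] a = (Fm A B)^[m] (σ a) → n = m
  ht : ∀ (σ : L ≃ₐ[K] L) (n : ℕ),
    hx (W.baseChange L) ((Fm A B)^[n] (σ a)) = (Q : ℝ) ^ n * hx (W.baseChange L) a

/-- non-torsion points -/
def NT {G : Type*} [AddGroup G] (P : G) : Prop := ∀ n : ℕ, 0 < n → n • P ≠ 0

/-- the Galois conjugate of a point -/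
noncomputable def cj {K L : Type*} [Field K] [Field L] [Algebra K L] [DecidableEq L]
    {W : WeierstrassCurve K} (σ : L ≃ₐ[K] L) (P : (W.baseChange L).toAffine.Point) :
    (W.baseChange L).toAffine.Point :=
  WeierstrassCurve.Affine.Point.map (W' := W) (σ : L →ₐ[K] L) P

/-- a uniformizer of `K` at `v` -/
def Unif {K : Type*} [Field K] [NumberField K] (v : HeightOneSpectrum (𝓞 K)) (ϖ : K) : Prop :=
  v.valuation K ϖ = WithZero.exp (-1 : ℤ)

/-- the loss function of the final theorem -/
noncomputable def loss (D : ℕ) : ℝ :=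
  Real.sqrt ((Real.log D + 3) * Real.log (Real.log D + 3))

end LEH
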