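/-
LH/CjP (S)  MP_022f22_nt, Lehmer project, table modleh. Paper proof: /team-store/lehmer_proof.md
Galois conjugates of points: cj sigma = Affine.Point.map.  xRep (cj sigma P) i = sigma (xRep P i) (cases P); xc; cj is additive (map_nsmul), cj_one, cj_mul (Point.map_map), injective, NT is preserved.
eq_or_neg: xc P = xc P' with P, P' != 0 implies P = P' or P = -P' (Point.X_eq_iff / eq_or_eq_neg_of_xRep_eq_xRep).
-/
import Mathlib
import Pool.Agent.Work.MP_022f22_nt.LH.Defs

open NumberField IsDedekindDomain Polynomial Height Filter Topology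

namespace LEH

variable {K L : Type*} [Field K] [Field L] [Algebra K L] [DecidableEq L]
  {W : WeierstrassCurve K}

theorem cj_xRep (σ : L ≃ₐ[K] L) (P : (W.baseChange L).toAffine.Point) (i : Fin 2) :
    (cj σ P).xRep i = σ (P.xRep i) := by
  cases P with
  | zero =>
    fin_cases i
    · exact (map_one σ).symm
    · exact (map_zero σ).symm
  | some x y h =>
    fin_cases i
    · rfl
    · exact (map_one σ).symm

theorem cj_xc (σ : L ≃ₐ[K] L) (P : (W.baseChange L).toAffine.Point) :
    xc (cj σ P) = σ (xc P) := cj_xRep σ P 0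

theorem cj_nsmul (σ : L ≃ₐ[K] L) (n : ℕ) (P : (W.baseChange L).toAffine.Point) :
    cj σ (n • P) = n • cj σ P :=
  map_nsmul (WeierstrassCurve.Affine.Point.map (W' := W) (σ : L →ₐ[K] L)) n P

theorem cj_add (σ : L ≃ₐ[K] L) (P P' : (W.baseChange L).toAffine.Point) :
    cj σ (P + P') = cj σ P + cj σ P' :=
  map_add (WeierstrassCurve.Affine.Point.map (W' := W) (σ : L →ₐ[K] L)) P P'

theorem cj_neg (σ : L ≃ₐ[K] L) (P : (W.baseChange L).toAffine.Point) :
    cj σ (-P) = -cj σ P :=
  map_neg (WeierstrassCurve.Affine.Point.map (W' := W) (σ : L →ₐ[K] L)) P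

theorem cj_mul (σ τ : L ≃ₐ[K] L) (P : (W.baseChange L).toAffine.Point) :
    cj (σ * τ) P = cj σ (cj τ P) := by
  cases P with
  | zero => rfl
  | some x y h => rfl

theorem cj_one (P : (W.baseChange L).toAffine.Point) : cj (1 : L ≃ₐ[K] L) P = P := by
  cases P with
  | zero => rfl
  | some x y h => rfl

theorem cj_eq_zero (σ : L ≃ₐ[K] L) (P : (W.baseChange L).toAffine.Point) :
    cj σ P = 0 ↔ P = 0 :=
  map_eq_zero_iff (WeierstrassCurve.Affine.Point.map (W' := W) (σ : L →ₐ[K] L))
    (WeierstrassCurve.Affine.Point.map_injective (W' := W) (σ : L →ₐ[K] L))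

theorem cj_NT (σ : L ≃ₐ[K] L) {P : (W.baseChange L).toAffine.Point} (h : NT P) :
    NT (cj σ P) := by
  intro n hn h0
  rw [← cj_nsmul, cj_eq_zero] at h0
  exact h n hn h0

theorem eq_or_neg {P P' : (W.baseChange L).toAffine.Point} (hP : P ≠ 0) (hP' : P' ≠ 0)
    (h : xc P = xc P') : P = P' ∨ P = -P' := by
  apply WeierstrassCurve.Affine.Point.eq_or_eq_neg_of_xRep_eq_xRep
  cases P with
  | zero => exact absurd rfl hP
  | some x y h1 =>
    cases P' with
    | zero => exact absurd rfl hP'
    | some x' y' h2 =>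
      have h3 : x = x' := h
      subst h3
      rfl

theorem xRep_of_ne {F : Type*} [Field F] {E : WeierstrassCurve F} {P : E.toAffine.Point}
    (hP : P ≠ 0) : P.xRep 0 = xc P ∧ P.xRep 1 = 1 := by
  refine ⟨rfl, ?_⟩
  cases P with
  | zero => exact absurd rfl hP
  | some x y h1 => rfl

end LEH
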