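/-
LH/FinDefs : the definitions used in the final statement (MP_022f22_nt).
-/
import Mathlib

open NumberField IsDedekindDomain Filter Topology

namespace LEH

/-- the absolute logarithmic Weil height of the `x`-coordinate (`0` at the point at infinity);
`NumberField.absLogHeight₁` is Mathlib's absolute logarithmic height of an algebraic number -/
noncomputable def naiveHeight {F : Type*} [Field F] [CharZero F] {E : WeierstrassCurve F} :
    E.toAffine.Point → ℝ
  | .zero => 0
  | .some x _ _ => NumberField.absLogHeight₁ x

open Classical in
/-- the canonical (Neron-Tate) height for the `x`-coordinate: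
the limit of `4⁻ⁿ h(x(2ⁿ P))` -/
noncomputable def canonicalHeight {F : Type*} [Field F] [CharZero F] {E : WeierstrassCurve F}
    (P : E.toAffine.Point) : ℝ :=
  limUnder atTop (fun n : ℕ => naiveHeight (2 ^ n • P) / 4 ^ n)

/-- the degree `[K(P) : K]` of a point -/
noncomputable def ptDegree (K : Type*) {F : Type*} [Field K] [Field F] [Algebra K F]
    {E : WeierstrassCurve F} : E.toAffine.Point → ℕ
  | .zero => 1
  | .some x y _ => Module.finrank K (IntermediateField.adjoin K {x, y})

open Classical in
/-- points of infinite order -/
def InfOrder {F : Type*} [Field F] {E : WeierstrassCurve F} (P : E.toAffine.Point) : Prop :=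
  ∀ n : ℕ, 0 < n → n • P ≠ 0

open Classical in
/-- the curve `W` over the field `k` of characteristic `p` has no point of order `p` over an
algebraic closure of `k` (for `p > 0`: `W` is supersingular) -/
def Supersingular {k : Type*} [Field k] (W : WeierstrassCurve k) : Prop :=
  ∀ P : (W.baseChange (AlgebraicClosure k)).toAffine.Point, ringChar k • P = 0 → P = 0

/-- the Weierstrass equation `W` over the local ring `R` has unit discriminant (good reduction) and
its reduction is supersingular -/
def GoodSupersingular {R : Type*} [CommRing R] [IsLocalRing R] (W : WeierstrassCurve R) : Prop :=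
  IsUnit W.Δ ∧ Supersingular (W.map (IsLocalRing.residue R))

/-- `E` has potentially good supersingular reduction at some finite place: over some number field
`K' ⊇ K` some Weierstrass equation isomorphic to `E` has good supersingular reduction at some prime
`v` of `K'` -/
def PotSupersingular {K : Type} [Field K] [NumberField K] (E : WeierstrassCurve K) : Prop :=
  ∃ (K' : Type) (_ : Field K') (_ : NumberField K') (_ : Algebra K K')
    (v : HeightOneSpectrum (𝓞 K')) (C : WeierstrassCurve.VariableChange K')
    (W : WeierstrassCurve (v.valuation K').valuationSubring),
    W.map (algebraMap (v.valuation K').valuationSubring K') = C • (E.baseChange K') ∧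
      GoodSupersingular W

/-- `D⁻¹ exp(-C √((log D + 3) log (log D + 3)))` -/
noncomputable def lowerBd (C : ℝ) (D : ℕ) : ℝ :=
  Real.exp (-(C * Real.sqrt ((Real.log D + 3) * Real.log (Real.log D + 3)))) / (D : ℝ)

end LEH
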