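/-
LH/Vab (M)  MP_022f22_nt, Lehmer project, table modleh. Paper proof: /team-store/lehmer_proof.md
Comparison of the valuation v of K and the absolute value w of L above v.  P = w.maximalIdeal.asIdeal, P cap O_K = v.asIdeal (Above).
 * for y in O_L: w y <= 1 (FinitePlace: NumberField.FinitePlace norm_le_one), w y < 1 iff y in P, w y = 1 iff y not in P.
 * v.valuation K x <= 1: x = a/b with a, b in O_K, b not in v.asIdeal (e.g. IsDedekindDomain.HeightOneSpectrum.mem_integers... or
   exists_primeCompl / Localization.AtPrime; or: use v.valuation of integers and the Chinese remainder type lemma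
   IsDedekindDomain.HeightOneSpectrum.valuation_le_one_iff / exists ... ; search Mathlib for valuation_le_one, primeCompl), so w x = w a / w b <= 1.
 * v x = 1: also x^-1.   * v x < 1: then v x <= exp(-1) = v ϖ (value group Z with zero), so v (x/ϖ) <= 1 and w x <= w ϖ.
 * 0 < w ϖ (ϖ != 0), w ϖ < 1: ϖ = a/b with b not in v, a in v.asIdeal (v a = v ϖ < 1), so the image of a is in P.
 * v x = exp(-n): x = ϖ^n u with v u = 1.
 * exists_frac: every x in L with w x <= 1 is a/b with a, b in O_L and w b = 1 (localization at P).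
-/
import Mathlib
import Pool.Agent.Work.MP_022f22_nt.LH.Defs

open NumberField IsDedekindDomain Polynomial Height Filter Topology

namespace LEH

variable {K L : Type*} [Field K] [NumberField K] [Field L] [NumberField L] [Algebra K L]
  {v : HeightOneSpectrum (𝓞 K)} {w : FinitePlace L}

private theorem vab_le (w : FinitePlace L) (y : 𝓞 L) : w (y : L) ≤ 1 := by
  rw [← FinitePlace.norm_embedding_eq w]
  exact FinitePlace.norm_le_one L w.maximalIdeal y

private theorem vab_eq (w : FinitePlace L) (y : 𝓞 L) : w (y : L) = 1 ↔ y ∉ w.maximalIdeal.asIdeal := by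
  rw [← FinitePlace.norm_embedding_eq w]
  exact FinitePlace.norm_eq_one_iff_notMem L w.maximalIdeal y

private theorem vab_lt (w : FinitePlace L) (y : 𝓞 L) : w (y : L) < 1 ↔ y ∈ w.maximalIdeal.asIdeal := by
  rw [← FinitePlace.norm_embedding_eq w]
  exact FinitePlace.norm_lt_one_iff_mem L w.maximalIdeal y

private theorem vab_map (y : 𝓞 K) :
    algebraMap K L (y : K) = ((algebraMap (𝓞 K) (𝓞 L) y : 𝓞 L) : L) := rfl

private theorem vab_mem (h : Above v w) (y : 𝓞 K) :
    algebraMap (𝓞 K) (𝓞 L) y ∈ w.maximalIdeal.asIdeal ↔ y ∈ v.asIdeal := by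
  rw [← h, Ideal.mem_comap]

/-- an element of `K` integral at `v` is a fraction of integers, the denominator a unit at `w` -/
private theorem vab_frac (h : Above v w) {x : K} (hx : v.valuation K x ≤ 1) :
    ∃ n : 𝓞 K, v.valuation K (n : K) = v.valuation K x ∧
      w (algebraMap K L x) = w ((algebraMap (𝓞 K) (𝓞 L) n : 𝓞 L) : L) := by
  obtain ⟨n, ⟨d, hd⟩, hnd⟩ := v.exists_primeCompl_mul_eq_of_integer x hx
  have hd1 : v.valuation K (d : K) = 1 := v.valuation_eq_one_iff_notMem.2 hd
  have hd2 : w ((algebraMap (𝓞 K) (𝓞 L) d : 𝓞 L) : L) = 1 := by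
    rw [vab_eq, vab_mem h]
    exact hd
  refine ⟨n, ?_, ?_⟩
  · have e := congrArg (v.valuation K) hnd
    rw [map_mul] at e
    change v.valuation K x * v.valuation K (d : K) = v.valuation K (n : K) at e
    rw [hd1, mul_one] at e
    exact e.symm
  · have e := congrArg (fun z => w (algebraMap K L z)) hnd
    simp only [map_mul] at e
    change w (algebraMap K L x) * w (algebraMap K L (d : K)) = w (algebraMap K L (n : K)) at e
    rw [vab_map, vab_map, hd2, mul_one] at e
    exact e

theorem above_le (h : Above v w) {x : K} (hx : v.valuation K x ≤ 1) :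
    w (algebraMap K L x) ≤ 1 := by
  obtain ⟨n, -, hn⟩ := vab_frac h hx
  rw [hn]
  exact vab_le w _

theorem above_eq (h : Above v w) {x : K} (hx : v.valuation K x = 1) :
    w (algebraMap K L x) = 1 := by
  have h1 := above_le h hx.le
  have h2 : w (algebraMap K L x⁻¹) ≤ 1 := above_le h (by rw [map_inv₀, hx, inv_one])
  have hx0 : x ≠ 0 := by
    rintro rfl
    rw [map_zero] at hx
    exact zero_ne_one hx
  have h3 : w (algebraMap K L x) * w (algebraMap K L x⁻¹) = 1 := by
    rw [← map_mul, ← map_mul, mul_inv_cancel₀ hx0, map_one, map_one]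
  have h4 : 0 ≤ w (algebraMap K L x) := apply_nonneg w _
  refine le_antisymm h1 ?_
  calc 1 = w (algebraMap K L x) * w (algebraMap K L x⁻¹) := h3.symm
    _ ≤ w (algebraMap K L x) * 1 := mul_le_mul_of_nonneg_left h2 h4
    _ = _ := mul_one _

private theorem vab_unif_ne {ϖ : K} (hϖ : Unif v ϖ) : ϖ ≠ 0 := by
  rintro rfl
  unfold Unif at hϖ
  rw [map_zero] at hϖ
  exact WithZero.exp_ne_zero hϖ.symm

theorem above_lt (h : Above v w) {ϖ : K} (hϖ : Unif v ϖ) {x : K} (hx : v.valuation K x < 1) :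
    w (algebraMap K L x) ≤ w (algebraMap K L ϖ) := by
  have h0 := vab_unif_ne hϖ
  have h1 : v.valuation K x ≤ WithZero.exp (-1 : ℤ) := by
    rw [← WithZero.lt_mul_exp_iff_le WithZero.exp_ne_zero, ← WithZero.exp_add]
    simpa using hx
  have h2 : v.valuation K (x / ϖ) ≤ 1 := by
    rw [map_div₀, hϖ]
    exact div_le_one_of_le₀ h1 zero_le'
  have h3 := above_le h h2
  have h4 : w (algebraMap K L x) = w (algebraMap K L (x / ϖ)) * w (algebraMap K L ϖ) := by
    rw [← map_mul, ← map_mul, div_mul_cancel₀ x h0]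
  rw [h4]
  exact mul_le_of_le_one_left (apply_nonneg w _) h3

theorem above_unif (h : Above v w) {ϖ : K} (hϖ : Unif v ϖ) :
    0 < w (algebraMap K L ϖ) ∧ w (algebraMap K L ϖ) < 1 := by
  have h0 := vab_unif_ne hϖ
  have h1 : v.valuation K ϖ < 1 := by
    rw [hϖ, ← WithZero.exp_zero, WithZero.exp_lt_exp]
    norm_num
  refine ⟨FinitePlace.pos_iff.2 ((map_ne_zero (algebraMap K L)).2 h0), ?_⟩
  obtain ⟨n, hn, hn'⟩ := vab_frac h h1.le
  rw [hn', vab_lt, vab_mem h]
  exact (v.valuation_lt_one_iff_mem (K := K) n).1 (by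
    change v.valuation K (n : K) < 1
    rw [hn]
    exact h1)

theorem above_exp (h : Above v w) {ϖ : K} (hϖ : Unif v ϖ) {x : K} {n : ℕ}
    (hx : v.valuation K x = WithZero.exp (-(n : ℤ))) :
    w (algebraMap K L x) = w (algebraMap K L ϖ) ^ n := by
  have h0 := vab_unif_ne hϖ
  have h1 : v.valuation K (x / ϖ ^ n) = 1 := by
    rw [map_div₀, map_pow, hϖ, hx, ← WithZero.exp_nsmul]
    simp
  have h2 := above_eq h h1
  have h3 : w (algebraMap K L x) = w (algebraMap K L (x / ϖ ^ n)) * w (algebraMap K L ϖ) ^ n := by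
    rw [← map_pow, ← map_pow, ← map_mul, ← map_mul, div_mul_cancel₀ x (pow_ne_zero n h0)]
  rw [h3, h2, one_mul]

theorem exists_unif (v : HeightOneSpectrum (𝓞 K)) : ∃ ϖ : K, Unif v ϖ :=
  v.valuation_exists_uniformizer K

theorem exists_frac (w : FinitePlace L) {x : L} (hx : w x ≤ 1) :
    ∃ a b : 𝓞 L, w (b : L) = 1 ∧ x = (a : L) / (b : L) := by
  have h1 : w.maximalIdeal.valuation L x ≤ 1 := by
    rw [← FinitePlace.norm_embedding_eq w, FinitePlace.norm_embedding'] at hx
    have h2 := WithZeroMulInt.toNNReal_le_one_iff (m := w.maximalIdeal.valuation L x)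
      (HeightOneSpectrum.one_lt_absNorm_nnreal w.maximalIdeal)
    exact h2.1 (by exact_mod_cast hx)
  obtain ⟨n, ⟨d, hd⟩, hnd⟩ := w.maximalIdeal.exists_primeCompl_mul_eq_of_integer x h1
  have hd1 : w (d : L) = 1 := (vab_eq w d).2 hd
  refine ⟨n, d, hd1, ?_⟩
  have hd0 : (d : L) ≠ 0 := by
    intro h0
    rw [h0, map_zero] at hd1
    exact zero_ne_one hd1
  rw [eq_div_iff hd0]
  exact hnd

theorem exists_above (v : HeightOneSpectrum (𝓞 K)) : ∃ w : FinitePlace L, Above v w := by
  have hv := v.isMaximal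
  obtain ⟨Q, hQ, hQv⟩ := Ideal.exists_ideal_over_maximal_of_isIntegral (S := 𝓞 L) v.asIdeal (by
    rw [(RingHom.injective_iff_ker_eq_bot _).1 (FaithfulSMul.algebraMap_injective (𝓞 K) (𝓞 L))]
    exact bot_le)
  have hne : Q ≠ ⊥ := by
    rintro rfl
    apply v.ne_bot
    rw [← hQv, ← RingHom.ker_eq_comap_bot]
    exact (RingHom.injective_iff_ker_eq_bot _).1 (FaithfulSMul.algebraMap_injective (𝓞 K) (𝓞 L))
  refine ⟨FinitePlace.mk ⟨Q, hQ.isPrime, hne⟩, ?_⟩
  unfold Above
  rw [FinitePlace.maximalIdeal_mk]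
  exact hQv

end LEH
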