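/-
LH/Cdb (S-M)  MP_022f22_nt, Lehmer project, table modleh. Paper proof: /team-store/lehmer_proof.md
Elementary properties of the chordal distance cd w x y = w(x-y)/(max(w x)1 * max(w y)1) and cdi w x = 1/max(w x)1.
 * nonneg, pos, comm: obvious (AbsoluteValue).  cd_le_one: w(x-y) <= max(w x)(w y) <= the product of the two maxima (both >= 1).
 * cd_ultra: the identities (x-z) = (y-z)+(x-y) and (x-z)y = (y-z)x+(x-y)z give
   w(x-z) * max(w y)1 <= max( w(y-z)*max(w x)1 , w(x-y)*max(w z)1 ); divide by the product of the three maxima.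
 * cdi_ultra: cdi w x <= max (cd w x y)(cdi w y): from 1*y = x*1 - (x-y) and 1*1 ...: max(w y)1 <= max( w(x-y) , max(w x)1 )
   [w y <= max(w x)(w(x-y))]; divide by the product max(w x)1*max(w y)1.  NOTE the first term needs 1 <= max(w y)1.
 * cd_inv: x,y nonzero: w(x^-1-y^-1) = w(x-y)/(w x w y) and max(w x^-1)1 = max(w x)1/w x.
 * cd_of_le: all maxima are 1.  cd_of_lt: w x <= 1 < w y gives w(x-y) = w y (nonarchimedean, strict), so the quotient is 1.
 * cd_map: clear.
-/
import Mathlib
import Pool.Agent.Work.MP_022f22_nt.LH.Defs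

open NumberField IsDedekindDomain Polynomial Height Filter Topology

namespace LEH

variable {F : Type*} [Field F] (w : AbsoluteValue F ℝ)

private theorem M_pos (x : F) : 0 < max (w x) 1 := lt_of_lt_of_le one_pos (le_max_right _ _)

private theorem w_sub_le (hw : IsNonarchimedean w) (x y : F) : w (x - y) ≤ max (w x) (w y) := by
  have h := hw x (-y)
  rwa [← sub_eq_add_neg, w.map_neg] at h

theorem cd_nonneg (x y : F) : 0 ≤ cd w x y := by
  exact div_nonneg (w.nonneg _) (mul_pos (M_pos w x) (M_pos w y)).le

theorem cd_pos {x y : F} (h : x ≠ y) : 0 < cd w x y := by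
  exact div_pos (w.pos (sub_ne_zero.mpr h)) (mul_pos (M_pos w x) (M_pos w y))

theorem cd_self (x : F) : cd w x x = 0 := by
  simp [cd]

theorem cd_comm (x y : F) : cd w x y = cd w y x := by
  unfold cd
  rw [w.map_sub, mul_comm]

theorem cd_le_one (hw : IsNonarchimedean w) (x y : F) : cd w x y ≤ 1 := by
  unfold cd
  rw [div_le_one (mul_pos (M_pos w x) (M_pos w y))]
  have hx : (1 : ℝ) ≤ max (w x) 1 := le_max_right _ _
  have hy : (1 : ℝ) ≤ max (w y) 1 := le_max_right _ _
  have hx' : w x ≤ max (w x) 1 := le_max_left _ _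
  have hy' : w y ≤ max (w y) 1 := le_max_left _ _
  refine (w_sub_le w hw x y).trans (max_le ?_ ?_)
  · nlinarith
  · nlinarith

theorem cd_ultra (hw : IsNonarchimedean w) (x y z : F) :
    cd w x z ≤ max (cd w x y) (cd w y z) := by
  have hX := M_pos w x
  have hY := M_pos w y
  have hZ := M_pos w z
  have key : w (x - z) * max (w y) 1 ≤
      max (w (x - y) * max (w z) 1) (w (y - z) * max (w x) 1) := by
    rcases le_total (w y) 1 with hy | hy
    · rw [max_eq_right hy, mul_one]
      have h1 : x - z = (x - y) + (y - z) := by ring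
      rw [h1]
      refine (hw _ _).trans (max_le_max ?_ ?_)
      · exact le_mul_of_one_le_right (w.nonneg _) (le_max_right _ _)
      · exact le_mul_of_one_le_right (w.nonneg _) (le_max_right _ _)
    · rw [max_eq_left hy]
      have h1 : (x - z) * y = (x - y) * z + (y - z) * x := by ring
      rw [← w.map_mul, h1]
      refine (hw _ _).trans (max_le_max ?_ ?_)
      · rw [w.map_mul]
        exact mul_le_mul_of_nonneg_left (le_max_left _ _) (w.nonneg _)
      · rw [w.map_mul]
        exact mul_le_mul_of_nonneg_left (le_max_left _ _) (w.nonneg _)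
  have e1 : cd w x z = w (x - z) * max (w y) 1 / (max (w x) 1 * max (w y) 1 * max (w z) 1) := by
    unfold cd
    field_simp
  have e2 : cd w x y = w (x - y) * max (w z) 1 / (max (w x) 1 * max (w y) 1 * max (w z) 1) := by
    unfold cd
    field_simp
  have e3 : cd w y z = w (y - z) * max (w x) 1 / (max (w x) 1 * max (w y) 1 * max (w z) 1) := by
    unfold cd
    field_simp
  have hP : 0 < max (w x) 1 * max (w y) 1 * max (w z) 1 := mul_pos (mul_pos hX hY) hZ
  rcases le_max_iff.mp key with h | h
  · refine le_trans ?_ (le_max_left _ _)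
    rw [e1, e2]
    exact div_le_div_of_nonneg_right h hP.le
  · refine le_trans ?_ (le_max_right _ _)
    rw [e1, e3]
    exact div_le_div_of_nonneg_right h hP.le

theorem cdi_pos (x : F) : 0 < cdi w x := by
  exact div_pos one_pos (M_pos w x)

theorem cdi_le_one (x : F) : cdi w x ≤ 1 := by
  unfold cdi
  rw [div_le_one (M_pos w x)]
  exact le_max_right _ _

theorem cdi_ultra (hw : IsNonarchimedean w) (x y : F) :
    cdi w x ≤ max (cd w x y) (cdi w y) := by
  have hX := M_pos w x
  have hY := M_pos w y
  have key : max (w y) 1 ≤ max (w (x - y)) (max (w x) 1) := by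
    refine max_le ?_ ((le_max_right _ _).trans (le_max_right _ _))
    have h1 : y = x - (x - y) := by ring
    have h2 := w_sub_le w hw x (x - y)
    rw [← h1] at h2
    refine h2.trans (max_le ((le_max_left _ _).trans (le_max_right _ _)) (le_max_left _ _))
  have e1 : cdi w x = max (w y) 1 / (max (w x) 1 * max (w y) 1) := by
    unfold cdi
    field_simp
  have e3 : cdi w y = max (w x) 1 / (max (w x) 1 * max (w y) 1) := by
    unfold cdi
    field_simp
  have hP : 0 < max (w x) 1 * max (w y) 1 := mul_pos hX hY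
  rcases le_max_iff.mp key with h | h
  · refine le_trans ?_ (le_max_left _ _)
    rw [e1]
    exact div_le_div_of_nonneg_right h hP.le
  · refine le_trans ?_ (le_max_right _ _)
    rw [e1, e3]
    exact div_le_div_of_nonneg_right h hP.le

private theorem M_inv {x : F} (hx : x ≠ 0) : max (w x⁻¹) 1 = max (w x) 1 / w x := by
  have h0 : 0 < w x := w.pos hx
  rw [map_inv₀]
  rcases le_total (w x) 1 with h | h
  · rw [max_eq_right h, max_eq_left ((one_le_inv₀ h0).mpr h), one_div]
  · rw [max_eq_left h, max_eq_right (inv_le_one_of_one_le₀ h), div_self h0.ne']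

theorem cd_inv {x y : F} (hx : x ≠ 0) (hy : y ≠ 0) : cd w x⁻¹ y⁻¹ = cd w x y := by
  have hX := M_pos w x
  have hY := M_pos w y
  have h0 : 0 < w x := w.pos hx
  have h1 : 0 < w y := w.pos hy
  have e : w (x⁻¹ - y⁻¹) = w (x - y) / (w x * w y) := by
    have h2 : x⁻¹ - y⁻¹ = (y - x) / (x * y) := by
      field_simp
    rw [h2, map_div₀, w.map_mul, w.map_sub]
  unfold cd
  rw [e, M_inv w hx, M_inv w hy]
  field_simp

theorem cd_of_le {x y : F} (hx : w x ≤ 1) (hy : w y ≤ 1) : cd w x y = w (x - y) := by
  unfold cd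
  rw [max_eq_right hx, max_eq_right hy, one_mul, div_one]

theorem cd_of_lt (hw : IsNonarchimedean w) {x y : F} (hx : w x ≤ 1) (hy : 1 < w y) :
    cd w x y = 1 := by
  have h1 : w (x - y) ≤ w y := (w_sub_le w hw x y).trans (max_le (hx.trans hy.le) le_rfl)
  have h2 : w y ≤ w (x - y) := by
    have h3 : y = x - (x - y) := by ring
    have h4 := w_sub_le w hw x (x - y)
    rw [← h3] at h4
    rcases le_max_iff.mp h4 with h | h
    · exact absurd (h.trans hx) (not_le.mpr hy)
    · exact h
  have h5 : w (x - y) = w y := le_antisymm h1 h2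
  unfold cd
  rw [max_eq_right hx, max_eq_left hy.le, one_mul, h5, div_self (by positivity)]

theorem cd_map (σ : F →+* F) (hσ : ∀ x, w (σ x) = w x) (x y : F) :
    cd w (σ x) (σ y) = cd w x y := by
  unfold cd
  rw [← map_sub, hσ, hσ, hσ]

end LEH
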