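/-
LH/Pmp (M)  MP_022f22_nt, Lehmer project, table modleh. Paper proof: /team-store/lehmer_proof.md
The power map contracts.  Q = p^m, m >= 1, w(p) <= rho, nonarchimedean.
(1) for w x <= 1, w y <= 1: w(x^Q - y^Q) <= max (rho * w(x-y)) (w(x-y)^Q).
    Proof: h = x - y; x^Q - y^Q = (y+h)^Q - y^Q = h^Q + sum_{0<i<Q} C(Q,i) y^(Q-i) h^i; p divides C(Q,i) for 0<i<Q (Nat.Prime.dvd_choose_pow),
    so w(C(Q,i)) <= w(p) <= rho and each such term is <= rho * w h (w h <= 1, i >= 1).
(2) cd w (x^Q)(y^Q) <= max (rho * cd w x y)(cd w x y ^ Q) for all x y.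
    Proof: both w <= 1: (1) and cd_of_le.  Both w > 1: invert (cd_inv, note (x^-1)^Q = (x^Q)^-1).  One w <= 1, the other > 1: cd w x y = 1
    (cd_of_lt, cd_comm), the right side is >= 1 and the left side is <= 1 (cd_le_one).
-/
import Mathlib
import Pool.Agent.Work.MP_022f22_nt.LH.Defs
import Pool.Agent.Work.MP_022f22_nt.LH.Cdb

open NumberField IsDedekindDomain Polynomial Height Filter Topology

namespace LEH

theorem pow_contr_int {L : Type*} [Field L] {w : AbsoluteValue L ℝ} (hw : IsNonarchimedean w)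
    {ρ : ℝ} {p m : ℕ} (hp : p.Prime) (hm : 0 < m) (hρ : 0 < ρ) (hc : w (p : L) ≤ ρ) {x y : L}
    (hx : w x ≤ 1) (hy : w y ≤ 1) :
    w (x ^ (p ^ m) - y ^ (p ^ m)) ≤ max (ρ * w (x - y)) (w (x - y) ^ (p ^ m)) := by
  -- naturals have absolute value at most one
  have hnat : ∀ n : ℕ, w (n : L) ≤ 1 := by
    intro n
    induction n with
    | zero => simp
    | succ n ih =>
      rw [Nat.cast_succ]
      refine (hw _ _).trans (max_le ih ?_)
      simp
  have hh : w (x - y) ≤ 1 := by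
    have h1 := hw x (-y)
    rw [w.map_neg, ← sub_eq_add_neg] at h1
    exact h1.trans (max_le hx hy)
  set h := x - y with hhdef
  have hxy : x = h + y := by rw [hhdef]; ring
  have hQ : 0 < p ^ m := pow_pos hp.pos m
  have hexp : x ^ (p ^ m) - y ^ (p ^ m) =
      ∑ i ∈ Finset.Ico 1 (p ^ m + 1), h ^ i * y ^ (p ^ m - i) * ((p ^ m).choose i : L) := by
    rw [hxy, add_pow, Finset.range_eq_Ico, Finset.sum_eq_sum_Ico_succ_bot (by omega)]
    simp
  rw [hexp]
  obtain ⟨i, hi, hle⟩ := IsNonarchimedean.finset_image_add_of_nonempty hw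
    (fun i => h ^ i * y ^ (p ^ m - i) * ((p ^ m).choose i : L))
    (t := Finset.Ico 1 (p ^ m + 1)) ⟨1, by simp; omega⟩
  refine hle.trans ?_
  rw [Finset.mem_Ico] at hi
  have h0 := w.nonneg h
  have hyk : w y ^ (p ^ m - i) ≤ 1 := pow_le_one₀ (w.nonneg _) hy
  have hyk0 : 0 ≤ w y ^ (p ^ m - i) := pow_nonneg (w.nonneg _) _
  simp only [map_mul, map_pow]
  rcases Nat.lt_or_ge i (p ^ m) with hlt | hge
  · refine le_max_of_le_left ?_
    have hdvd : p ∣ (p ^ m).choose i := hp.dvd_choose_pow (by omega) (by omega)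
    obtain ⟨c, hcc⟩ := hdvd
    have hch : w ((p ^ m).choose i : L) ≤ ρ := by
      rw [hcc, Nat.cast_mul, map_mul]
      calc w (p : L) * w (c : L) ≤ ρ * 1 :=
            mul_le_mul hc (hnat c) (w.nonneg _) hρ.le
        _ = ρ := mul_one _
    have hhi : w h ^ i ≤ w h := by
      calc w h ^ i ≤ w h ^ 1 := pow_le_pow_of_le_one h0 hh hi.1
        _ = w h := pow_one _
    calc w h ^ i * w y ^ (p ^ m - i) * w ((p ^ m).choose i : L)
        ≤ (w h * 1) * ρ := by
          refine mul_le_mul (mul_le_mul hhi hyk hyk0 h0) hch (w.nonneg _) ?_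
          rw [mul_one]; exact h0
      _ = ρ * w h := by ring
  · have hiQ : i = p ^ m := by omega
    refine le_max_of_le_right ?_
    rw [hiQ]
    simp

theorem pow_contr {L : Type*} [Field L] {w : AbsoluteValue L ℝ} (hw : IsNonarchimedean w)
    {ρ : ℝ} {p m : ℕ} (hp : p.Prime) (hm : 0 < m) (hρ : 0 < ρ) (hc : w (p : L) ≤ ρ) (x y : L) :
    cd w (x ^ (p ^ m)) (y ^ (p ^ m)) ≤ max (ρ * cd w x y) (cd w x y ^ (p ^ m)) := by
  have hQ : p ^ m ≠ 0 := (pow_pos hp.pos m).ne'
  have hmix : ∀ {a b : L}, w a ≤ 1 → 1 < w b →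
      cd w (a ^ (p ^ m)) (b ^ (p ^ m)) ≤ max (ρ * cd w a b) (cd w a b ^ (p ^ m)) := by
    intro a b ha hb
    rw [cd_of_lt w hw ha hb, one_pow]
    exact (cd_le_one w hw _ _).trans (le_max_right _ _)
  have hint : ∀ {a b : L}, w a ≤ 1 → w b ≤ 1 →
      cd w (a ^ (p ^ m)) (b ^ (p ^ m)) ≤ max (ρ * cd w a b) (cd w a b ^ (p ^ m)) := by
    intro a b ha hb
    rw [cd_of_le w ha hb, cd_of_le w (by rw [map_pow]; exact pow_le_one₀ (w.nonneg _) ha)
      (by rw [map_pow]; exact pow_le_one₀ (w.nonneg _) hb)]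
    exact pow_contr_int hw hp hm hρ hc ha hb
  rcases le_or_gt (w x) 1 with hx | hx
  · rcases le_or_gt (w y) 1 with hy | hy
    · exact hint hx hy
    · exact hmix hx hy
  · rcases le_or_gt (w y) 1 with hy | hy
    · rw [cd_comm w (x ^ _), cd_comm w x]
      exact hmix hy hx
    · have hx0 : x ≠ 0 := by
        rintro rfl
        simp at hx
        linarith
      have hy0 : y ≠ 0 := by
        rintro rfl
        simp at hy
        linarith
      rw [← cd_inv w (pow_ne_zero _ hx0) (pow_ne_zero _ hy0), ← cd_inv w hx0 hy0, ← inv_pow,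
        ← inv_pow]
      refine hint ?_ ?_
      · rw [map_inv₀]; exact inv_le_one_of_one_le₀ hx.le
      · rw [map_inv₀]; exact inv_le_one_of_one_le₀ hy.le

end LEH
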