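/-
LH/Dpi (S-M)  MP_022f22_nt, Lehmer project, table modleh. Paper proof: /team-store/lehmer_proof.md
Duplication identities.  R commutative ring, W over R with W.Δ a unit.
dup_ident: from WeierstrassCurve.addSubMapCoeff_condition (Mathlib, AddSubMap.lean; needs IsElliptic, i.e. IsUnit W.Δ) at the vector ![x^2, 2xz, z^2]: the three polynomials addSubMap evaluate to
dupA W x z, dupB W x z, (2xz)^2 - 4x^2z^2 = 0; so with i = 0: g1 dupA + g2 dupB = (x^2)^4 = x^8 and i = 2: g3 dupA + g4 dupB = z^8.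
dup_good: w nonarchimedean on a field F, b_i integral, w Δ = 1: max (w dupA)(w dupB) = (max (w x)(w z))^4.  <= : all terms of the forms have w <= max^4 (integers have w <= 1).
>= : the cofactors g_i of dup_ident are (evaluations of addSubMapCoeff)*Δ^-1, i.e. forms of degree 4 in x, z with coefficients polynomials in the b_i with integer coefficients times Δ^-1,
so w(g_i) <= max^4; hence max^8 <= max^4 * max (w dupA)(w dupB).  (For the proof write the cofactors explicitly by unfolding addSubMapCoeff, or prove a bound for w of an evaluation.)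
dup_ne: over a field (or reduced ring) with Δ != 0: (x,z) != (0,0) implies (dupA, dupB) != (0,0).
-/
import Mathlib
import Pool.Agent.Work.MP_022f22_nt.LH.Defs

open NumberField IsDedekindDomain Polynomial Height Filter Topology

namespace LEH

/-- first explicit cofactor -/
private def cf1 {R : Type*} [CommRing R] (W : WeierstrassCurve R) (x z : R) : R :=
  (-W.b₂ ^ 2 * W.b₈ + 9 * W.b₂ * W.b₄ * W.b₆ - 8 * W.b₄ ^ 3 - 27 * W.b₆ ^ 2) * (x ^ 2) ^ 2 +
    (2 * W.b₂ * W.b₄ * W.b₈ - 2 * W.b₄ ^ 2 * W.b₆ - 10 * W.b₆ * W.b₈) * x ^ 2 * (2 * x * z) +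
    (-W.b₂ * W.b₆ * W.b₈ + W.b₄ * W.b₆ ^ 2) * x ^ 2 * z ^ 2 +
    (3 * W.b₄ ^ 2 * W.b₈ - 3 * W.b₄ * W.b₆ ^ 2) * (2 * x * z) ^ 2 +
    (3 * W.b₄ * W.b₆ * W.b₈ - 3 * W.b₆ ^ 3) * (2 * x * z) * z ^ 2

/-- second explicit cofactor -/
private def cf2 {R : Type*} [CommRing R] (W : WeierstrassCurve R) (x z : R) : R :=
  (-W.b₂ * W.b₄ * W.b₈ + W.b₄ ^ 2 * W.b₆ + 5 * W.b₆ * W.b₈) * (x ^ 2) ^ 2 +
    (2 * W.b₂ * W.b₆ * W.b₈ - 2 * W.b₄ * W.b₆ ^ 2 - 10 * W.b₈ ^ 2) * x ^ 2 * (2 * x * z) +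
    (-W.b₂ * W.b₈ ^ 2 + W.b₄ * W.b₆ * W.b₈) * x ^ 2 * z ^ 2 +
    (3 * W.b₄ * W.b₆ * W.b₈ - 3 * W.b₆ ^ 3) * (2 * x * z) ^ 2 +
    (3 * W.b₄ * W.b₈ ^ 2 - 3 * W.b₆ ^ 2 * W.b₈) * (2 * x * z) * z ^ 2

/-- third explicit cofactor -/
private def cf3 {R : Type*} [CommRing R] (W : WeierstrassCurve R) (x z : R) : R :=
  -(12 * (2 * x * z) ^ 2) - 4 * W.b₂ * (2 * x * z) * z ^ 2 +
    (W.b₂ ^ 2 - 32 * W.b₄) * (z ^ 2) ^ 2

/-- fourth explicit cofactor -/
private def cf4 {R : Type*} [CommRing R] (W : WeierstrassCurve R) (x z : R) : R :=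
  6 * x ^ 2 * (2 * x * z) - W.b₂ * x ^ 2 * z ^ 2 - 5 * W.b₄ * (2 * x * z) * z ^ 2 +
    (W.b₂ * W.b₄ - 27 * W.b₆) * (z ^ 2) ^ 2

private lemma cf12 {R : Type*} [CommRing R] (W : WeierstrassCurve R) (x z : R) :
    cf1 W x z * dupA W x z + cf2 W x z * dupB W x z = W.Δ * x ^ 8 := by
  have h := W.b_relation
  simp only [cf1, cf2, dupA, dupB, WeierstrassCurve.Δ]
  generalize W.b₂ = b2 at *
  generalize W.b₄ = b4 at *
  generalize W.b₆ = b6 at *
  generalize W.b₈ = b8 at *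
  grind

private lemma cf34 {R : Type*} [CommRing R] (W : WeierstrassCurve R) (x z : R) :
    cf3 W x z * dupA W x z + cf4 W x z * dupB W x z = W.Δ * z ^ 8 := by
  have h := W.b_relation
  simp only [cf3, cf4, dupA, dupB, WeierstrassCurve.Δ]
  generalize W.b₂ = b2 at *
  generalize W.b₄ = b4 at *
  generalize W.b₆ = b6 at *
  generalize W.b₈ = b8 at *
  grind

theorem dup_ident {R : Type*} [CommRing R] (W : WeierstrassCurve R) (hΔ : IsUnit W.Δ) (x z : R) :
    ∃ g1 g2 g3 g4 : R, g1 * dupA W x z + g2 * dupB W x z = x ^ 8 ∧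
      g3 * dupA W x z + g4 * dupB W x z = z ^ 8 := by
  obtain ⟨u, hu⟩ := hΔ
  have h1 := cf12 W x z
  have h2 := cf34 W x z
  rw [← hu] at h1 h2
  refine ⟨(↑u⁻¹ : R) * cf1 W x z, (↑u⁻¹ : R) * cf2 W x z, (↑u⁻¹ : R) * cf3 W x z,
    (↑u⁻¹ : R) * cf4 W x z, ?_, ?_⟩
  · rw [mul_assoc, mul_assoc, ← mul_add, h1, ← mul_assoc, Units.inv_mul, one_mul]
  · rw [mul_assoc, mul_assoc, ← mul_add, h2, ← mul_assoc, Units.inv_mul, one_mul]

/-- the valuation ring of a nonarchimedean absolute value -/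
private def vr {F : Type*} [Field F] (w : AbsoluteValue F ℝ) (hw : IsNonarchimedean w) :
    Subring F where
  carrier := {a | w a ≤ 1}
  mul_mem' := by
    intro a b ha hb
    simp only [Set.mem_setOf_eq, map_mul] at *
    exact mul_le_one₀ ha (w.nonneg b) hb
  one_mem' := by simp
  add_mem' := by
    intro a b ha hb
    simp only [Set.mem_setOf_eq] at *
    exact (hw a b).trans (max_le ha hb)
  zero_mem' := by simp
  neg_mem' := by
    intro a ha
    simpa using ha

private lemma dup_hom {F : Type*} [Field F] (W : WeierstrassCurve F) (c x z : F) :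
    dupA W (c * x) (c * z) = c ^ 4 * dupA W x z ∧
      dupB W (c * x) (c * z) = c ^ 4 * dupB W x z := by
  constructor
  · simp only [dupA]; ring
  · simp only [dupB]; ring

private lemma dup_core {F : Type*} [Field F] (W : WeierstrassCurve F) (w : AbsoluteValue F ℝ)
    (hw : IsNonarchimedean w) (h2 : w W.b₂ ≤ 1) (h4 : w W.b₄ ≤ 1) (h6 : w W.b₆ ≤ 1)
    (h8 : w W.b₈ ≤ 1) (hΔ : w W.Δ = 1) (x z : F) (hx : w x ≤ 1) (hz : w z ≤ 1)
    (h : x = 1 ∨ z = 1) :
    max (w (dupA W x z)) (w (dupB W x z)) = 1 := by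
  have m2 : W.b₂ ∈ vr w hw := h2
  have m4 : W.b₄ ∈ vr w hw := h4
  have m6 : W.b₆ ∈ vr w hw := h6
  have m8 : W.b₈ ∈ vr w hw := h8
  have mx : x ∈ vr w hw := hx
  have mz : z ∈ vr w hw := hz
  have n2 : (2 : F) ∈ vr w hw := ofNat_mem _ 2
  have n3 : (3 : F) ∈ vr w hw := ofNat_mem _ 3
  have n4 : (4 : F) ∈ vr w hw := ofNat_mem _ 4
  have n5 : (5 : F) ∈ vr w hw := ofNat_mem _ 5
  have n6 : (6 : F) ∈ vr w hw := ofNat_mem _ 6
  have n8 : (8 : F) ∈ vr w hw := ofNat_mem _ 8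
  have n9 : (9 : F) ∈ vr w hw := ofNat_mem _ 9
  have n10 : (10 : F) ∈ vr w hw := ofNat_mem _ 10
  have n12 : (12 : F) ∈ vr w hw := ofNat_mem _ 12
  have n27 : (27 : F) ∈ vr w hw := ofNat_mem _ 27
  have n32 : (32 : F) ∈ vr w hw := ofNat_mem _ 32
  have mA : dupA W x z ∈ vr w hw := by
    unfold dupA
    repeat' first | assumption | apply add_mem | apply sub_mem | apply mul_mem | apply pow_mem | apply neg_mem
  have mB : dupB W x z ∈ vr w hw := by
    unfold dupB
    repeat' first | assumption | apply add_mem | apply sub_mem | apply mul_mem | apply pow_mem | apply neg_mem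
  have m1 : cf1 W x z ∈ vr w hw := by
    unfold cf1
    repeat' first | assumption | apply add_mem | apply sub_mem | apply mul_mem | apply pow_mem | apply neg_mem
  have m2' : cf2 W x z ∈ vr w hw := by
    unfold cf2
    repeat' first | assumption | apply add_mem | apply sub_mem | apply mul_mem | apply pow_mem | apply neg_mem
  have m3 : cf3 W x z ∈ vr w hw := by
    unfold cf3
    repeat' first | assumption | apply add_mem | apply sub_mem | apply mul_mem | apply pow_mem | apply neg_mem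
  have m4' : cf4 W x z ∈ vr w hw := by
    unfold cf4
    repeat' first | assumption | apply add_mem | apply sub_mem | apply mul_mem | apply pow_mem | apply neg_mem
  have key : ∀ a b c : F, a ∈ vr w hw → b ∈ vr w hw → w c = 1 →
      a * dupA W x z + b * dupB W x z = c →
      1 ≤ max (w (dupA W x z)) (w (dupB W x z)) := by
    intro a b c ha hb hc h
    have ha' : w a ≤ 1 := ha
    have hb' : w b ≤ 1 := hb
    have h1 : w c ≤ max (w (a * dupA W x z)) (w (b * dupB W x z)) := by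
      rw [← h]; exact hw _ _
    rw [hc, map_mul, map_mul] at h1
    refine h1.trans (max_le_max ?_ ?_)
    · exact mul_le_of_le_one_left (w.nonneg _) ha'
    · exact mul_le_of_le_one_left (w.nonneg _) hb'
  refine le_antisymm (max_le mA mB) ?_
  rcases h with h | h
  · refine key _ _ _ m1 m2' ?_ (cf12 W x z)
    rw [h]; simpa using hΔ
  · refine key _ _ _ m3 m4' ?_ (cf34 W x z)
    rw [h]; simpa using hΔ

theorem dup_good {F : Type*} [Field F] (W : WeierstrassCurve F) (w : AbsoluteValue F ℝ)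
    (hw : IsNonarchimedean w) (h2 : w W.b₂ ≤ 1) (h4 : w W.b₄ ≤ 1) (h6 : w W.b₆ ≤ 1)
    (h8 : w W.b₈ ≤ 1) (hΔ : w W.Δ = 1) (x z : F) :
    max (w (dupA W x z)) (w (dupB W x z)) = (max (w x) (w z)) ^ 4 := by
  by_cases h0 : x = 0 ∧ z = 0
  · obtain ⟨rfl, rfl⟩ := h0
    simp [dupA, dupB]
  rcases le_total (w z) (w x) with h | h
  · have hx : x ≠ 0 := by
      rintro rfl
      apply h0
      refine ⟨rfl, ?_⟩
      have : w z ≤ 0 := by simpa using h
      exact w.eq_zero.1 (le_antisymm this (w.nonneg _))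
    have hwx : 0 < w x := w.pos hx
    have h1 : w (z / x) ≤ 1 := by rw [map_div₀]; exact (div_le_one hwx).2 h
    have hc := dup_core W w hw h2 h4 h6 h8 hΔ 1 (z / x) (by simp) h1 (Or.inl rfl)
    have hh := dup_hom W x 1 (z / x)
    rw [mul_one, mul_div_cancel₀ _ hx] at hh
    rw [hh.1, hh.2, map_mul, map_mul, ← mul_max_of_nonneg _ _ (w.nonneg _), hc, mul_one, map_pow,
      max_eq_left h]
  · have hz : z ≠ 0 := by
      rintro rfl
      apply h0
      refine ⟨?_, rfl⟩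
      have : w x ≤ 0 := by simpa using h
      exact w.eq_zero.1 (le_antisymm this (w.nonneg _))
    have hwz : 0 < w z := w.pos hz
    have h1 : w (x / z) ≤ 1 := by rw [map_div₀]; exact (div_le_one hwz).2 h
    have hc := dup_core W w hw h2 h4 h6 h8 hΔ (x / z) 1 h1 (by simp) (Or.inr rfl)
    have hh := dup_hom W z (x / z) 1
    rw [mul_one, mul_div_cancel₀ _ hz] at hh
    rw [hh.1, hh.2, map_mul, map_mul, ← mul_max_of_nonneg _ _ (w.nonneg _), hc, mul_one, map_pow,
      max_eq_right h]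

theorem dup_ne {F : Type*} [Field F] (W : WeierstrassCurve F) (hΔ : W.Δ ≠ 0) {x z : F}
    (h : x ≠ 0 ∨ z ≠ 0) : dupA W x z ≠ 0 ∨ dupB W x z ≠ 0 := by
  by_contra hcon
  push Not at hcon
  obtain ⟨g1, g2, g3, g4, e1, e2⟩ := dup_ident W (Ne.isUnit hΔ) x z
  rw [hcon.1, hcon.2] at e1 e2
  simp only [mul_zero, add_zero] at e1 e2
  rcases h with h | h
  · exact h (pow_eq_zero_iff (by norm_num : (8 : ℕ) ≠ 0) |>.1 e1.symm)
  · exact h (pow_eq_zero_iff (by norm_num : (8 : ℕ) ≠ 0) |>.1 e2.symm)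

end LEH
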