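/-
LH/Dbl (M)  MP_022f22_nt, Lehmer project, table modleh. Paper proof: /team-store/lehmer_proof.md
Doubling.  For every point P of W over a field k (Δ != 0) there is c != 0 with dupA W (xRep P 0)(xRep P 1) = c * xRep(2P) 0 and dupB W (..) = c * xRep(2P) 1.
P = 0: xRep = ![1,0]: dupA = 1, dupB = 0, 2P = 0, c = 1.
P = (x,y), psi = 2y + a1x + a3 = y - negY x y.  By the equation psi^2 = 4x^3 + b2x^2 + 2b4x + b6 = dupB W x 1.
 psi = 0: 2P = 0 (add_self_of_Y_eq), dupB = 0, and dupA != 0 because (dupA, dupB) != (0,0) (dup_ne of Dpi.lean): c = dupA.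
 psi != 0: x(2P) = l^2 + a1 l - a2 - 2x, l = (3x^2+2a2x+a4-a1y)/psi (add_self_of_Y_ne, slope_of_Y_ne), and psi^2 x(2P) = dupA W x 1 by the equation (clear denominators, linear_combination); c = psi^2.
-/
import Mathlib
import Pool.Agent.Work.MP_022f22_nt.LH.Defs
import Pool.Agent.Work.MP_022f22_nt.LH.Dpi

open NumberField IsDedekindDomain Polynomial Height Filter Topology

namespace LEH

theorem dup_point {k : Type*} [Field k] [DecidableEq k] (W : WeierstrassCurve k) (hΔ : W.Δ ≠ 0)
    (P : W.toAffine.Point) :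
    ∃ c : k, c ≠ 0 ∧ dupA W (P.xRep 0) (P.xRep 1) = c * (2 • P).xRep 0 ∧
      dupB W (P.xRep 0) (P.xRep 1) = c * (2 • P).xRep 1 := by
  rw [two_nsmul]
  rcases P with _ | ⟨x, y, h⟩
  · refine ⟨1, one_ne_zero, ?_, ?_⟩
    · change dupA W 1 0 = 1 * ((0 : W.toAffine.Point) + 0).xRep 0
      rw [add_zero, WeierstrassCurve.Affine.Point.xRep_zero]
      simp [dupA]
    · change dupB W 1 0 = 1 * ((0 : W.toAffine.Point) + 0).xRep 1
      rw [add_zero, WeierstrassCurve.Affine.Point.xRep_zero]
      simp [dupB]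
  · have heq : y ^ 2 + W.a₁ * x * y + W.a₃ * y = x ^ 3 + W.a₂ * x ^ 2 + W.a₄ * x + W.a₆ :=
      (WeierstrassCurve.Affine.equation_iff x y).mp h.1
    have hB : dupB W x 1 = (2 * y + W.a₁ * x + W.a₃) ^ 2 := by
      simp only [dupB, WeierstrassCurve.b₂, WeierstrassCurve.b₄, WeierstrassCurve.b₆]
      linear_combination (-4) * heq
    rw [WeierstrassCurve.Affine.Point.xRep_some]
    by_cases hy : y = W.toAffine.negY x y
    · have hpsi : 2 * y + W.a₁ * x + W.a₃ = 0 := by
        rw [WeierstrassCurve.Affine.negY] at hy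
        linear_combination hy
      rw [WeierstrassCurve.Affine.Point.add_self_of_Y_eq hy,
        WeierstrassCurve.Affine.Point.xRep_zero]
      have hB0 : dupB W x 1 = 0 := by rw [hB, hpsi]; ring
      have hne := dup_ne W hΔ (x := x) (z := 1) (Or.inr one_ne_zero)
      refine ⟨dupA W x 1, ?_, ?_, ?_⟩
      · rcases hne with h1 | h1
        · exact h1
        · exact absurd hB0 h1
      · simp
      · simpa using hB0
    · have hpsi : 2 * y + W.a₁ * x + W.a₃ ≠ 0 := by
        intro h0
        apply hy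
        rw [WeierstrassCurve.Affine.negY]
        linear_combination h0
      rw [WeierstrassCurve.Affine.Point.add_self_of_Y_ne hy,
        WeierstrassCurve.Affine.Point.xRep_some]
      refine ⟨(2 * y + W.a₁ * x + W.a₃) ^ 2, pow_ne_zero 2 hpsi, ?_, ?_⟩
      · have hsl : W.toAffine.slope x x y y * (2 * y + W.a₁ * x + W.a₃) =
            3 * x ^ 2 + 2 * W.a₂ * x + W.a₄ - W.a₁ * y := by
          rw [WeierstrassCurve.Affine.slope_of_Y_ne rfl hy, WeierstrassCurve.Affine.negY]
          have h3 : y - (-y - W.a₁ * x - W.a₃) = 2 * y + W.a₁ * x + W.a₃ := by ring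
          rw [h3, div_mul_cancel₀ _ hpsi]
        change dupA W x 1 = (2 * y + W.a₁ * x + W.a₃) ^ 2 *
          (W.toAffine.addX x x (W.toAffine.slope x x y y))
        rw [WeierstrassCurve.Affine.addX]
        set l := W.toAffine.slope x x y y with hl
        set s := 2 * y + W.a₁ * x + W.a₃ with hs
        have h4 : s ^ 2 * (l ^ 2 + W.a₁ * l - W.a₂ - x - x) =
            (l * s) ^ 2 + W.a₁ * (l * s) * s - (W.a₂ + 2 * x) * s ^ 2 := by ring
        rw [h4, hsl, hs]
        simp only [dupA, WeierstrassCurve.b₄, WeierstrassCurve.b₆, WeierstrassCurve.b₈]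
        linear_combination (8 * x + 4 * W.a₂ + W.a₁ ^ 2) * heq
      · change dupB W x 1 = (2 * y + W.a₁ * x + W.a₃) ^ 2 * 1
        rw [hB, mul_one]

end LEH
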