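/-
LH/DgE (M)  MP_022f22_nt, Lehmer project, table modleh. Paper proof: /team-store/lehmer_proof.md
Degrees, even step.  R commutative ring, (A,B) with natDegree A <= n^2, coeff (n^2) = 1, natDegree B <= n^2 - 1, coeff (n^2-1) = n^2 (n >= 1).  Then the pair
A' = A^4 - b4 A^2B^2 - 2b6 AB^3 - b8 B^4, B' = 4A^3B + b2A^2B^2 + 2b4AB^3 + b6B^4 (dupA, dupB of W.map C at (A,B)) has natDegree A' <= (2n)^2, coeff = 1, natDegree B' <= (2n)^2-1, coeff ((2n)^2-1) = (2n)^2.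
Leading term of A' is A^4 (degree 4n^2; Polynomial.coeff_pow_of_natDegree_le), the other terms have natDegree <= 4n^2 - 2.  B': 4A^3B has natDegree <= 4n^2-1 with coefficient 4 n^2; others smaller
(natDegree <= 4n^2 - 2).  coeff_mul_of_natDegree_le.
-/
import Mathlib
import Pool.Agent.Work.MP_022f22_nt.LH.Defs

open NumberField IsDedekindDomain Polynomial Height Filter Topology

namespace LEH

private theorem dgE_mul {R : Type*} [CommRing R] {p q : R[X]} {a b c : ℕ}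
    (hp : p.natDegree ≤ a) (hq : q.natDegree ≤ b) (h : a + b ≤ c) : (p * q).natDegree ≤ c :=
  (Polynomial.natDegree_mul_le_of_le hp hq).trans h

private theorem dgE_sub {R : Type*} [CommRing R] {p q : R[X]} {a : ℕ}
    (hp : p.natDegree ≤ a) (hq : q.natDegree ≤ a) : (p - q).natDegree ≤ a :=
  (Polynomial.natDegree_sub_le_of_le hp hq).trans (by simp)

private theorem dgE_add {R : Type*} [CommRing R] {p q : R[X]} {a : ℕ}
    (hp : p.natDegree ≤ a) (hq : q.natDegree ≤ a) : (p + q).natDegree ≤ a :=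
  Polynomial.natDegree_add_le_of_degree_le hp hq

private theorem dgE_aux {R : Type*} [CommRing R] (u2 u4 u6 u8 : R) (N : ℕ) (hN : 1 ≤ N) (s : R)
    (A B : R[X]) (hA : A.natDegree ≤ N) (hA1 : A.coeff N = 1)
    (hB : B.natDegree ≤ N - 1) (hB1 : B.coeff (N - 1) = s) :
    (A ^ 4 - C u4 * A ^ 2 * B ^ 2 - 2 * C u6 * A * B ^ 3 - C u8 * B ^ 4).natDegree ≤ 4 * N ∧
    (A ^ 4 - C u4 * A ^ 2 * B ^ 2 - 2 * C u6 * A * B ^ 3 - C u8 * B ^ 4).coeff (4 * N) = 1 ∧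
    (4 * A ^ 3 * B + C u2 * A ^ 2 * B ^ 2 + 2 * C u4 * A * B ^ 3 + C u6 * B ^ 4).natDegree
      ≤ 4 * N - 1 ∧
    (4 * A ^ 3 * B + C u2 * A ^ 2 * B ^ 2 + 2 * C u4 * A * B ^ 3 + C u6 * B ^ 4).coeff (4 * N - 1)
      = 4 * s := by
  have h2 : (2 : R[X]) = C 2 := (map_ofNat C 2).symm
  have h4 : (4 : R[X]) = C 4 := (map_ofNat C 4).symm
  have hA2 : (A ^ 2).natDegree ≤ 2 * N := Polynomial.natDegree_pow_le_of_le 2 hA
  have hA3 : (A ^ 3).natDegree ≤ 3 * N := Polynomial.natDegree_pow_le_of_le 3 hA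
  have hA4 : (A ^ 4).natDegree ≤ 4 * N := Polynomial.natDegree_pow_le_of_le 4 hA
  have hB2 : (B ^ 2).natDegree ≤ 2 * (N - 1) := Polynomial.natDegree_pow_le_of_le 2 hB
  have hB3 : (B ^ 3).natDegree ≤ 3 * (N - 1) := Polynomial.natDegree_pow_le_of_le 3 hB
  have hB4 : (B ^ 4).natDegree ≤ 4 * (N - 1) := Polynomial.natDegree_pow_le_of_le 4 hB
  have t1 : ∀ u : R, (C u * A ^ 2 * B ^ 2).natDegree ≤ 4 * N - 2 := by
    intro u
    refine dgE_mul (dgE_mul (a := 0) (b := 2 * N) (by simp) hA2 le_rfl) hB2 ?_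
    omega
  have t2 : ∀ u : R, (2 * C u * A * B ^ 3).natDegree ≤ 4 * N - 2 := by
    intro u
    rw [h2]
    refine dgE_mul (dgE_mul (a := 0) (b := N) ?_ hA le_rfl) hB3 ?_
    · rw [← C_mul]; exact (Polynomial.natDegree_C _).le
    · omega
  have t3 : ∀ u : R, (C u * B ^ 4).natDegree ≤ 4 * N - 2 := by
    intro u
    refine dgE_mul (a := 0) (by simp) hB4 ?_
    omega
  have t4 : (4 * A ^ 3 * B).natDegree ≤ 4 * N - 1 := by
    rw [h4]
    refine dgE_mul (dgE_mul (a := 0) (b := 3 * N) (by simp) hA3 le_rfl) hB ?_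
    omega
  have z1 : ∀ (p : R[X]) (k : ℕ), p.natDegree ≤ 4 * N - 2 → 4 * N - 2 < k → p.coeff k = 0 :=
    fun p k hp hk => Polynomial.coeff_eq_zero_of_natDegree_lt (lt_of_le_of_lt hp hk)
  have cA4 : (A ^ 4).coeff (4 * N) = 1 := by
    rw [Polynomial.coeff_pow_of_natDegree_le hA, hA1, one_pow]
  have cA3 : (A ^ 3).coeff (3 * N) = 1 := by
    rw [Polynomial.coeff_pow_of_natDegree_le hA, hA1, one_pow]
  have cAB : (4 * A ^ 3 * B).coeff (4 * N - 1) = 4 * s := by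
    have e : 4 * N - 1 = 3 * N + (N - 1) := by omega
    rw [e, mul_assoc, h4, Polynomial.coeff_C_mul,
      Polynomial.coeff_mul_add_eq_of_natDegree_le hA3 hB, cA3, hB1, one_mul]
  refine ⟨?_, ?_, ?_, ?_⟩
  · exact dgE_sub (dgE_sub (dgE_sub hA4 ((t1 u4).trans (by omega))) ((t2 u6).trans (by omega)))
      ((t3 u8).trans (by omega))
  · rw [Polynomial.coeff_sub, Polynomial.coeff_sub, Polynomial.coeff_sub, cA4,
      z1 _ _ (t1 u4) (by omega), z1 _ _ (t2 u6) (by omega), z1 _ _ (t3 u8) (by omega)]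
    simp
  · exact dgE_add (dgE_add (dgE_add t4 ((t1 u2).trans (by omega))) ((t2 u4).trans (by omega)))
      ((t3 u6).trans (by omega))
  · rw [Polynomial.coeff_add, Polynomial.coeff_add, Polynomial.coeff_add, cAB,
      z1 _ _ (t1 u2) (by omega), z1 _ _ (t2 u4) (by omega), z1 _ _ (t3 u6) (by omega)]
    simp

theorem deg_even {R : Type*} [CommRing R] (W : WeierstrassCurve R) (n : ℕ) (hn : 1 ≤ n)
    (A B : R[X]) (hA : A.natDegree ≤ n ^ 2) (hA1 : A.coeff (n ^ 2) = 1)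
    (hB : B.natDegree ≤ n ^ 2 - 1) (hB1 : B.coeff (n ^ 2 - 1) = (n : R) ^ 2) :
    (dupA (W.map C) A B).natDegree ≤ (2 * n) ^ 2 ∧ (dupA (W.map C) A B).coeff ((2 * n) ^ 2) = 1 ∧
      (dupB (W.map C) A B).natDegree ≤ (2 * n) ^ 2 - 1 ∧
      (dupB (W.map C) A B).coeff ((2 * n) ^ 2 - 1) = ((2 * n : ℕ) : R) ^ 2 := by
  have hN : 1 ≤ n ^ 2 := Nat.one_le_pow _ _ hn
  have e : (2 * n) ^ 2 = 4 * n ^ 2 := by ring
  obtain ⟨h1, h2, h3, h4⟩ := dgE_aux W.b₂ W.b₄ W.b₆ W.b₈ (n ^ 2) hN ((n : R) ^ 2) A B hA hA1 hB hB1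
  have eA : dupA (W.map C) A B =
      A ^ 4 - C W.b₄ * A ^ 2 * B ^ 2 - 2 * C W.b₆ * A * B ^ 3 - C W.b₈ * B ^ 4 := by
    simp only [dupA, WeierstrassCurve.map_b₄, WeierstrassCurve.map_b₆, WeierstrassCurve.map_b₈]
  have eB : dupB (W.map C) A B =
      4 * A ^ 3 * B + C W.b₂ * A ^ 2 * B ^ 2 + 2 * C W.b₄ * A * B ^ 3 + C W.b₆ * B ^ 4 := by
    simp only [dupB, WeierstrassCurve.map_b₂, WeierstrassCurve.map_b₄, WeierstrassCurve.map_b₆]
  rw [e, eA, eB]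
  refine ⟨h1, h2, h3, ?_⟩
  rw [h4]
  push_cast
  ring

end LEH
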