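/-
LH/DgO (M)  MP_022f22_nt, Lehmer project, table modleh. Paper proof: /team-store/lehmer_proof.md
Degrees, odd step.  (A,B) for n >= 1 and (A',B') for n+1 as in DgE.  Z = (A B' - A' B)^2, S = 2 A A'(A B' + A' B) + b2 A A' B B' + b4 (A B' + A' B) B B' + b6 B^2 B'^2, new pair (S - X Z, Z) for 2n+1.
A B' has natDegree <= n^2 + (n+1)^2 - 1 = 2n^2+2n with coefficient (n+1)^2; A' B the same bound with coefficient n^2.  So A B' - A' B has coefficient (n+1)^2 - n^2 = 2n+1 at 2n^2+2n and Z has natDegree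
<= (2n+1)^2 - 1 = 2(2n^2+2n) with coefficient (2n+1)^2.  A B' + A' B: coefficient (n+1)^2+n^2 at 2n^2+2n; A A': natDegree <= 2n^2+2n+1, coefficient 1; so 2AA'(AB'+A'B) has natDegree <= (2n+1)^2 with coefficient
2(n^2+(n+1)^2) = 4n^2+4n+2; the other terms of S have smaller degree ((2n+1)^2 - 1 or less: AA'BB' <= 2(2n^2+2n+1) - 2 = 4n^2+4n, etc.).  X Z: coefficient (2n+1)^2 at (2n+1)^2.  Difference 1.
-/
import Mathlib
import Pool.Agent.Work.MP_022f22_nt.LH.Defs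

open NumberField IsDedekindDomain Polynomial Height Filter Topology

namespace LEH

private theorem dgO_mul {R : Type*} [CommRing R] {p q : R[X]} {a b c : ℕ}
    (hp : p.natDegree ≤ a) (hq : q.natDegree ≤ b) (h : a + b ≤ c) : (p * q).natDegree ≤ c :=
  (Polynomial.natDegree_mul_le_of_le hp hq).trans h

private theorem dgO_sub {R : Type*} [CommRing R] {p q : R[X]} {a : ℕ}
    (hp : p.natDegree ≤ a) (hq : q.natDegree ≤ a) : (p - q).natDegree ≤ a :=
  (Polynomial.natDegree_sub_le_of_le hp hq).trans (by simp)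

private theorem dgO_add {R : Type*} [CommRing R] {p q : R[X]} {a : ℕ}
    (hp : p.natDegree ≤ a) (hq : q.natDegree ≤ a) : (p + q).natDegree ≤ a :=
  Polynomial.natDegree_add_le_of_degree_le hp hq

private theorem dgO_coeff {R : Type*} [CommRing R] {p q : R[X]} {a b c : ℕ}
    (hp : p.natDegree ≤ a) (hq : q.natDegree ≤ b) (h : c = a + b) :
    (p * q).coeff c = p.coeff a * q.coeff b := by
  rw [h]; exact Polynomial.coeff_mul_add_eq_of_natDegree_le hp hq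

private theorem dgO_aux {R : Type*} [CommRing R] (u2 u4 u6 : R) (N M D : ℕ) (hN : 1 ≤ N)
    (hM : 1 ≤ M) (hD : D + 1 = N + M) (s s' : R)
    (A B A' B' : R[X]) (hA : A.natDegree ≤ N) (hA1 : A.coeff N = 1)
    (hB : B.natDegree ≤ N - 1) (hB1 : B.coeff (N - 1) = s)
    (hA' : A'.natDegree ≤ M) (hA1' : A'.coeff M = 1)
    (hB' : B'.natDegree ≤ M - 1) (hB1' : B'.coeff (M - 1) = s') (S Z : R[X])
    (hZ : Z = (A * B' - A' * B) ^ 2)
    (hS : S = 2 * (A * A') * (A * B' + A' * B) + C u2 * (A * A' * (B * B')) +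
      C u4 * ((A * B' + A' * B) * (B * B')) + C u6 * (B * B') ^ 2) :
    (S - X * Z).natDegree ≤ 2 * D + 1 ∧
      (S - X * Z).coeff (2 * D + 1) = 2 * (s' + s) - (s' - s) ^ 2 ∧
      Z.natDegree ≤ 2 * D ∧ Z.coeff (2 * D) = (s' - s) ^ 2 := by
  have h2 : (2 : R[X]) = C 2 := (map_ofNat C 2).symm
  have d1 : (A * B').natDegree ≤ D := dgO_mul hA hB' (by omega)
  have d2 : (A' * B).natDegree ≤ D := dgO_mul hA' hB (by omega)
  have c1 : (A * B').coeff D = s' := by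
    rw [dgO_coeff hA hB' (by omega), hA1, hB1', one_mul]
  have c2 : (A' * B).coeff D = s := by
    rw [dgO_coeff hA' hB (by omega), hA1', hB1, one_mul]
  have dU : (A * B' - A' * B).natDegree ≤ D := dgO_sub d1 d2
  have dV : (A * B' + A' * B).natDegree ≤ D := dgO_add d1 d2
  have cU : (A * B' - A' * B).coeff D = s' - s := by rw [Polynomial.coeff_sub, c1, c2]
  have cV : (A * B' + A' * B).coeff D = s' + s := by rw [Polynomial.coeff_add, c1, c2]
  have dZ : Z.natDegree ≤ 2 * D := by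
    rw [hZ]; exact Polynomial.natDegree_pow_le_of_le 2 dU
  have cZ : Z.coeff (2 * D) = (s' - s) ^ 2 := by
    rw [hZ, Polynomial.coeff_pow_of_natDegree_le dU, cU]
  have dAA : (A * A').natDegree ≤ D + 1 := dgO_mul hA hA' (by omega)
  have cAA : (A * A').coeff (D + 1) = 1 := by
    rw [dgO_coeff hA hA' (by omega), hA1, hA1', one_mul]
  have d2AA : (2 * (A * A')).natDegree ≤ D + 1 := by
    rw [h2]; exact dgO_mul (a := 0) (by simp) dAA (by omega)
  have c2AA : (2 * (A * A')).coeff (D + 1) = 2 := by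
    rw [h2, Polynomial.coeff_C_mul, cAA, mul_one]
  have dT1 : (2 * (A * A') * (A * B' + A' * B)).natDegree ≤ 2 * D + 1 :=
    dgO_mul d2AA dV (by omega)
  have cT1 : (2 * (A * A') * (A * B' + A' * B)).coeff (2 * D + 1) = 2 * (s' + s) := by
    rw [dgO_coeff d2AA dV (by omega), c2AA, cV]
  have dBB : (B * B').natDegree ≤ D - 1 := dgO_mul hB hB' (by omega)
  have dT2 : (C u2 * (A * A' * (B * B'))).natDegree ≤ 2 * D :=
    dgO_mul (a := 0) (by simp) (dgO_mul dAA dBB (c := 2 * D) (by omega)) (by omega)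
  have dT3 : (C u4 * ((A * B' + A' * B) * (B * B'))).natDegree ≤ 2 * D :=
    dgO_mul (a := 0) (by simp) (dgO_mul dV dBB (c := 2 * D) (by omega)) (by omega)
  have dT4 : (C u6 * (B * B') ^ 2).natDegree ≤ 2 * D :=
    dgO_mul (a := 0) (by simp) ((Polynomial.natDegree_pow_le_of_le 2 dBB).trans
      (show 2 * (D - 1) ≤ 2 * D by omega)) (by omega)
  have z1 : ∀ (p : R[X]), p.natDegree ≤ 2 * D → p.coeff (2 * D + 1) = 0 :=
    fun p hp => Polynomial.coeff_eq_zero_of_natDegree_lt (by omega)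
  have dXZ : (X * Z).natDegree ≤ 2 * D + 1 :=
    dgO_mul Polynomial.natDegree_X_le dZ (by omega)
  have cXZ : (X * Z).coeff (2 * D + 1) = (s' - s) ^ 2 := by
    rw [Polynomial.coeff_X_mul, cZ]
  refine ⟨?_, ?_, dZ, cZ⟩
  · refine dgO_sub ?_ dXZ
    rw [hS]
    exact dgO_add (dgO_add (dgO_add dT1 (dT2.trans (by omega))) (dT3.trans (by omega)))
      (dT4.trans (by omega))
  · rw [Polynomial.coeff_sub, cXZ, hS, Polynomial.coeff_add, Polynomial.coeff_add,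
      Polynomial.coeff_add, cT1, z1 _ dT2, z1 _ dT3, z1 _ dT4]
    ring

theorem deg_odd {R : Type*} [CommRing R] (W : WeierstrassCurve R) (n : ℕ) (hn : 1 ≤ n)
    (A B A' B' : R[X]) (hA : A.natDegree ≤ n ^ 2) (hA1 : A.coeff (n ^ 2) = 1)
    (hB : B.natDegree ≤ n ^ 2 - 1) (hB1 : B.coeff (n ^ 2 - 1) = (n : R) ^ 2)
    (hA' : A'.natDegree ≤ (n + 1) ^ 2) (hA1' : A'.coeff ((n + 1) ^ 2) = 1)
    (hB' : B'.natDegree ≤ (n + 1) ^ 2 - 1)
    (hB1' : B'.coeff ((n + 1) ^ 2 - 1) = ((n + 1 : ℕ) : R) ^ 2) (S Z : R[X])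
    (hZ : Z = (A * B' - A' * B) ^ 2)
    (hS : S = 2 * (A * A') * (A * B' + A' * B) + C W.b₂ * (A * A' * (B * B')) +
      C W.b₄ * ((A * B' + A' * B) * (B * B')) + C W.b₆ * (B * B') ^ 2) :
    (S - X * Z).natDegree ≤ (2 * n + 1) ^ 2 ∧ (S - X * Z).coeff ((2 * n + 1) ^ 2) = 1 ∧
      Z.natDegree ≤ (2 * n + 1) ^ 2 - 1 ∧
      Z.coeff ((2 * n + 1) ^ 2 - 1) = ((2 * n + 1 : ℕ) : R) ^ 2 := by
  have e1 : (2 * n + 1) ^ 2 = 2 * (2 * n ^ 2 + 2 * n) + 1 := by ring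
  have e2 : (2 * n + 1) ^ 2 - 1 = 2 * (2 * n ^ 2 + 2 * n) := by rw [e1]; rfl
  obtain ⟨h1, h2, h3, h4⟩ := dgO_aux W.b₂ W.b₄ W.b₆ (n ^ 2) ((n + 1) ^ 2) (2 * n ^ 2 + 2 * n)
    (Nat.one_le_pow _ _ hn) (Nat.one_le_pow _ _ (by omega)) (by ring) ((n : R) ^ 2)
    (((n + 1 : ℕ) : R) ^ 2) A B A' B' hA hA1 hB hB1 hA' hA1' hB' hB1' S Z hZ hS
  rw [e2, e1]
  refine ⟨h1, ?_, h3, ?_⟩
  · rw [h2]; push_cast; ring
  · rw [h4]; push_cast; ring

end LEH
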