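/-
LH/AdX (M)  MP_022f22_nt, Lehmer project, table modleh. Paper proof: /team-store/lehmer_proof.md
Add-sub formula for points with different x-coordinates.  P = (x1,y1), Q = (x2,y2), x1 != x2 over a field k.  Let l = (y1-y2)/(x1-x2), l' = (y1 - negY(x2,y2))/(x1-x2) (negY = -y2 - a1 x2 - a3).
x(P+Q) = l^2 + a1 l - a2 - x1 - x2, x(P-Q) = l'^2 + a1 l' - a2 - x1 - x2 (Point.add_of_X_ne, addX, slope_of_X_ne).  Claims
 (x1-x2)^2 (x(P+Q) + x(P-Q)) = 2(x1+x2) x1x2 + b2 x1x2 + b4 (x1+x2) + b6,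
 (x1-x2)^2 (x(P+Q) x(P-Q)) = x1^2x2^2 - b4 x1x2 - b6 (x1+x2) - b8,
 both follow from the two Weierstrass equations: clear denominators (field_simp), then linear_combination of the two equations (find the coefficients by grind / polyrith style computation:
 write Y_i = 2y_i + a1x_i + a3, Y_i^2 = 4x_i^3 + b2x_i^2 + 2b4x_i + b6; x(P+-Q) = ((Y1 -+ Y2)^2/(4(x1-x2)^2)) - ... in characteristic 2 avoid dividing by 2: direct linear_combination works over Z).
-/
import Mathlib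
import Pool.Agent.Work.MP_022f22_nt.LH.Defs

open NumberField IsDedekindDomain Polynomial Height Filter Topology

namespace LEH

theorem addsub_ne {k : Type*} [Field k] [DecidableEq k] (W : WeierstrassCurve k) {x1 y1 x2 y2 : k}
    (h1 : W.toAffine.Nonsingular x1 y1) (h2 : W.toAffine.Nonsingular x2 y2) (hx : x1 ≠ x2) :
    ∃ (s d ys yd : k) (hs : W.toAffine.Nonsingular s ys) (hd : W.toAffine.Nonsingular d yd),
      WeierstrassCurve.Affine.Point.some x1 y1 h1 + WeierstrassCurve.Affine.Point.some x2 y2 h2 =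
        WeierstrassCurve.Affine.Point.some s ys hs ∧
      WeierstrassCurve.Affine.Point.some x1 y1 h1 - WeierstrassCurve.Affine.Point.some x2 y2 h2 =
        WeierstrassCurve.Affine.Point.some d yd hd ∧
      (x1 - x2) ^ 2 * (s + d) = 2 * (x1 + x2) * (x1 * x2) + W.b₂ * (x1 * x2) +
        W.b₄ * (x1 + x2) + W.b₆ ∧
      (x1 - x2) ^ 2 * (s * d) = (x1 * x2) ^ 2 - W.b₄ * (x1 * x2) - W.b₆ * (x1 + x2) - W.b₈ := by
  have E1 := (WeierstrassCurve.Affine.equation_iff (W := W.toAffine) x1 y1).mp h1.1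
  have E2 := (WeierstrassCurve.Affine.equation_iff (W := W.toAffine) x2 y2).mp h2.1
  have h2' : W.toAffine.Nonsingular x2 (W.toAffine.negY x2 y2) :=
    (WeierstrassCurve.Affine.nonsingular_neg ..).mpr h2
  have hD : x1 - x2 ≠ 0 := sub_ne_zero.mpr hx
  refine ⟨_, _, _, _,
    WeierstrassCurve.Affine.nonsingular_add h1 h2 fun hxy => hx hxy.left,
    WeierstrassCurve.Affine.nonsingular_add h1 h2' fun hxy => hx hxy.left,
    WeierstrassCurve.Affine.Point.add_of_X_ne hx, ?_, ?_, ?_⟩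
  · rw [sub_eq_add_neg, WeierstrassCurve.Affine.Point.neg_some]
    exact WeierstrassCurve.Affine.Point.add_of_X_ne hx
  all_goals
    rw [WeierstrassCurve.Affine.slope_of_X_ne hx, WeierstrassCurve.Affine.slope_of_X_ne hx]
    simp only [WeierstrassCurve.Affine.addX, WeierstrassCurve.Affine.negY,
      WeierstrassCurve.b₂, WeierstrassCurve.b₄, WeierstrassCurve.b₆, WeierstrassCurve.b₈]
  all_goals
    set D := x1 - x2 with hDdef
    set l := (y1 - y2) / D with hl
    set l' := (y1 - (-y2 - W.a₁ * x2 - W.a₃)) / D with hl'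
    have el : D * l = y1 - y2 := by rw [hl]; field_simp
    have el' : D * l' = y1 + y2 + W.a₁ * x2 + W.a₃ := by rw [hl']; field_simp; ring
  · have : D ^ 2 * (l ^ 2 + W.a₁ * l - W.a₂ - x1 - x2 + (l' ^ 2 + W.a₁ * l' - W.a₂ - x1 - x2)) =
        (D * l) * (D * l + W.a₁ * D) + (D * l') * (D * l' + W.a₁ * D) -
          2 * (W.a₂ + x1 + x2) * D ^ 2 := by ring
    rw [this, el, el', hDdef]
    linear_combination 2 * E1 + 2 * E2
  · have hnn : (D * l) * (D * l') =
        D * ((x1 ^ 2 + x1 * x2 + x2 ^ 2 + W.a₂ * (x1 + x2) + W.a₄) - W.a₁ * y1) := by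
      rw [el, el', hDdef]
      linear_combination E1 - E2
    have hpp : (D * l + W.a₁ * D) * (D * l' + W.a₁ * D) =
        D * ((x1 ^ 2 + x1 * x2 + x2 ^ 2 + W.a₂ * (x1 + x2) + W.a₄) + W.a₁ * y1 +
          W.a₁ * (W.a₁ * x1 + W.a₃)) := by
      have : (D * l + W.a₁ * D) * (D * l' + W.a₁ * D) =
        (D * l) * (D * l') + W.a₁ * D * (D * l + D * l') + W.a₁ ^ 2 * D ^ 2 := by ring
      rw [this, hnn, el, el', hDdef]
      ring
    have hss : (D * l) * (D * l + W.a₁ * D) + (D * l') * (D * l' + W.a₁ * D) =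
        2 * (x1 + x2) * (x1 * x2) + (W.a₁ ^ 2 + 4 * W.a₂) * (x1 * x2) +
        (2 * W.a₄ + W.a₁ * W.a₃) * (x1 + x2) + (W.a₃ ^ 2 + 4 * W.a₆) +
          2 * (W.a₂ + x1 + x2) * D ^ 2 := by
      rw [el, el', hDdef]
      linear_combination 2 * E1 + 2 * E2
    apply mul_left_cancel₀ (pow_ne_zero 2 hD)
    have hL : D ^ 2 * (D ^ 2 * ((l ^ 2 + W.a₁ * l - W.a₂ - x1 - x2) *
        (l' ^ 2 + W.a₁ * l' - W.a₂ - x1 - x2))) =
        ((D * l) * (D * l')) * ((D * l + W.a₁ * D) * (D * l' + W.a₁ * D)) -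
        (W.a₂ + x1 + x2) * D ^ 2 * ((D * l) * (D * l + W.a₁ * D) +
          (D * l') * (D * l' + W.a₁ * D)) + (W.a₂ + x1 + x2) ^ 2 * D ^ 4 := by ring
    rw [hL, hnn, hpp, hss]
    rw [hDdef]
    linear_combination (-(W.a₁ ^ 2) * (x1 - x2) ^ 2) * E1

end LEH
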