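/-
LH/AdS (S-M)  MP_022f22_nt, Lehmer project, table modleh. Paper proof: /team-store/lehmer_proof.md
The add-sub map computes (x(P+Q), x(P-Q)) (TODO of Mathlib AddSubMap.lean).  Over a field with Δ != 0: sym2x (P+Q)(P-Q) and (addSubMap W i).eval (sym2x P Q) are proportional with factor c != 0.
Cases.  P = 0: sym2x Q (-Q) = sym2x Q Q, sym2x 0 Q = ![x,1,0] (or ![1,0,0]) and addSubMap at (x,1,0) is (x^2, 2x, 1): c = 1; similarly Q = 0 (P = (x,y): (x^2,2x,1) = sym2x P P).
P = Q = (x,y): sym2x P P = (x^2, 2x, 1), addSubMap gives (dupA x 1, dupB x 1, 4x^2-4x^2 = 0); sym2x(2P)(0) = ![u0, u1, 0] with u = xRep(2P) (compute: sym2x R 0 with xRep 0 = ![1,0]: (u0*1, u0*0+u1*1, u1*0)): dup_point.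
P = -Q: the same (sym2x 0 (2P), sym2x_comm).   x1 != x2: addsub_ne, t^2-4su = (x1-x2)^2, c with (x1-x2)^2 * sym2x = addSubMap.   If x1 = x2 then Q = +-P (Point.X_eq_iff).
Direction: addSubMap(sym2x P Q) = c * sym2x(P+Q)(P-Q), c != 0.
-/
import Mathlib
import Pool.Agent.Work.MP_022f22_nt.LH.Defs
import Pool.Agent.Work.MP_022f22_nt.LH.AdX
import Pool.Agent.Work.MP_022f22_nt.LH.Dbl

open NumberField IsDedekindDomain Polynomial Height Filter Topology

namespace LEH

private theorem ads_dbl {k : Type*} [Field k] [DecidableEq k] (W : WeierstrassCurve k)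
    (hΔ : W.Δ ≠ 0) (P : W.toAffine.Point) :
    ∃ c : k, c ≠ 0 ∧ ∀ i, (WeierstrassCurve.addSubMap W i).eval (P.sym2x P) =
      c * (2 • P).sym2x 0 i := by
  obtain ⟨c, hc, hA, hB⟩ := dup_point W hΔ P
  refine ⟨c, hc, fun i => ?_⟩
  have h0 : (2 • P).sym2x 0 = ![(2 • P).xRep 0, (2 • P).xRep 1, 0] := by
    simp [WeierstrassCurve.Affine.Point.sym2x]
  have h1 : P.sym2x P = ![P.xRep 0 * P.xRep 0, P.xRep 0 * P.xRep 1 + P.xRep 1 * P.xRep 0,
      P.xRep 1 * P.xRep 1] := rfl
  rw [h0, h1]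
  fin_cases i
  · simp only [WeierstrassCurve.addSubMap, Fin.zero_eta, Fin.isValue, Matrix.cons_val_zero]
    rw [← hA]
    simp only [dupA]
    simp
    ring
  · simp only [WeierstrassCurve.addSubMap, Fin.mk_one, Fin.isValue, Matrix.cons_val_one,
      Matrix.cons_val_zero]
    rw [← hB]
    simp only [dupB]
    simp
    ring
  · simp [WeierstrassCurve.addSubMap]
    ring

private theorem ads_zero {k : Type*} [Field k] [DecidableEq k] (W : WeierstrassCurve k)
    (Q : W.toAffine.Point) (i : Fin 3) :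
    (WeierstrassCurve.addSubMap W i).eval ((0 : W.toAffine.Point).sym2x Q) = Q.sym2x Q i := by
  have h0 : (0 : W.toAffine.Point).sym2x Q = ![Q.xRep 0, Q.xRep 1, 0] := by
    simp [WeierstrassCurve.Affine.Point.sym2x]
  have h1 : Q.sym2x Q = ![Q.xRep 0 * Q.xRep 0, Q.xRep 0 * Q.xRep 1 + Q.xRep 1 * Q.xRep 0,
      Q.xRep 1 * Q.xRep 1] := rfl
  rw [h0, h1]
  fin_cases i
  · simp [WeierstrassCurve.addSubMap]
    ring
  · simp [WeierstrassCurve.addSubMap]
    ring
  · simp [WeierstrassCurve.addSubMap]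
    ring

theorem add_sub_map {k : Type*} [Field k] [DecidableEq k] (W : WeierstrassCurve k)
    (hΔ : W.Δ ≠ 0) (P Q : W.toAffine.Point) :
    ∃ c : k, c ≠ 0 ∧ ∀ i, (WeierstrassCurve.addSubMap W i).eval (P.sym2x Q) =
      c * (P + Q).sym2x (P - Q) i := by
  by_cases hP : P = 0
  · refine ⟨1, one_ne_zero, fun i => ?_⟩
    rw [hP, ads_zero, zero_add, zero_sub, WeierstrassCurve.Affine.Point.sym2x_neg_right, one_mul]
  by_cases hQ : Q = 0
  · refine ⟨1, one_ne_zero, fun i => ?_⟩
    rw [hQ, WeierstrassCurve.Affine.Point.sym2x_comm, ads_zero, add_zero, sub_zero, one_mul]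
  by_cases hx : P = Q ∨ P = -Q
  · rcases hx with hx | hx
    · obtain ⟨c, hc, h⟩ := ads_dbl W hΔ P
      refine ⟨c, hc, fun i => ?_⟩
      rw [← hx, h i, sub_self, two_nsmul]
    · obtain ⟨c, hc, h⟩ := ads_dbl W hΔ Q
      refine ⟨c, hc, fun i => ?_⟩
      have e1 : P + Q = 0 := by rw [hx]; simp
      have e2 : P - Q = -(2 • Q) := by rw [hx, two_nsmul]; abel
      rw [e1, e2, WeierstrassCurve.Affine.Point.sym2x_neg_right,
        WeierstrassCurve.Affine.Point.sym2x_comm 0 (2 • Q), ← h i, hx,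
        WeierstrassCurve.Affine.Point.sym2x_neg_left]
  · cases P with
    | zero => exact absurd rfl hP
    | some x1 y1 h1 =>
      cases Q with
      | zero => exact absurd rfl hQ
      | some x2 y2 h2 =>
        have hne : x1 ≠ x2 := fun h => hx (WeierstrassCurve.Affine.Point.X_eq_iff.mp h)
        obtain ⟨s, d, ys, yd, hs, hd, e1, e2, e3, e4⟩ := addsub_ne W h1 h2 hne
        refine ⟨(x1 - x2) ^ 2, pow_ne_zero 2 (sub_ne_zero.mpr hne), fun i => ?_⟩
        rw [e1, e2, WeierstrassCurve.Affine.Point.sym2x_some_some,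
          WeierstrassCurve.Affine.Point.sym2x_some_some]
        fin_cases i
        · simp [WeierstrassCurve.addSubMap]
          linear_combination -e4
        · simp [WeierstrassCurve.addSubMap]
          linear_combination -e3
        · simp [WeierstrassCurve.addSubMap]
          ring

end LEH
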