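/-
LH/PtO (M)  MP_022f22_nt, Lehmer project, table modleh. Paper proof: /team-store/lehmer_proof.md
Odd step on points.  Over a field k, Δ != 0, P != 0 (x = xc P), u = xRep(nP), u' = xRep((n+1)P), (a,b) = c u, (a',b') = c' u', c, c' != 0.  Then with z = (a b' - a' b)^2,
s = 2aa'(ab'+a'b) + b2 aa'bb' + b4(ab'+a'b)bb' + b6 (bb')^2 there is c'' != 0 with s - x z = c'' xRep((2n+1)P) 0, z = c'' xRep((2n+1)P) 1.
Proof.  add_sub_map for the points (n+1)P and nP: sum (2n+1)P =: R', difference P.  sym2x((n+1)P)(nP) = (u0'u0, u0'u1+u1'u0, u1'u1) =: (S0,T0,U0); components 1 and 2 of addSubMap: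
 2TS+b2SU+b4TU+b6U^2 = e (r0*1 + r1*x), T^2-4SU = e r1*1, with r = xRep R', xRep P = ![x,1], e != 0.  Scaling: (aa', ab'+a'b, bb') = cc'(S0,T0,U0), so s = (cc')^2 e (r0 + r1 x), z = (cc')^2 e r1
 (T^2 - 4SU = (u0'u1 - u1'u0)^2).  c'' = (cc')^2 e.
-/
import Mathlib
import Pool.Agent.Work.MP_022f22_nt.LH.Defs
import Pool.Agent.Work.MP_022f22_nt.LH.AdS

open NumberField IsDedekindDomain Polynomial Height Filter Topology

namespace LEH

theorem point_odd {k : Type*} [Field k] [DecidableEq k] (W : WeierstrassCurve k) (hΔ : W.Δ ≠ 0)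
    (P : W.toAffine.Point) (hP : P ≠ 0) (n : ℕ) (a b a' b' c c' : k) (hc : c ≠ 0) (hc' : c' ≠ 0)
    (ha : a = c * (n • P).xRep 0) (hb : b = c * (n • P).xRep 1)
    (ha' : a' = c' * ((n + 1) • P).xRep 0) (hb' : b' = c' * ((n + 1) • P).xRep 1) :
    ∃ e : k, e ≠ 0 ∧
      2 * (a * a') * (a * b' + a' * b) + W.b₂ * (a * a' * (b * b')) +
        W.b₄ * ((a * b' + a' * b) * (b * b')) + W.b₆ * (b * b') ^ 2 -
        xc P * (a * b' - a' * b) ^ 2 = e * ((2 * n + 1) • P).xRep 0 ∧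
      (a * b' - a' * b) ^ 2 = e * ((2 * n + 1) • P).xRep 1 := by
  obtain ⟨e, he, hm⟩ := add_sub_map W hΔ ((n + 1) • P) (n • P)
  have hadd : (n + 1) • P + n • P = (2 * n + 1) • P := by
    rw [← add_nsmul]
    congr 1
    ring
  have hsub : (n + 1) • P - n • P = P := by
    rw [succ_nsmul, add_sub_cancel_left]
  rw [hadd, hsub] at hm
  have hp1 : P.xRep 1 = 1 := by
    cases P with
    | zero => exact absurd rfl hP
    | some x y h => simp
  have hp0 : P.xRep 0 = xc P := rfl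
  have h1 := hm 1
  have h2 := hm 2
  simp only [WeierstrassCurve.addSubMap, WeierstrassCurve.Affine.Point.sym2x, Fin.isValue,
    Matrix.cons_val_zero, Matrix.cons_val_one, Matrix.cons_val,
    map_add, map_sub, map_mul, map_pow, MvPolynomial.eval_C,
    MvPolynomial.eval_X, hp1, hp0] at h1 h2
  refine ⟨(c * c') ^ 2 * e, mul_ne_zero (pow_ne_zero _ (mul_ne_zero hc hc')) he, ?_, ?_⟩
  · rw [ha, hb, ha', hb']
    linear_combination (c * c') ^ 2 * h1 - xc P * (c * c') ^ 2 * h2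
  · rw [ha, hb, ha', hb']
    linear_combination (c * c') ^ 2 * h2

end LEH
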