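/-
LH/Mpl (M)  MP_022f22_nt, Lehmer project, table modleh. Paper proof: /team-store/lehmer_proof.md
Multiplication polynomials on the x-line, for every n >= 1 (ladder).  Statement: over any commutative ring R : Type and W over R there are A, B in R[X] with natDegree A <= n^2, coeff n^2 = 1,
natDegree B <= n^2-1, coeff = n^2 and for every field k : Type, ring hom phi : R -> k with phi(Δ) != 0, every P != 0 in (W.map phi): (A(x), B(x)) = c * xRep(nP), c != 0.
Strong induction on n.  n = 1: A = X, B = 1.  n = 2m (m >= 1): deg_even, and on points: dupA, dupB of (A(x),B(x)) = c^4 (dupA,dupB)(xRep(mP)) = c^4 c' xRep(2(mP)) (dup_point; homogeneity of degree 4),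
2 . (m . P) = (2m) . P.  n = 2m+1, m >= 1: deg_odd with (A,B) for m, (A',B') for m+1, point_odd.  Maps: (W.map C) at polynomials evaluates to W.map phi at the values
(Polynomial.eval_map, simp lemmas map_b₂ ...).
-/
import Mathlib
import Pool.Agent.Work.MP_022f22_nt.LH.Defs
import Pool.Agent.Work.MP_022f22_nt.LH.DgE
import Pool.Agent.Work.MP_022f22_nt.LH.DgO
import Pool.Agent.Work.MP_022f22_nt.LH.PtO
import Pool.Agent.Work.MP_022f22_nt.LH.Dbl

open NumberField IsDedekindDomain Polynomial Height Filter Topology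

namespace LEH

theorem exists_mulPoly {R : Type} [CommRing R] (W : WeierstrassCurve R) (n : ℕ) (hn : 1 ≤ n) :
    ∃ A B : R[X], A.natDegree ≤ n ^ 2 ∧ A.coeff (n ^ 2) = 1 ∧ B.natDegree ≤ n ^ 2 - 1 ∧
      B.coeff (n ^ 2 - 1) = (n : R) ^ 2 ∧
      ∀ (k : Type) [Field k] [DecidableEq k] (φ : R →+* k) (_ : φ W.Δ ≠ 0)
        (P : (W.map φ).toAffine.Point) (_ : P ≠ 0),
        ∃ c : k, c ≠ 0 ∧ (A.map φ).eval (xc P) = c * (n • P).xRep 0 ∧
          (B.map φ).eval (xc P) = c * (n • P).xRep 1 := by
  induction n using Nat.strong_induction_on with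
  | _ n ih =>
    rcases Nat.lt_or_ge n 2 with h2 | h2
    · obtain rfl : n = 1 := by omega
      refine ⟨X, 1, ?_, ?_, ?_, ?_, ?_⟩
      · simpa using natDegree_X_le
      · simp
      · simp
      · simp
      · intro k _ _ φ hφ P hP
        refine ⟨1, one_ne_zero, ?_, ?_⟩
        · simp [xc]
        · cases P with
          | zero => exact absurd rfl hP
          | some x y h => simp
    · obtain ⟨m, hm | hm⟩ := Nat.even_or_odd' n
      · subst hm
        obtain ⟨A, B, hA, hA1, hB, hB1, hP⟩ := ih m (by omega) (by omega)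
        obtain ⟨d1, d2, d3, d4⟩ := deg_even W m (by omega) A B hA hA1 hB hB1
        refine ⟨_, _, d1, d2, d3, d4, ?_⟩
        intro k _ _ φ hφ P hP0
        obtain ⟨c, hc, h1, h3⟩ := hP k φ hφ P hP0
        have hΔ : (W.map φ).Δ ≠ 0 := by
          rw [WeierstrassCurve.map_Δ]; exact hφ
        obtain ⟨c', hc', h4, h5⟩ := dup_point (W.map φ) hΔ (m • P)
        have e2 : (2 * m) • P = 2 • (m • P) := by rw [mul_comm, mul_smul, smul_comm]
        refine ⟨c ^ 4 * c', mul_ne_zero (pow_ne_zero _ hc) hc', ?_, ?_⟩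
        · have h6 : ((dupA (W.map C) A B).map φ).eval (xc P) =
              dupA (W.map φ) ((A.map φ).eval (xc P)) ((B.map φ).eval (xc P)) := by
            simp [dupA]
          rw [h6, h1, h3, e2, mul_assoc, ← h4]
          simp only [dupA]
          ring
        · have h6 : ((dupB (W.map C) A B).map φ).eval (xc P) =
              dupB (W.map φ) ((A.map φ).eval (xc P)) ((B.map φ).eval (xc P)) := by
            simp [dupB]
          rw [h6, h1, h3, e2, mul_assoc, ← h5]
          simp only [dupB]
          ring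
      · subst hm
        obtain ⟨A, B, hA, hA1, hB, hB1, hP⟩ := ih m (by omega) (by omega)
        obtain ⟨A', B', hA', hA1', hB', hB1', hP'⟩ := ih (m + 1) (by omega) (by omega)
        obtain ⟨d1, d2, d3, d4⟩ := deg_odd W m (by omega) A B A' B' hA hA1 hB hB1 hA' hA1' hB' hB1'
          _ _ rfl rfl
        refine ⟨_, _, d1, d2, d3, d4, ?_⟩
        intro k _ _ φ hφ P hP0
        obtain ⟨c, hc, h1, h3⟩ := hP k φ hφ P hP0
        obtain ⟨c', hc', h1', h3'⟩ := hP' k φ hφ P hP0
        have hΔ : (W.map φ).Δ ≠ 0 := by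
          rw [WeierstrassCurve.map_Δ]; exact hφ
        obtain ⟨e, he, h4, h5⟩ := point_odd (W.map φ) hΔ P hP0 m _ _ _ _ c c' hc hc' h1 h3 h1' h3'
        refine ⟨e, he, ?_, ?_⟩
        · rw [← h4]
          simp
        · rw [← h5]
          simp

end LEH
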