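/-
LH/SsB (M)  MP_022f22_nt, Lehmer project, table modleh. Paper proof: /team-store/lehmer_proof.md
Multiplication by n = power of p on the x-line of a supersingular curve in characteristic p.  F algebraically closed of characteristic p, W over F with Δ != 0, no nonzero point killed by n, n^2 = p^m (m >= 1).
A, B in F[X]: natDegree A <= n^2, coeff n^2 = 1, natDegree B <= n^2 - 1, and (A(x),B(x)) = c xRep(nP), c != 0, for every P != 0, x = xc P.
(1) every x in F is xc of a point: y^2 + a1xy + a3y = x^3+... has a root y (IsAlgClosed), nonsingular as Δ != 0 (WeierstrassCurve.Affine.nonsingular / equation_iff_nonsingular_of_Δ_ne_zero).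
(2) B has no root: B(x) = c xRep(nP) 1 = 0 would give nP = 0.  So B is a constant (IsAlgClosed.exists_root...), nonzero: B = C c0.
(3) A(x)/c0 = x(nP).  Injectivity: A(x1) = A(x2) gives x(nP1) = x(nP2), nP1 = +-nP2, n(P1 -+ P2) = 0, P1 = +-P2, x1 = x2.  A is monic of degree N = n^2 >= 1 (natDegree = n^2), it has a root r, which is
the only root, so A = (X - C r)^N (splits; Polynomial.eq_prod_roots..., all roots equal) = X^N - C(r^N) since N = p^m (sub_pow_char_pow).
-/
import Mathlib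
import Pool.Agent.Work.MP_022f22_nt.LH.Defs

open NumberField IsDedekindDomain Polynomial Height Filter Topology

namespace LEH

private theorem ssb_surj {F : Type} [Field F] [IsAlgClosed F] [DecidableEq F]
    (W : WeierstrassCurve F) (hΔ : W.Δ ≠ 0) (x : F) :
    ∃ P : W.toAffine.Point, P ≠ 0 ∧ xc P = x := by
  obtain ⟨y, hy⟩ := IsAlgClosed.exists_root
    (C (1 : F) * X ^ 2 + C (W.a₁ * x + W.a₃) * X +
      C (-(x ^ 3 + W.a₂ * x ^ 2 + W.a₄ * x + W.a₆)))
    (by rw [degree_quadratic one_ne_zero]; decide)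
  have hy' : y ^ 2 + (W.a₁ * x + W.a₃) * y + -(x ^ 3 + W.a₂ * x ^ 2 + W.a₄ * x + W.a₆) = 0 := by
    have := hy
    simp only [IsRoot, eval_add, eval_mul, eval_C, eval_pow, eval_X, one_mul] at this
    exact this
  have heq : W.toAffine.Equation x y := by
    rw [WeierstrassCurve.Affine.equation_iff]
    linear_combination hy'
  have hns : W.toAffine.Nonsingular x y :=
    (W.toAffine.equation_iff_nonsingular_of_Δ_ne_zero hΔ).mp heq
  refine ⟨WeierstrassCurve.Affine.Point.some x y hns,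
    WeierstrassCurve.Affine.Point.some_ne_zero hns, ?_⟩
  simp [xc]

private theorem ssb_xRep {F : Type} [Field F] [DecidableEq F]
    (W : WeierstrassCurve F) (P : W.toAffine.Point) (hP : P ≠ 0) :
    P.xRep 1 = 1 := by
  cases P with
  | zero => exact absurd rfl hP
  | some x y h => simp

private theorem ssb_eq {F : Type} [Field F] [DecidableEq F]
    (W : WeierstrassCurve F) (P Q : W.toAffine.Point) (hP : P ≠ 0) (hQ : Q ≠ 0)
    (h : P.xRep 0 = Q.xRep 0) : P.xRep = Q.xRep := by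
  funext i
  fin_cases i
  · exact h
  · show P.xRep 1 = Q.xRep 1
    rw [ssb_xRep W P hP, ssb_xRep W Q hQ]

theorem ss_shape {F : Type} [Field F] [IsAlgClosed F] [DecidableEq F] (p : ℕ) [CharP F p]
    (hp : p.Prime) (W : WeierstrassCurve F) (hΔ : W.Δ ≠ 0) (n m : ℕ) (hn : n ^ 2 = p ^ m)
    (hm : 0 < m) (hss : ∀ P : W.toAffine.Point, n • P = 0 → P = 0) (A B : F[X])
    (hA : A.natDegree ≤ n ^ 2) (hA1 : A.coeff (n ^ 2) = 1)
    (hpt : ∀ P : W.toAffine.Point, P ≠ 0 → ∃ c : F, c ≠ 0 ∧ A.eval (xc P) = c * (n • P).xRep 0 ∧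
      B.eval (xc P) = c * (n • P).xRep 1) :
    (∀ x : F, ∃ P : W.toAffine.Point, P ≠ 0 ∧ xc P = x) ∧
      ∃ b c : F, c ≠ 0 ∧ B = C c ∧ A = X ^ (n ^ 2) + C b := by
  have hsurj := ssb_surj W hΔ
  refine ⟨hsurj, ?_⟩
  -- B has no root
  have hBroot : ∀ x : F, B.eval x ≠ 0 := by
    intro x hx
    obtain ⟨P, hP, rfl⟩ := hsurj x
    obtain ⟨c, hc, -, h2⟩ := hpt P hP
    have hnP : n • P ≠ 0 := fun h => hP (hss P h)
    rw [ssb_xRep W _ hnP, hx, mul_one] at h2
    exact hc h2.symm
  have hBdeg : B.degree = 0 := by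
    by_contra hne
    obtain ⟨x, hx⟩ := IsAlgClosed.exists_root B hne
    exact hBroot x hx
  obtain ⟨c0, hc0⟩ : ∃ c0, B = C c0 := ⟨_, eq_C_of_degree_eq_zero hBdeg⟩
  have hc0ne : c0 ≠ 0 := by
    intro h
    apply hBroot 0
    rw [hc0, h]; simp
  -- values of A
  have hAval : ∀ P : W.toAffine.Point, P ≠ 0 → A.eval (xc P) = c0 * (n • P).xRep 0 := by
    intro P hP
    obtain ⟨c, hc, h1, h2⟩ := hpt P hP
    have hnP : n • P ≠ 0 := fun h => hP (hss P h)
    rw [ssb_xRep W _ hnP, mul_one, hc0, eval_C] at h2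
    rw [h1, h2]
  have hinj : ∀ x₁ x₂ : F, A.eval x₁ = A.eval x₂ → x₁ = x₂ := by
    intro x₁ x₂ h
    obtain ⟨P, hP, rfl⟩ := hsurj x₁
    obtain ⟨R, hR, rfl⟩ := hsurj x₂
    rw [hAval P hP, hAval R hR] at h
    have h' : (n • P).xRep 0 = (n • R).xRep 0 := mul_left_cancel₀ hc0ne h
    have hnP : n • P ≠ 0 := fun h => hP (hss P h)
    have hnR : n • R ≠ 0 := fun h => hR (hss R h)
    have h'' := ssb_eq W _ _ hnP hnR h'
    rcases WeierstrassCurve.Affine.Point.eq_or_eq_neg_of_xRep_eq_xRep h'' with h3 | h3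
    · have : n • (P - R) = 0 := by rw [smul_sub, h3, sub_self]
      have h4 : P = R := sub_eq_zero.mp (hss _ this)
      rw [h4]
    · have : n • (P + R) = 0 := by rw [smul_add, h3, neg_add_cancel]
      have h4 : P = -R := eq_neg_of_add_eq_zero_left (hss _ this)
      rw [h4]
      simp only [xc, WeierstrassCurve.Affine.Point.xRep_neg]
  -- A is monic
  have hN : 0 < n ^ 2 := by rw [hn]; exact pow_pos hp.pos m
  have hAdeg : A.natDegree = n ^ 2 := by
    apply le_antisymm hA
    apply le_natDegree_of_ne_zero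
    rw [hA1]; exact one_ne_zero
  have hAm : A.Monic := by
    rw [Monic, leadingCoeff, hAdeg, hA1]
  obtain ⟨r, hr⟩ := IsAlgClosed.exists_root A (by
    rw [degree_eq_natDegree hAm.ne_zero, hAdeg]
    exact_mod_cast hN.ne')
  have hroots : A.roots = Multiset.replicate (n ^ 2) r := by
    rw [Multiset.eq_replicate]
    refine ⟨by rw [IsAlgClosed.card_roots_eq_natDegree, hAdeg], ?_⟩
    intro s hs
    rw [mem_roots hAm.ne_zero] at hs
    apply hinj
    rw [hs.eq_zero, hr.eq_zero]
  have hprod : (A.roots.map (fun a => X - C a)).prod = A :=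
    prod_multiset_X_sub_C_of_monic_of_roots_card_eq hAm IsAlgClosed.card_roots_eq_natDegree
  rw [hroots, Multiset.map_replicate, Multiset.prod_replicate] at hprod
  haveI : Fact p.Prime := ⟨hp⟩
  refine ⟨-(r ^ p ^ m), c0, hc0ne, hc0, ?_⟩
  rw [← hprod, hn, sub_pow_char_pow, ← C_pow, C_neg, sub_eq_add_neg]

end LEH
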