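/-
LH/SsS (M)  MP_022f22_nt, Lehmer project, table modleh. Paper proof: /team-store/lehmer_proof.md
Choice of s (0.1 of the paper proof).  k finite field with q0 elements, characteristic p; for every s >= 1 elements b_s, c_s of k, c_s != 0, such that for x in k:
f_(s+1)(x) = f_1(f_s(x)), f_s(x) = (x^(p^(2s)) + b_s)/c_s.  Then there is s >= 1 with b_s = 0, c_s = 1 and p^(2s) = q0^m for some m >= 1.
Proof.  f_1 is a bijection of k (x -> x^(p^2) is injective on a field of characteristic p, affine maps are bijections), f_s = f_1^s (iterate, s >= 1).  q0 = p^f.  Let s = f * j, j >= 1 a multiple of the order of f_1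
in Equiv.Perm k (e.g. j = card of the group or orderOf): f_s = id on k.  p^(2s) = q0^(2j), so x^(p^(2s)) = x for x in k (FiniteField.pow_card_pow).  x + b_s = c_s x for all x in k; x = 0: b_s = 0; x = 1: c_s = 1.
-/
import Mathlib
import Pool.Agent.Work.MP_022f22_nt.LH.Defs

open NumberField IsDedekindDomain Polynomial Height Filter Topology

namespace LEH

theorem ss_choice {k : Type} [Field k] [Fintype k] (p : ℕ) (hp : p.Prime) [CharP k p]
    (b c : ℕ → k) (hc : ∀ s, 1 ≤ s → c s ≠ 0)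
    (hit : ∀ s, 1 ≤ s → ∀ x : k, (x ^ (p ^ (2 * (s + 1))) + b (s + 1)) / c (s + 1) =
      (((x ^ (p ^ (2 * s)) + b s) / c s) ^ (p ^ 2) + b 1) / c 1) :
    ∃ s, 1 ≤ s ∧ b s = 0 ∧ c s = 1 ∧ ∃ m, 0 < m ∧ p ^ (2 * s) = (Fintype.card k) ^ m := by
  classical
  have := Fact.mk hp
  obtain ⟨n, -, hn⟩ := FiniteField.card k p
  have hc1 : c 1 ≠ 0 := hc 1 le_rfl
  have hinj : Function.Injective (fun x : k => (x ^ (p ^ 2) + b 1) / c 1) := by
    intro x y hxy
    have h1 : (x ^ (p ^ 2) + b 1) / c 1 = (y ^ (p ^ 2) + b 1) / c 1 := hxy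
    have h2 : x ^ (p ^ 2) + b 1 = y ^ (p ^ 2) + b 1 := (div_left_inj' hc1).1 h1
    have h3 : x ^ (p ^ 2) = y ^ (p ^ 2) := add_right_cancel h2
    have h4 : (x - y) ^ (p ^ 2) = 0 := by
      rw [sub_pow_char_pow, h3, sub_self]
    exact sub_eq_zero.1 (pow_eq_zero_iff (by positivity [hp.pos]) |>.1 h4)
  obtain ⟨e, he⟩ : ∃ e : Equiv.Perm k, ∀ x, e x = (x ^ (p ^ 2) + b 1) / c 1 :=
    ⟨Equiv.ofBijective _ (Finite.injective_iff_bijective.1 hinj), fun x => rfl⟩
  have hpow : ∀ s, 1 ≤ s → ∀ x : k, (x ^ (p ^ (2 * s)) + b s) / c s = (e ^ s) x := by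
    intro s hs
    induction s, hs using Nat.le_induction with
    | base => intro x; rw [pow_one, he]
    | succ s hs ih =>
      intro x
      rw [hit s hs x, ih x, pow_succ' e s, Equiv.Perm.mul_apply, he]
  have hj : 0 < orderOf e := orderOf_pos e
  have hn0 : 0 < (n : ℕ) := n.pos
  have hs : 1 ≤ (n : ℕ) * orderOf e := Nat.mul_pos hn0 hj
  have hid : e ^ ((n : ℕ) * orderOf e) = 1 := by
    rw [mul_comm, pow_mul, pow_orderOf_eq_one, one_pow]
  have hq : p ^ (2 * ((n : ℕ) * orderOf e)) = (Fintype.card k) ^ (2 * orderOf e) := by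
    rw [hn, ← pow_mul]
    congr 1
    ring
  have hx : ∀ x : k, (x + b ((n : ℕ) * orderOf e)) / c ((n : ℕ) * orderOf e) = x := by
    intro x
    have h1 := hpow _ hs x
    rw [hid, hq, FiniteField.pow_card_pow] at h1
    simpa using h1
  have hcs := hc _ hs
  have hb : b ((n : ℕ) * orderOf e) = 0 := by
    have := hx 0
    rw [zero_add, div_eq_iff hcs, zero_mul] at this
    exact this
  have hc' : c ((n : ℕ) * orderOf e) = 1 := by
    have := hx 1
    rw [hb, add_zero, div_eq_iff hcs, one_mul] at this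
    exact this.symm
  exact ⟨_, hs, hb, hc', 2 * orderOf e, by positivity, hq⟩

end LEH
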