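/-
LH/Stp (M-L)  MP_022f22_nt, Lehmer project, table modleh. Paper proof: /team-store/lehmer_proof.md
Existence of the standing data.  v prime of K, R = (v.valuation K).valuationSubring, k = residue field of R, W0 over R with unit discriminant, supersingular: over kbar = AlgebraicClosure k the reduction has no
nonzero point killed by p = ringChar k.  W = W0.map (algebraMap R K).  Then there are N, Q, A, B with Setup K v W p N Q A B.
Proof.  GoodRed: coefficients of W are in R; v(Δ) = 1 as Δ is a unit of R.  p prime: k is finite (residue field of a number field: R/m = O_K/v; cardinality absNorm v.asIdeal = q0), v(p) < 1 as p = 0 in k.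
For s >= 1 let (A_s,B_s) from exists_mulPoly for W0, n = p^s.  Over kbar (map R -> k -> kbar, phi(Δ) != 0): ss_shape (n = p^s; no n-torsion: from p-torsion by induction; n^2 = p^(2s)) gives
A_s mod m = X^(p^(2s)) + b_s, B_s mod m = c_s with b_s, c_s in kbar, in fact in k (coefficients of polynomials over k; algebraMap k kbar injective), c_s != 0.
Composition: for x in k choose P in E(kbar), xc P = x (ss_shape (1)); x(p^s P) = f_s(x) (xRep(p^s P) = ![.,1] as p^s P != 0), and p^(s+1) P = p (p^s P): f_(s+1)(x) = f_1(f_s(x)) [f_1 applied at the point p^s P with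
xc = f_s(x)].  ss_choice gives s; N = p^s, Q = N^2 = p^(2s) = q0^m; A = A_s.map, B = B_s.map (R -> K): coefficients: A_i in m for i < Q (b_s = 0), B_0 - 1 in m, B_i in m for i >= 1; v.valuation of an element of m is < 1.
B_top: coeff (Q-1) = N^2 = Q.  mul: for L over K apply the last clause of exists_mulPoly to phi : R -> K -> L (W0.map phi = W.baseChange L): (A(x),B(x)) = c xRep(N P): N P = 0 iff xRep(NP) 1 = 0 iff B(x) = 0; else
xRep(NP) = ![xc(NP),1]: xc(NP) = A(x)/B(x) = Fm A B x.
-/
import Mathlib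
import Pool.Agent.Work.MP_022f22_nt.LH.Defs
import Pool.Agent.Work.MP_022f22_nt.LH.Mpl
import Pool.Agent.Work.MP_022f22_nt.LH.SsB
import Pool.Agent.Work.MP_022f22_nt.LH.SsS

open NumberField IsDedekindDomain Polynomial Height Filter Topology

namespace LEH

private theorem stp_unit {K : Type} [Field K] [NumberField K] (v : HeightOneSpectrum (𝓞 K))
    (x : (v.valuation K).valuationSubring) : IsUnit x ↔ v.valuation K (x : K) = 1 := by
  constructor
  · intro h
    obtain ⟨y, hy⟩ := isUnit_iff_exists_inv.1 h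
    have h1 : (x : K) * (y : K) = 1 := by
      have h2 := congrArg (fun t : (v.valuation K).valuationSubring => (t : K)) hy
      exact h2
    have h3 : v.valuation K (x : K) * v.valuation K (y : K) = 1 := by
      rw [← map_mul, h1, map_one]
    have hx : v.valuation K (x : K) ≤ 1 := x.2
    have hy : v.valuation K (y : K) ≤ 1 := y.2
    refine le_antisymm hx ?_
    rw [← h3]
    exact mul_le_of_le_one_right' hy
  · intro h
    have h0 : (x : K) ≠ 0 := by
      intro h1
      rw [h1, map_zero] at h
      exact zero_ne_one h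
    have hi : v.valuation K ((x : K)⁻¹) ≤ 1 := by
      rw [map_inv₀, h, inv_one]
    refine isUnit_iff_exists_inv.2 ⟨⟨(x : K)⁻¹, hi⟩, ?_⟩
    apply Subtype.ext
    exact mul_inv_cancel₀ h0

private theorem stp_res {K : Type} [Field K] [NumberField K] (v : HeightOneSpectrum (𝓞 K))
    (x : (v.valuation K).valuationSubring) :
    IsLocalRing.residue (v.valuation K).valuationSubring x = 0 ↔ v.valuation K (x : K) < 1 := by
  rw [IsLocalRing.residue_eq_zero_iff, IsLocalRing.mem_maximalIdeal, mem_nonunits_iff, stp_unit]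
  have hx : v.valuation K (x : K) ≤ 1 := x.2
  exact ⟨fun h => lt_of_le_of_ne hx h, fun h => h.ne⟩

/-- the inclusion of the ring of integers -/
private def stp_inc {K : Type} [Field K] [NumberField K] (v : HeightOneSpectrum (𝓞 K)) :
    𝓞 K →+* (v.valuation K).valuationSubring where
  toFun a := ⟨algebraMap (𝓞 K) K a, v.valuation_le_one a⟩
  map_one' := Subtype.ext (map_one _)
  map_zero' := Subtype.ext (map_zero _)
  map_add' a b := Subtype.ext (map_add _ a b)
  map_mul' a b := Subtype.ext (map_mul _ a b)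

private theorem stp_surj {K : Type} [Field K] [NumberField K] (v : HeightOneSpectrum (𝓞 K)) :
    Function.Surjective ((IsLocalRing.residue (v.valuation K).valuationSubring).comp
      (stp_inc v)) := by
  intro y
  obtain ⟨x, rfl⟩ := IsLocalRing.residue_surjective y
  have hx : v.valuation K (x : K) ≤ 1 := x.2
  obtain ⟨a, d, had⟩ := v.exists_primeCompl_mul_eq_of_integer (x : K) hx
  have hmax : v.asIdeal.IsMaximal := v.isMaximal
  have hd : (d : 𝓞 K) ∉ v.asIdeal := d.2
  obtain ⟨e, he⟩ := Ideal.IsMaximal.exists_inv hmax hd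
  obtain ⟨i, hi, hei⟩ := he
  refine ⟨a * e, ?_⟩
  have h1 : IsLocalRing.residue (v.valuation K).valuationSubring (stp_inc v (a * e) - x) = 0 := by
    rw [stp_res]
    have h2 : (((stp_inc v (a * e) - x : (v.valuation K).valuationSubring)) : K) =
        - ((x : K) * algebraMap (𝓞 K) K i) := by
      have h3 : (((stp_inc v (a * e) - x : (v.valuation K).valuationSubring)) : K) =
          algebraMap (𝓞 K) K (a * e) - (x : K) := rfl
      have h4 : algebraMap (𝓞 K) K e * algebraMap (𝓞 K) K (d : 𝓞 K) + algebraMap (𝓞 K) K i = 1 := by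
        rw [← map_mul, ← map_add, hei, map_one]
      rw [h3, map_mul, ← had]
      linear_combination (x : K) * h4
    rw [h2, Valuation.map_neg, map_mul]
    have h5 : v.valuation K (algebraMap (𝓞 K) K i) < 1 :=
      (v.valuation_lt_one_iff_mem i).2 hi
    exact lt_of_le_of_lt (mul_le_of_le_one_left' hx) h5
  rw [map_sub, sub_eq_zero] at h1
  exact h1

private theorem stp_card {K : Type} [Field K] [NumberField K] (v : HeightOneSpectrum (𝓞 K)) :
    Finite (IsLocalRing.ResidueField (v.valuation K).valuationSubring) ∧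
    Nat.card (IsLocalRing.ResidueField (v.valuation K).valuationSubring) =
      Ideal.absNorm v.asIdeal := by
  set f := (IsLocalRing.residue (v.valuation K).valuationSubring).comp (stp_inc v) with hf
  have hker : RingHom.ker f = v.asIdeal := by
    ext a
    rw [RingHom.mem_ker, hf, RingHom.comp_apply, stp_res]
    exact v.valuation_lt_one_iff_mem a
  have e := RingHom.quotientKerEquivOfSurjective (stp_surj v)
  have h1 : Nat.card (IsLocalRing.ResidueField (v.valuation K).valuationSubring) =
      Ideal.absNorm v.asIdeal := by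
    rw [← Nat.card_congr e.toEquiv, Ideal.absNorm_apply, Submodule.cardQuot_apply, ← hf, hker]
  have h2 : Ideal.absNorm v.asIdeal ≠ 0 := by
    rw [Ne, Ideal.absNorm_eq_zero_iff]
    exact v.ne_bot
  exact ⟨Nat.finite_of_card_ne_zero (h1 ▸ h2), h1⟩

private theorem stp_one {F : Type} [Field F] {E : WeierstrassCurve F} {P : E.toAffine.Point}
    (h : P ≠ 0) : P.xRep 1 = 1 := by
  cases P with
  | zero => exact absurd rfl h
  | some x y hxy => rfl

private theorem stp_zero {F : Type} [Field F] {E : WeierstrassCurve F} :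
    (0 : E.toAffine.Point).xRep 1 = 0 := rfl

/-- the statement of `exists_mulPoly`, for the exponent `n` -/
private def StpM {R : Type} [CommRing R] (W : WeierstrassCurve R) (n : ℕ) (A B : R[X]) : Prop :=
  A.natDegree ≤ n ^ 2 ∧ A.coeff (n ^ 2) = 1 ∧ B.natDegree ≤ n ^ 2 - 1 ∧
      B.coeff (n ^ 2 - 1) = (n : R) ^ 2 ∧
      ∀ (k : Type) [Field k] [DecidableEq k] (φ : R →+* k) (_ : φ W.Δ ≠ 0)
        (P : (W.map φ).toAffine.Point) (_ : P ≠ 0),
        ∃ c : k, c ≠ 0 ∧ (A.map φ).eval (xc P) = c * (n • P).xRep 0 ∧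
          (B.map φ).eval (xc P) = c * (n • P).xRep 1

private theorem stp_core {R k F : Type} [CommRing R] [Field k] [Fintype k] [Field F] [Algebra k F]
    [IsAlgClosed F] [DecidableEq F] (p : ℕ) (hp : p.Prime) [CharP k p] [CharP F p] (ρ : R →+* k)
    (W : WeierstrassCurve R) (hΔ : ρ W.Δ ≠ 0)
    (hss : ∀ P : (W.map ((algebraMap k F).comp ρ)).toAffine.Point, p • P = 0 → P = 0) :
    ∃ s, 1 ≤ s ∧ ∃ A B : R[X], StpM W (p ^ s) A B ∧ (∀ i < (p ^ s) ^ 2, ρ (A.coeff i) = 0) ∧
      ρ (B.coeff 0) = 1 ∧ (∀ i, 1 ≤ i → ρ (B.coeff i) = 0) ∧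
      ∃ m, 0 < m ∧ (p ^ s) ^ 2 = Fintype.card k ^ m := by
  have hn : ∀ s, 1 ≤ p ^ s := fun s => Nat.one_le_pow _ _ hp.pos
  choose A B hAB using fun s : ℕ => exists_mulPoly W (p ^ s) (hn s)
  have hinj : Function.Injective (algebraMap k F) := (algebraMap k F).injective
  set φ : R →+* F := (algebraMap k F).comp ρ with hφ
  have hφΔ : φ W.Δ ≠ 0 := by
    rw [hφ, RingHom.comp_apply]
    exact fun h => hΔ ((map_eq_zero_iff _ hinj).1 h)
  have hΔ' : (W.map φ).Δ ≠ 0 := by
    rw [WeierstrassCurve.map_Δ]
    exact hφΔ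
  have hss' : ∀ s, ∀ P : (W.map φ).toAffine.Point, (p ^ s) • P = 0 → P = 0 := by
    intro s
    induction s with
    | zero =>
      intro P hP
      rwa [pow_zero, one_nsmul] at hP
    | succ s ih =>
      intro P hP
      rw [pow_succ, mul_nsmul] at hP
      exact ih P (hss _ hP)
  have hsh : ∀ s, 1 ≤ s → (∀ x : F, ∃ P : (W.map φ).toAffine.Point, P ≠ 0 ∧ xc P = x) ∧
      ∃ b c : F, c ≠ 0 ∧ (B s).map φ = C c ∧ (A s).map φ = X ^ ((p ^ s) ^ 2) + C b := by
    intro s hs
    refine ss_shape p hp (W.map φ) hΔ' (p ^ s) (s * 2) (by rw [pow_mul]) (by omega) (hss' s)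
      ((A s).map φ) ((B s).map φ) ?_ ?_ ?_
    · exact natDegree_map_le.trans (hAB s).1
    · rw [coeff_map, (hAB s).2.1, map_one]
    · intro P hP
      exact (hAB s).2.2.2.2 F φ hφΔ P hP
  set b : ℕ → k := fun s => ρ ((A s).coeff 0) with hb
  set c : ℕ → k := fun s => ρ ((B s).coeff 0) with hc
  have hN0 : ∀ s, (p ^ s) ^ 2 ≠ 0 := fun s => (pow_pos (hn s) 2).ne'
  -- the coefficients
  have hB : ∀ s, 1 ≤ s → (B s).map φ = C (algebraMap k F (c s)) := by
    intro s hs
    obtain ⟨-, b', c', -, h2, -⟩ := hsh s hs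
    have h4 : φ ((B s).coeff 0) = c' := by
      rw [← coeff_map, h2, coeff_C_zero]
    rw [h2, ← h4]
    rfl
  have hA : ∀ s, 1 ≤ s → (A s).map φ = X ^ ((p ^ s) ^ 2) + C (algebraMap k F (b s)) := by
    intro s hs
    obtain ⟨-, b', c', -, -, h3⟩ := hsh s hs
    have h4 : φ ((A s).coeff 0) = b' := by
      rw [← coeff_map, h3, coeff_add, coeff_C_zero, coeff_X_pow, if_neg (hN0 s).symm, zero_add]
    rw [h3, ← h4]
    rfl
  have hc0 : ∀ s, 1 ≤ s → c s ≠ 0 := by
    intro s hs h
    obtain ⟨-, b', c', h1, h2, -⟩ := hsh s hs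
    rw [hB s hs, h, map_zero] at h2
    exact h1 (C_injective h2).symm
  -- the map on points
  have hpt : ∀ s, 1 ≤ s → ∀ P : (W.map φ).toAffine.Point, P ≠ 0 →
      xc ((p ^ s) • P) = (xc P ^ ((p ^ s) ^ 2) + algebraMap k F (b s)) / algebraMap k F (c s) := by
    intro s hs P hP
    obtain ⟨u, hu, h1, h2⟩ := (hAB s).2.2.2.2 F φ hφΔ P hP
    have h3 : (p ^ s) • P ≠ 0 := fun h => hP (hss' s P h)
    rw [stp_one h3, mul_one, hB s hs, eval_C] at h2
    rw [hA s hs, eval_add, eval_pow, eval_X, eval_C] at h1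
    rw [h1, h2]
    have h4 : xc ((p ^ s) • P) = ((p ^ s) • P).xRep 0 := rfl
    rw [h4, mul_div_cancel_left₀ _ hu]
  have hit : ∀ s, 1 ≤ s → ∀ x : k, (x ^ (p ^ (2 * (s + 1))) + b (s + 1)) / c (s + 1) =
      (((x ^ (p ^ (2 * s)) + b s) / c s) ^ (p ^ 2) + b 1) / c 1 := by
    intro s hs x
    apply hinj
    obtain ⟨P, hP, hPx⟩ := (hsh 1 le_rfl).1 (algebraMap k F x)
    have h1 := hpt (s + 1) (by omega) P hP
    have h2 := hpt s hs P hP
    have hQ : (p ^ s) • P ≠ 0 := fun h => hP (hss' s P h)
    have h3 := hpt 1 le_rfl ((p ^ s) • P) hQ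
    have h4 : (p ^ 1) • ((p ^ s) • P) = (p ^ (s + 1)) • P := by
      have e : p ^ s * p ^ 1 = p ^ (s + 1) := by rw [pow_one, pow_succ]
      rw [← mul_nsmul, e]
    rw [h4, h1, h2, hPx] at h3
    have e1 : (p ^ (s + 1)) ^ 2 = p ^ (2 * (s + 1)) := by rw [← pow_mul, mul_comm]
    have e2 : (p ^ s) ^ 2 = p ^ (2 * s) := by rw [← pow_mul, mul_comm]
    have e3 : (p ^ 1) ^ 2 = p ^ 2 := by rw [pow_one]
    rw [e1, e2, e3] at h3
    simp only [map_div₀, map_add, map_pow]
    exact h3
  obtain ⟨s, hs, hbs, hcs, m, hm, hpm⟩ := ss_choice p hp b c hc0 hit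
  refine ⟨s, hs, A s, B s, hAB s, ?_, hcs, ?_, m, hm, ?_⟩
  · intro i hi
    by_cases h0 : i = 0
    · rw [h0]
      exact hbs
    · apply hinj
      rw [map_zero]
      have h1 : ((A s).map φ).coeff i = 0 := by
        rw [hA s hs, coeff_add, coeff_X_pow, if_neg hi.ne, coeff_C_of_ne_zero h0, add_zero]
      rw [coeff_map] at h1
      exact h1
  · intro i hi
    apply hinj
    rw [map_zero]
    have h1 : ((B s).map φ).coeff i = 0 := by
      rw [hB s hs, coeff_C_of_ne_zero (by omega)]
    rw [coeff_map] at h1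
    exact h1
  · rw [← hpm, ← pow_mul, mul_comm]

theorem exists_setup {K : Type} [Field K] [NumberField K] (v : HeightOneSpectrum (𝓞 K))
    (W : WeierstrassCurve (v.valuation K).valuationSubring) (hΔ : IsUnit W.Δ)
    (hss : ∀ P : ((W.map (IsLocalRing.residue (v.valuation K).valuationSubring)).baseChange
        (AlgebraicClosure (IsLocalRing.ResidueField (v.valuation K).valuationSubring))).toAffine.Point,
      letI := Classical.decEq
        (AlgebraicClosure (IsLocalRing.ResidueField (v.valuation K).valuationSubring))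
      (ringChar (IsLocalRing.ResidueField (v.valuation K).valuationSubring)) • P = 0 → P = 0) :
    ∃ (N Q : ℕ) (A B : K[X]), Setup K v (W.map (algebraMap _ K))
      (ringChar (IsLocalRing.ResidueField (v.valuation K).valuationSubring)) N Q A B := by
  obtain ⟨hfin, hcard⟩ := stp_card v
  haveI := hfin
  letI : Fintype (IsLocalRing.ResidueField (v.valuation K).valuationSubring) := Fintype.ofFinite _
  letI := Classical.decEq
        (AlgebraicClosure (IsLocalRing.ResidueField (v.valuation K).valuationSubring))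
  set p := ringChar (IsLocalRing.ResidueField (v.valuation K).valuationSubring) with hpdef
  haveI hcp : CharP (IsLocalRing.ResidueField (v.valuation K).valuationSubring) p :=
    ringChar.charP _
  have hp : p.Prime :=
    CharP.char_is_prime (IsLocalRing.ResidueField (v.valuation K).valuationSubring) p
  obtain ⟨s, hs, A, B, hM, hA0, hB1, hB0, m, hm, hQ⟩ := stp_core
    (F := AlgebraicClosure (IsLocalRing.ResidueField (v.valuation K).valuationSubring)) p hp
    (IsLocalRing.residue (v.valuation K).valuationSubring) W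
    (fun h => by
      have h1 := (stp_res v W.Δ).1 h
      have h2 := (stp_unit v W.Δ).1 hΔ
      exact h1.ne h2) hss
  obtain ⟨hAd, hAt, hBd, hBt, hmul⟩ := hM
  have hNpos : 0 < (p ^ s) ^ 2 := by have := hp.pos; positivity
  refine ⟨p ^ s, (p ^ s) ^ 2, A.map (algebraMap _ K), B.map (algebraMap _ K), ?_⟩
  refine ⟨⟨W.a₁.2, W.a₂.2, W.a₃.2, W.a₄.2, W.a₆.2, ?_⟩, hp, ⟨s, hs, rfl⟩, rfl, ?_, ⟨m, hm, ?_⟩,
    ?_, ?_, ?_, ?_, ?_, ?_, ?_, ?_⟩
  · rw [WeierstrassCurve.map_Δ]
    exact (stp_unit v W.Δ).1 hΔ
  · have h1 : IsLocalRing.residue (v.valuation K).valuationSubring (p : (v.valuation K).valuationSubring) = 0 := by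
      rw [map_natCast]
      exact CharP.cast_eq_zero _ p
    have h2 := (stp_res v _).1 h1
    exact_mod_cast h2
  · rw [hQ, ← hcard, Nat.card_eq_fintype_card]
  · rw [coeff_map, hAt, map_one]
  · exact natDegree_map_le.trans hAd
  · intro i hi
    rw [coeff_map]
    exact (stp_res v _).1 (hA0 i hi)
  · have h1 : (B.map (algebraMap (v.valuation K).valuationSubring K)).natDegree ≤ (p ^ s) ^ 2 - 1 :=
      natDegree_map_le.trans hBd
    omega
  · rw [coeff_map, hBt]
    push_cast
    simp
  · have h1 : IsLocalRing.residue (v.valuation K).valuationSubring (B.coeff 0 - 1) = 0 := by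
      rw [map_sub, hB1, map_one, sub_self]
    have h2 := (stp_res v _).1 h1
    rw [coeff_map]
    exact h2
  · intro i hi
    rw [coeff_map]
    exact (stp_res v _).1 (hB0 i hi)
  · intro L _ _ _ P hP
    have hφ : ((algebraMap K L).comp (algebraMap (v.valuation K).valuationSubring K)) W.Δ ≠ 0 := by
      rw [RingHom.comp_apply]
      have h1 : (W.Δ : K) ≠ 0 := by
        intro h
        have h2 := (stp_unit v W.Δ).1 hΔ
        rw [h, map_zero] at h2
        exact zero_ne_one h2
      exact fun h => h1 ((map_eq_zero_iff _ (algebraMap K L).injective).1 h)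
    obtain ⟨c, hc, h1, h2⟩ := hmul L
      ((algebraMap K L).comp (algebraMap (v.valuation K).valuationSubring K)) hφ P hP
    have hA' : ((A.map (algebraMap (v.valuation K).valuationSubring K)).map (algebraMap K L)) =
      A.map ((algebraMap K L).comp (algebraMap (v.valuation K).valuationSubring K)) :=
      Polynomial.map_map _ _ _
    have hB' : ((B.map (algebraMap (v.valuation K).valuationSubring K)).map (algebraMap K L)) =
      B.map ((algebraMap K L).comp (algebraMap (v.valuation K).valuationSubring K)) :=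
      Polynomial.map_map _ _ _
    unfold Fm
    rw [hA', hB']
    refine ⟨⟨?_, ?_⟩, ?_⟩
    · intro h
      have h3 : ((p ^ s) • P).xRep 1 = 0 := by
        rw [h]
        rfl
      exact h2.trans ((congrArg (fun t => c * t) h3).trans (mul_zero c))
    · intro h
      by_contra hne
      have h3 : ((p ^ s) • P).xRep 1 = 1 := stp_one hne
      have h4 : c * ((p ^ s) • P).xRep 1 = 0 := h2.symm.trans h
      rw [h3, mul_one] at h4
      exact hc h4
    · intro hne
      have h3 : ((p ^ s) • P).xRep 1 = 1 := stp_one hne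
      have h4 : (B.map ((algebraMap K L).comp
        (algebraMap (v.valuation K).valuationSubring K))).eval (xc P) = c := by
        refine h2.trans ?_
        exact (congrArg (fun t => c * t) h3).trans (mul_one c)
      have h5 : (A.map ((algebraMap K L).comp
        (algebraMap (v.valuation K).valuationSubring K))).eval (xc P) = c * xc ((p ^ s) • P) := h1
      rw [h4, h5, mul_div_cancel_left₀ _ hc]

end LEH
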