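/-
LH/GMp (S-M)  MP_022f22_nt, Lehmer project, table modleh. Paper proof: /team-store/lehmer_proof.md
GoodMap from the Setup at a finite place w above v, rho = w ϖ: above_unif, above_lt (coefficients A_i (i < Q), B_i (i >= 1), B_0 - 1, and p have v < 1), nonarchimedean: FinitePlace.add_le.
Q = N^2 = p^(2s), s >= 1, Q >= 4 since p >= 2.  Coefficients of A.map: Polynomial.coeff_map; degrees: natDegree_map_le.  w x and w.val x agree definitionally.
exists_ord: v.valuation K (Q : K) = exp(-e) for some natural e (Q != 0 in K, v Q <= 1), so w(Q) = (w ϖ)^e for every w above v (above_exp).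
-/
import Mathlib
import Pool.Agent.Work.MP_022f22_nt.LH.Defs
import Pool.Agent.Work.MP_022f22_nt.LH.Vab

open NumberField IsDedekindDomain Polynomial Height Filter Topology

namespace LEH

theorem good_of_setup {K : Type} [Field K] [NumberField K] {v : HeightOneSpectrum (𝓞 K)}
    {W : WeierstrassCurve K} {p N Q : ℕ} {A B : K[X]} (hs : Setup K v W p N Q A B)
    {L : Type} [Field L] [NumberField L] [Algebra K L] {w : FinitePlace L} (h : Above v w)
    {ϖ : K} (hϖ : Unif v ϖ) :
    GoodMap w.val (w (algebraMap K L ϖ)) p Q (A.map (algebraMap K L)) (B.map (algebraMap K L)) ∧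
      (B.map (algebraMap K L)).coeff (Q - 1) = (Q : L) := by
  refine ⟨{ nonarch := ?_, rho_pos := (above_unif h hϖ).1, rho_lt := (above_unif h hϖ).2,
            prime := hs.prime, pow := ?_, four := ?_, char := ?_, A_top := ?_, A_deg := ?_,
            A_low := ?_, B_deg := ?_, B_zero := ?_, B_low := ?_ }, ?_⟩
  · intro x y
    exact NumberField.FinitePlace.add_le w x y
  · obtain ⟨s, hs0, hsN⟩ := hs.N_pow
    refine ⟨s * 2, by positivity, ?_⟩
    rw [hs.Q_eq, hsN, pow_mul]
  · obtain ⟨s, hs0, hsN⟩ := hs.N_pow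
    have h2 : 2 ≤ p := hs.prime.two_le
    have h3 : 2 ≤ N := by
      rw [hsN]
      calc 2 ≤ p := h2
        _ = p ^ 1 := (pow_one p).symm
        _ ≤ p ^ s := Nat.pow_le_pow_right (by omega) hs0
    rw [hs.Q_eq]
    nlinarith
  · have h1 := above_lt h hϖ hs.p_mem
    rwa [map_natCast] at h1
  · rw [coeff_map, hs.A_top, map_one]
  · exact natDegree_map_le.trans hs.A_deg
  · intro i hi
    rw [coeff_map]
    exact above_lt h hϖ (hs.A_low i hi)
  · exact lt_of_le_of_lt natDegree_map_le hs.B_deg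
  · have h1 := above_lt h hϖ hs.B_zero
    rw [map_sub, map_one] at h1
    rw [coeff_map]
    exact h1
  · intro i hi
    rw [coeff_map]
    exact above_lt h hϖ (hs.B_low i hi)
  · rw [coeff_map, hs.B_top, map_natCast]

theorem exists_ord {K : Type} [Field K] [NumberField K] {v : HeightOneSpectrum (𝓞 K)}
    {W : WeierstrassCurve K} {p N Q : ℕ} {A B : K[X]} (hs : Setup K v W p N Q A B)
    {ϖ : K} (hϖ : Unif v ϖ) :
    ∃ e : ℕ, ∀ (L : Type) [Field L] [NumberField L] [Algebra K L] (w : FinitePlace L),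
      Above v w → w (Q : L) = w (algebraMap K L ϖ) ^ e := by
  have hQ0 : Q ≠ 0 := by
    obtain ⟨s, -, hsN⟩ := hs.N_pow
    rw [hs.Q_eq, hsN]
    exact pow_ne_zero _ (pow_ne_zero _ hs.prime.ne_zero)
  have hQK : (Q : K) ≠ 0 := Nat.cast_ne_zero.2 hQ0
  have hv0 : v.valuation K (Q : K) ≠ 0 := (Valuation.ne_zero_iff _).2 hQK
  have hv1 : v.valuation K (Q : K) ≤ 1 := by
    have h1 := v.valuation_le_one (K := K) (Q : 𝓞 K)
    have h2 : (algebraMap (𝓞 K) K) (Q : 𝓞 K) = (Q : K) := map_natCast _ _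
    have h3 : v.valuation K ((algebraMap (𝓞 K) K) (Q : 𝓞 K)) ≤ 1 := h1
    rwa [h2] at h3
  set g : ℤ := WithZero.log (v.valuation K (Q : K)) with hg
  have hge : WithZero.exp g = v.valuation K (Q : K) := WithZero.exp_log hv0
  have hg0 : g ≤ 0 := by
    rw [← hge, ← WithZero.exp_zero] at hv1
    exact WithZero.exp_le_exp.1 hv1
  refine ⟨(-g).toNat, ?_⟩
  intro L _ _ _ w hw
  have h2 : v.valuation K (Q : K) = WithZero.exp (-(((-g).toNat : ℕ) : ℤ)) := by
    rw [Int.toNat_of_nonneg (by omega), neg_neg]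
    exact hge.symm
  have h3 := above_exp hw hϖ h2
  rwa [map_natCast] at h3

end LEH
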