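/-
LH/Plc (M)  MP_022f22_nt, Lehmer project, table modleh. Paper proof: /team-store/lehmer_proof.md
Places above v.  The finite places w of L with Above v w form a finite set V (primes over v.asIdeal: finite; FinitePlace corresponds to HeightOneSpectrum, equivHeightOneSpectrum), and
sum_{w in V} -log(w ϖ) = [L:K] log(absNorm v).
Proof.  For P above v: w ϖ = absNorm(P)^(-e(P)), e(P) the ramification index: v.valuation ϖ = exp(-1) and P-adic valuation of the image of x in K is the e(P)-th power of v x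
(Mathlib: NumberTheory/RamificationInertia/Valuation.lean; or write ϖ = a/b and count multiplicities), absNorm P = absNorm(v)^(f(P)) (Ideal.absNorm_eq_pow_inertiaDeg), and
sum_P e(P) f(P) = [L:K] (Ideal.sum_ramification_inertia).
-/
import Mathlib
import Pool.Agent.Work.MP_022f22_nt.LH.Defs
import Pool.Agent.Work.MP_022f22_nt.LH.Vab

open NumberField IsDedekindDomain Polynomial Height Filter Topology

namespace LEH

private theorem plc_term {K L : Type*} [Field K] [NumberField K] [Field L] [NumberField L]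
    [Algebra K L] (v : HeightOneSpectrum (𝓞 K)) {ϖ : K} (hϖ : Unif v ϖ) (w : FinitePlace L)
    (h : Above v w) :
    -Real.log (w (algebraMap K L ϖ)) =
      ((v.asIdeal.ramificationIdx' w.maximalIdeal.asIdeal *
        v.asIdeal.inertiaDeg' w.maximalIdeal.asIdeal : ℕ) : ℝ) *
        Real.log (Ideal.absNorm v.asIdeal) := by
  have hl : w.maximalIdeal.asIdeal.LiesOver v.asIdeal := ⟨by
    rw [Ideal.under_def]
    exact h.symm⟩
  have h1 : w.maximalIdeal.valuation L (algebraMap K L ϖ) =
      WithZero.exp (-1 : ℤ) ^ v.asIdeal.ramificationIdx' w.maximalIdeal.asIdeal := by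
    rw [← HeightOneSpectrum.valuation_liesOver L v w.maximalIdeal ϖ]
    unfold Unif at hϖ
    rw [hϖ]
  have h2 : Ideal.absNorm w.maximalIdeal.asIdeal =
      Ideal.absNorm v.asIdeal ^ v.asIdeal.inertiaDeg' w.maximalIdeal.asIdeal :=
    Ideal.absNorm_eq_pow_inertiaDeg'_of_liesOver _ _ v.isPrime v.ne_bot
  rw [← FinitePlace.norm_embedding_eq w, FinitePlace.norm_embedding', h1, map_pow]
  have h3 : ((WithZeroMulInt.toNNReal (HeightOneSpectrum.absNorm_ne_zero w.maximalIdeal)
      (WithZero.exp (-1 : ℤ)) : NNReal) : ℝ) = ((Ideal.absNorm w.maximalIdeal.asIdeal : ℕ) : ℝ)⁻¹ := by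
    rw [WithZeroMulInt.toNNReal_neg_apply _ WithZero.exp_ne_zero]
    have e : (WithZero.unzero (WithZero.exp_ne_zero (a := (-1 : ℤ)))) = Multiplicative.ofAdd (-1 : ℤ) := by
      rfl
    rw [e]
    simp
  rw [NNReal.coe_pow, h3, Real.log_pow, Real.log_inv, h2]
  push_cast
  rw [Real.log_pow]
  ring

theorem places_above {K L : Type*} [Field K] [NumberField K] [Field L] [NumberField L]
    [Algebra K L] (v : HeightOneSpectrum (𝓞 K)) {ϖ : K} (hϖ : Unif v ϖ) :
    ∃ V : Finset (FinitePlace L), (∀ w, w ∈ V ↔ Above v w) ∧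
      ∑ w ∈ V, -Real.log (w (algebraMap K L ϖ)) =
        (Module.finrank K L : ℝ) * Real.log (Ideal.absNorm v.asIdeal) := by
  classical
  set φ : FinitePlace L → Ideal (𝓞 L) := fun w => w.maximalIdeal.asIdeal with hφ
  have hinj : Function.Injective φ := fun a b hab =>
    FinitePlace.maximalIdeal_injective (HeightOneSpectrum.ext hab)
  have hmax : v.asIdeal.IsMaximal := v.isMaximal
  have hmem : ∀ w : FinitePlace L, φ w ∈ IsDedekindDomain.primesOverFinset v.asIdeal (𝓞 L) ↔ Above v w := by
    intro w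
    rw [IsDedekindDomain.mem_primesOverFinset_iff v.ne_bot]
    constructor
    · rintro ⟨_, h⟩
      have := h.over
      rw [Ideal.under_def] at this
      exact this.symm
    · intro h
      exact ⟨w.maximalIdeal.isPrime, ⟨by rw [Ideal.under_def]; exact h.symm⟩⟩
  refine ⟨(IsDedekindDomain.primesOverFinset v.asIdeal (𝓞 L)).preimage φ hinj.injOn, ?_, ?_⟩
  · intro w
    rw [Finset.mem_preimage, hmem]
  · have h1 : ∑ w ∈ (IsDedekindDomain.primesOverFinset v.asIdeal (𝓞 L)).preimage φ hinj.injOn,
        -Real.log (w (algebraMap K L ϖ)) =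
        ∑ w ∈ (IsDedekindDomain.primesOverFinset v.asIdeal (𝓞 L)).preimage φ hinj.injOn,
        (fun P : Ideal (𝓞 L) => ((v.asIdeal.ramificationIdx' P * v.asIdeal.inertiaDeg' P : ℕ) : ℝ) *
          Real.log (Ideal.absNorm v.asIdeal)) (φ w) := by
      refine Finset.sum_congr rfl fun w hw => ?_
      rw [Finset.mem_preimage, hmem] at hw
      exact plc_term v hϖ w hw
    rw [h1]
    refine (Finset.sum_preimage φ (IsDedekindDomain.primesOverFinset v.asIdeal (𝓞 L)) hinj.injOn
      (fun P : Ideal (𝓞 L) => ((v.asIdeal.ramificationIdx' P * v.asIdeal.inertiaDeg' P : ℕ) : ℝ) *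
          Real.log (Ideal.absNorm v.asIdeal)) ?_).trans ?_
    rotate_left
    · rw [← Finset.sum_mul, ← Nat.cast_sum, Ideal.sum_ramification_inertia (𝓞 L) K L v.ne_bot]
    · intro P hP hn
      exfalso
      apply hn
      rw [IsDedekindDomain.mem_primesOverFinset_iff v.ne_bot] at hP
      have hPne : P ≠ ⊥ := by
        have := hP.1
        have := hP.2
        exact Ideal.ne_bot_of_liesOver_of_ne_bot v.ne_bot P
      refine ⟨FinitePlace.mk ⟨P, hP.1, hPne⟩, ?_⟩
      rw [hφ]
      change (FinitePlace.mk ⟨P, hP.1, hPne⟩ : FinitePlace L).maximalIdeal.asIdeal = P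
      rw [FinitePlace.maximalIdeal_mk]

end LEH
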