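/-
LH/Fmc (M)  MP_022f22_nt, Lehmer project, table modleh. Paper proof: /team-store/lehmer_proof.md
The map F = Fm A B on L and the Galois group.
 * Fm_gal: A, B have coefficients in K; sigma is a field automorphism over K: sigma(eval x) = eval(sigma x) (Polynomial.eval_map, hom_eval₂ / AlgEquiv), map_div₀ (also when the denominator vanishes).
 * dg_anti: orbF top (F y) is the image of orbF top y under F (orbF_image).   dg_iter_le: induction.
 * fib_card: f = F^[n] commutes with G.  Number of c in orbF top a with f c = y is the same for all y in orbF top (f a) (if y' = tau y then c -> tau c is a bijection of the fibres), the fibres partition orbF top a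
   (Finset.card_eq_sum_card_fiberwise), so fibre * dg(f a) = dg a.
 * nice_smul, nice_iter: see below; nice_smul: F^[n](sigma a) = sigma F^[n] a, B(sigma y) = sigma(B y) != 0; disj: F^n(sigma a) = F^m(tau sigma a), apply sigma^-1: F^n a = F^m(sigma^-1 tau sigma a); ht with n = 0
   gives hx(sigma a) = hx a.  nice_iter: F^[n](sigma(F^[k] a)) = F^[n+k](sigma a).
 * nice_mem: for b in orbF top a: Nice b.
-/
import Mathlib
import Pool.Agent.Work.MP_022f22_nt.LH.Defs
import Pool.Agent.Work.MP_022f22_nt.LH.Org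

open NumberField IsDedekindDomain Polynomial Height Filter Topology

namespace LEH

variable {K L : Type*} [Field K] [Field L] [Algebra K L] [FiniteDimensional K L]

private theorem eval_gal (P : K[X]) (σ : L ≃ₐ[K] L) (x : L) :
    (P.map (algebraMap K L)).eval (σ x) = σ ((P.map (algebraMap K L)).eval x) := by
  rw [eval_map_algebraMap, eval_map_algebraMap]
  exact Polynomial.aeval_algHom_apply (σ : L →ₐ[K] L) x P

theorem Fm_gal (A B : K[X]) (σ : L ≃ₐ[K] L) (x : L) : Fm A B (σ x) = σ (Fm A B x) := by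
  unfold Fm
  rw [eval_gal, eval_gal, map_div₀]

theorem Fm_iter_gal (A B : K[X]) (σ : L ≃ₐ[K] L) (n : ℕ) (x : L) :
    (Fm A B)^[n] (σ x) = σ ((Fm A B)^[n] x) := by
  induction n with
  | zero => rfl
  | succ n ih => rw [Function.iterate_succ_apply', Function.iterate_succ_apply', ih, Fm_gal]

theorem dg_anti (A B : K[X]) (n : ℕ) (a : L) :
    dg K ((Fm A B)^[n + 1] a) ≤ dg K ((Fm A B)^[n] a) := by
  classical
  rw [Function.iterate_succ_apply']
  set y := (Fm A B)^[n] a
  have h1 := orbF_image (K := K) (I := (⊤ : Subgroup (L ≃ₐ[K] L))) (Fm A B)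
    (fun σ _ x => Fm_gal A B σ x) y
  have h2 : orbF (⊤ : Subgroup (L ≃ₐ[K] L)) (Fm A B y)
      = (orbF (⊤ : Subgroup (L ≃ₐ[K] L)) y).image (Fm A B) := by
    apply Finset.coe_injective
    rw [Finset.coe_image]
    exact h1.symm
  unfold dg
  rw [h2]
  exact Finset.card_image_le

theorem dg_iter_le (A B : K[X]) {n m : ℕ} (h : n ≤ m) (a : L) :
    dg K ((Fm A B)^[m] a) ≤ dg K ((Fm A B)^[n] a) := by
  induction m, h using Nat.le_induction with
  | base => exact le_rfl
  | succ m _ ih => exact (dg_anti A B m a).trans ih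

open Classical in
theorem fib_card (A B : K[X]) (n : ℕ) (a y : L)
    (hy : y ∈ orbF (⊤ : Subgroup (L ≃ₐ[K] L)) ((Fm A B)^[n] a)) :
    ((orbF (⊤ : Subgroup (L ≃ₐ[K] L)) a).filter (fun c => (Fm A B)^[n] c = y)).card *
      dg K ((Fm A B)^[n] a) = dg K a := by
  set f : L → L := (Fm A B)^[n] with hf
  set S : Finset L := orbF (⊤ : Subgroup (L ≃ₐ[K] L)) a with hS
  set T : Finset L := orbF (⊤ : Subgroup (L ≃ₐ[K] L)) (f a) with hT
  have hfg : ∀ (σ : L ≃ₐ[K] L) (x : L), f (σ x) = σ (f x) := fun σ x => Fm_iter_gal A B σ n x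
  have hmaps : ∀ c ∈ S, f c ∈ T := by
    intro c hc
    obtain ⟨σ, -, rfl⟩ := mem_orbF.1 hc
    rw [hfg]
    exact mem_orbF.2 ⟨σ, Subgroup.mem_top σ, rfl⟩
  have hstab : ∀ (σ : L ≃ₐ[K] L) (c : L), c ∈ S → σ c ∈ S := by
    intro σ c hc
    obtain ⟨τ, -, rfl⟩ := mem_orbF.1 hc
    exact mem_orbF.2 ⟨σ * τ, Subgroup.mem_top _, rfl⟩
  have hle : ∀ z ∈ T, ∀ z' ∈ T, (S.filter (fun c => f c = z)).card
      ≤ (S.filter (fun c => f c = z')).card := by
    intro z hz z' hz'
    obtain ⟨τ, -, hτ⟩ := mem_orbF.1 hz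
    obtain ⟨τ', -, hτ'⟩ := mem_orbF.1 hz'
    have hρ : (τ' * τ⁻¹) z = z' := by
      rw [← hτ, ← hτ']
      change τ' (τ⁻¹ (τ (f a))) = τ' (f a)
      congr 1
      exact τ.symm_apply_apply (f a)
    apply Finset.card_le_card_of_injOn (τ' * τ⁻¹ : L ≃ₐ[K] L)
    · intro c hc
      obtain ⟨hc1, hc2⟩ := Finset.mem_filter.1 hc
      exact Finset.mem_filter.2 ⟨hstab _ c hc1, by rw [hfg, hc2, hρ]⟩
    · exact (τ' * τ⁻¹ : L ≃ₐ[K] L).injective.injOn
  have h1 : S.card = ∑ z ∈ T, (S.filter (fun c => f c = z)).card :=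
    Finset.card_eq_sum_card_fiberwise hmaps
  have h2 : ∀ z ∈ T, (S.filter (fun c => f c = z)).card = (S.filter (fun c => f c = y)).card :=
    fun z hz => le_antisymm (hle z hz y hy) (hle y hy z hz)
  rw [Finset.sum_congr rfl h2, Finset.sum_const, smul_eq_mul] at h1
  change (S.filter (fun c => f c = y)).card * T.card = S.card
  rw [h1, mul_comm]

theorem nice_smul [NumberField L] {W : WeierstrassCurve K} {Q : ℕ} {A B : K[X]} {a : L}
    (h : Nice W Q A B a) (σ : L ≃ₐ[K] L) : Nice W Q A B (σ a) := by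
  have h0 : hx (W.baseChange L) (σ a) = hx (W.baseChange L) a := by
    have := h.ht σ 0
    simpa using this
  refine ⟨fun n => ?_, fun τ n m e => ?_, fun τ n => ?_⟩
  · rw [Fm_iter_gal, eval_gal]
    exact (map_ne_zero_iff σ σ.injective).2 (h.ne n)
  · apply h.disj (σ⁻¹ * τ * σ) n m
    apply σ.injective
    rw [← Fm_iter_gal, e, ← Fm_iter_gal]
    congr 1
    change τ (σ a) = σ (σ⁻¹ (τ (σ a)))
    exact (σ.apply_symm_apply (τ (σ a))).symm
  · rw [h0]
    exact h.ht (τ * σ) n

theorem nice_iter [NumberField L] {W : WeierstrassCurve K} {Q : ℕ} {A B : K[X]} {a : L}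
    (h : Nice W Q A B a) (n : ℕ) : Nice W Q A B ((Fm A B)^[n] a) := by
  refine ⟨fun i => ?_, fun σ i m e => ?_, fun σ i => ?_⟩
  · rw [← Function.iterate_add_apply]
    exact h.ne (i + n)
  · rw [← Fm_iter_gal, ← Function.iterate_add_apply, ← Function.iterate_add_apply] at e
    have := h.disj σ (i + n) (m + n) e
    omega
  · have h1 := h.ht 1 n
    change hx (W.baseChange L) ((Fm A B)^[n] a) = _ at h1
    rw [← Fm_iter_gal, ← Function.iterate_add_apply, h.ht σ (i + n), h1, pow_add, mul_assoc]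

theorem nice_mem [NumberField L] {W : WeierstrassCurve K} {Q : ℕ} {A B : K[X]} {a b : L}
    (h : Nice W Q A B a) (hb : b ∈ orbF (⊤ : Subgroup (L ≃ₐ[K] L)) a) : Nice W Q A B b := by
  obtain ⟨σ, -, rfl⟩ := mem_orbF.1 hb
  exact nice_smul h σ

end LEH
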