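/-
LH/Fnp (M)  MP_022f22_nt, Lehmer project, table modleh. Paper proof: /team-store/lehmer_proof.md
Finite places and extensions for an integral vector x : ι -> O_K, x != 0.
NumberField.absNorm_mul_finprod_finitePlace_eq_one (Mathlib, Height/NumberField.lean): absNorm(span range x) * finprod_v sup_i v(x_i) = 1, over K and over L (for the vector of images in O_L, whose
span is the extension (map) of the ideal).  absNorm (I.map) = absNorm(I)^[L:K]: Mathlib, search absNorm and map / relNorm: Ideal.relNorm_algebraMap, absNorm_relNorm; or by multiplicativity and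
primes (sum e f = [L:K]).
-/
import Mathlib
import Pool.Agent.Work.MP_022f22_nt.LH.Defs

open NumberField IsDedekindDomain Polynomial Height Filter Topology

namespace LEH

theorem fin_part {K L : Type*} [Field K] [NumberField K] [Field L] [NumberField L] [Algebra K L]
    {ι : Type*} [Finite ι] (x : ι → 𝓞 K) (hx : x ≠ 0) :
    ∏ᶠ w : FinitePlace L, ⨆ i, w (algebraMap K L (x i : K)) =
      (∏ᶠ u : FinitePlace K, ⨆ i, u (x i : K)) ^ (Module.finrank K L) := by
  have hinj : Function.Injective (algebraMap (𝓞 K) (𝓞 L)) :=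
    FaithfulSMul.algebraMap_injective (𝓞 K) (𝓞 L)
  let y : ι → 𝓞 L := fun i => algebraMap (𝓞 K) (𝓞 L) (x i)
  have hy : y ≠ 0 := by
    obtain ⟨i, hi⟩ := Function.ne_iff.mp hx
    refine Function.ne_iff.mpr ⟨i, ?_⟩
    intro h
    apply hi
    apply hinj
    simpa [y] using h
  have h1 := NumberField.absNorm_mul_finprod_finitePlace_eq_one (K := K) hx
  have h2 := NumberField.absNorm_mul_finprod_finitePlace_eq_one (K := L) hy
  have hspan : Ideal.span (Set.range y) = (Ideal.span (Set.range x)).map (algebraMap (𝓞 K) (𝓞 L)) := by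
    rw [Ideal.map_span]
    congr 1
    ext z
    simp [y]
  have hfr : Module.finrank (𝓞 K) (𝓞 L) = Module.finrank K L := by
    rw [IsFractionRing.finrank_eq (𝓞 K) K (𝓞 L) L]
  have hn : ((Ideal.span (Set.range y)).absNorm : ℝ) =
      ((Ideal.span (Set.range x)).absNorm : ℝ) ^ (Module.finrank K L) := by
    rw [hspan, Ideal.absNorm_algebraMap, hfr]
    push_cast
    rfl
  have hy' : ∀ i, ((y i : 𝓞 L) : L) = algebraMap K L (x i : K) := by
    intro i
    simp only [y]
    rfl
  simp only [hy'] at h2
  rw [hn] at h2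
  have h3 : ((Ideal.span (Set.range x)).absNorm : ℝ) ≠ 0 := by
    intro h
    rw [h, zero_mul] at h1
    exact zero_ne_one h1
  have h4 : ∏ᶠ u : FinitePlace K, ⨆ i, u (x i : K) =
      (((Ideal.span (Set.range x)).absNorm : ℝ))⁻¹ := by
    exact eq_inv_of_mul_eq_one_right h1
  have h5 : ∏ᶠ w : FinitePlace L, ⨆ i, w (algebraMap K L (x i : K)) =
      (((Ideal.span (Set.range x)).absNorm : ℝ) ^ (Module.finrank K L))⁻¹ := by
    exact eq_inv_of_mul_eq_one_right h2
  rw [h4, h5, inv_pow]

end LEH
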