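/-
LH/Ifp (M)  MP_022f22_nt, Lehmer project, table modleh. Paper proof: /team-store/lehmer_proof.md
Infinite places and extensions: sum over infinite places w of L above v of mult w = [L:K] mult v, in product form.
Proof.  prod over w of F(w)^mult w = prod over complex embeddings phi of L of F(place of phi) (NumberField.InfinitePlace: prod_eq_prod_mul_prod? / each place has mult w embeddings:
card_filter_mk_eq), restriction of embeddings L -> C to K -> C has all fibres of size [L:K] (AlgHom.card, Field.finSepDegree..., or NumberField.Embeddings.card + primitive element; Mathlib: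
Algebra / AlgHom.card_of_splits, InfinitePlace.sum_mult.. comap).  place(phi).comap = place(phi restricted) (InfinitePlace.comap_mk).
-/
import Mathlib
import Pool.Agent.Work.MP_022f22_nt.LH.Defs

open NumberField IsDedekindDomain Polynomial Height Filter Topology

namespace LEH

open Classical in
private theorem ifp_card {K L : Type*} [Field K] [NumberField K] [Field L] [NumberField L]
    [Algebra K L] (ψ : K →+* ℂ) :
    (Finset.univ.filter fun φ : L →+* ℂ => φ.comp (algebraMap K L) = ψ).card =
      Module.finrank K L := by
  letI : Algebra K ℂ := ψ.toAlgebra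
  haveI : FiniteDimensional K L := Module.Finite.of_restrictScalars_finite ℚ K L
  rw [← AlgHom.card K L ℂ, ← Fintype.card_subtype]
  refine Fintype.card_congr ⟨fun φ => ⟨φ.1, fun x => RingHom.congr_fun φ.2 x⟩,
    fun φ => ⟨φ.toRingHom, RingHom.ext fun x => φ.commutes x⟩, fun _ => rfl, fun _ => rfl⟩

open Classical in
private theorem ifp_emb {K : Type*} [Field K] [NumberField K] (G : InfinitePlace K → ℝ) :
    ∏ w : InfinitePlace K, G w ^ w.mult = ∏ φ : K →+* ℂ, G (InfinitePlace.mk φ) := by
  rw [← Finset.prod_fiberwise_of_maps_to (g := fun φ : K →+* ℂ => InfinitePlace.mk φ)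
    (t := Finset.univ) (fun _ _ => Finset.mem_univ _)]
  refine Finset.prod_congr rfl fun w _ => ?_
  rw [Finset.prod_congr rfl (g := fun _ => G w)
    (fun φ hφ => by rw [(Finset.mem_filter.1 hφ).2]), Finset.prod_const,
    InfinitePlace.card_filter_mk_eq]

theorem inf_part {K L : Type*} [Field K] [NumberField K] [Field L] [NumberField L] [Algebra K L]
    (G : InfinitePlace K → ℝ) :
    ∏ w : InfinitePlace L, (G (w.comap (algebraMap K L))) ^ w.mult =
      (∏ u : InfinitePlace K, G u ^ u.mult) ^ (Module.finrank K L) := by
  classical
  rw [ifp_emb (fun w : InfinitePlace L => G (w.comap (algebraMap K L))), ifp_emb G,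
    ← Finset.prod_pow]
  rw [← Finset.prod_fiberwise_of_maps_to (g := fun φ : L →+* ℂ => φ.comp (algebraMap K L))
    (t := Finset.univ) (fun _ _ => Finset.mem_univ _)]
  refine Finset.prod_congr rfl fun ψ _ => ?_
  rw [Finset.prod_congr rfl (g := fun _ => G (InfinitePlace.mk ψ))
    (fun φ hφ => by rw [InfinitePlace.comap_mk, (Finset.mem_filter.1 hφ).2]), Finset.prod_const,
    ifp_card]

end LEH
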