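/-
LH/Hex (S-M)  MP_022f22_nt, Lehmer project, table modleh. Paper proof: /team-store/lehmer_proof.md
Heights over extensions: logHeight over L of a vector with coordinates in K is [L:K] times the logHeight over K.
x = 0: both sides 0.  x != 0: scale by a nonzero integer so that all coordinates are in O_K (exists common denominator; mulHeight_smul_eq_mulHeight on both sides); then
NumberField.mulHeight_eq, fin_part and inf_part (G u = sup_i u(x_i), w.comap(x) = w(algebraMap x)); take logs.
For algebra structures given by any ring homomorphism this also gives Galois invariance (module Gal).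
-/
import Mathlib
import Pool.Agent.Work.MP_022f22_nt.LH.Defs
import Pool.Agent.Work.MP_022f22_nt.LH.Ifp
import Pool.Agent.Work.MP_022f22_nt.LH.Fnp

open NumberField IsDedekindDomain Polynomial Height Filter Topology

namespace LEH

theorem logHeight_ext {K L : Type*} [Field K] [NumberField K] [Field L] [NumberField L]
    [Algebra K L] {ι : Type*} [Finite ι] (x : ι → K) :
    logHeight (fun i => algebraMap K L (x i)) = (Module.finrank K L : ℝ) * logHeight x := by
  by_cases hx : x = 0
  · subst hx
    have h1 : (fun i => algebraMap K L ((0 : ι → K) i)) = (0 : ι → L) := by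
      funext i
      simp
    rw [h1, logHeight_zero, logHeight_zero, mul_zero]
  obtain ⟨⟨b, hb⟩, hbx⟩ := IsLocalization.exist_integer_multiples_of_finite
    (nonZeroDivisors (𝓞 K)) x
  choose y hy using hbx
  have hb0 : (b : K) ≠ 0 := by
    intro h
    exact nonZeroDivisors.ne_zero hb (RingOfIntegers.ext h)
  have hy' : ∀ i, (y i : K) = (b : K) * x i := by
    intro i
    have h1 := hy i
    rw [Algebra.smul_def] at h1
    exact h1
  have hL0 : algebraMap K L (b : K) ≠ 0 := (_root_.map_ne_zero _).2 hb0
  have e1 : logHeight x = logHeight (fun i => (y i : K)) := by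
    rw [← logHeight_smul_eq_logHeight x hb0]
    congr 1
    funext i
    rw [Pi.smul_apply, smul_eq_mul, hy' i]
  have e2 : logHeight (fun i => algebraMap K L (x i)) =
      logHeight (fun i => algebraMap K L (y i : K)) := by
    rw [← logHeight_smul_eq_logHeight (fun i => algebraMap K L (x i)) hL0]
    congr 1
    funext i
    rw [Pi.smul_apply, smul_eq_mul, hy' i, map_mul]
  have hyK : (fun i => (y i : K)) ≠ 0 := by
    intro h
    apply hx
    funext i
    have h1 := congrFun h i
    rw [hy' i] at h1
    exact (mul_eq_zero.1 h1).resolve_left hb0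
  have hy0 : y ≠ 0 := by
    rintro rfl
    apply hyK
    funext i
    simp
  have hyL : (fun i => algebraMap K L (y i : K)) ≠ 0 := by
    intro h
    apply hyK
    funext i
    have h1 := congrFun h i
    exact (map_eq_zero (algebraMap K L)).1 h1
  rw [e1, e2, logHeight_eq_log_mulHeight, logHeight_eq_log_mulHeight,
    NumberField.mulHeight_eq hyK, NumberField.mulHeight_eq hyL, fin_part y hy0]
  have h3 := inf_part (K := K) (L := L) (fun u : InfinitePlace K => ⨆ i, u (y i : K))
  have h4 : ∏ w : InfinitePlace L, (⨆ i, w (algebraMap K L (y i : K))) ^ w.mult =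
      (∏ u : InfinitePlace K, (⨆ i, u (y i : K)) ^ u.mult) ^ (Module.finrank K L) := by
    rw [← h3]
    rfl
  rw [h4, ← mul_pow, Real.log_pow]

end LEH
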