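/-
LH/Abs (S-M)  MP_022f22_nt, Lehmer project, table modleh. Paper proof: /team-store/lehmer_proof.md
The absolute height of an algebraic number (Mathlib NumberField.absLogHeight₁) computed in a number field.  F field of characteristic 0, L number field, Algebra L F, x in L:
absLogHeight₁ (algebraMap L F x) = logHeight₁ x/[L:Q].
Definition: M = Q(x') (x' the image of x in F; an IntermediateField Q F), mulHeight₁ over M of the generator, to the power 1/[M:Q].  x' integral over Q since x is.  Make L an algebra over M: the embedding M -> L with gen -> x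
(IntermediateField.adjoin of x', lift of x; or M is isomorphic to Q(x) inside L, e.g. IntermediateField.adjoin and the AlgHom restricted: minpoly Q x' = minpoly Q x, AdjoinSimple lift), so
logHeight₁_L(x) = [L:M] logHeight₁_M(gen) by logHeight_ext (Hex) for ![gen, 1] (logHeight₁_eq_logHeight), [L:Q] = [L:M][M:Q].
-/
import Mathlib
import Pool.Agent.Work.MP_022f22_nt.LH.Defs
import Pool.Agent.Work.MP_022f22_nt.LH.Hex

open NumberField IsDedekindDomain Polynomial Height Filter Topology

namespace LEH

open IntermediateField in
private theorem absLog_unfold {F : Type*} [Field F] [CharZero F] (x : F) (hx : IsIntegral ℚ x)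
    [NumberField ℚ⟮x⟯] :
    NumberField.absLogHeight₁ x =
      logHeight₁ (AdjoinSimple.gen ℚ x) / (Module.finrank ℚ ℚ⟮x⟯ : ℝ) := by
  rw [NumberField.absLogHeight₁, NumberField.absMulHeight₁, dif_pos hx,
    Real.log_rpow (mulHeight₁_pos _), logHeight₁_eq_log_mulHeight₁, div_eq_inv_mul]

theorem absLogHeight_eq {L F : Type*} [Field L] [NumberField L] [Field F] [CharZero F]
    [Algebra L F] (x : L) :
    NumberField.absLogHeight₁ (algebraMap L F x) = logHeight₁ x / (Module.finrank ℚ L : ℝ) := by
  have hxL : IsIntegral ℚ x := Algebra.IsIntegral.isIntegral x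
  have hx : IsIntegral ℚ (algebraMap L F x) := by
    have := hxL.map ((algebraMap L F).toRatAlgHom)
    simpa using this
  set y : F := algebraMap L F x with hy
  haveI : FiniteDimensional ℚ (IntermediateField.adjoin ℚ {y}) :=
    IntermediateField.adjoin.finiteDimensional hx
  haveI : NumberField (IntermediateField.adjoin ℚ {y}) := {}
  rw [absLog_unfold y hx]
  have h0 : aeval x (minpoly ℚ (IntermediateField.adjoin.powerBasis hx).gen) = 0 := by
    rw [IntermediateField.adjoin.powerBasis_gen]
    apply (algebraMap L F).injective
    set m := minpoly ℚ (IntermediateField.AdjoinSimple.gen ℚ y) with hm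
    have h1 := Polynomial.aeval_algHom_apply (algebraMap L F).toRatAlgHom x m
    have h2 := Polynomial.aeval_algHom_apply
      (algebraMap (IntermediateField.adjoin ℚ {y}) F).toRatAlgHom
      (IntermediateField.AdjoinSimple.gen ℚ y) m
    have h3 : (algebraMap (IntermediateField.adjoin ℚ {y}) F).toRatAlgHom
        (IntermediateField.AdjoinSimple.gen ℚ y) = y := rfl
    have h4 : (algebraMap L F).toRatAlgHom x = y := rfl
    rw [h3] at h2
    rw [h4] at h1
    have h5 : (algebraMap L F) (aeval x m) = (algebraMap L F).toRatAlgHom (aeval x m) := rfl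
    rw [map_zero, h5, ← h1, h2, hm, minpoly.aeval, map_zero]
  let f : IntermediateField.adjoin ℚ {y} →ₐ[ℚ] L := (IntermediateField.adjoin.powerBasis hx).lift x h0
  have hf : f (IntermediateField.AdjoinSimple.gen ℚ y) = x := by
    have := (IntermediateField.adjoin.powerBasis hx).lift_gen x h0
    rwa [IntermediateField.adjoin.powerBasis_gen] at this
  letI : Algebra (IntermediateField.adjoin ℚ {y}) L := f.toRingHom.toAlgebra
  have hfa : algebraMap (IntermediateField.adjoin ℚ {y}) L
      (IntermediateField.AdjoinSimple.gen ℚ y) = x := hf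
  haveI : IsScalarTower ℚ (IntermediateField.adjoin ℚ {y}) L :=
    IsScalarTower.of_algebraMap_eq' (Subsingleton.elim _ _)
  have hext := logHeight_ext (L := L) ![IntermediateField.AdjoinSimple.gen ℚ y, 1]
  have hv : (fun i => algebraMap (IntermediateField.adjoin ℚ {y}) L
      (![IntermediateField.AdjoinSimple.gen ℚ y, 1] i)) = ![x, 1] := by
    funext i
    fin_cases i
    · simpa using hfa
    · simp
  rw [hv, ← logHeight₁_eq_logHeight, ← logHeight₁_eq_logHeight] at hext
  have hd := Module.finrank_mul_finrank ℚ (IntermediateField.adjoin ℚ {y}) L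
  have hp : 0 < Module.finrank ℚ (IntermediateField.adjoin ℚ {y}) := Module.finrank_pos
  haveI : FiniteDimensional (IntermediateField.adjoin ℚ {y}) L :=
    FiniteDimensional.right ℚ _ _
  have hq : 0 < Module.finrank (IntermediateField.adjoin ℚ {y}) L := Module.finrank_pos
  rw [hext, ← hd]
  have hp' : (Module.finrank ℚ (IntermediateField.adjoin ℚ {y}) : ℝ) ≠ 0 := by positivity
  have hq' : (Module.finrank (IntermediateField.adjoin ℚ {y}) L : ℝ) ≠ 0 := by positivity
  push_cast
  field_simp

end LEH
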