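/-
LH/Org (S)  MP_022f22_nt, Lehmer project, table modleh. Paper proof: /team-store/lehmer_proof.md
Basic facts on orbF I a = {sigma a : sigma in I} (Finset.image over Finset.univ : Finset I).
 * mem_orbF: Finset.mem_image.  self_mem: sigma = 1.  orbF_sub_top.  orbF_smul: sigma in I: reindex.  orbF_top_smul.
 * orbF_image: f commuting with all sigma in I maps orbF I a onto orbF I (f a).
 * orbF_card_pos: nonempty.  dg_pos, dg_smul.  orbF_conj: phi I phi^-1 = I gives phi(orbF I a) = orbF I (phi a).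
 * orbF_stab: stable under I: sigma maps orbF I a into itself (bijectively).
-/
import Mathlib
import Pool.Agent.Work.MP_022f22_nt.LH.Defs

open NumberField IsDedekindDomain Polynomial Height Filter Topology

namespace LEH

variable {K L : Type*} [Field K] [Field L] [Algebra K L] [FiniteDimensional K L]

theorem mem_orbF {I : Subgroup (L ≃ₐ[K] L)} {a b : L} :
    b ∈ orbF I a ↔ ∃ σ ∈ I, σ a = b := by
  classical
  unfold orbF
  constructor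
  · intro h
    simp only [Finset.mem_image, Finset.mem_univ, true_and] at h
    obtain ⟨σ, hσ⟩ := h
    exact ⟨σ.1, σ.2, hσ⟩
  · rintro ⟨σ, hσ, h⟩
    simp only [Finset.mem_image, Finset.mem_univ, true_and]
    exact ⟨⟨σ, hσ⟩, h⟩

theorem self_mem_orbF (I : Subgroup (L ≃ₐ[K] L)) (a : L) : a ∈ orbF I a :=
  mem_orbF.mpr ⟨1, I.one_mem, rfl⟩

theorem orbF_card_pos (I : Subgroup (L ≃ₐ[K] L)) (a : L) : 0 < (orbF I a).card :=
  Finset.card_pos.mpr ⟨a, self_mem_orbF I a⟩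

theorem orbF_sub_top (I : Subgroup (L ≃ₐ[K] L)) (a : L) :
    orbF I a ⊆ orbF (⊤ : Subgroup (L ≃ₐ[K] L)) a := by
  intro b hb
  obtain ⟨σ, _, h⟩ := mem_orbF.mp hb
  exact mem_orbF.mpr ⟨σ, Subgroup.mem_top σ, h⟩

theorem orbF_smul {I : Subgroup (L ≃ₐ[K] L)} {σ : L ≃ₐ[K] L} (hσ : σ ∈ I) (a : L) :
    orbF I (σ a) = orbF I a := by
  ext b
  rw [mem_orbF, mem_orbF]
  constructor
  · rintro ⟨τ, hτ, h⟩
    exact ⟨τ * σ, I.mul_mem hτ hσ, h⟩
  · rintro ⟨τ, hτ, h⟩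
    refine ⟨τ * σ⁻¹, I.mul_mem hτ (I.inv_mem hσ), ?_⟩
    rw [AlgEquiv.mul_apply]
    have : σ⁻¹ (σ a) = a := by
      rw [← AlgEquiv.mul_apply, inv_mul_cancel]; rfl
    rw [this]; exact h

theorem orbF_eq_of_mem {I : Subgroup (L ≃ₐ[K] L)} {a b : L} (h : b ∈ orbF I a) :
    orbF I b = orbF I a := by
  obtain ⟨σ, hσ, h⟩ := mem_orbF.mp h
  rw [← h]; exact orbF_smul hσ a

theorem orbF_image {I : Subgroup (L ≃ₐ[K] L)} (f : L → L) (hf : ∀ σ ∈ I, ∀ x, f (σ x) = σ (f x))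
    (a : L) : (orbF I a : Set L).image f = (orbF I (f a) : Set L) := by
  ext b
  simp only [Set.mem_image, Finset.mem_coe, mem_orbF]
  constructor
  · rintro ⟨x, ⟨σ, hσ, rfl⟩, rfl⟩
    exact ⟨σ, hσ, (hf σ hσ a).symm⟩
  · rintro ⟨σ, hσ, rfl⟩
    exact ⟨σ a, ⟨σ, hσ, rfl⟩, hf σ hσ a⟩

theorem orbF_conj {I : Subgroup (L ≃ₐ[K] L)} {φ : L ≃ₐ[K] L}
    (h : ∀ σ, σ ∈ I ↔ φ * σ * φ⁻¹ ∈ I) (a : L) :
    (orbF I a : Set L).image φ = (orbF I (φ a) : Set L) := by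
  have hinv : ∀ x, φ⁻¹ (φ x) = x := by
    intro x
    rw [← AlgEquiv.mul_apply, inv_mul_cancel]; rfl
  ext b
  simp only [Set.mem_image, Finset.mem_coe, mem_orbF]
  constructor
  · rintro ⟨x, ⟨σ, hσ, rfl⟩, rfl⟩
    refine ⟨φ * σ * φ⁻¹, (h σ).mp hσ, ?_⟩
    rw [AlgEquiv.mul_apply, AlgEquiv.mul_apply, hinv]
  · rintro ⟨τ, hτ, rfl⟩
    refine ⟨(φ⁻¹ * τ * φ) a, ⟨φ⁻¹ * τ * φ, ?_, rfl⟩, ?_⟩
    · rw [h]
      have : φ * (φ⁻¹ * τ * φ) * φ⁻¹ = τ := by group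
      rw [this]; exact hτ
    · rw [← AlgEquiv.mul_apply]
      have : φ * (φ⁻¹ * τ * φ) = τ * φ := by group
      rw [this]; rfl

theorem dg_pos (a : L) : 0 < dg K a := orbF_card_pos _ a

theorem dg_smul (σ : L ≃ₐ[K] L) (a : L) : dg K (σ a) = dg K a := by
  unfold dg
  rw [orbF_smul (Subgroup.mem_top σ)]

end LEH
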