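/-
LH/Dgr (S-M)  MP_022f22_nt, Lehmer project, table modleh. Paper proof: /team-store/lehmer_proof.md
dg K a <= [K(x,y):K], for a in L (intermediate field of F/K, finite Galois over K) with image x in F, y algebraic over K.
dg K a = number of conjugates sigma a <= number of roots of minpoly K a <= natDegree(minpoly K a) = finrank K K(a); K(x) is contained in K(x,y) (finite), finrank is monotone, minpoly K a = minpoly K x.
-/
import Mathlib
import Pool.Agent.Work.MP_022f22_nt.LH.Defs
import Pool.Agent.Work.MP_022f22_nt.LH.Org

open NumberField IsDedekindDomain Polynomial Height Filter Topology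

namespace LEH

theorem dg_le {K F : Type} [Field K] [NumberField K] [Field F] [Algebra K F]
    (L : IntermediateField K F) [FiniteDimensional K L] (a : L) (y : F) (hy : IsIntegral K y) :
    dg K a ≤ Module.finrank K (IntermediateField.adjoin K {(a : F), y}) := by
  classical
  have hinta : IsIntegral K a := Algebra.IsIntegral.isIntegral a
  have hintF : IsIntegral K (a : F) := hinta.map L.val
  -- the orbit consists of roots of the minimal polynomial
  have h1 : dg K a ≤ (minpoly K a).natDegree := by
    have hne : minpoly K a ≠ 0 := minpoly.ne_zero hinta
    have hsub : orbF (⊤ : Subgroup (L ≃ₐ[K] L)) a ⊆ ((minpoly K a).aroots L).toFinset := by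
      intro b hb
      obtain ⟨σ, _, rfl⟩ := mem_orbF.1 hb
      rw [Multiset.mem_toFinset, Polynomial.mem_aroots]
      refine ⟨hne, ?_⟩
      have h2 : aeval (σ a) (minpoly K a) = σ (aeval a (minpoly K a)) :=
        Polynomial.aeval_algHom_apply (σ : L →ₐ[K] L) a (minpoly K a)
      rw [h2, minpoly.aeval, map_zero]
    refine (Finset.card_le_card hsub).trans ((Multiset.toFinset_card_le _).trans ?_)
    refine (Polynomial.card_roots' _).trans ?_
    rw [Polynomial.natDegree_map]
  have h2 : minpoly K (a : F) = minpoly K a := minpoly.algebraMap_eq L.val.injective a
  have h3 : (minpoly K a).natDegree =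
      Module.finrank K (IntermediateField.adjoin K {(a : F)}) := by
    rw [← h2]
    exact (IntermediateField.adjoin.finrank hintF).symm
  rw [h3] at h1
  refine h1.trans ?_
  have hfd : FiniteDimensional K (IntermediateField.adjoin K {(a : F), y}) := by
    refine IntermediateField.finiteDimensional_adjoin fun x hx => ?_
    rcases hx with rfl | hx
    · exact hintF
    · rw [Set.mem_singleton_iff] at hx
      rw [hx]
      exact hy
  have hle : IntermediateField.adjoin K {(a : F)} ≤ IntermediateField.adjoin K {(a : F), y} :=
    IntermediateField.adjoin.mono K _ _ (by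
      intro x hx
      rw [Set.mem_singleton_iff] at hx
      rw [hx]
      exact Set.mem_insert _ _)
  exact LinearMap.finrank_le_finrank_of_injective
    (f := (IntermediateField.inclusion hle).toLinearMap)
    (IntermediateField.inclusion_injective hle)

end LEH
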