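/-
LH/Mhb (M)  MP_022f22_nt, Lehmer project, table modleh. Paper proof: /team-store/lehmer_proof.md
Uniform bound for mulHeightBound over extensions.  q : ι -> MvPolynomial σ K (finite types).  There is C >= 0 with
 log (max (mulHeightBound (fun j => (q j).map (algebraMap K L))) 1) <= C [L:Q] for all number fields L over K.
Proof.  Definition (Mathlib Height/MvPolynomial.lean, mulHeightBound_eq): product over infinite places w (with multiplicity) of sup_j sum_s |c_{j,s}|_w times finprod over finite places of
sup_j max (sup_s |c_{j,s}|_w) 1.  Let κ be the finite vector of all coefficients of all q_j together with the entry 1 (κ != 0), n0 >= 1 its length.  Infinite: sup_j sum_s |c| <= n0 * sup κ, sup κ >= 1;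
finite: sup_j max(...)1 <= sup κ, sup κ >= 1.  So bound <= n0^[L:Q] * (infinite part of mulHeight_L κ) * (finite part) <= n0^[L:Q] mulHeight_L(κ) = n0^[L:Q] mulHeight_K(κ)^[L:K] (logHeight_ext).
C = log n0 + logHeight_K(κ).  (The supports of the mapped polynomials are the same as algebraMap is injective; if the index type of j is empty both factors are treated by Real.iSup_of_isEmpty, the bound is 0 or 1.)
-/
import Mathlib
import Pool.Agent.Work.MP_022f22_nt.LH.Defs
import Pool.Agent.Work.MP_022f22_nt.LH.Hex

open NumberField IsDedekindDomain Polynomial Height Filter Topology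

namespace LEH

open MvPolynomial Height.AdmissibleAbsValues

/-- the vector of all coefficients, together with the entry `1` -/
private noncomputable def kap {K : Type} [Field K] {ι σ : Type} (q : ι → MvPolynomial σ K) :
    Option (Σ j : ι, {s // s ∈ (q j).support}) → K
  | none => 1
  | some t => coeff t.2.1 (q t.1)

private lemma kap_ne {K : Type} [Field K] {ι σ : Type} (q : ι → MvPolynomial σ K) :
    kap q ≠ 0 := fun h => one_ne_zero (congrFun h none)

private lemma hfm {L : Type} [Field L] [AdmissibleAbsValues L] {ι : Type*} [Finite ι]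
    {x : ι → L} (hx : x ≠ 0) :
    (fun v : nonarchAbsVal (K := L) ↦ ⨆ i, v.val (x i)).HasFiniteMulSupport := by
  have : Nonempty {j // x j ≠ 0} := nonempty_subtype.mpr <| Function.ne_iff.mp hx
  suffices (fun v : nonarchAbsVal (K := L) ↦
      ⨆ i : {j // x j ≠ 0}, v.val (x i)).HasFiniteMulSupport by
    convert! this with v
    obtain ⟨i, hi⟩ : ∃ j, x j ≠ 0 := Function.ne_iff.mp hx
    have : Nonempty ι := .intro i
    refine le_antisymm (ciSup_le fun j ↦ ?_) (ciSup_le fun ⟨j, hj⟩ ↦ Finite.le_ciSup_of_le j le_rfl)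
    rcases eq_or_ne (x j) 0 with h | h
    · rw [h, v.val.map_zero]
      exact Real.iSup_nonneg' ⟨⟨i, hi⟩, v.val.nonneg ..⟩
    · exact Finite.le_ciSup_of_le ⟨j, h⟩ le_rfl
  fun_prop (disch := grind)

open Function in
private lemma hfm2 {L : Type} [Field L] [AdmissibleAbsValues L] {ι' ι : Type*} [Finite ι']
    (h : Nonempty ι') (p : ι' → MvPolynomial ι L) :
    (fun v : nonarchAbsVal (K := L) ↦
      ⨆ j, max (⨆ s : (p j).support, v.val (coeff s.val (p j))) 1).HasFiniteMulSupport := by
  refine HasFiniteMulSupport.iSup fun j ↦ ?_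
  rcases isEmpty_or_nonempty (p j).support with hs₀ | hs₀
  · simp [hasFiniteMulSupport_one]
  have H (s : (p j).support) : coeff s.val (p j) ≠ 0 := mem_support_iff.mp s.prop
  fun_prop (disch := simp [H])

private lemma sup_pos {K L : Type} [Field K] [Field L] [Algebra K L]
    {ι σ : Type} [Fintype ι] [Fintype σ] (q : ι → MvPolynomial σ K) (v : AbsoluteValue L ℝ) :
    1 ≤ ⨆ i, v (algebraMap K L (kap q i)) :=
  Finite.le_ciSup_of_le none (by simp [kap])

private lemma coeff_le {K L : Type} [Field K] [Field L] [Algebra K L]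
    {ι σ : Type} [Fintype ι] [Fintype σ] (q : ι → MvPolynomial σ K) (v : AbsoluteValue L ℝ)
    (j : ι) (s : σ →₀ ℕ) (hs : s ∈ (q j).support) :
    v (coeff s ((q j).map (algebraMap K L))) ≤ ⨆ i, v (algebraMap K L (kap q i)) := by
  rw [MvPolynomial.coeff_map]
  exact Finite.le_ciSup_of_le (some ⟨j, ⟨s, hs⟩⟩) (by simp [kap])

private lemma arch_le {K L : Type} [Field K] [Field L] [Algebra K L]
    {ι σ : Type} [Fintype ι] [Fintype σ] (q : ι → MvPolynomial σ K) (v : AbsoluteValue L ℝ) :
    (⨆ j, (AddMonoidAlgebra.coeff ((q j).map (algebraMap K L))).sum (fun _ c ↦ v c)) ≤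
      (Nat.card (Option (Σ j : ι, {s // s ∈ (q j).support})) : ℝ) *
        ⨆ i, v (algebraMap K L (kap q i)) := by
  have hpos := sup_pos q v
  refine Real.iSup_le (fun j => ?_) (by positivity)
  have h1 : (AddMonoidAlgebra.coeff ((q j).map (algebraMap K L))).sum (fun _ c ↦ v c) ≤
      ∑ s ∈ (q j).support, v (coeff s ((q j).map (algebraMap K L))) := by
    refine Finset.sum_le_sum_of_subset_of_nonneg (support_map_subset _ _) ?_
    intro i _ _
    exact v.nonneg _
  refine h1.trans ?_
  refine (Finset.sum_le_sum (fun s hs => coeff_le q v j s hs)).trans ?_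
  rw [Finset.sum_const, nsmul_eq_mul]
  gcongr
  classical
  rw [Nat.card_eq_fintype_card, ← Fintype.card_coe]
  refine Fintype.card_le_of_injective (fun s => some ⟨j, s⟩) ?_
  intro a b hab
  simpa using hab

theorem mhb_bound {K : Type} [Field K] [NumberField K] {ι σ : Type} [Fintype ι] [Fintype σ]
    (q : ι → MvPolynomial σ K) :
    ∃ C : ℝ, 0 ≤ C ∧ ∀ (L : Type) [Field L] [NumberField L] [Algebra K L],
      Real.log (max (mulHeightBound (fun j => (q j).map (algebraMap K L))) 1) ≤
        C * (Module.finrank ℚ L : ℝ) := by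
  classical
  set n0 : ℕ := Nat.card (Option (Σ j : ι, {s // s ∈ (q j).support})) with hn0
  have hn1 : 1 ≤ n0 := Nat.one_le_iff_ne_zero.mpr Nat.card_pos.ne'
  have hn1' : (1 : ℝ) ≤ n0 := by exact_mod_cast hn1
  refine ⟨Real.log n0 + logHeight (kap q), add_nonneg (Real.log_nonneg hn1') (logHeight_nonneg _),
    ?_⟩
  intro L _ _ _
  set κ : Option (Σ j : ι, {s // s ∈ (q j).support}) → L := fun i => algebraMap K L (kap q i)
    with hκ
  have hκ0 : κ ≠ 0 := fun h => by
    have := congrFun h none
    simp [hκ, kap] at this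
  have hbound : mulHeightBound (fun j => (q j).map (algebraMap K L)) ≤
      (n0 : ℝ) ^ totalWeight L * mulHeight κ := by
    rw [mulHeightBound_eq, Height.mulHeight_eq hκ0, ← mul_assoc]
    have hA0 : 0 ≤ (archAbsVal (K := L).map fun v ↦ ⨆ j,
        (AddMonoidAlgebra.coeff ((q j).map (algebraMap K L))).sum (fun _ c ↦ v c)).prod :=
      Multiset.prod_map_nonneg fun v _ ↦ Real.iSup_nonneg fun j ↦
        Finsupp.sum_nonneg' fun s ↦ v.nonneg _
    have hF0 : 0 ≤ ∏ᶠ v : nonarchAbsVal (K := L), ⨆ i, v.val (κ i) :=
      finprod_nonneg fun v ↦ Real.iSup_nonneg_of_nonnegHomClass v.val _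
    rcases isEmpty_or_nonempty ι with hι | hι
    · have h0 : (archAbsVal (K := L).map fun v ↦ ⨆ j,
        (AddMonoidAlgebra.coeff ((q j).map (algebraMap K L))).sum (fun _ c ↦ v c)).prod = 0 := by
        simp only [Real.iSup_of_isEmpty, Multiset.map_const', Multiset.prod_replicate]
        exact zero_pow (NumberField.totalWeight_pos (K := L)).ne'
      rw [h0, zero_mul]
      refine mul_nonneg (mul_nonneg (by positivity) ?_) hF0
      exact Multiset.prod_map_nonneg fun v _ ↦ Real.iSup_nonneg_of_nonnegHomClass v _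
    · refine mul_le_mul ?_ ?_ ?_ ?_
      · rw [totalWeight, ← Multiset.prod_replicate, ← Multiset.map_const', ← Multiset.prod_map_mul]
        refine Multiset.prod_map_le_prod_map₀ _ _ (fun v _ ↦ Real.iSup_nonneg fun j ↦
          Finsupp.sum_nonneg' fun s ↦ v.nonneg _) fun v _ ↦ ?_
        exact arch_le q v
      · refine finprod_le_finprod (hfm2 hι _) (fun v ↦ Real.iSup_nonneg fun j ↦ by positivity)
          (hfm hκ0) fun v ↦ ?_
        have hpos := sup_pos q v.val
        refine ciSup_le fun j ↦ max_le (Real.iSup_le (fun s => ?_) (by positivity)) hpos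
        exact coeff_le q v.val j s.1 (support_map_subset _ _ s.2)
      · exact finprod_nonneg fun v ↦ Real.iSup_nonneg fun j ↦ by positivity
      · exact mul_nonneg (by positivity)
          (Multiset.prod_map_nonneg fun v _ ↦ Real.iSup_nonneg_of_nonnegHomClass v _)
  have h1 : max (mulHeightBound (fun j => (q j).map (algebraMap K L))) 1 ≤
      (n0 : ℝ) ^ totalWeight L * mulHeight κ :=
    max_le hbound (one_le_mul_of_one_le_of_one_le (one_le_pow₀ hn1') (one_le_mulHeight _))
  have h2 : Real.log (max (mulHeightBound (fun j => (q j).map (algebraMap K L))) 1) ≤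
      (totalWeight L : ℝ) * Real.log n0 + logHeight κ := by
    refine (Real.log_le_log (by positivity) h1).trans ?_
    rw [Real.log_mul (by positivity) (mulHeight_ne_zero _), Real.log_pow,
      logHeight_eq_log_mulHeight]
  rw [hκ, logHeight_ext, NumberField.totalWeight_eq_finrank] at h2
  refine h2.trans ?_
  have h3 : (Module.finrank K L : ℝ) ≤ Module.finrank ℚ L := by
    rw [← Module.finrank_mul_finrank ℚ K L]
    have : 1 ≤ Module.finrank ℚ K := Module.finrank_pos
    exact_mod_cast Nat.le_mul_of_pos_left _ this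
  have h4 := logHeight_nonneg (kap q)
  nlinarith [mul_le_mul_of_nonneg_right h3 h4]

end LEH
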