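/-
LH/Dpb (M)  MP_022f22_nt, Lehmer project, table modleh. Paper proof: /team-store/lehmer_proof.md
Uniform height bounds for the duplication forms: |logHeight(dup u) - 4 logHeight u| <= C [L:Q] for all L over K, all u = (x,z) in L^2.
Upper: Height.logHeight_eval_le with p = ![form dupA, form dupB] in MvPolynomial (Fin 2) K, mapped to L (homogeneous of degree 4), and mhb_bound.
Lower: Height.logHeight_eval_ge with M = 4, N = 4 and the cofactors q (k,j) = Δ^-1 * addSubMapCoeff (i,j) evaluated at ![X0^2, 2 X0 X1, X1^2] (i = 0 for k = 0, i = 2 for k = 1; j = 0, 1), homogeneous of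
degree 4, relation sum_j q(k,j) p_j = X_k^8 by addSubMapCoeff_condition (the third component (2xz)^2 - 4x^2z^2 vanishes) [see Dpi.lean]; constant: log(2^[L:Q] * max (mulHeightBound q) 1) <= C [L:Q]
(Nat.card (Fin 2) = 2, totalWeight L = [L:Q]: NumberField.totalWeight_eq_finrank) and mhb_bound.  Everything commutes with the map K -> L ((W.baseChange L).b₂ = algebraMap W.b₂ etc.).
-/
import Mathlib
import Pool.Agent.Work.MP_022f22_nt.LH.Defs
import Pool.Agent.Work.MP_022f22_nt.LH.Mhb
import Pool.Agent.Work.MP_022f22_nt.LH.Dpi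

open NumberField IsDedekindDomain Polynomial Height Filter Topology

namespace LEH

section aux

open MvPolynomial WeierstrassCurve

private theorem nat00 {R S : Type*} [CommRing R] [CommRing S] (f : R →+* S)
    (W : WeierstrassCurve R) :
    addSubMapCoeff (W.map f) (0, 0) = MvPolynomial.map f (addSubMapCoeff W (0, 0)) := by
  simp [addSubMapCoeff, map_ofNat]

private theorem nat01 {R S : Type*} [CommRing R] [CommRing S] (f : R →+* S)
    (W : WeierstrassCurve R) :
    addSubMapCoeff (W.map f) (0, 1) = MvPolynomial.map f (addSubMapCoeff W (0, 1)) := by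
  simp [addSubMapCoeff, map_ofNat]

private theorem nat20 {R S : Type*} [CommRing R] [CommRing S] (f : R →+* S)
    (W : WeierstrassCurve R) :
    addSubMapCoeff (W.map f) (2, 0) = MvPolynomial.map f (addSubMapCoeff W (2, 0)) := by
  simp [addSubMapCoeff, map_ofNat]

private theorem nat21 {R S : Type*} [CommRing R] [CommRing S] (f : R →+* S)
    (W : WeierstrassCurve R) :
    addSubMapCoeff (W.map f) (2, 1) = MvPolynomial.map f (addSubMapCoeff W (2, 1)) := by
  simp [addSubMapCoeff, map_ofNat]

/-- the substitution `s = x^2`, `t = 2xz`, `u = z^2` -/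
private noncomputable def sb (R : Type*) [CommRing R] : Fin 3 → MvPolynomial (Fin 2) R :=
  ![MvPolynomial.X 0 ^ 2, MvPolynomial.C 2 * MvPolynomial.X 0 * MvPolynomial.X 1,
    MvPolynomial.X 1 ^ 2]

private theorem sb_hom (R : Type*) [CommRing R] (i : Fin 3) : (sb R i).IsHomogeneous 2 := by
  fin_cases i
  · exact isHomogeneous_X_pow ..
  · exact .mul (isHomogeneous_C_mul_X ..) (isHomogeneous_X ..)
  · exact isHomogeneous_X_pow ..

private theorem eval_sub {R S : Type*} [CommRing R] [CommRing S] (f : R →+* S) (u : Fin 2 → S)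
    (g : Fin 3 → MvPolynomial (Fin 2) R) (P : MvPolynomial (Fin 3) R) :
    MvPolynomial.eval u (MvPolynomial.map f (MvPolynomial.aeval g P)) =
      MvPolynomial.eval (fun i => MvPolynomial.eval u (MvPolynomial.map f (g i)))
        (MvPolynomial.map f P) := by
  induction P using MvPolynomial.induction_on with
  | C a => simp [MvPolynomial.algebraMap_eq]
  | add p q hp hq => rw [map_add, map_add, map_add, map_add, map_add, hp, hq]
  | mul_X p n hp =>
    rw [map_mul, map_mul, map_mul, map_mul, map_mul, hp, MvPolynomial.aeval_X, MvPolynomial.map_X,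
      MvPolynomial.eval_X]

private theorem sb_eval {R S : Type*} [CommRing R] [CommRing S] (f : R →+* S) (x z : S) :
    (fun i => MvPolynomial.eval ![x, z] (MvPolynomial.map f (sb R i))) =
      ![x ^ 2, 2 * x * z, z ^ 2] := by
  funext i
  fin_cases i <;> simp [sb, map_ofNat]

private noncomputable def pp {R : Type*} [CommRing R] (W : WeierstrassCurve R) :
    Fin 2 → MvPolynomial (Fin 2) R :=
  ![MvPolynomial.aeval (sb R) (addSubMap W 0), MvPolynomial.aeval (sb R) (addSubMap W 1)]

private noncomputable def qq {R : Type*} [Field R] (W : WeierstrassCurve R) :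
    Fin 2 × Fin 2 → MvPolynomial (Fin 2) R := fun a =>
  MvPolynomial.C (W.Δ⁻¹) * MvPolynomial.aeval (sb R)
    (addSubMapCoeff W ((![0, 2] : Fin 2 → Fin 3) a.1, (![0, 1] : Fin 2 → Fin 3) a.2))

private theorem pp_hom {R : Type*} [CommRing R] (W : WeierstrassCurve R) (i : Fin 2) :
    (pp W i).IsHomogeneous 4 := by
  fin_cases i
  · exact (isHomogeneous_addSubMap W 0).aeval (sb R) (sb_hom R)
  · exact (isHomogeneous_addSubMap W 1).aeval (sb R) (sb_hom R)

private theorem qq_hom {R : Type*} [Field R] (W : WeierstrassCurve R) (a : Fin 2 × Fin 2) :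
    (qq W a).IsHomogeneous 4 := by
  unfold qq
  exact ((isHomogeneous_addSubMapCoeff W _).aeval (sb R) (sb_hom R)).C_mul _

private theorem pp_eval {R S : Type*} [CommRing R] [CommRing S] (f : R →+* S)
    (W : WeierstrassCurve R) (x z : S) :
    (fun j => MvPolynomial.eval ![x, z] (MvPolynomial.map f (pp W j))) =
      ![dupA (W.map f) x z, dupB (W.map f) x z] := by
  funext j
  fin_cases j
  · simp only [pp, Fin.zero_eta, Matrix.cons_val_zero]
    rw [eval_sub, sb_eval]
    simp [addSubMap, dupA, map_ofNat]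
    ring
  · simp only [pp, Fin.mk_one, Matrix.cons_val_one, Matrix.cons_val_fin_one]
    rw [eval_sub, sb_eval]
    simp [addSubMap, dupB, map_ofNat]
    ring

private theorem cond {R S : Type*} [Field R] [Field S] (f : R →+* S)
    (W : WeierstrassCurve R) (hΔ : W.Δ ≠ 0) (x z : S) (k : Fin 2) :
    ∑ j, MvPolynomial.eval ![x, z] (MvPolynomial.map f (qq W (k, j))) *
      MvPolynomial.eval ![x, z] (MvPolynomial.map f (pp W j)) = (![x, z] k) ^ (4 + 4) := by
  have hΔ' : (W.map f).Δ ≠ 0 := by
    rw [WeierstrassCurve.map_Δ]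
    exact fun h => hΔ ((map_eq_zero f).1 h)
  have : (W.map f).IsElliptic := ⟨isUnit_iff_ne_zero.2 hΔ'⟩
  have h0 := addSubMapCoeff_condition (W.map f) ![x ^ 2, 2 * x * z, z ^ 2]
    ((![0, 2] : Fin 2 → Fin 3) k)
  rw [Fin.sum_univ_three] at h0
  have h3 : MvPolynomial.eval ![x ^ 2, 2 * x * z, z ^ 2] (addSubMap (W.map f) 2) = 0 := by
    simp [addSubMap, map_ofNat]
    ring
  rw [h3, mul_zero, add_zero] at h0
  have hp0 : MvPolynomial.eval ![x, z] (MvPolynomial.map f (pp W 0)) =
      MvPolynomial.eval ![x ^ 2, 2 * x * z, z ^ 2] (addSubMap (W.map f) 0) := by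
    simp only [pp, Matrix.cons_val_zero]
    rw [eval_sub, sb_eval]
    congr 1
    simp [addSubMap, map_ofNat]
  have hp1 : MvPolynomial.eval ![x, z] (MvPolynomial.map f (pp W 1)) =
      MvPolynomial.eval ![x ^ 2, 2 * x * z, z ^ 2] (addSubMap (W.map f) 1) := by
    simp only [pp, Matrix.cons_val_one, Matrix.cons_val_fin_one]
    rw [eval_sub, sb_eval]
    congr 1
    simp [addSubMap, map_ofNat]
  have hd : f (W.Δ⁻¹) = (↑((W.map f).Δ'⁻¹) : S) := by
    rw [Units.val_inv_eq_inv_val, WeierstrassCurve.coe_Δ', WeierstrassCurve.map_Δ, map_inv₀]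
  rw [Fin.sum_univ_two, hp0, hp1]
  fin_cases k
  · simp only [qq, Fin.zero_eta, Matrix.cons_val_zero, Matrix.cons_val_one,
      Matrix.cons_val_fin_one, map_mul, MvPolynomial.map_C, MvPolynomial.eval_C] at h0 ⊢
    rw [eval_sub, eval_sub, sb_eval, ← nat00, ← nat01, hd, h0]
    ring
  · simp only [qq, Fin.mk_one, Matrix.cons_val_zero, Matrix.cons_val_one,
      Matrix.cons_val_fin_one, map_mul, MvPolynomial.map_C, MvPolynomial.eval_C] at h0 ⊢
    rw [eval_sub, eval_sub, sb_eval, ← nat20, ← nat21, hd, h0]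
    simp
    ring

end aux

theorem dup_bound {K : Type} [Field K] [NumberField K] (W : WeierstrassCurve K) (hΔ : W.Δ ≠ 0) :
    ∃ C : ℝ, 0 ≤ C ∧ ∀ (L : Type) [Field L] [NumberField L] [Algebra K L] (x z : L),
      |logHeight ![dupA (W.baseChange L) x z, dupB (W.baseChange L) x z] -
        4 * logHeight ![x, z]| ≤ C * (Module.finrank ℚ L : ℝ) := by
  obtain ⟨C1, hC1, h1⟩ := mhb_bound (pp W)
  obtain ⟨C2, hC2, h2⟩ := mhb_bound (qq W)
  have hl2 : 0 ≤ Real.log 2 := Real.log_nonneg (by norm_num)
  refine ⟨C1 + (Real.log 2 + C2), by positivity, ?_⟩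
  intro L _ _ _ x z
  have hn : (0 : ℝ) ≤ (Module.finrank ℚ L : ℝ) := Nat.cast_nonneg _
  have hv : (fun j => MvPolynomial.eval ![x, z] (MvPolynomial.map (algebraMap K L) (pp W j))) =
      ![dupA (W.baseChange L) x z, dupB (W.baseChange L) x z] := pp_eval (algebraMap K L) W x z
  have hup := logHeight_eval_le (p := fun j => MvPolynomial.map (algebraMap K L) (pp W j))
    (fun j => (pp_hom W j).map _) ![x, z]
  have hlow := logHeight_eval_ge (M := 4) (N := 4)
    (q := fun a => MvPolynomial.map (algebraMap K L) (qq W a))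
    (fun a => (qq_hom W a).map _) (fun j => MvPolynomial.map (algebraMap K L) (pp W j))
    (x := ![x, z]) (cond (algebraMap K L) W hΔ x z)
  rw [hv] at hup hlow
  have h1L := h1 L
  have h2L := h2 L
  have h3 : Real.log ((Nat.card (Fin 2) : ℝ) ^ totalWeight L *
      max (mulHeightBound (fun a => MvPolynomial.map (algebraMap K L) (qq W a))) 1) =
      (Module.finrank ℚ L : ℝ) * Real.log 2 +
        Real.log (max (mulHeightBound (fun a => MvPolynomial.map (algebraMap K L) (qq W a))) 1) := by
    rw [Real.log_mul (by simp) (by positivity), Real.log_pow, totalWeight_eq_finrank]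
    simp
  rw [h3] at hlow
  push_cast at hup hlow
  rw [abs_le]
  constructor
  · nlinarith [mul_nonneg hC1 hn]
  · nlinarith [mul_nonneg hC2 hn, mul_nonneg hl2 hn]

end LEH
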