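/-
LH/Hxl (M)  MP_022f22_nt, Lehmer project, table modleh. Paper proof: /team-store/lehmer_proof.md
Canonical height on the line: existence of the limit and bounds.  h_l = logHeight ![(dupIt l beta).1, (dupIt l beta).2]; |h_(l+1) - 4 h_l| <= C [L:Q] (dup_bound).  So h_l/(4^l [L:Q]) is Cauchy
(differences <= C/4^(l+1)), converges (cauchySeq_of_le_geometric / tendsto limUnder), limit hx beta (Filter.Tendsto.limUnder_eq), and |hx beta - h_l/(4^l [L:Q])| <= C/(3*4^l):
 h_l <= (4^l hx beta + C/3) [L:Q].   hx >= 0 since all terms are >= 0 (Height.logHeight_nonneg).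
-/
import Mathlib
import Pool.Agent.Work.MP_022f22_nt.LH.Defs
import Pool.Agent.Work.MP_022f22_nt.LH.Dpb

open NumberField IsDedekindDomain Polynomial Height Filter Topology

namespace LEH

private theorem hx_aux {K : Type} [Field K] [NumberField K] (W : WeierstrassCurve K) (C : ℝ)
    (hC : ∀ (L : Type) [Field L] [NumberField L] [Algebra K L] (x z : L),
      |logHeight ![dupA (W.baseChange L) x z, dupB (W.baseChange L) x z] -
        4 * logHeight ![x, z]| ≤ C * (Module.finrank ℚ L : ℝ))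
    (L : Type) [Field L] [NumberField L] [Algebra K L] (β : L) (l : ℕ) :
    dist (logHeight ![(dupIt (W.baseChange L) l β).1, (dupIt (W.baseChange L) l β).2] /
        (4 ^ l * (Module.finrank ℚ L : ℝ)))
      (logHeight ![(dupIt (W.baseChange L) (l + 1) β).1, (dupIt (W.baseChange L) (l + 1) β).2] /
        (4 ^ (l + 1) * (Module.finrank ℚ L : ℝ))) ≤ C / 4 * (1 / 4) ^ l := by
  have hd : (0 : ℝ) < (Module.finrank ℚ L : ℝ) := by
    exact_mod_cast Module.finrank_pos
  have h := hC L (dupIt (W.baseChange L) l β).1 (dupIt (W.baseChange L) l β).2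
  obtain ⟨x, hx⟩ : ∃ x, x = logHeight ![(dupIt (W.baseChange L) l β).1,
    (dupIt (W.baseChange L) l β).2] := ⟨_, rfl⟩
  obtain ⟨y, hy⟩ : ∃ y, y = logHeight ![(dupIt (W.baseChange L) (l + 1) β).1,
    (dupIt (W.baseChange L) (l + 1) β).2] := ⟨_, rfl⟩
  have hy' : y = logHeight ![dupA (W.baseChange L) (dupIt (W.baseChange L) l β).1
    (dupIt (W.baseChange L) l β).2, dupB (W.baseChange L) (dupIt (W.baseChange L) l β).1
    (dupIt (W.baseChange L) l β).2] := hy
  rw [← hx, ← hy'] at h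
  rw [← hx, ← hy, Real.dist_eq, abs_sub_comm]
  obtain ⟨d, hdd⟩ : ∃ d : ℝ, d = (Module.finrank ℚ L : ℝ) := ⟨_, rfl⟩
  rw [← hdd] at h hd ⊢
  have h1 : y / (4 ^ (l + 1) * d) - x / (4 ^ l * d) = (y - 4 * x) / (4 ^ (l + 1) * d) := by
    field_simp
    ring
  rw [h1, abs_div, abs_of_pos (show (0 : ℝ) < 4 ^ (l + 1) * d by positivity),
    div_le_iff₀ (by positivity)]
  have h2 : C / 4 * (1 / 4) ^ l * (4 ^ (l + 1) * d) = C * d := by
    rw [one_div, inv_pow]
    field_simp
    ring
  rw [h2]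
  exact h

theorem hx_tendsto {K : Type} [Field K] [NumberField K] (W : WeierstrassCurve K) (hΔ : W.Δ ≠ 0)
    (L : Type) [Field L] [NumberField L] [Algebra K L] (β : L) :
    Tendsto (fun l : ℕ => logHeight ![(dupIt (W.baseChange L) l β).1,
      (dupIt (W.baseChange L) l β).2] / (4 ^ l * (Module.finrank ℚ L : ℝ))) atTop
      (𝓝 (hx (W.baseChange L) β)) := by
  obtain ⟨C, _, hC⟩ := dup_bound W hΔ
  have h1 : CauchySeq (fun l : ℕ => logHeight ![(dupIt (W.baseChange L) l β).1,
      (dupIt (W.baseChange L) l β).2] / (4 ^ l * (Module.finrank ℚ L : ℝ))) :=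
    cauchySeq_of_le_geometric (1 / 4) (C / 4) (by norm_num) (hx_aux W C hC L β)
  exact tendsto_nhds_limUnder (cauchySeq_tendsto_of_complete h1)

theorem hx_nonneg {K : Type} [Field K] [NumberField K] (W : WeierstrassCurve K) (hΔ : W.Δ ≠ 0)
    (L : Type) [Field L] [NumberField L] [Algebra K L] (β : L) :
    0 ≤ hx (W.baseChange L) β := by
  refine ge_of_tendsto' (hx_tendsto W hΔ L β) (fun l => ?_)
  exact div_nonneg (Height.logHeight_nonneg _) (by positivity)

theorem hx_upper {K : Type} [Field K] [NumberField K] (W : WeierstrassCurve K) (hΔ : W.Δ ≠ 0) :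
    ∃ C : ℝ, 0 ≤ C ∧ ∀ (L : Type) [Field L] [NumberField L] [Algebra K L] (β : L) (l : ℕ),
      logHeight ![(dupIt (W.baseChange L) l β).1, (dupIt (W.baseChange L) l β).2] ≤
        (4 ^ l * hx (W.baseChange L) β + C) * (Module.finrank ℚ L : ℝ) := by
  obtain ⟨C, hC0, hC⟩ := dup_bound W hΔ
  refine ⟨C / 3, by positivity, ?_⟩
  intro L _ _ _ β l
  have hd : (0 : ℝ) < (Module.finrank ℚ L : ℝ) := by
    exact_mod_cast Module.finrank_pos
  have h1 := dist_le_of_le_geometric_of_tendsto (1 / 4) (C / 4) (by norm_num)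
    (hx_aux W C hC L β) (hx_tendsto W hΔ L β) l
  rw [Real.dist_eq] at h1
  have h2 := (abs_le.1 h1).2
  have h3 : C / 4 * (1 / 4) ^ l / (1 - 1 / 4) = C / 3 / 4 ^ l := by
    rw [one_div, inv_pow]
    field_simp
    norm_num
  rw [h3] at h2
  have h4 : logHeight ![(dupIt (W.baseChange L) l β).1, (dupIt (W.baseChange L) l β).2] /
      (4 ^ l * (Module.finrank ℚ L : ℝ)) ≤ hx (W.baseChange L) β + C / 3 / 4 ^ l := by linarith
  rw [div_le_iff₀ (by positivity)] at h4
  refine h4.trans (le_of_eq ?_)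
  field_simp

end LEH
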