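/-
LH/Lnk (S-M)  MP_022f22_nt, Lehmer project, table modleh. Paper proof: /team-store/lehmer_proof.md
Link between dupIt and multiples of points.  k field, Δ != 0, P an affine point of W over k.  For all l there is c != 0 with dupIt W l (xc P) = c * xRep (2^l P) (both coordinates).
Induction on l: l = 0: xRep P = ![xc P, 1] (P != 0).  Step: dupA, dupB are homogeneous of degree 4, so dupIt (l+1) = c^4 * (dupA, dupB)(xRep(2^l P)) = c^4 c' xRep(2 * 2^l P) by dup_point (module Dbl).
hx_smul: over a number field: logHeight ![dupIt..] = logHeight (xRep (2^l P)) (Height.logHeight_smul_eq_logHeight).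
-/
import Mathlib
import Pool.Agent.Work.MP_022f22_nt.LH.Defs
import Pool.Agent.Work.MP_022f22_nt.LH.Dbl

open NumberField IsDedekindDomain Polynomial Height Filter Topology

namespace LEH

private theorem dupA_smul {k : Type*} [Field k] (W : WeierstrassCurve k) (c x z : k) :
    dupA W (c * x) (c * z) = c ^ 4 * dupA W x z := by
  unfold dupA
  ring

private theorem dupB_smul {k : Type*} [Field k] (W : WeierstrassCurve k) (c x z : k) :
    dupB W (c * x) (c * z) = c ^ 4 * dupB W x z := by
  unfold dupB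
  ring

theorem dupIt_point {k : Type*} [Field k] [DecidableEq k] (W : WeierstrassCurve k)
    (hΔ : W.Δ ≠ 0) (P : W.toAffine.Point) (hP : P ≠ 0) (l : ℕ) :
    ∃ c : k, c ≠ 0 ∧ (dupIt W l (xc P)).1 = c * (2 ^ l • P).xRep 0 ∧
      (dupIt W l (xc P)).2 = c * (2 ^ l • P).xRep 1 := by
  induction l with
  | zero =>
    refine ⟨1, one_ne_zero, ?_, ?_⟩
    · rw [pow_zero, one_nsmul, one_mul]
      rfl
    · rw [pow_zero, one_nsmul, one_mul]
      cases P with
      | zero => exact absurd rfl hP
      | some x y h =>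
        rw [WeierstrassCurve.Affine.Point.xRep_some]
        rfl
  | succ l ih =>
    obtain ⟨c, hc, h1, h2⟩ := ih
    obtain ⟨c', hc', h3, h4⟩ := dup_point W hΔ (2 ^ l • P)
    have h5 : 2 ^ (l + 1) • P = 2 • (2 ^ l • P) := by
      rw [pow_succ', mul_nsmul']
    refine ⟨c ^ 4 * c', mul_ne_zero (pow_ne_zero _ hc) hc', ?_, ?_⟩
    · show dupA W (dupIt W l (xc P)).1 (dupIt W l (xc P)).2 = _
      rw [h1, h2, dupA_smul, h3, h5, mul_assoc]
    · show dupB W (dupIt W l (xc P)).1 (dupIt W l (xc P)).2 = _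
      rw [h1, h2, dupB_smul, h4, h5, mul_assoc]

theorem logHeight_point {L : Type*} [Field L] [NumberField L] [DecidableEq L]
    (W : WeierstrassCurve L) (hΔ : W.Δ ≠ 0) (P : W.toAffine.Point) (hP : P ≠ 0) (l : ℕ) :
    logHeight ![(dupIt W l (xc P)).1, (dupIt W l (xc P)).2] = logHeight (2 ^ l • P).xRep := by
  obtain ⟨c, hc, h1, h2⟩ := dupIt_point W hΔ P hP l
  have h3 : ![(dupIt W l (xc P)).1, (dupIt W l (xc P)).2] = c • (2 ^ l • P).xRep := by
    funext i
    fin_cases i
    · exact h1
    · exact h2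
  rw [h3, Height.logHeight_smul_eq_logHeight _ hc]

end LEH
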