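/-
LH/Nrm (M)  MP_022f22_nt, Lehmer project, table modleh. Paper proof: /team-store/lehmer_proof.md
Descent to a Galois number field.  K number field, F = AlgebraicClosure K, P in E(F).  There is an intermediate field L of F/K, finite and Galois over K, and P' in E(L) mapping to P.
P = 0: L = bottom (or any).  P = (x,y): L = normal closure of K(x,y) in F (IntermediateField.normalClosure; finite: x, y algebraic; Galois: char 0).  P' = (x,y) with the same equation: nonsingularity descends
(baseChange_nonsingular / map_nonsingular with an injective map).  Point.map_some.
-/
import Mathlib
import Pool.Agent.Work.MP_022f22_nt.LH.Defs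

open NumberField IsDedekindDomain Polynomial Height Filter Topology

namespace LEH

open Classical in
theorem exists_descent {K : Type} [Field K] [NumberField K] (W : WeierstrassCurve K)
    (P : (W.baseChange (AlgebraicClosure K)).toAffine.Point) :
    ∃ (L : IntermediateField K (AlgebraicClosure K)) (_ : FiniteDimensional K L)
      (_ : IsGalois K L) (P' : (W.baseChange L).toAffine.Point),
      WeierstrassCurve.Affine.Point.map (W' := W) L.val P' = P := by
  rcases P with _ | ⟨x, y, h⟩
  · refine ⟨⊥, inferInstance, inferInstance, 0, ?_⟩
    exact map_zero _
  · have : FiniteDimensional K (IntermediateField.adjoin K {x, y}) := by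
      apply IntermediateField.finiteDimensional_adjoin
      intro z _
      exact Algebra.IsIntegral.isIntegral z
    let L : IntermediateField K (AlgebraicClosure K) :=
      IntermediateField.normalClosure K (IntermediateField.adjoin K {x, y}) (AlgebraicClosure K)
    have hfin : FiniteDimensional K L := inferInstance
    have hnor : Normal K L := inferInstance
    have hgal : IsGalois K L := ⟨⟩
    have hle : IntermediateField.adjoin K {x, y} ≤ L := IntermediateField.le_normalClosure _
    have hx : x ∈ L := hle (IntermediateField.subset_adjoin K _ (by simp))
    have hy : y ∈ L := hle (IntermediateField.subset_adjoin K _ (by simp))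
    have hP : (W.baseChange L).toAffine.Nonsingular (⟨x, hx⟩ : L) (⟨y, hy⟩ : L) := by
      have := WeierstrassCurve.Affine.baseChange_nonsingular (W := W) (f := L.val) (hf := L.val.injective) (⟨x, hx⟩ : L) (⟨y, hy⟩ : L)
      exact this.mp h
    refine ⟨L, hfin, hgal, .some _ _ hP, ?_⟩
    rw [WeierstrassCurve.Affine.Point.map_some]
    rfl

end LEH
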