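/-
LH/Dec (M)  MP_022f22_nt, Lehmer project, table modleh. Paper proof: /team-store/lehmer_proof.md
Decomposition group preserves the absolute value.  w a finite place of L with prime P, sigma : L ~ L over K with sigma(P) = P, in the form
(hσ) for all y in O_L: w y < 1 iff w (sigma y) < 1.   Claim w (sigma x) = w x for all x in L.
Proof.  Let tau : O_L ~ O_L be the induced ring isomorphism; P.map tau = P, hence P^n.map tau = P^n; for y in O_L nonzero: y in P^n iff tau y in P^n, so the P-adic valuations of y and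
tau y agree (intValuation_le_pow_iff_mem), hence w y = w(sigma y) (NumberField.FinitePlace norm is a function of the valuation: norm_def, adicAbv_def).  General x = a/b.
Alternative: the map x -> w(sigma x) is the finite place attached to the prime tau^-1(P) = P.
-/
import Mathlib
import Pool.Agent.Work.MP_022f22_nt.LH.Defs
import Pool.Agent.Work.MP_022f22_nt.LH.Vab

open NumberField IsDedekindDomain Polynomial Height Filter Topology

namespace LEH

private theorem w_eq {L : Type*} [Field L] [NumberField L] (w : FinitePlace L) (x : L) :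
    w x = (WithZeroMulInt.toNNReal (HeightOneSpectrum.absNorm_ne_zero w.maximalIdeal)
      (w.maximalIdeal.valuation L x) : ℝ) := by
  rw [← FinitePlace.norm_embedding', FinitePlace.norm_embedding_eq]

private theorem w_le {L : Type*} [Field L] [NumberField L] (w : FinitePlace L) (x y : L) :
    w x ≤ w y ↔ w.maximalIdeal.valuation L x ≤ w.maximalIdeal.valuation L y := by
  rw [w_eq w x, w_eq w y, NNReal.coe_le_coe]
  exact (WithZeroMulInt.toNNReal_strictMono
    (HeightOneSpectrum.one_lt_absNorm_nnreal w.maximalIdeal)).le_iff_le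

private theorem w_lt {L : Type*} [Field L] [NumberField L] (w : FinitePlace L) (x y : L) :
    w x < w y ↔ w.maximalIdeal.valuation L x < w.maximalIdeal.valuation L y := by
  rw [w_eq w x, w_eq w y, NNReal.coe_lt_coe]
  exact (WithZeroMulInt.toNNReal_strictMono
    (HeightOneSpectrum.one_lt_absNorm_nnreal w.maximalIdeal)).lt_iff_lt

private theorem w_int {L : Type*} [Field L] [NumberField L] (w : FinitePlace L) (x : 𝓞 L) :
    w (x : L) ≤ 1 := by
  rw [← FinitePlace.norm_embedding_eq]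
  exact FinitePlace.norm_le_one L w.maximalIdeal x

private theorem w_isInt {L : Type*} [Field L] [NumberField L] (w : FinitePlace L) (x : L)
    (hx : IsIntegral ℤ x) : w x ≤ 1 := w_int w ⟨x, hx⟩

section
variable {K L : Type*} [Field K] [NumberField K] [Field L] [NumberField L] [Algebra K L]

omit [NumberField K] [NumberField L] in
private theorem step_int (σ : L ≃ₐ[K] L) (y : 𝓞 L) : IsIntegral ℤ (σ (y : L)) :=
  (y.2 : IsIntegral ℤ (y : L)).map (σ : L →+* L).toIntAlgHom

private theorem step_eq (w : FinitePlace L) (σ : L ≃ₐ[K] L)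
    (hσ : ∀ y : 𝓞 L, w (y : L) < 1 ↔ w (σ (y : L)) < 1) (b : 𝓞 L) (hb : w (b : L) = 1) :
    w (σ (b : L)) = 1 := by
  have h1 : ¬ w (b : L) < 1 := by rw [hb]; exact lt_irrefl _
  rw [hσ b] at h1
  exact le_antisymm (w_isInt w _ (step_int σ b)) (not_lt.mp h1)

private theorem step_le (w : FinitePlace L) (σ : L ≃ₐ[K] L)
    (hσ : ∀ y : 𝓞 L, w (y : L) < 1 ↔ w (σ (y : L)) < 1) (x : L) (hx : w x ≤ 1) :
    w (σ x) ≤ 1 := by
  obtain ⟨a, b, hb, rfl⟩ := exists_frac w hx
  rw [map_div₀, map_div₀, step_eq w σ hσ b hb, div_one]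
  exact w_isInt w _ (step_int σ a)

private theorem step_lt (w : FinitePlace L) (σ : L ≃ₐ[K] L)
    (hσ : ∀ y : 𝓞 L, w (y : L) < 1 ↔ w (σ (y : L)) < 1) (x : L) (hx : w x < 1) :
    w (σ x) < 1 := by
  obtain ⟨a, b, hb, rfl⟩ := exists_frac w hx.le
  rw [map_div₀, hb, div_one] at hx
  rw [map_div₀, map_div₀, step_eq w σ hσ b hb, div_one]
  exact (hσ a).mp hx

private theorem step_one (w : FinitePlace L) (σ : L ≃ₐ[K] L)
    (hσ : ∀ y : 𝓞 L, w (y : L) < 1 ↔ w (σ (y : L)) < 1) (x : L) (hx : w x = 1) :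
    w (σ x) = 1 := by
  refine le_antisymm (step_le w σ hσ x hx.le) ?_
  have h2 : w (σ x⁻¹) ≤ 1 := step_le w σ hσ _ (by rw [map_inv₀, hx, inv_one])
  have hx0 : x ≠ 0 := by
    rintro rfl
    rw [map_zero] at hx
    exact zero_ne_one hx
  have h3 : 0 < w (σ x) := FinitePlace.pos_iff.mpr (by simpa using hx0)
  rw [map_inv₀, map_inv₀] at h2
  rw [inv_le_one₀ h3] at h2
  exact h2

private theorem step_symm (w : FinitePlace L) (σ : L ≃ₐ[K] L)
    (hσ : ∀ y : 𝓞 L, w (y : L) < 1 ↔ w (σ (y : L)) < 1) :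
    ∀ y : 𝓞 L, w (y : L) < 1 ↔ w (σ.symm (y : L)) < 1 := by
  intro y
  have h : w (σ.symm (y : L)) < 1 ↔ w (σ (σ.symm (y : L))) < 1 :=
    hσ ⟨σ.symm (y : L), step_int σ.symm y⟩
  rw [AlgEquiv.apply_symm_apply] at h
  exact h.symm

private theorem step_unif (w : FinitePlace L) (σ : L ≃ₐ[K] L)
    (hσ : ∀ y : 𝓞 L, w (y : L) < 1 ↔ w (σ (y : L)) < 1) (p : L)
    (hp : w.maximalIdeal.valuation L p = WithZero.exp (-1 : ℤ)) : w (σ p) ≤ w p := by
  have h1 : w p < w 1 := by
    rw [w_lt, hp, map_one, ← WithZero.exp_zero, WithZero.exp_lt_exp]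
    norm_num
  rw [map_one] at h1
  have h2 := step_lt w σ hσ p h1
  rw [← map_one w, w_lt, map_one] at h2
  rw [w_le, hp]
  by_cases h0 : w.maximalIdeal.valuation L (σ p) = 0
  · rw [h0]; exact zero_le
  · obtain ⟨m, hm⟩ : ∃ m : ℤ, w.maximalIdeal.valuation L (σ p) = WithZero.exp m :=
      ⟨WithZero.log _, (WithZero.exp_log h0).symm⟩
    rw [hm] at h2 ⊢
    rw [← WithZero.exp_zero, WithZero.exp_lt_exp] at h2
    rw [WithZero.exp_le_exp]
    omega

end

theorem dec_abs {K L : Type*} [Field K] [NumberField K] [Field L] [NumberField L] [Algebra K L]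
    (w : FinitePlace L) (σ : L ≃ₐ[K] L)
    (hσ : ∀ y : 𝓞 L, w (y : L) < 1 ↔ w (σ (y : L)) < 1) (x : L) : w (σ x) = w x := by
  have hσ' := step_symm w σ hσ
  obtain ⟨p, hp⟩ := w.maximalIdeal.valuation_exists_uniformizer L
  have hp' : w.maximalIdeal.valuation L p = WithZero.exp (-1 : ℤ) := hp
  have hp0 : p ≠ 0 := by
    rintro rfl
    rw [map_zero] at hp'
    exact WithZero.exp_ne_zero hp'.symm
  have hwp : 0 < w p := FinitePlace.pos_iff.mpr hp0
  have h1 : w (σ p) ≤ w p := step_unif w σ hσ p hp'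
  have h2 : w (σ.symm p) ≤ w p := step_unif w σ.symm hσ' p hp'
  have h3 : w (σ.symm p / p) ≤ 1 := by
    rw [map_div₀]; exact (div_le_one hwp).mpr h2
  have h4 := step_le w σ hσ _ h3
  have hσp : 0 < w (σ p) := FinitePlace.pos_iff.mpr (by simpa using hp0)
  rw [map_div₀, AlgEquiv.apply_symm_apply, map_div₀, div_le_one hσp] at h4
  have hE : w (σ p) = w p := le_antisymm h1 h4
  rcases eq_or_ne x 0 with rfl | hx
  · simp
  have h0 : w.maximalIdeal.valuation L x ≠ 0 := by
    rw [Ne, map_eq_zero]; exact hx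
  obtain ⟨m, hm⟩ : ∃ m : ℤ, w.maximalIdeal.valuation L x = WithZero.exp m :=
    ⟨WithZero.log _, (WithZero.exp_log h0).symm⟩
  have h5 : w.maximalIdeal.valuation L (x * p ^ m) = 1 := by
    rw [map_mul, map_zpow₀, hm, hp', ← WithZero.exp_zsmul, ← WithZero.exp_add]
    simp
  have h6 : w (x * p ^ m) = 1 := by
    rw [w_eq, h5]; simp
  have h7 := step_one w σ hσ _ h6
  rw [map_mul, map_zpow₀] at h6
  rw [map_mul, map_zpow₀, map_mul, map_zpow₀, hE] at h7
  have h8 : w p ^ m ≠ 0 := zpow_ne_zero _ hwp.ne'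
  exact mul_right_cancel₀ h8 (h7.trans h6.symm)

end LEH
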