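/-
LH/Fro (M)  MP_022f22_nt, Lehmer project, table modleh. Paper proof: /team-store/lehmer_proof.md
Frobenius.  L/K Galois, w above v, q0 = absNorm v.asIdeal, m >= 1.  There is phi in Gal(L/K) with w(phi x) = w x for all x, and w(phi x - x^(q0^m)) < 1 for w x <= 1.
Proof.  Mathlib/RingTheory/Frobenius.lean: IsArithFrobAt (exists_of_isInvariant) for the action of L ~ L on O_L with invariants O_K: sigma with sigma y - y^(q0) in P for all y in O_L
(Nat.card (O_K / P cap O_K) = q0, P cap O_K = v.asIdeal).  sigma(P) = P, so dec_abs.  phi = sigma^m: induction as in InP.  Extension to w x <= 1: x = a/b, w b = 1: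
sigma x - x^(q0) = (sigma a b^(q0) - a^(q0) sigma b)/(b^(q0) sigma b), numerator = (sigma a - a^(q0)) b^(q0) - a^(q0)(sigma b - b^(q0)).
-/
import Mathlib
import Pool.Agent.Work.MP_022f22_nt.LH.Defs
import Pool.Agent.Work.MP_022f22_nt.LH.Vab
import Pool.Agent.Work.MP_022f22_nt.LH.Dec

open NumberField IsDedekindDomain Polynomial Height Filter Topology

namespace LEH

private theorem fro_lt_iff {L : Type*} [Field L] [NumberField L] (w : FinitePlace L) (y : 𝓞 L) :
    w (y : L) < 1 ↔ y ∈ w.maximalIdeal.asIdeal := by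
  rw [← FinitePlace.norm_embedding_eq w (y : L)]
  exact FinitePlace.norm_lt_one_iff_mem L w.maximalIdeal y

private theorem fro_le_one {L : Type*} [Field L] [NumberField L] (w : FinitePlace L) (y : 𝓞 L) :
    w (y : L) ≤ 1 := by
  rw [← FinitePlace.norm_embedding_eq w (y : L)]
  exact FinitePlace.norm_le_one L w.maximalIdeal y

private theorem fro_int {K L : Type} [Field K] [NumberField K] [Field L] [NumberField L] [Algebra K L]
    [FiniteDimensional K L] [IsGalois K L] {v : HeightOneSpectrum (𝓞 K)} {w : FinitePlace L}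
    (h : Above v w) :
    ∃ σ : L ≃ₐ[K] L, ∀ y : 𝓞 L, w (σ (y : L) - (y : L) ^ (Ideal.absNorm v.asIdeal)) < 1 := by
  classical
  set P := w.maximalIdeal.asIdeal with hP
  have hPmax : P.IsMaximal := w.maximalIdeal.isMaximal
  haveI hPprime : P.IsPrime := hPmax.isPrime
  haveI hfin : Finite (𝓞 L ⧸ P) := Ideal.finiteQuotientOfFreeOfNeBot P w.maximalIdeal.ne_bot
  haveI := Algebra.isInvariant_of_isGalois' (𝓞 K) K L (𝓞 L)
  haveI : Finite (𝓞 L ≃ₐ[𝓞 K] 𝓞 L) :=
    Finite.of_equiv _ (galRestrict (𝓞 K) K L (𝓞 L)).toEquiv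
  obtain ⟨τ, hτ⟩ := IsArithFrobAt.exists_of_isInvariant (𝓞 K) (𝓞 L ≃ₐ[𝓞 K] 𝓞 L) P
  refine ⟨(galRestrict (𝓞 K) K L (𝓞 L)).symm τ, fun y => ?_⟩
  have h1 := hτ y
  have hunder : P.under (𝓞 K) = v.asIdeal := h
  have hcard : Nat.card (𝓞 K ⧸ P.under (𝓞 K)) = Ideal.absNorm v.asIdeal := by
    rw [hunder, Ideal.absNorm_apply, Submodule.cardQuot_apply]
  rw [hcard] at h1
  have h2 : ((galRestrict (𝓞 K) K L (𝓞 L)).symm τ) (y : L) = ((τ y : 𝓞 L) : L) := by
    have h3 := algebraMap_galRestrict_apply (𝓞 K) (K := K) (L := L) (B := 𝓞 L)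
      ((galRestrict (𝓞 K) K L (𝓞 L)).symm τ) y
    rw [MulEquiv.apply_symm_apply] at h3
    exact h3.symm
  rw [h2]
  have h4 : (((τ y : 𝓞 L) : L) - (y : L) ^ (Ideal.absNorm v.asIdeal)) =
      ((τ y - y ^ (Ideal.absNorm v.asIdeal) : 𝓞 L) : L) := by
    push_cast
    rfl
  rw [h4, fro_lt_iff]
  exact h1

private theorem fro_one {K L : Type} [Field K] [NumberField K] [Field L] [NumberField L] [Algebra K L]
    [FiniteDimensional K L] [IsGalois K L] {v : HeightOneSpectrum (𝓞 K)} {w : FinitePlace L}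
    (h : Above v w) :
    ∃ σ : L ≃ₐ[K] L, (∀ x, w (σ x) = w x) ∧
      ∀ x, w x ≤ 1 → w (σ x - x ^ (Ideal.absNorm v.asIdeal)) < 1 := by
  obtain ⟨σ, hσ⟩ := fro_int h
  set q : ℕ := Ideal.absNorm v.asIdeal with hq
  have hq0 : q ≠ 0 := by
    rw [hq, Ne, Ideal.absNorm_eq_zero_iff]
    exact v.ne_bot
  have hadd : ∀ x y : L, w x < 1 → w y < 1 → w (x + y) < 1 := fun x y hx hy =>
    lt_of_le_of_lt (FinitePlace.add_le w x y) (max_lt hx hy)
  have hneg : ∀ x : L, w (-x) = w x := fun x => map_neg_eq_map w x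
  have habs : ∀ x, w (σ x) = w x := by
    refine dec_abs w σ fun y => ?_
    constructor
    · intro hy
      have h1 : σ (y : L) = (σ (y : L) - (y : L) ^ q) + (y : L) ^ q := by ring
      rw [h1]
      refine hadd _ _ (hσ y) ?_
      rw [map_pow]
      exact pow_lt_one₀ (apply_nonneg w _) hy hq0
    · intro hy
      have h1 : (y : L) ^ q = σ (y : L) + -(σ (y : L) - (y : L) ^ q) := by ring
      have h2 : w ((y : L) ^ q) < 1 := by
        rw [h1]
        refine hadd _ _ hy ?_
        rw [hneg]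
        exact hσ y
      rw [map_pow] at h2
      by_contra hcon
      push Not at hcon
      exact absurd h2 (not_lt.mpr (one_le_pow₀ hcon))
  refine ⟨σ, habs, fun x hx => ?_⟩
  obtain ⟨a, b, hb, hxab⟩ := exists_frac w hx
  have hb0 : (b : L) ≠ 0 := by
    intro h0
    rw [h0, map_zero] at hb
    exact zero_ne_one hb
  have hsb0 : σ (b : L) ≠ 0 := by
    intro h0
    have h1 := habs (b : L)
    rw [h0, map_zero, hb] at h1
    exact zero_ne_one h1
  have hid : σ x - x ^ q = ((σ (a : L) - (a : L) ^ q) * (b : L) ^ q +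
      -((a : L) ^ q * (σ (b : L) - (b : L) ^ q))) / ((b : L) ^ q * σ (b : L)) := by
    rw [hxab, div_pow, map_div₀]
    field_simp
    ring
  rw [hid, map_div₀, map_mul, map_pow, hb, habs, hb]
  simp only [one_pow, mul_one, div_one]
  refine hadd _ _ ?_ ?_
  · rw [map_mul, map_pow, hb, one_pow, mul_one]
    exact hσ a
  · rw [hneg, map_mul, map_pow]
    refine mul_lt_one_of_nonneg_of_lt_one_right ?_ (apply_nonneg w _) (hσ b)
    exact pow_le_one₀ (apply_nonneg w _) (fro_le_one w a)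

theorem exists_frob {K L : Type} [Field K] [NumberField K] [Field L] [NumberField L] [Algebra K L]
    [FiniteDimensional K L] [IsGalois K L] {v : HeightOneSpectrum (𝓞 K)} {w : FinitePlace L}
    (h : Above v w) (m : ℕ) (hm : 0 < m) :
    ∃ φ : L ≃ₐ[K] L, (∀ x, w (φ x) = w x) ∧
      ∀ x, w x ≤ 1 → w (φ x - x ^ ((Ideal.absNorm v.asIdeal) ^ m)) < 1 := by
  obtain ⟨σ, habs, hσ⟩ := fro_one h
  set q : ℕ := Ideal.absNorm v.asIdeal with hq
  have hadd : ∀ x y : L, w x < 1 → w y < 1 → w (x + y) < 1 := fun x y hx hy =>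
    lt_of_le_of_lt (FinitePlace.add_le w x y) (max_lt hx hy)
  have habsn : ∀ (r : ℕ) (x : L), w ((σ ^ r) x) = w x := by
    intro r
    induction r with
    | zero => intro x; simp
    | succ r ih =>
      intro x
      rw [pow_succ', AlgEquiv.mul_apply, habs, ih]
  refine ⟨σ ^ m, habsn m, ?_⟩
  clear hm
  induction m with
  | zero =>
    intro x _
    simp
  | succ m ih =>
    intro x hx
    have h1 : (σ ^ (m + 1)) x - x ^ q ^ (m + 1) =
        (σ ((σ ^ m) x) - ((σ ^ m) x) ^ q) + (((σ ^ m) x) ^ q - (x ^ q ^ m) ^ q) := by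
      rw [pow_succ' σ, AlgEquiv.mul_apply, pow_succ q, pow_mul]
      ring
    rw [h1]
    have hx' : w ((σ ^ m) x) ≤ 1 := by rw [habsn]; exact hx
    have hxq : w (x ^ q ^ m) ≤ 1 := by
      rw [map_pow]
      exact pow_le_one₀ (apply_nonneg w _) hx
    refine hadd _ _ (hσ _ hx') ?_
    obtain ⟨c, hc⟩ := sub_dvd_pow_sub_pow ((σ ^ m) x) (x ^ q ^ m) q
    have hc1 : w c ≤ 1 ∨ w (((σ ^ m) x) - (x ^ q ^ m)) = 0 := by
      by_cases h0 : ((σ ^ m) x) - (x ^ q ^ m) = 0
      · right
        rw [h0, map_zero]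
      · left
        have hgs := (Commute.all ((σ ^ m) x) (x ^ q ^ m)).geom_sum₂_mul q
        have h2 : c = ∑ i ∈ Finset.range q, ((σ ^ m) x) ^ i * (x ^ q ^ m) ^ (q - 1 - i) := by
          apply mul_left_cancel₀ h0
          rw [← hc, mul_comm _ (∑ i ∈ Finset.range q, ((σ ^ m) x) ^ i * (x ^ q ^ m) ^ (q - 1 - i)), hgs]
        rw [h2]
        have hsum : ∀ s : Finset ℕ, w (∑ i ∈ s, ((σ ^ m) x) ^ i * (x ^ q ^ m) ^ (q - 1 - i)) ≤ 1 := by
          intro s
          induction s using Finset.induction_on with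
          | empty => simp
          | insert i s hi ihs =>
            rw [Finset.sum_insert hi]
            refine (FinitePlace.add_le w _ _).trans (max_le ?_ ihs)
            rw [map_mul, map_pow, map_pow]
            exact mul_le_one₀ (pow_le_one₀ (apply_nonneg w _) hx') (pow_nonneg (apply_nonneg w _) _)
              (pow_le_one₀ (apply_nonneg w _) hxq)
        exact hsum _
    rw [hc, map_mul]
    rcases hc1 with hc1 | hc1
    · exact mul_lt_one_of_nonneg_of_lt_one_left (apply_nonneg w _) (ih x hx) hc1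
    · rw [hc1, zero_mul]
      exact one_pos

end LEH
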