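/-
LH/Ine (S-M)  MP_022f22_nt, Lehmer project, table modleh. Paper proof: /team-store/lehmer_proof.md
The inertia group as a subgroup: I = {sigma : for all y in O_L, w(sigma y - y) < 1}.  (It is P.inertia of the action of L ~ L on O_L.)
 * closure: w(sigma tau y - y) <= max(w(sigma(tau y) - tau y), w(tau y - y)) < 1 (tau y in O_L again); inverse: apply to sigma^-1 y ... :
   w(sigma^-1 y - y): put z = sigma^-1 y in O_L, then it is w(z - sigma z) < 1.
 * for sigma in I: w(sigma y) < 1 iff w y < 1, so dec_abs gives w(sigma x) = w x.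
 * for w x <= 1: x = a/b, w b = 1: sigma x - x = (b sigma a - a sigma b)/(b sigma b) = (b(sigma a - a) - a(sigma b - b))/(..), w < 1.
 * conjugation: if phi preserves w then sigma in I iff phi sigma phi^-1 in I: phi sigma phi^-1 y - y = phi(sigma z - z), z = phi^-1 y in O_L.
-/
import Mathlib
import Pool.Agent.Work.MP_022f22_nt.LH.Defs
import Pool.Agent.Work.MP_022f22_nt.LH.Vab
import Pool.Agent.Work.MP_022f22_nt.LH.Dec

open NumberField IsDedekindDomain Polynomial Height Filter Topology

namespace LEH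

private theorem ine_neg {L : Type*} [Field L] [NumberField L] (w : FinitePlace L) (x : L) :
    w (-x) = w x := by
  have h1 : w (-1 : L) * w (-1 : L) = 1 := by
    rw [← map_mul, neg_one_mul, neg_neg, map_one]
  have h2 : w (-1 : L) = 1 := by
    have h3 : (0 : ℝ) ≤ w (-1 : L) := apply_nonneg w _
    nlinarith [mul_self_eq_one_iff.1 h1]
  rw [← neg_one_mul, map_mul, h2, one_mul]

private theorem ine_add {L : Type*} [Field L] [NumberField L] (w : FinitePlace L) {x y : L}
    (hx : w x < 1) (hy : w y < 1) : w (x + y) < 1 :=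
  (FinitePlace.add_le w x y).trans_lt (max_lt hx hy)

private theorem ine_int {L : Type*} [Field L] [NumberField L] (w : FinitePlace L) (x : 𝓞 L) :
    w (x : L) ≤ 1 := by
  rw [← FinitePlace.norm_embedding_eq]
  exact FinitePlace.norm_le_one L w.maximalIdeal x

variable {K L : Type*} [Field K] [NumberField K] [Field L] [NumberField L] [Algebra K L]

omit [NumberField K] [NumberField L] in
private theorem ine_step (σ : L ≃ₐ[K] L) (y : 𝓞 L) : IsIntegral ℤ (σ (y : L)) :=
  (y.2 : IsIntegral ℤ (y : L)).map (σ : L →+* L).toIntAlgHom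

theorem exists_inertia (w : FinitePlace L) : ∃ I : Subgroup (L ≃ₐ[K] L),
    (∀ σ, σ ∈ I ↔ ∀ y : 𝓞 L, w (σ (y : L) - (y : L)) < 1) ∧
    (∀ σ ∈ I, ∀ x, w (σ x) = w x) ∧
    (∀ σ ∈ I, ∀ x, w x ≤ 1 → w (σ x - x) < 1) ∧
    (∀ φ : L ≃ₐ[K] L, (∀ x, w (φ x) = w x) → ∀ σ, σ ∈ I ↔ φ * σ * φ⁻¹ ∈ I) := by
  set I : Subgroup (L ≃ₐ[K] L) :=
    { carrier := {σ | ∀ y : 𝓞 L, w (σ (y : L) - (y : L)) < 1}
      one_mem' := by
        intro y
        rw [AlgEquiv.one_apply, sub_self, map_zero]
        exact one_pos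
      mul_mem' := by
        intro σ τ hσ hτ y
        have h1 := hσ ⟨τ (y : L), ine_step τ y⟩
        have h2 := hτ y
        have h3 : (σ * τ) (y : L) - (y : L) = (σ (τ (y : L)) - τ (y : L)) + (τ (y : L) - (y : L)) := by
          rw [AlgEquiv.mul_apply]
          ring
        rw [h3]
        exact ine_add w h1 h2
      inv_mem' := by
        intro σ hσ y
        have h1 := hσ ⟨σ⁻¹ (y : L), ine_step σ⁻¹ y⟩
        have h2 : σ (σ⁻¹ (y : L)) = (y : L) := AlgEquiv.apply_symm_apply σ _
        change w (σ (σ⁻¹ (y : L)) - σ⁻¹ (y : L)) < 1 at h1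
        rw [h2] at h1
        rw [← ine_neg, neg_sub]
        exact h1 } with hI
  have hmem : ∀ σ, σ ∈ I ↔ ∀ y : 𝓞 L, w (σ (y : L) - (y : L)) < 1 := fun σ => Iff.rfl
  have habs : ∀ σ ∈ I, ∀ x, w (σ x) = w x := by
    intro σ hσ x
    apply dec_abs w σ
    intro y
    have h1 := (hmem σ).1 hσ y
    constructor
    · intro h
      have h2 : σ (y : L) = (σ (y : L) - (y : L)) + (y : L) := by ring
      rw [h2]
      exact ine_add w h1 h
    · intro h
      have h2 : (y : L) = -(σ (y : L) - (y : L)) + σ (y : L) := by ring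
      rw [h2]
      apply ine_add w _ h
      rw [ine_neg]
      exact h1
  refine ⟨I, hmem, habs, ?_, ?_⟩
  · intro σ hσ x hx
    obtain ⟨a, b, hb, rfl⟩ := exists_frac w hx
    have hb0 : (b : L) ≠ 0 := by
      intro h
      rw [h, map_zero] at hb
      exact zero_ne_one hb
    have hσb : w (σ (b : L)) = 1 := by rw [habs σ hσ, hb]
    have hσb0 : σ (b : L) ≠ 0 := by
      intro h
      rw [h, map_zero] at hσb
      exact zero_ne_one hσb
    have h1 : σ ((a : L) / (b : L)) - (a : L) / (b : L) =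
        ((b : L) * (σ (a : L) - (a : L)) + -((a : L) * (σ (b : L) - (b : L)))) /
          ((b : L) * σ (b : L)) := by
      rw [map_div₀]
      field_simp
      ring
    rw [h1, map_div₀, map_mul w (b : L) (σ (b : L)), hb, hσb, mul_one, div_one]
    apply ine_add
    · rw [map_mul, hb, one_mul]
      exact (hmem σ).1 hσ a
    · rw [ine_neg, map_mul]
      have h2 := (hmem σ).1 hσ b
      have h3 := ine_int w a
      have h4 : (0 : ℝ) ≤ w (a : L) := apply_nonneg w _
      have h5 : (0 : ℝ) ≤ w (σ (b : L) - (b : L)) := apply_nonneg w _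
      nlinarith
  · intro φ hφ σ
    rw [hmem, hmem]
    constructor
    · intro h y
      have h1 := h ⟨φ⁻¹ (y : L), ine_step φ⁻¹ y⟩
      have h2 : (φ * σ * φ⁻¹) (y : L) - (y : L) = φ (σ (φ⁻¹ (y : L)) - φ⁻¹ (y : L)) := by
        have h3 : φ (φ⁻¹ (y : L)) = (y : L) := AlgEquiv.apply_symm_apply φ _
        rw [map_sub, h3]
        rfl
      rw [h2, hφ]
      exact h1
    · intro h y
      have h1 := h ⟨φ (y : L), ine_step φ y⟩
      have h2 : (φ * σ * φ⁻¹) (φ (y : L)) - φ (y : L) = φ (σ (y : L) - (y : L)) := by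
        have h3 : φ⁻¹ (φ (y : L)) = (y : L) := AlgEquiv.symm_apply_apply φ _
        rw [map_sub]
        change φ (σ (φ⁻¹ (φ (y : L)))) - φ (y : L) = _
        rw [h3]
      change w ((φ * σ * φ⁻¹) (φ (y : L)) - φ (y : L)) < 1 at h1
      rw [h2, hφ] at h1
      exact h1

end LEH
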