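/-
LH/Rsd (S-M)  MP_022f22_nt, Lehmer project, table modleh. Paper proof: /team-store/lehmer_proof.md
Residue field.  p prime with w p < 1.  The residue field O_L/P is finite of characteristic p, so has p^m' elements (m' >= 1) and y^(p^m') - y in P for y in O_L
(FiniteField.pow_card).  For w x <= 1 write x = a/b: x^Q' - x = (a^Q' b - a b^Q')/(b^Q' b), numerator = (a^Q' - a) b - a (b^Q' - b).
-/
import Mathlib
import Pool.Agent.Work.MP_022f22_nt.LH.Defs
import Pool.Agent.Work.MP_022f22_nt.LH.Vab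

open NumberField IsDedekindDomain Polynomial Height Filter Topology

namespace LEH

private theorem lt_iff {L : Type*} [Field L] [NumberField L] (w : FinitePlace L) (y : 𝓞 L) :
    w (y : L) < 1 ↔ y ∈ w.maximalIdeal.asIdeal := by
  rw [← FinitePlace.norm_embedding_eq w (y : L)]
  exact FinitePlace.norm_lt_one_iff_mem L w.maximalIdeal y

private theorem le_one_int {L : Type*} [Field L] [NumberField L] (w : FinitePlace L) (y : 𝓞 L) :
    w (y : L) ≤ 1 := by
  rw [← FinitePlace.norm_embedding_eq w (y : L)]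
  exact FinitePlace.norm_le_one L w.maximalIdeal y

theorem exists_res {L : Type*} [Field L] [NumberField L] (w : FinitePlace L) {p : ℕ}
    (hp : p.Prime) (hc : w (p : L) < 1) :
    ∃ m : ℕ, 0 < m ∧ ∀ x, w x ≤ 1 → w (x - x ^ (p ^ m)) < 1 := by
  classical
  set P := w.maximalIdeal.asIdeal with hP
  have hPmax : P.IsMaximal := w.maximalIdeal.isMaximal
  letI : Field (𝓞 L ⧸ P) := Ideal.Quotient.field P
  have hfin : Finite (𝓞 L ⧸ P) := Ideal.finiteQuotientOfFreeOfNeBot P w.maximalIdeal.ne_bot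
  letI := Fintype.ofFinite (𝓞 L ⧸ P)
  have hp0 : ((p : ℕ) : 𝓞 L ⧸ P) = 0 := by
    have h1 : ((p : ℕ) : 𝓞 L) ∈ P := by
      rw [hP, ← lt_iff]
      simpa using hc
    have h2 := Ideal.Quotient.eq_zero_iff_mem.mpr h1
    simpa using h2
  haveI : CharP (𝓞 L ⧸ P) p := by
    have h1 : ringChar (𝓞 L ⧸ P) = p := CharP.ringChar_of_prime_eq_zero hp hp0
    exact ringChar.of_eq h1
  obtain ⟨n, -, hn⟩ := FiniteField.card (𝓞 L ⧸ P) p
  have hint : ∀ y : 𝓞 L, y ^ (p ^ (n : ℕ)) - y ∈ P := by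
    intro y
    rw [← Ideal.Quotient.eq_zero_iff_mem, map_sub, map_pow, ← hn, FiniteField.pow_card, sub_self]
  refine ⟨n, n.pos, fun x hx => ?_⟩
  obtain ⟨a, b, hb, hxab⟩ := exists_frac w hx
  set q : ℕ := p ^ (n : ℕ) with hq
  have hb0 : (b : L) ≠ 0 := by
    intro h0
    rw [h0, map_zero] at hb
    exact zero_ne_one hb
  have hid : x - x ^ q = (((a : L) * ((b : L) ^ q - b)) - ((a : L) ^ q - a) * b) / ((b : L) ^ q * b) := by
    rw [hxab, div_pow]
    field_simp
    ring
  have hnum : w (((a : L) * ((b : L) ^ q - b)) - ((a : L) ^ q - a) * b) < 1 := by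
    have h1 : (((a : L) * ((b : L) ^ q - b)) - ((a : L) ^ q - a) * b) =
        ((a * (b ^ q - b) - (a ^ q - a) * b : 𝓞 L) : L) := by
      push_cast
      ring
    rw [h1, lt_iff]
    exact P.sub_mem (P.mul_mem_left _ (hint b)) (P.mul_mem_right _ (hint a))
  rw [hid, map_div₀, map_mul, map_pow, hb]
  simpa using hnum

end LEH
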