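/-
LH/Une (M-L)  MP_022f22_nt, Lehmer project, table modleh. Paper proof: /team-store/lehmer_proof.md
The unramified fact (U).  L/K Galois, w above v with prime P, x in L fixed by the inertia group of P, w x < 1.  Then w x <= w ϖ.
Proof.  G = L ~ L over K acts on O_L (MulSemiringAction; IsGaloisGroup G (O_K) (O_L)), I = P.inertia G.  M = IntermediateField.fixedField I, x in M; O_M, P_M = P cap O_M.
Mathlib: Ideal.card_inertia_eq_ramificationIdxIn (for L/K and for L/M; the inertia group of P in Gal(L/M) = I is everything, so its cardinality is |I|):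
e(P/v) = |I| = e(P/P_M); multiplicativity of the ramification index gives e(P_M/v) = 1, i.e. v O_M is not contained in P_M^2.  See also
Mathlib/NumberTheory/RamificationInertia/HilbertTheory.lean (IsInertiaField) and Galois.lean.  So ord_{P_M}(ϖ) = 1 (ϖ = a/b, a in v not v^2 ...), and for x in M with w x < 1:
ord_{P_M}(x) >= 1 so x/ϖ in M has ord_{P_M} >= 0, hence x/ϖ = a/b with a, b in O_M, b not in P_M, so w(x/ϖ) <= 1.
(w restricted to M has valuation ring the localization of O_M at P_M; apply above_lt of Vab.lean to the extension L/M, the prime P_M of M and the uniformizer ϖ of M: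
 P_M-adic valuation of ϖ is exp(-1).)
-/
import Mathlib
import Pool.Agent.Work.MP_022f22_nt.LH.Defs
import Pool.Agent.Work.MP_022f22_nt.LH.Vab

open NumberField IsDedekindDomain Polynomial Height Filter Topology

namespace LEH

private abbrev uneE (K : Type) {L : Type} [Field K] [NumberField K] [Field L] [NumberField L]
    [Algebra K L] (P : Ideal (𝓞 L)) : IntermediateField K L :=
  FixedPoints.intermediateField (P.inertia (L ≃ₐ[K] L))

private theorem une_ram {K L : Type} [Field K] [NumberField K] [Field L] [NumberField L]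
    [Algebra K L] [FiniteDimensional K L] [IsGalois K L] (v : HeightOneSpectrum (𝓞 K))
    (P : Ideal (𝓞 L)) [P.IsPrime] [P.LiesOver v.asIdeal] (hP : P ≠ ⊥) :
    (P.under (𝓞 (uneE K P))).ramificationIdx (𝓞 K) = 1 := by
  have i1 : IsGaloisGroup (L ≃ₐ[K] L) (𝓞 K) (𝓞 L) := .of_isFractionRing _ _ _ K L
  have i2 : IsGaloisGroup (P.inertia (L ≃ₐ[K] L)) (uneE K P) L :=
    IsGaloisGroup.subgroup (L ≃ₐ[K] L) K L (P.inertia (L ≃ₐ[K] L))
  have i3 : IsGaloisGroup (P.inertia (L ≃ₐ[K] L)) (𝓞 (uneE K P)) (𝓞 L) :=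
    .of_isFractionRing _ _ _ (uneE K P) L
  have hPm : P.IsMaximal := Ideal.IsPrime.isMaximal inferInstance hP
  have hvm : v.asIdeal.IsMaximal := v.isMaximal
  have hf : Finite (𝓞 K ⧸ v.asIdeal) := Ring.HasFiniteQuotients.finiteQuotient v.ne_bot
  have c1 := Ideal.card_inertia_eq_ramificationIdxIn (G := (L ≃ₐ[K] L)) v.asIdeal P
  rw [Ideal.ramificationIdxIn_eq_ramificationIdx v.asIdeal P (L ≃ₐ[K] L)] at c1
  have hpm : (P.under (𝓞 (uneE K P))).IsMaximal := Ideal.IsMaximal.under (𝓞 (uneE K P)) P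
  have hp0 : P.under (𝓞 (uneE K P)) ≠ ⊥ := by
    intro h0
    apply hP
    exact Ideal.eq_bot_of_comap_eq_bot (R := 𝓞 (uneE K P)) h0
  have hf2 : Finite (𝓞 (uneE K P) ⧸ P.under (𝓞 (uneE K P))) :=
    Ring.HasFiniteQuotients.finiteQuotient hp0
  have c2 := Ideal.card_inertia_eq_ramificationIdxIn (G := P.inertia (L ≃ₐ[K] L))
    (P.under (𝓞 (uneE K P))) P
  rw [Ideal.ramificationIdxIn_eq_ramificationIdx (P.under (𝓞 (uneE K P))) P
    (P.inertia (L ≃ₐ[K] L))] at c2
  have c3 : P.inertia (P.inertia (L ≃ₐ[K] L)) = ⊤ := by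
    rw [eq_top_iff]
    rintro ⟨σ, hσ⟩ -
    exact hσ
  have c4 := Ideal.ramificationIdx_tower (R := 𝓞 K) (P.under (𝓞 (uneE K P))) P
  rw [← c1, ← c2, c3] at c4
  have c5 : Nat.card (⊤ : Subgroup (P.inertia (L ≃ₐ[K] L))) = Nat.card (P.inertia (L ≃ₐ[K] L)) :=
    Nat.card_congr Subgroup.topEquiv.toEquiv
  rw [c5] at c4
  have c6 : 0 < Nat.card (P.inertia (L ≃ₐ[K] L)) := Nat.card_pos
  exact (Nat.eq_of_mul_eq_mul_right c6 (by rw [one_mul]; exact c4)).symm

theorem unram_fact {K L : Type} [Field K] [NumberField K] [Field L] [NumberField L] [Algebra K L]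
    [FiniteDimensional K L] [IsGalois K L] {v : HeightOneSpectrum (𝓞 K)} {w : FinitePlace L}
    (h : Above v w) {ϖ : K} (hϖ : Unif v ϖ) {x : L}
    (hx : ∀ σ : L ≃ₐ[K] L, (∀ y : 𝓞 L, w (σ (y : L) - (y : L)) < 1) → σ x = x) (hlt : w x < 1) :
    w x ≤ w (algebraMap K L ϖ) := by
  have hPp : w.maximalIdeal.asIdeal.IsPrime := w.maximalIdeal.isPrime
  have hPv : w.maximalIdeal.asIdeal.LiesOver v.asIdeal := ⟨h.symm⟩
  have hP0 : w.maximalIdeal.asIdeal ≠ ⊥ := w.maximalIdeal.ne_bot
  set P := w.maximalIdeal.asIdeal with hPdef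
  have hram := une_ram v P hP0
  -- x in E
  have hxE : x ∈ uneE K P := by
    rintro ⟨σ, hσ⟩
    change σ x = x
    apply hx σ
    intro y
    have h1 : σ • y - y ∈ P := hσ y
    have h2 := FinitePlace.norm_lt_one_iff_mem L w.maximalIdeal (σ • y - y)
    have h3 := h2.2 h1
    rw [FinitePlace.norm_embedding_eq w] at h3
    have h4 : (algebraMap (𝓞 L) L) (σ • y - y) = σ (y : L) - (y : L) := by
      rw [map_sub]
      rfl
    rw [h4] at h3
    exact h3
  have hpm : (P.under (𝓞 (uneE K P))).IsPrime := Ideal.IsPrime.under (𝓞 (uneE K P)) P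
  have hp0 : P.under (𝓞 (uneE K P)) ≠ ⊥ := by
    intro h0
    apply hP0
    exact Ideal.eq_bot_of_comap_eq_bot (R := 𝓞 (uneE K P)) h0
  let u : HeightOneSpectrum (𝓞 (uneE K P)) := ⟨P.under (𝓞 (uneE K P)), hpm, hp0⟩
  have hu : Above u w := rfl
  have hul : u.asIdeal.LiesOver v.asIdeal := by
    constructor
    change v.asIdeal = (P.under (𝓞 (uneE K P))).under (𝓞 K)
    rw [Ideal.under_under]
    exact h.symm
  have hr := Ideal.ramificationIdx'_eq_ramificationIdx v.asIdeal u.asIdeal v.ne_bot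
  have hval := IsDedekindDomain.HeightOneSpectrum.valuation_liesOver (uneE K P) v u ϖ
  rw [hr, hram, pow_one] at hval
  have hϖu : Unif u (algebraMap K (uneE K P) ϖ) := by
    unfold Unif
    rw [← hval]
    exact hϖ
  -- valuation of x below 1
  have hxu : u.valuation (uneE K P) (⟨x, hxE⟩ : uneE K P) < 1 := by
    by_contra hcon
    rw [not_lt] at hcon
    have hx0 : (⟨x, hxE⟩ : uneE K P) ≠ 0 := by
      intro h0
      rw [h0, map_zero] at hcon
      exact absurd hcon (by simp)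
    have h1 : u.valuation (uneE K P) (⟨x, hxE⟩ : uneE K P)⁻¹ ≤ 1 := by
      rw [map_inv₀]
      exact inv_le_one_of_one_le₀ hcon
    have h2 := above_le hu h1
    rw [map_inv₀, map_inv₀] at h2
    have h3 : algebraMap (uneE K P) L (⟨x, hxE⟩ : uneE K P) = x := rfl
    rw [h3] at h2
    have hx0' : x ≠ 0 := fun hh => hx0 (Subtype.ext hh)
    have h4 : 0 < w x := FinitePlace.pos_iff.2 hx0'
    have h5 : 1 < (w x)⁻¹ := (one_lt_inv₀ h4).2 hlt
    exact absurd h2 (not_le.2 h5)
  have hfin := above_lt hu hϖu hxu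
  exact hfin

end LEH
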