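/-
LH/InEx (S-M)  MP_022f22_nt, Lehmer project, table modleh. Paper proof: /team-store/lehmer_proof.md
Assembly: existence of the inertia data.  I from exists_inertia; rho = w ϖ (above_unif); w p <= rho: v p < 1, above_lt; unram from unram_fact (the hypothesis (all sigma in I fix x) is the
hypothesis of unram_fact through the first clause of exists_inertia); Q = q0^m and q0 = absNorm is a power of p: Q = p^m'' with m'' >= 1 is given by hQ.
phi from exists_frob; norm from the last clause of exists_inertia.  Second part: phi = 1, Q' = p^m' from exists_res (w(x - x^Q') < 1 is w(1 x - x^Q') < 1).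
FinitePlace w is used as the absolute value w.val; w x and w.val x are definitionally equal (FinitePlace.coe_apply); nonarchimedean: FinitePlace.add_le.
-/
import Mathlib
import Pool.Agent.Work.MP_022f22_nt.LH.Defs
import Pool.Agent.Work.MP_022f22_nt.LH.Vab
import Pool.Agent.Work.MP_022f22_nt.LH.Dec
import Pool.Agent.Work.MP_022f22_nt.LH.Ine
import Pool.Agent.Work.MP_022f22_nt.LH.Une
import Pool.Agent.Work.MP_022f22_nt.LH.Fro
import Pool.Agent.Work.MP_022f22_nt.LH.Rsd

open NumberField IsDedekindDomain Polynomial Height Filter Topology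

namespace LEH

theorem exists_data {K L : Type} [Field K] [NumberField K] [Field L] [NumberField L] [Algebra K L]
    [FiniteDimensional K L] [IsGalois K L] {v : HeightOneSpectrum (𝓞 K)} {w : FinitePlace L}
    (h : Above v w) {ϖ : K} (hϖ : Unif v ϖ) {p Q : ℕ} (hp : p.Prime)
    (hpv : v.valuation K (p : K) < 1) (hQ : ∃ n, 0 < n ∧ Q = p ^ n)
    (hq : ∃ m, 0 < m ∧ Q = (Ideal.absNorm v.asIdeal) ^ m) :
    ∃ I : Subgroup (L ≃ₐ[K] L), (∃ φ, InertiaData w.val (w (algebraMap K L ϖ)) p Q I φ) ∧
      ∃ Q', InertiaData w.val (w (algebraMap K L ϖ)) p Q' I 1 := by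
  obtain ⟨I, hI1, hI2, hI3, hI4⟩ := exists_inertia (K := K) w
  obtain ⟨hρ0, hρ1⟩ := above_unif h hϖ
  have hnon : IsNonarchimedean w.val := fun x y => FinitePlace.add_le w x y
  have hchar : w ((p : ℕ) : L) ≤ w (algebraMap K L ϖ) := by
    have h1 := above_lt h hϖ hpv
    rwa [map_natCast] at h1
  have hun : ∀ x, (∀ σ ∈ I, σ x = x) → w x < 1 → w x ≤ w (algebraMap K L ϖ) :=
    fun x hx hlt => unram_fact h hϖ (fun σ hσ => hx σ ((hI1 σ).mpr hσ)) hlt
  obtain ⟨m, hm, hQm⟩ := hq
  obtain ⟨φ, hφ1, hφ2⟩ := exists_frob h m hm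
  obtain ⟨m', hm', hres⟩ := exists_res w hp (hchar.trans_lt hρ1)
  refine ⟨I, ⟨φ, ?_⟩, p ^ m', ?_⟩
  · exact
      { nonarch := hnon
        rho_pos := hρ0
        rho_lt := hρ1
        prime := hp
        pow := hQ
        char := hchar
        inert_abs := hI2
        inert := hI3
        unram := hun
        frob_abs := hφ1
        norm := hI4 φ hφ1
        frob := fun x hx => by
          rw [hQm]
          exact hφ2 x hx }
  · exact
      { nonarch := hnon
        rho_pos := hρ0
        rho_lt := hρ1
        prime := hp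
        pow := ⟨m', hm', rfl⟩
        char := hchar
        inert_abs := hI2
        inert := hI3
        unram := hun
        frob_abs := fun x => rfl
        norm := fun σ => by simp
        frob := fun x hx => hres x hx }

end LEH
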