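/-
LH/Gal (S)  MP_022f22_nt, Lehmer project, table modleh. Paper proof: /team-store/lehmer_proof.md
Galois invariance of the height: sigma : L ~ L ring automorphism.  Apply logHeight_ext to the algebra structure sigma.toRingHom.toAlgebra on L over L (finrank 1: sigma is bijective), or directly:
places are permuted.  hx_gal: for W over K, sigma fixes the coefficients of W.baseChange L, so dupIt (W.baseChange L) l (sigma beta) = sigma applied to dupIt l beta (induction on l; ring hom),
all terms of the sequence defining hx are equal.
-/
import Mathlib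
import Pool.Agent.Work.MP_022f22_nt.LH.Defs
import Pool.Agent.Work.MP_022f22_nt.LH.Hex

open NumberField IsDedekindDomain Polynomial Height Filter Topology

namespace LEH

private theorem gal_aux {L M : Type*} [Field L] [NumberField L] [Field M] [NumberField M]
    [Algebra L M] (e : L ≃+* M) (he : ∀ y, algebraMap L M y = e y) {ι : Type*} [Finite ι]
    (x : ι → L) : logHeight (fun i => e (x i)) = logHeight x := by
  have h := logHeight_ext (K := L) (L := M) x
  have hfr : Module.finrank L M = 1 := by
    let f : L ≃ₗ[L] M :=
      { e.toAddEquiv with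
        map_smul' := by
          intro r y
          simp [Algebra.smul_def, he] }
    rw [← f.finrank_eq, Module.finrank_self]
  rw [hfr] at h
  simpa [he] using h

theorem logHeight_gal {L : Type*} [Field L] [NumberField L] (σ : L ≃+* L) {ι : Type*} [Finite ι]
    (x : ι → L) : logHeight (fun i => σ (x i)) = logHeight x :=
  @gal_aux L L _ _ _ _ σ.toRingHom.toAlgebra σ (fun _ => rfl) ι _ x

theorem dupIt_map {R S : Type*} [CommRing R] [CommRing S] (W : WeierstrassCurve R) (f : R →+* S)
    (l : ℕ) (x : R) :
    dupIt (W.map f) l (f x) = (f (dupIt W l x).1, f (dupIt W l x).2) := by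
  induction l with
  | zero => simp [dupIt]
  | succ l ih =>
    simp only [dupIt, ih, dupA, dupB]
    simp [WeierstrassCurve.map_b₂, WeierstrassCurve.map_b₄, WeierstrassCurve.map_b₆,
      WeierstrassCurve.map_b₈, map_ofNat]

theorem hx_gal {K L : Type*} [Field K] [Field L] [NumberField L] [Algebra K L]
    (W : WeierstrassCurve K) (σ : L ≃ₐ[K] L) (β : L) :
    hx (W.baseChange L) (σ β) = hx (W.baseChange L) β := by
  have hW : (W.baseChange L).map (σ : L ≃ₐ[K] L).toAlgHom.toRingHom = W.baseChange L := by
    ext <;> simp [WeierstrassCurve.baseChange]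
  have h : ∀ l, dupIt (W.baseChange L) l (σ β) =
      (σ (dupIt (W.baseChange L) l β).1, σ (dupIt (W.baseChange L) l β).2) := by
    intro l
    have := dupIt_map (W.baseChange L) (σ : L ≃ₐ[K] L).toAlgHom.toRingHom l β
    rw [hW] at this
    exact this
  unfold hx
  congr 1
  funext l
  rw [h l]
  congr 1
  have := logHeight_gal (σ : L ≃+* L) ![(dupIt (W.baseChange L) l β).1, (dupIt (W.baseChange L) l β).2]
  rw [← this]
  congr 1
  funext i
  fin_cases i <;> simp

end LEH
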