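/-
LH/Par (S-M)  MP_022f22_nt, Lehmer project, table modleh. Paper proof: /team-store/lehmer_proof.md
Approximate parallelogram law over a fixed number field L, h P = logHeight P.xRep:
 |h(P+Q) + h(P-Q) - 2 h P - 2 h Q| <= C.
Mathlib: WeierstrassCurve.abs_logHeight_addSubMap_sub_two_mul_logHeight_le (Height/EllipticCurve.lean; instance IsElliptic from Δ != 0) with x = sym2x P Q, Height.abs_logHeight_sym2_sub_le
(Height/MvPolynomial.lean) for the pairs (P,Q) and (P+Q,P-Q) (xRep = ![a,b], xRep != 0), add_sub_map (module AdS) and Height.logHeight_smul_eq_logHeight: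
 h(P+Q)+h(P-Q) = logHeight(sym2x (P+Q)(P-Q)) + O(1) = logHeight(addSubMap(sym2x P Q)) + O(1) = 2 logHeight(sym2x P Q) + O(1) = 2 h P + 2 h Q + O(1).
-/
import Mathlib
import Pool.Agent.Work.MP_022f22_nt.LH.Defs
import Pool.Agent.Work.MP_022f22_nt.LH.AdS

open NumberField IsDedekindDomain Polynomial Height Filter Topology

namespace LEH

private theorem xRep_eq' {L : Type*} [Field L] {W : WeierstrassCurve L} (P : W.toAffine.Point) :
    P.xRep = ![P.xRep 0, P.xRep 1] := by
  ext i
  fin_cases i <;> rfl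

private theorem xRep_ne' {L : Type*} [Field L] {W : WeierstrassCurve L} (P : W.toAffine.Point) :
    (![P.xRep 0, P.xRep 1] : Fin 2 → L) ≠ 0 := by
  intro h
  have h0 : P.xRep 0 = 0 := congrFun h 0
  have h1 : P.xRep 1 = 0 := congrFun h 1
  cases P with
  | zero => exact one_ne_zero h0
  | some x y hxy => exact one_ne_zero h1

theorem approx_par {L : Type*} [Field L] [NumberField L] [DecidableEq L]
    (W : WeierstrassCurve L) (hΔ : W.Δ ≠ 0) :
    ∃ C : ℝ, ∀ P Q : W.toAffine.Point,
      |logHeight (P + Q).xRep + logHeight (P - Q).xRep - 2 * logHeight P.xRep -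
        2 * logHeight Q.xRep| ≤ C := by
  have hE : W.IsElliptic := ⟨isUnit_iff_ne_zero.2 hΔ⟩
  obtain ⟨C1, hC1⟩ := WeierstrassCurve.abs_logHeight_addSubMap_sub_two_mul_logHeight_le W
  obtain ⟨C2, hC2⟩ := Height.abs_logHeight_sym2_sub_le L
  have key : ∀ P Q : W.toAffine.Point,
      |logHeight (P.sym2x Q) - (logHeight P.xRep + logHeight Q.xRep)| ≤ C2 := by
    intro P Q
    have h := hC2 (xRep_ne' P) (xRep_ne' Q)
    rw [← xRep_eq' P, ← xRep_eq' Q] at h
    exact h
  refine ⟨C1 + 3 * C2, fun P Q => ?_⟩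
  obtain ⟨c, hc, h⟩ := add_sub_map W hΔ P Q
  have e1 : (fun i => (WeierstrassCurve.addSubMap W i).eval (P.sym2x Q)) =
      c • (P + Q).sym2x (P - Q) := by
    funext i
    exact h i
  have h1 := hC1 (P.sym2x Q)
  rw [e1, Height.logHeight_smul_eq_logHeight _ hc] at h1
  have h2 := key P Q
  have h3 := key (P + Q) (P - Q)
  rw [abs_le] at h1 h2 h3 ⊢
  constructor <;> linarith [h1.1, h1.2, h2.1, h2.2, h3.1, h3.2]

end LEH
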