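/-
LH/Nsq (M)  MP_022f22_nt, Lehmer project, table modleh. Paper proof: /team-store/lehmer_proof.md
Quadraticity: for a non-torsion point P over L (Galois or not), W over K: hx (xc (n P)) = n^2 hx (xc P), n >= 1.
Proof.  H(P) := lim_l logHeight(xRep(2^l P))/(4^l [L:Q]); for P != 0 it is hx (xc P) by logHeight_point and hx_tendsto, for P = 0 it is 0 (logHeight ![1,0] = 0).  By approx_par applied to 2^l P, 2^l Q,
divided by 4^l: H(P+Q)+H(P-Q) = 2H(P)+2H(Q).  Hence H(nP) = n^2 H(P) by induction ((n+1)P, (n-1)P from nP and P).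
-/
import Mathlib
import Pool.Agent.Work.MP_022f22_nt.LH.Defs
import Pool.Agent.Work.MP_022f22_nt.LH.Hxl
import Pool.Agent.Work.MP_022f22_nt.LH.Lnk
import Pool.Agent.Work.MP_022f22_nt.LH.Par

open NumberField IsDedekindDomain Polynomial Height Filter Topology

namespace LEH

private theorem disc_ne {K : Type} [Field K] (W : WeierstrassCurve K) (hΔ : W.Δ ≠ 0)
    (L : Type) [Field L] [Algebra K L] : (W.baseChange L).Δ ≠ 0 := by
  rw [WeierstrassCurve.baseChange, WeierstrassCurve.map_Δ]
  exact (_root_.map_ne_zero _).mpr hΔ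

private theorem lim_ex {K : Type} [Field K] [NumberField K] (W : WeierstrassCurve K)
    (hΔ : W.Δ ≠ 0) (L : Type) [Field L] [NumberField L] [Algebra K L] [DecidableEq L]
    (P : (W.baseChange L).toAffine.Point) :
    ∃ H : ℝ, Tendsto (fun l : ℕ => logHeight (2 ^ l • P).xRep /
      (4 ^ l * (Module.finrank ℚ L : ℝ))) atTop (𝓝 H) ∧
      (P ≠ 0 → H = hx (W.baseChange L) (xc P)) := by
  by_cases hP : P = 0
  · refine ⟨0, ?_, fun h => absurd hP h⟩
    have h1 : (fun l : ℕ => logHeight (2 ^ l • P).xRep /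
      (4 ^ l * (Module.finrank ℚ L : ℝ))) = fun _ => (0 : ℝ) := by
      funext l
      rw [hP, smul_zero, WeierstrassCurve.Affine.Point.xRep_zero]
      have : logHeight (![1, 0] : Fin 2 → L) = 0 := by
        simp
      rw [this, zero_div]
    rw [h1]
    exact tendsto_const_nhds
  · refine ⟨hx (W.baseChange L) (xc P), ?_, fun _ => rfl⟩
    have h1 := hx_tendsto W hΔ L (xc P)
    refine h1.congr (fun l => ?_)
    rw [logHeight_point (W.baseChange L) (disc_ne W hΔ L) P hP l]

private theorem par_H {K : Type} [Field K] [NumberField K] (W : WeierstrassCurve K)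
    (hΔ : W.Δ ≠ 0) (L : Type) [Field L] [NumberField L] [Algebra K L] [DecidableEq L]
    (H : (W.baseChange L).toAffine.Point → ℝ)
    (hH : ∀ P, Tendsto (fun l : ℕ => logHeight (2 ^ l • P).xRep /
      (4 ^ l * (Module.finrank ℚ L : ℝ))) atTop (𝓝 (H P)))
    (P Q : (W.baseChange L).toAffine.Point) :
    H (P + Q) + H (P - Q) = 2 * H P + 2 * H Q := by
  obtain ⟨C, hC⟩ := approx_par (W.baseChange L) (disc_ne W hΔ L)
  have hd : (0 : ℝ) < (Module.finrank ℚ L : ℝ) := by
    exact_mod_cast Module.finrank_pos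
  obtain ⟨d, hdd⟩ : ∃ d : ℝ, d = (Module.finrank ℚ L : ℝ) := ⟨_, rfl⟩
  rw [← hdd] at hd hH
  have hC0 : 0 ≤ C := (abs_nonneg _).trans (hC 0 0)
  have h1 : Tendsto (fun l : ℕ => logHeight (2 ^ l • (P + Q)).xRep / (4 ^ l * d) +
      logHeight (2 ^ l • (P - Q)).xRep / (4 ^ l * d) -
      2 * (logHeight (2 ^ l • P).xRep / (4 ^ l * d)) -
      2 * (logHeight (2 ^ l • Q).xRep / (4 ^ l * d))) atTop
      (𝓝 (H (P + Q) + H (P - Q) - 2 * H P - 2 * H Q)) :=
    (((hH (P + Q)).add (hH (P - Q))).sub ((hH P).const_mul 2)).sub ((hH Q).const_mul 2)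
  have h2 : Tendsto (fun l : ℕ => logHeight (2 ^ l • (P + Q)).xRep / (4 ^ l * d) +
      logHeight (2 ^ l • (P - Q)).xRep / (4 ^ l * d) -
      2 * (logHeight (2 ^ l • P).xRep / (4 ^ l * d)) -
      2 * (logHeight (2 ^ l • Q).xRep / (4 ^ l * d))) atTop (𝓝 0) := by
    have h3 : Tendsto (fun l : ℕ => C / d * (1 / 4) ^ l) atTop (𝓝 0) := by
      have := (tendsto_pow_atTop_nhds_zero_of_lt_one (r := (1 / 4 : ℝ)) (by norm_num)
        (by norm_num)).const_mul (C / d)
      rwa [mul_zero] at this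
    refine squeeze_zero_norm (fun l => ?_) h3
    have h4 := hC (2 ^ l • P) (2 ^ l • Q)
    rw [← smul_add, ← smul_sub] at h4
    have h5 : logHeight (2 ^ l • (P + Q)).xRep / (4 ^ l * d) +
      logHeight (2 ^ l • (P - Q)).xRep / (4 ^ l * d) -
      2 * (logHeight (2 ^ l • P).xRep / (4 ^ l * d)) -
      2 * (logHeight (2 ^ l • Q).xRep / (4 ^ l * d)) =
      (logHeight (2 ^ l • (P + Q)).xRep + logHeight (2 ^ l • (P - Q)).xRep -
        2 * logHeight (2 ^ l • P).xRep - 2 * logHeight (2 ^ l • Q).xRep) / (4 ^ l * d) := by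
      ring
    have h6 : (0 : ℝ) < 4 ^ l * d := by positivity
    rw [h5, Real.norm_eq_abs, abs_div, abs_of_pos h6, div_le_iff₀ h6]
    refine h4.trans (le_of_eq ?_)
    rw [one_div, inv_pow]
    field_simp
  have h7 := tendsto_nhds_unique h1 h2
  linarith

theorem hx_nsmul {K : Type} [Field K] [NumberField K] (W : WeierstrassCurve K) (hΔ : W.Δ ≠ 0)
    (L : Type) [Field L] [NumberField L] [Algebra K L] [DecidableEq L]
    (P : (W.baseChange L).toAffine.Point) (hP : NT P) (n : ℕ) (hn : 0 < n) :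
    hx (W.baseChange L) (xc (n • P)) = (n : ℝ) ^ 2 * hx (W.baseChange L) (xc P) := by
  choose H hH hH' using lim_ex W hΔ L
  have hpar := par_H W hΔ L H hH
  have h0 : H 0 = 0 := by
    have := hpar 0 0
    rw [add_zero, sub_zero] at this
    linarith
  have hkey : ∀ n : ℕ, H (n • P) = (n : ℝ) ^ 2 * H P ∧
      H ((n + 1) • P) = ((n : ℝ) + 1) ^ 2 * H P := by
    intro n
    induction n with
    | zero =>
      constructor
      · rw [zero_smul, h0]
        simp
      · rw [zero_add, one_smul]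
        simp
    | succ m ih =>
      constructor
      · push_cast
        exact ih.2
      · have h1 := hpar ((m + 1) • P) P
        have h2 : (m + 1) • P + P = (m + 1 + 1) • P := (succ_nsmul P (m + 1)).symm
        have h3 : (m + 1) • P - P = m • P := by
          rw [succ_nsmul, add_sub_cancel_right]
        rw [h2, h3, ih.1, ih.2] at h1
        push_cast
        linear_combination h1
  have hP0 : P ≠ 0 := by
    have := hP 1 one_pos
    rwa [one_smul] at this
  rw [← hH' P hP0, ← hH' (n • P) (hP n hn)]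
  exact (hkey n).1

end LEH
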