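/-
LH/NiP (M)  MP_022f22_nt, Lehmer project, table modleh. Paper proof: /team-store/lehmer_proof.md
x-coordinates of non-torsion points are Nice.  a = xc P.
 * iteration: xc (N^n P) = F^[n] a: induction with Setup.mul at N^n P != 0, N * (N^n P) != 0 (NT, N >= 2).
 * ne: B(F^[n] a) = B(xc(N^n P)) != 0 by Setup.mul (first clause, negated).
 * disj: F^[n] a = F^[m](sigma a): xc(N^n P) = xc(N^m cj sigma P), so N^n P = e N^m sigmaP with e = +-1 (eq_or_neg).  Then for all r: N^(n r) P = e^r N^(m r) sigma^r P (induction, apply N^(nr) and sigma^r: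
   N^(n(r+1))P = N^n (e^r N^(mr) sigma^r P) = e^r N^(mr) sigma^r (N^n P) = e^(r+1) N^(m(r+1)) sigma^(r+1) P).  r = orderOf sigma >= 1 (the Galois group is finite): (N^(nr) -+ N^(mr)) P = 0 as integers;
   P is non-torsion and N^(nr), N^(mr) are positive, so N^(nr) = N^(mr) and n = m (N >= 2, r >= 1).
 * ht: hx(F^[n](sigma a)) = hx(xc(N^n cj sigma P)) = (N^n)^2 hx(sigma a) (hx_nsmul; n = 0 trivial) = Q^n hx a (hx_gal).  Δ != 0 from GoodRed.
-/
import Mathlib
import Pool.Agent.Work.MP_022f22_nt.LH.Defs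
import Pool.Agent.Work.MP_022f22_nt.LH.CjP
import Pool.Agent.Work.MP_022f22_nt.LH.Fmc
import Pool.Agent.Work.MP_022f22_nt.LH.Gal
import Pool.Agent.Work.MP_022f22_nt.LH.Nsq

open NumberField IsDedekindDomain Polynomial Height Filter Topology

namespace LEH

private theorem nip_nt {G : Type*} [AddGroup G] {P : G} (hP : NT P) {a b : ℕ} (hab : a ≠ b) :
    a • P ≠ b • P := by
  intro h
  rcases lt_or_gt_of_ne hab with hlt | hlt
  · refine hP (b - a) (Nat.sub_pos_of_lt hlt) ?_
    rw [sub_nsmul P hlt.le, h, add_neg_cancel]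
  · refine hP (a - b) (Nat.sub_pos_of_lt hlt) ?_
    rw [sub_nsmul P hlt.le, h, add_neg_cancel]

theorem nice_point {K : Type} [Field K] [NumberField K] {v : HeightOneSpectrum (𝓞 K)}
    {W : WeierstrassCurve K} {p N Q : ℕ} {A B : K[X]} (hs : Setup K v W p N Q A B)
    {L : Type} [Field L] [NumberField L] [Algebra K L] [FiniteDimensional K L] [DecidableEq L]
    (P : (W.baseChange L).toAffine.Point) (hP : NT P) :
    Nice W Q A B (xc P) ∧ ∀ n : ℕ, xc (N ^ n • P) = (Fm A B)^[n] (xc P) := by
  have hN : 2 ≤ N := by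
    obtain ⟨s, hs0, hsN⟩ := hs.N_pow
    rw [hsN]
    calc 2 ≤ p := hs.prime.two_le
      _ = p ^ 1 := (pow_one p).symm
      _ ≤ p ^ s := Nat.pow_le_pow_right hs.prime.pos hs0
  have hNpos : ∀ n : ℕ, 0 < N ^ n := fun n => Nat.pow_pos (by omega)
  have hne : ∀ n : ℕ, N ^ n • P ≠ 0 := fun n => hP _ (hNpos n)
  have hsucc : ∀ n : ℕ, N ^ (n + 1) • P = N • (N ^ n • P) := by
    intro n
    rw [pow_succ', mul_smul]
  have hit : ∀ n : ℕ, xc (N ^ n • P) = (Fm A B)^[n] (xc P) := by
    intro n
    induction n with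
    | zero => simp
    | succ n ih =>
      rw [Function.iterate_succ_apply', ← ih, hsucc]
      refine (hs.mul L (N ^ n • P) (hne n)).2 ?_
      rw [← hsucc]
      exact hne (n + 1)
  have hΔ : W.Δ ≠ 0 := by
    intro h
    have h1 := hs.good.disc
    rw [h, map_zero] at h1
    exact zero_ne_one h1
  refine ⟨⟨?_, ?_, ?_⟩, hit⟩
  · intro n h
    rw [← hit n] at h
    have h1 := (hs.mul L (N ^ n • P) (hne n)).1.2 h
    rw [← hsucc] at h1
    exact hne (n + 1) h1
  · intro σ n m h
    -- the relation between the points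
    have h1 : N ^ n • P = N ^ m • cj σ P ∨ N ^ n • P = -(N ^ m • cj σ P) := by
      have h2 : xc (N ^ n • P) = xc (N ^ m • cj σ P) := by
        rw [hit n, h, Fm_iter_gal, ← hit m, ← cj_nsmul, cj_xc]
      refine eq_or_neg (hne n) ?_ h2
      rw [← cj_nsmul, Ne, cj_eq_zero]
      exact hne m
    have h3 : ∀ r : ℕ, N ^ (n * r) • P = N ^ (m * r) • cj (σ ^ r) P ∨
        N ^ (n * r) • P = -(N ^ (m * r) • cj (σ ^ r) P) := by
      intro r
      induction r with
      | zero =>
        left
        rw [Nat.mul_zero, Nat.mul_zero, pow_zero, pow_zero, cj_one]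
      | succ r ih =>
        have e1 : N ^ (n * (r + 1)) • P = N ^ n • (N ^ (n * r) • P) := by
          rw [← mul_smul, ← pow_add]
          congr 2
          ring
        have e2 : N ^ n • (N ^ (m * r) • cj (σ ^ r) P) = N ^ (m * r) • cj (σ ^ r) (N ^ n • P) := by
          rw [← mul_smul, mul_comm, mul_smul, ← cj_nsmul]
        have e3 : N ^ (m * r) • cj (σ ^ r) (N ^ m • cj σ P) =
            N ^ (m * (r + 1)) • cj (σ ^ (r + 1)) P := by
          rw [cj_nsmul, ← mul_smul, ← pow_add, ← cj_mul, ← pow_succ]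
          congr 2
        rw [e1]
        rcases ih with ih | ih
        · rw [ih, e2]
          rcases h1 with h1 | h1
          · left
            rw [h1, e3]
          · right
            rw [h1, cj_neg, smul_neg, e3]
        · rw [ih, smul_neg, e2]
          rcases h1 with h1 | h1
          · right
            rw [h1, e3]
          · left
            rw [h1, cj_neg, smul_neg, neg_neg, e3]
    have hr : 0 < orderOf σ := orderOf_pos σ
    have h4 := h3 (orderOf σ)
    rw [pow_orderOf_eq_one, cj_one] at h4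
    by_contra hnm
    have hnm' : N ^ (n * orderOf σ) ≠ N ^ (m * orderOf σ) := by
      intro h5
      have h6 := Nat.pow_right_injective hN h5
      exact hnm (Nat.eq_of_mul_eq_mul_right hr h6)
    rcases h4 with h4 | h4
    · exact nip_nt hP hnm' h4
    · refine hP (N ^ (n * orderOf σ) + N ^ (m * orderOf σ)) (Nat.add_pos_left (hNpos _) _) ?_
      rw [add_nsmul, h4, neg_add_cancel]
  · intro σ n
    rw [Fm_iter_gal, hx_gal, ← hit n, hx_nsmul W hΔ L P hP (N ^ n) (hNpos n), hs.Q_eq]
    congr 1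
    push_cast
    ring

end LEH
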