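/-
LH/AnA (M)  MP_022f22_nt, Lehmer project, table modleh. Paper proof: /team-store/lehmer_proof.md
Pure analysis for Prop A.  Put x = log D + 1 >= 1.  Divide the hypothesis by (R+1) D <= 2 R D: for R >= 1
 Λ R^2/12 <= C1 (log((R+1)D) + 1) + 8 D Q^R h   and  log((R+1) D) + 1 = log(R+1) + x <= R + x.
Let c >= 1 with c >= 48 C1/Λ + 1 (so c^2 >= 48 C1/Λ too), R = ceil(c sqrt x) >= c >= 1.  C1 R <= C1 R^2/c <= Λ R^2/48, C1 x <= C1 R^2/c^2 <= Λ R^2/48.  So 8 D Q^R h >= Λ R^2/24 >= Λ/24, D h >= (Λ/192) Q^(-R),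
R <= c sqrt x + 1 <= (c+1) sqrt x, Q^(-R) >= exp(-(c+1) log Q sqrt x).  C2 = (c+1) log Q + |log(Λ/192)| + 1.
-/
import Mathlib
import Pool.Agent.Work.MP_022f22_nt.LH.Defs

open NumberField IsDedekindDomain Polynomial Height Filter Topology

namespace LEH

theorem anaA (Λ C1 : ℝ) (hΛ : 0 < Λ) (hC1 : 0 < C1) (Q : ℕ) (hQ : 4 ≤ Q) :
    ∃ C2 : ℝ, 0 < C2 ∧ ∀ (D : ℕ) (_ : 1 ≤ D) (h : ℝ) (_ : 0 ≤ h)
      (_ : ∀ R : ℕ, 1 ≤ R → Λ * ((D : ℝ) * (R : ℝ) ^ 3 / 6) ≤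
        C1 * (((R + 1) * D : ℕ) : ℝ) * (Real.log (((R + 1) * D : ℕ) : ℝ) + 1) +
          4 * (((R + 1) * D : ℕ) : ℝ) * (2 * (D : ℝ) * (Q : ℝ) ^ R * h)),
      Real.exp (-(C2 * Real.sqrt (Real.log D + 1))) ≤ D * h := by
  have hQ' : (4 : ℝ) ≤ Q := by exact_mod_cast hQ
  have hlQ : 0 < Real.log Q := Real.log_pos (by linarith)
  set c : ℝ := 48 * C1 / Λ + 1 with hc
  have hc1 : 1 ≤ c := by
    have : 0 ≤ 48 * C1 / Λ := by positivity
    linarith
  have hcC : 48 * C1 ≤ c * Λ := by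
    have : 48 * C1 / Λ ≤ c := by linarith
    rwa [div_le_iff₀ hΛ] at this
  refine ⟨(c + 1) * Real.log Q + |Real.log (Λ / 192)| + 1, by positivity, ?_⟩
  intro D hD h hh H
  have hD' : (1 : ℝ) ≤ D := by exact_mod_cast hD
  have hlD : 0 ≤ Real.log D := Real.log_nonneg hD'
  set x : ℝ := Real.log D + 1 with hx
  have hx1 : 1 ≤ x := by linarith
  have hsx : 1 ≤ Real.sqrt x := by
    rw [show (1 : ℝ) = Real.sqrt 1 by simp]
    exact Real.sqrt_le_sqrt hx1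
  have hsq : Real.sqrt x ^ 2 = x := Real.sq_sqrt (by linarith)
  set R : ℕ := ⌈c * Real.sqrt x⌉₊ with hR
  have hRge : c * Real.sqrt x ≤ R := Nat.le_ceil _
  have hRc : c ≤ R := by nlinarith
  have hR1r : (1 : ℝ) ≤ R := by linarith
  have hR1 : 1 ≤ R := by exact_mod_cast hR1r
  have hRle : (R : ℝ) ≤ (c + 1) * Real.sqrt x := by
    have := Nat.ceil_lt_add_one (a := c * Real.sqrt x) (by positivity)
    rw [← hR] at this
    nlinarith
  have key := H R hR1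
  have hM : (((R + 1) * D : ℕ) : ℝ) = ((R : ℝ) + 1) * D := by push_cast; ring
  rw [hM, Real.log_mul (by positivity) (by positivity)] at key
  have hlog : Real.log ((R : ℝ) + 1) ≤ R := by
    have := Real.log_le_sub_one_of_pos (show (0 : ℝ) < (R : ℝ) + 1 by positivity)
    linarith
  have hRD : 0 < ((R : ℝ) + 1) * D := by positivity
  -- divide by (R+1) D
  have key2 : Λ * (R : ℝ) ^ 2 / 12 ≤ C1 * ((R : ℝ) + x) + 8 * (D : ℝ) * (Q : ℝ) ^ R * h := by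
    have h1 : ((R : ℝ) + 1) * D * (Λ * (R : ℝ) ^ 2 / 12) ≤
        Λ * ((D : ℝ) * (R : ℝ) ^ 3 / 6) := by
      have : Λ * ((D : ℝ) * (R : ℝ) ^ 3 / 6) - ((R : ℝ) + 1) * D * (Λ * (R : ℝ) ^ 2 / 12) =
          Λ * D * (R : ℝ) ^ 2 * ((R : ℝ) - 1) / 12 := by ring
      have h2 : 0 ≤ Λ * D * (R : ℝ) ^ 2 * ((R : ℝ) - 1) / 12 := by
        have : 0 ≤ (R : ℝ) - 1 := by linarith
        positivity
      linarith
    have h3 : C1 * (((R : ℝ) + 1) * D) * (Real.log ((R : ℝ) + 1) + Real.log D + 1) ≤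
        C1 * (((R : ℝ) + 1) * D) * ((R : ℝ) + x) := by
      apply mul_le_mul_of_nonneg_left _ (by positivity)
      rw [hx]; linarith
    have h4 : ((R : ℝ) + 1) * D * (Λ * (R : ℝ) ^ 2 / 12) ≤
        ((R : ℝ) + 1) * D * (C1 * ((R : ℝ) + x) + 8 * (D : ℝ) * (Q : ℝ) ^ R * h) := by
      calc _ ≤ _ := h1
        _ ≤ _ := key
        _ ≤ C1 * (((R : ℝ) + 1) * D) * ((R : ℝ) + x) +
            4 * (((R : ℝ) + 1) * D) * (2 * (D : ℝ) * (Q : ℝ) ^ R * h) := by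
              exact add_le_add h3 le_rfl
        _ = _ := by ring
    exact le_of_mul_le_mul_left h4 hRD
  have h5 : C1 * (R : ℝ) ≤ Λ * (R : ℝ) ^ 2 / 48 := by
    have : 48 * C1 ≤ R * Λ := hcC.trans (mul_le_mul_of_nonneg_right hRc hΛ.le)
    nlinarith
  have h6 : C1 * x ≤ Λ * (R : ℝ) ^ 2 / 48 := by
    have h61 : c ^ 2 * x ≤ (R : ℝ) ^ 2 := by
      have : (c * Real.sqrt x) ^ 2 ≤ (R : ℝ) ^ 2 :=
        pow_le_pow_left₀ (by positivity) hRge 2
      rwa [mul_pow, hsq] at this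
    have h62 : 48 * C1 * x ≤ Λ * (c ^ 2 * x) := by
      have : 48 * C1 ≤ Λ * c ^ 2 := by nlinarith
      nlinarith
    have h63 : Λ * (c ^ 2 * x) ≤ Λ * (R : ℝ) ^ 2 := mul_le_mul_of_nonneg_left h61 hΛ.le
    linarith
  have h7 : Λ / 192 ≤ (Q : ℝ) ^ R * (D * h) := by
    have h71 : Λ * (R : ℝ) ^ 2 / 24 ≤ 8 * (D : ℝ) * (Q : ℝ) ^ R * h := by
      have : C1 * ((R : ℝ) + x) = C1 * R + C1 * x := by ring
      linarith
    have h72 : Λ ≤ Λ * (R : ℝ) ^ 2 :=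
      le_mul_of_one_le_right hΛ.le (one_le_pow₀ hR1r)
    have h73 : 8 * (D : ℝ) * (Q : ℝ) ^ R * h = 8 * ((Q : ℝ) ^ R * (D * h)) := by ring
    linarith
  have h8 : (Q : ℝ) ^ R ≤ Real.exp ((c + 1) * Real.log Q * Real.sqrt x) := by
    have : (Q : ℝ) ^ R = Real.exp (Real.log Q * R) := by
      rw [mul_comm, Real.exp_nat_mul, Real.exp_log (by linarith)]
    rw [this]
    apply Real.exp_le_exp.mpr
    calc Real.log Q * R ≤ Real.log Q * ((c + 1) * Real.sqrt x) :=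
          mul_le_mul_of_nonneg_left hRle hlQ.le
      _ = _ := by ring
  have hDh : 0 ≤ (D : ℝ) * h := by positivity
  have h9 : Λ / 192 ≤ Real.exp ((c + 1) * Real.log Q * Real.sqrt x) * (D * h) :=
    h7.trans (mul_le_mul_of_nonneg_right h8 hDh)
  have h10 : Real.exp (-|Real.log (Λ / 192)|) ≤ Λ / 192 := by
    calc Real.exp (-|Real.log (Λ / 192)|) ≤ Real.exp (Real.log (Λ / 192)) :=
          Real.exp_le_exp.mpr (neg_abs_le _)
      _ = Λ / 192 := Real.exp_log (by positivity)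
  calc Real.exp (-(((c + 1) * Real.log Q + |Real.log (Λ / 192)| + 1) * Real.sqrt x))
      ≤ Real.exp (-|Real.log (Λ / 192)| + -((c + 1) * Real.log Q * Real.sqrt x)) := by
        apply Real.exp_le_exp.mpr
        have := mul_le_mul_of_nonneg_left hsx (abs_nonneg (Real.log (Λ / 192)))
        nlinarith
    _ = Real.exp (-|Real.log (Λ / 192)|) * Real.exp (-((c + 1) * Real.log Q * Real.sqrt x)) :=
        Real.exp_add _ _
    _ ≤ (Real.exp ((c + 1) * Real.log Q * Real.sqrt x) * (D * h)) *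
          Real.exp (-((c + 1) * Real.log Q * Real.sqrt x)) :=
        mul_le_mul_of_nonneg_right (h10.trans h9) (Real.exp_pos _).le
    _ = D * h := by
        rw [Real.exp_neg]
        field_simp

end LEH
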