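/-
LH/Frb : the product of the chordal distances from the Q-th power to the inertia orbit of the Frobenius conjugate.
-/
import Mathlib
import Pool.Agent.Work.MP_022f22_nt.LH.Defs
import Pool.Agent.Work.MP_022f22_nt.LH.Cdb
import Pool.Agent.Work.MP_022f22_nt.LH.Org

open NumberField IsDedekindDomain Polynomial Height Filter Topology

namespace LEH

private theorem frb_sum_pow {R : Type*} [CommRing R] {p : ℕ} (hp : p.Prime) (n : ℕ) {ι : Type*}
    (s : Finset ι) (u : ι → R) :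
    ∃ r, (∑ i ∈ s, u i) ^ (p ^ n) = ∑ i ∈ s, u i ^ (p ^ n) + (p : R) * r := by
  classical
  induction s using Finset.induction_on with
  | empty =>
    refine ⟨0, ?_⟩
    rw [Finset.sum_empty, Finset.sum_empty, zero_pow (pow_pos hp.pos n).ne', mul_zero, add_zero]
  | insert a s ha ih =>
    obtain ⟨r, hr⟩ := ih
    obtain ⟨r', hr'⟩ := exists_add_pow_prime_pow_eq hp (u a) (∑ i ∈ s, u i) n
    refine ⟨r + u a * (∑ i ∈ s, u i) * r', ?_⟩
    rw [Finset.sum_insert ha, Finset.sum_insert ha, hr', hr]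
    ring

private def frbO {L : Type*} [Field L] (w : AbsoluteValue L ℝ) (hw : IsNonarchimedean w) :
    Subring L where
  carrier := {x | w x ≤ 1}
  mul_mem' := fun {a b} ha hb => by
    change w (a * b) ≤ 1
    rw [w.map_mul]
    exact mul_le_one₀ ha (w.nonneg _) hb
  one_mem' := by
    change w 1 ≤ 1
    rw [w.map_one]
  add_mem' := fun {a b} ha hb => by
    change w (a + b) ≤ 1
    exact (hw a b).trans (max_le ha hb)
  zero_mem' := by
    change w 0 ≤ 1
    rw [w.map_zero]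
    exact zero_le_one
  neg_mem' := fun {a} ha => by
    change w (-a) ≤ 1
    rw [w.map_neg]
    exact ha

private theorem frb_sum_pow_w {L : Type*} [Field L] {w : AbsoluteValue L ℝ}
    (hw : IsNonarchimedean w) {ρ : ℝ} {p : ℕ} (hp : p.Prime) (hc : w (p : L) ≤ ρ) (n : ℕ)
    {ι : Type*} (s : Finset ι) (u : ι → L) (hu : ∀ i, w (u i) ≤ 1) :
    w ((∑ i ∈ s, u i) ^ (p ^ n) - ∑ i ∈ s, u i ^ (p ^ n)) ≤ ρ := by
  obtain ⟨r, hr⟩ := frb_sum_pow (R := frbO w hw) hp n s (fun i => ⟨u i, hu i⟩)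
  have h1 := congrArg (fun x : frbO w hw => (x : L)) hr
  simp only [Subring.coe_pow, Subring.coe_add, Subring.coe_mul, AddSubmonoidClass.coe_finsetSum,
    SubringClass.coe_natCast] at h1
  rw [h1, add_sub_cancel_left, w.map_mul]
  have h2 : w (r : L) ≤ 1 := r.2
  calc w (p : L) * w (r : L) ≤ w (p : L) * 1 := mul_le_mul_of_nonneg_left h2 (w.nonneg _)
    _ ≤ ρ := by rw [mul_one]; exact hc

private theorem frb_coeff {L : Type*} [Field L] {w : AbsoluteValue L ℝ}
    (hw : IsNonarchimedean w) (S : Finset L) (hS : ∀ c ∈ S, w c ≤ 1) (m : ℕ) :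
    w ((∏ c ∈ S, (X - C c)).coeff m) ≤ 1 := by
  classical
  have hsub : ∀ x y : L, w x ≤ 1 → w y ≤ 1 → w (x - y) ≤ 1 := by
    intro x y hx hy
    have h1 := hw x (-y)
    rw [← sub_eq_add_neg, w.map_neg] at h1
    exact h1.trans (max_le hx hy)
  induction S using Finset.induction_on generalizing m with
  | empty =>
    rw [Finset.prod_empty, coeff_one]
    split_ifs
    · rw [w.map_one]
    · rw [w.map_zero]; exact zero_le_one
  | insert a s ha ih =>
    have ih' := ih (fun c hc => hS c (Finset.mem_insert_of_mem hc))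
    have haw := hS a (Finset.mem_insert_self _ _)
    rw [Finset.prod_insert ha, mul_comm]
    have hmul : ∀ k, w ((∏ c ∈ s, (X - C c)).coeff k * a) ≤ 1 := by
      intro k
      rw [w.map_mul]
      exact mul_le_one₀ (ih' k) (w.nonneg _) haw
    cases m with
    | zero =>
      rw [mul_coeff_zero, coeff_sub, coeff_X_zero, coeff_C_zero, zero_sub, mul_neg, w.map_neg]
      exact hmul 0
    | succ m =>
      rw [coeff_mul_X_sub_C]
      exact hsub _ _ (ih' m) (hmul _)

private theorem frb_map {L : Type*} [Field L] (f : L →+* L) {S S' : Finset L}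
    (h : (S : Set L).image f = (S' : Set L)) :
    (∏ c ∈ S, (X - C c)).map f = ∏ c ∈ S', (X - C c) := by
  classical
  have hS : S' = S.image f := by
    apply Finset.coe_injective
    rw [Finset.coe_image, h]
  rw [hS, Finset.prod_image (fun x _ y _ hxy => f.injective hxy), Polynomial.map_prod]
  apply Finset.prod_congr rfl
  intro c _
  rw [Polynomial.map_sub, map_X, map_C]

private theorem frb_orb_stab {K L : Type*} [Field K] [Field L] [Algebra K L]
    [FiniteDimensional K L] {I : Subgroup (L ≃ₐ[K] L)} {σ : L ≃ₐ[K] L} (hσ : σ ∈ I) (a : L) :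
    (orbF I a : Set L).image (σ : L → L) = (orbF I a : Set L) := by
  ext b
  simp only [Set.mem_image, Finset.mem_coe, mem_orbF]
  constructor
  · rintro ⟨x, ⟨τ, hτ, rfl⟩, rfl⟩
    exact ⟨σ * τ, I.mul_mem hσ hτ, rfl⟩
  · rintro ⟨τ, hτ, rfl⟩
    refine ⟨(σ⁻¹ * τ) a, ⟨σ⁻¹ * τ, I.mul_mem (I.inv_mem hσ) hτ, rfl⟩, ?_⟩
    rw [← AlgEquiv.mul_apply, ← mul_assoc, mul_inv_cancel, one_mul]

private theorem frb_int {K L : Type*} [Field K] [Field L] [Algebra K L] [FiniteDimensional K L]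
    {w : AbsoluteValue L ℝ} {ρ : ℝ} {p Q : ℕ} {I : Subgroup (L ≃ₐ[K] L)} {φ : L ≃ₐ[K] L}
    (h : InertiaData w ρ p Q I φ) (a : L) (ha : w a ≤ 1) :
    ∏ c ∈ orbF I (φ a), cd w (a ^ Q) c ≤ ρ := by
  classical
  obtain ⟨n, hn, hQ⟩ := h.pow
  have hQ0 : Q ≠ 0 := by
    rw [hQ]
    exact (pow_pos h.prime.pos n).ne'
  have hnon := h.nonarch
  have hSa : ∀ c ∈ orbF I a, w c ≤ 1 := by
    intro c hc
    obtain ⟨σ, hσ, rfl⟩ := mem_orbF.1 hc
    rw [h.inert_abs σ hσ]
    exact ha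
  have hSb : ∀ c ∈ orbF I (φ a), w c ≤ 1 := by
    intro c hc
    obtain ⟨σ, hσ, rfl⟩ := mem_orbF.1 hc
    rw [h.inert_abs σ hσ, h.frob_abs]
    exact ha
  have haQ : w (a ^ Q) ≤ 1 := by
    rw [map_pow]
    exact pow_le_one₀ (w.nonneg _) ha
  have hprod : ∏ c ∈ orbF I (φ a), cd w (a ^ Q) c
      = w ((∏ c ∈ orbF I (φ a), (X - C c)).eval (a ^ Q)) := by
    rw [eval_prod, map_prod]
    apply Finset.prod_congr rfl
    intro c hc
    rw [cd_of_le w haQ (hSb c hc), eval_sub, eval_X, eval_C]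
  rw [hprod]
  set g : L[X] := ∏ c ∈ orbF I a, (X - C c) with hg
  set g1 : L[X] := ∏ c ∈ orbF I (φ a), (X - C c) with hg1
  have hgφ : g.map (φ : L →+* L) = g1 := frb_map _ (orbF_conj h.norm a)
  have hgσ : ∀ σ ∈ I, g.map (σ : L →+* L) = g := fun σ hσ => frb_map _ (frb_orb_stab hσ a)
  have hg1σ : ∀ σ ∈ I, g1.map (σ : L →+* L) = g1 := fun σ hσ => frb_map _ (frb_orb_stab hσ (φ a))
  have hcσ : ∀ σ ∈ I, ∀ m, σ (g.coeff m) = g.coeff m := by
    intro σ hσ m
    have := congrArg (fun q : L[X] => q.coeff m) (hgσ σ hσ)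
    simpa [coeff_map] using this
  have hc1σ : ∀ σ ∈ I, ∀ m, σ (g1.coeff m) = g1.coeff m := by
    intro σ hσ m
    have := congrArg (fun q : L[X] => q.coeff m) (hg1σ σ hσ)
    simpa [coeff_map] using this
  have hcφ : ∀ m, g1.coeff m = φ (g.coeff m) := by
    intro m
    rw [← hgφ, coeff_map]
    rfl
  have hgc : ∀ m, w (g.coeff m) ≤ 1 := frb_coeff hnon _ hSa
  have hδ : ∀ m, w (g1.coeff m - (g.coeff m) ^ Q) ≤ ρ := by
    intro m
    apply h.unram
    · intro σ hσ
      rw [map_sub, map_pow, hcσ σ hσ, hc1σ σ hσ]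
    · rw [hcφ]
      exact h.frob _ (hgc m)
  have hga : g.eval a = 0 := by
    rw [hg, eval_prod]
    apply Finset.prod_eq_zero (self_mem_orbF I a)
    rw [eval_sub, eval_X, eval_C, sub_self]
  have hdeg : g1.natDegree = g.natDegree := by
    rw [← hgφ]
    exact natDegree_map _
  -- evaluate
  have he1 : g1.eval (a ^ Q) = ∑ m ∈ Finset.range (g.natDegree + 1), g1.coeff m * (a ^ Q) ^ m := by
    rw [eval_eq_sum_range, hdeg]
  have he0 : ∑ m ∈ Finset.range (g.natDegree + 1), g.coeff m * a ^ m = 0 := by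
    rw [← eval_eq_sum_range, hga]
  have hw2 := frb_sum_pow_w hnon h.prime h.char n (Finset.range (g.natDegree + 1))
    (fun m => g.coeff m * a ^ m) (fun m => by
      rw [w.map_mul, map_pow]
      exact mul_le_one₀ (hgc m) (pow_nonneg (w.nonneg _) _) (pow_le_one₀ (w.nonneg _) ha))
  rw [he0, ← hQ, zero_pow hQ0, zero_sub, w.map_neg] at hw2
  have hsplit : g1.eval (a ^ Q) = ∑ m ∈ Finset.range (g.natDegree + 1), (g.coeff m * a ^ m) ^ Q
      + ∑ m ∈ Finset.range (g.natDegree + 1), (g1.coeff m - (g.coeff m) ^ Q) * (a ^ Q) ^ m := by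
    rw [he1, ← Finset.sum_add_distrib]
    apply Finset.sum_congr rfl
    intro m _
    rw [mul_pow, ← pow_mul, ← pow_mul, mul_comm m Q]
    ring
  rw [hsplit]
  refine (hnon _ _).trans (max_le hw2 ?_)
  obtain ⟨i, _, hle⟩ := IsNonarchimedean.finset_image_add_of_nonempty hnon
    (fun m => (g1.coeff m - (g.coeff m) ^ Q) * (a ^ Q) ^ m)
    (t := Finset.range (g.natDegree + 1)) ⟨0, by simp⟩
  refine hle.trans ?_
  rw [w.map_mul, map_pow]
  calc w (g1.coeff i - g.coeff i ^ Q) * w (a ^ Q) ^ i ≤ ρ * 1 :=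
        mul_le_mul (hδ i) (pow_le_one₀ (w.nonneg _) haQ) (pow_nonneg (w.nonneg _) _) h.rho_pos.le
    _ = ρ := mul_one _

theorem frob_orbit {K L : Type*} [Field K] [Field L] [Algebra K L] [FiniteDimensional K L]
    {w : AbsoluteValue L ℝ} {ρ : ℝ} {p Q : ℕ} {I : Subgroup (L ≃ₐ[K] L)} {φ : L ≃ₐ[K] L}
    (h : InertiaData w ρ p Q I φ) (a : L) :
    ∏ c ∈ orbF I (φ a), cd w (a ^ Q) c ≤ ρ := by
  classical
  rcases le_or_gt (w a) 1 with ha | ha
  · exact frb_int h a ha
  · have ha0 : a ≠ 0 := by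
      rintro rfl
      rw [w.map_zero] at ha
      linarith
    have hb : w a⁻¹ ≤ 1 := by
      rw [map_inv₀]
      exact inv_le_one_of_one_le₀ ha.le
    have h1 := frb_int h a⁻¹ hb
    have himg : (orbF I (φ a) : Set L).image (fun x : L => x⁻¹) = (orbF I (φ a⁻¹) : Set L) := by
      have := orbF_image (I := I) (fun x : L => x⁻¹) (fun σ _ x => (map_inv₀ σ x).symm) (φ a)
      rw [this, map_inv₀]
    have hS : orbF I (φ a⁻¹) = (orbF I (φ a)).image (fun x : L => x⁻¹) := by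
      apply Finset.coe_injective
      rw [Finset.coe_image, himg]
    rw [hS, Finset.prod_image (fun x _ y _ hxy => inv_injective hxy)] at h1
    refine le_trans (le_of_eq ?_) h1
    apply Finset.prod_congr rfl
    intro c hc
    obtain ⟨σ, _, rfl⟩ := mem_orbF.1 hc
    have hc0 : σ (φ a) ≠ 0 := by
      rw [Ne, EmbeddingLike.map_eq_zero_iff, EmbeddingLike.map_eq_zero_iff]
      exact ha0
    rw [inv_pow, cd_inv w (pow_ne_zero _ ha0) hc0]

end LEH
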