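/-
LH/InP (S)  MP_022f22_nt, Lehmer project, table modleh. Paper proof: /team-store/lehmer_proof.md
Powers of the Frobenius: (phi^r, Q^r), r >= 1.  frob: induction on r: for w x <= 1:
phi^(r+1) x - x^(Q^(r+1)) = phi(phi^r x) - (phi^r x)^Q + ((phi^r x)^Q - (x^(Q^r))^Q): first difference < 1 by frob (w(phi^r x) = w x <= 1);
second: w(u^Q - v^Q) <= w(u - v) < 1 for integral u, v ((u-v) divides u^Q - v^Q).  norm: phi^r sigma phi^-r by induction.  pow: Q^r = p^(m r).
-/
import Mathlib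
import Pool.Agent.Work.MP_022f22_nt.LH.Defs

open NumberField IsDedekindDomain Polynomial Height Filter Topology

namespace LEH

private theorem pow_sub_pow_lt {L : Type*} [Field L] {w : AbsoluteValue L ℝ}
    (hw : IsNonarchimedean w) (n : ℕ) {u v : L} (hu : w u ≤ 1) (hv : w v ≤ 1)
    (h : w (u - v) < 1) : w (u ^ n - v ^ n) < 1 := by
  induction n with
  | zero => simp
  | succ n ih =>
    have e : u ^ (n + 1) - v ^ (n + 1) = u ^ n * (u - v) + (u ^ n - v ^ n) * v := by ring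
    rw [e]
    refine lt_of_le_of_lt (hw _ _) (max_lt ?_ ?_)
    · rw [w.map_mul, w.map_pow]
      calc w u ^ n * w (u - v) ≤ 1 * w (u - v) :=
            mul_le_mul_of_nonneg_right (pow_le_one₀ (w.nonneg _) hu) (w.nonneg _)
        _ < 1 := by rwa [one_mul]
    · rw [w.map_mul]
      calc w (u ^ n - v ^ n) * w v ≤ w (u ^ n - v ^ n) * 1 :=
            mul_le_mul_of_nonneg_left hv (w.nonneg _)
        _ < 1 := by rwa [mul_one]

theorem InertiaData.pw {K L : Type*} [Field K] [Field L] [Algebra K L] {w : AbsoluteValue L ℝ}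
    {ρ : ℝ} {p Q : ℕ} {I : Subgroup (L ≃ₐ[K] L)} {φ : L ≃ₐ[K] L}
    (h : InertiaData w ρ p Q I φ) (r : ℕ) (hr : 1 ≤ r) :
    InertiaData w ρ p (Q ^ r) I (φ ^ r) := by
  have habs : ∀ (r : ℕ) (x : L), w ((φ ^ r) x) = w x := by
    intro r
    induction r with
    | zero => intro x; simp
    | succ r ih =>
      intro x
      rw [pow_succ', AlgEquiv.mul_apply, h.frob_abs, ih]
  have hnorm : ∀ (r : ℕ) (σ : L ≃ₐ[K] L), σ ∈ I ↔ φ ^ r * σ * (φ ^ r)⁻¹ ∈ I := by
    intro r
    induction r with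
    | zero => intro σ; simp
    | succ r ih =>
      intro σ
      rw [ih σ, h.norm (φ ^ r * σ * (φ ^ r)⁻¹)]
      have e : φ * (φ ^ r * σ * (φ ^ r)⁻¹) * φ⁻¹ = φ ^ (r + 1) * σ * (φ ^ (r + 1))⁻¹ := by
        rw [pow_succ', mul_inv_rev]
        group
      rw [e]
  have hfrob : ∀ (r : ℕ) (x : L), w x ≤ 1 → w ((φ ^ r) x - x ^ (Q ^ r)) < 1 := by
    intro r
    induction r with
    | zero => intro x _; simp
    | succ r ih =>
      intro x hx
      have hy : w ((φ ^ r) x) ≤ 1 := by rw [habs]; exact hx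
      have hz : w (x ^ (Q ^ r)) ≤ 1 := by
        rw [w.map_pow]; exact pow_le_one₀ (w.nonneg _) hx
      have e : (φ ^ (r + 1)) x - x ^ (Q ^ (r + 1)) =
          (φ ((φ ^ r) x) - ((φ ^ r) x) ^ Q) + (((φ ^ r) x) ^ Q - (x ^ (Q ^ r)) ^ Q) := by
        rw [pow_succ' φ r, AlgEquiv.mul_apply, pow_succ Q r, pow_mul]
        ring
      rw [e]
      exact lt_of_le_of_lt (h.nonarch _ _) (max_lt (h.frob _ hy)
        (pow_sub_pow_lt h.nonarch Q hy hz (ih x hx)))
  obtain ⟨m, hm, hQ⟩ := h.pow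
  exact
    { nonarch := h.nonarch
      rho_pos := h.rho_pos
      rho_lt := h.rho_lt
      prime := h.prime
      pow := ⟨m * r, Nat.mul_pos hm hr, by rw [hQ, pow_mul]⟩
      char := h.char
      inert_abs := h.inert_abs
      inert := h.inert
      unram := h.unram
      frob_abs := habs r
      norm := hnorm r
      frob := hfrob r }

end LEH
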