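/-
LH/Rev (S-M)  MP_022f22_nt, Lehmer project, table modleh. Paper proof: /team-store/lehmer_proof.md
GoodMap and w x > 1; put y = x^-1, w y < 1.  Multiply numerator and denominator by y^Q:
  y^Q * A.eval x = 1 + sum_{i<Q} A_i y^(Q-i) =: a(y),   y^Q * B.eval x = B_0 y^Q + sum_{1<=i<Q} B_i y^(Q-i) =: b(y).
w(a(y) - 1) <= max over i<Q of w(A_i) w(y)^(Q-i) <= rho (each w(A_i) <= rho, w y <= 1), so w(a(y)) = 1; in particular A.eval x != 0.
w(b(y) - y^Q) <= rho (B_0 - 1 and B_i have w <= rho).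
Hence the inverse of the quotient is y' = (A.eval x / B.eval x)^-1 = b(y)/a(y), w(y' - y^Q) <= rho:
y' - y^Q = (b(y) - y^Q + y^Q(1 - a(y)))/a(y).
Also w y' < 1: w(y^Q) < 1 and rho < 1.  (If B.eval x = 0 the quotient is 0 in Lean; we assume B.eval x != 0.)
-/
import Mathlib
import Pool.Agent.Work.MP_022f22_nt.LH.Defs

open NumberField IsDedekindDomain Polynomial Height Filter Topology

namespace LEH

private theorem rev_sum_le {L : Type*} [Field L] {w : AbsoluteValue L ℝ}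
    (na : IsNonarchimedean w) {c : ℝ} (hc : 0 ≤ c) {ι : Type*} {s : Finset ι} {f : ι → L}
    (hf : ∀ i ∈ s, w (f i) ≤ c) : w (∑ i ∈ s, f i) ≤ c := by
  classical
  induction s using Finset.induction_on with
  | empty => simpa using hc
  | insert a s ha ih =>
    rw [Finset.sum_insert ha]
    exact (na _ _).trans (max_le (hf a (Finset.mem_insert_self a s))
      (ih fun i hi => hf i (Finset.mem_insert_of_mem hi)))

private theorem rev_eq_one {L : Type*} [Field L] {w : AbsoluteValue L ℝ}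
    (na : IsNonarchimedean w) {a : L} (ha : w (a - 1) < 1) : w a = 1 := by
  apply le_antisymm
  · have h : a = (a - 1) + 1 := by ring
    rw [h]
    refine (na _ _).trans (max_le ha.le ?_)
    rw [map_one]
  · by_contra hlt
    push Not at hlt
    have h : (1 : L) = -(a - 1) + a := by ring
    have h2 : w (1 : L) < 1 := by
      rw [h]
      refine lt_of_le_of_lt (na _ _) (max_lt ?_ hlt)
      rw [AbsoluteValue.map_neg]
      exact ha
    rw [map_one] at h2
    exact lt_irrefl _ h2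

theorem good_rev {L : Type*} [Field L] {w : AbsoluteValue L ℝ} {ρ : ℝ} {p Q : ℕ} {A B : L[X]}
    (h : GoodMap w ρ p Q A B) {x : L} (hx : 1 < w x) (hB : B.eval x ≠ 0) :
    w ((A.eval x / B.eval x)⁻¹ - (x⁻¹) ^ Q) ≤ ρ ∧ w ((A.eval x / B.eval x)⁻¹) < 1 ∧
      A.eval x ≠ 0 ∧ w ((x⁻¹) ^ Q * A.eval x) = 1 := by
  have na := h.nonarch
  have hρ0 : 0 ≤ ρ := h.rho_pos.le
  have hρ1 := h.rho_lt
  have hx0 : x ≠ 0 := by
    rintro rfl
    rw [map_zero] at hx
    exact absurd hx (by norm_num)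
  have hQ1 : 1 ≤ Q := le_trans (by norm_num) h.four
  set y : L := x⁻¹ with hy
  have hy0 : y ≠ 0 := inv_ne_zero hx0
  have hwy : w y < 1 := by
    rw [hy, map_inv₀]
    exact inv_lt_one_of_one_lt₀ hx
  have hwy0 : 0 ≤ w y := w.nonneg _
  have hwyp : ∀ n : ℕ, w (y ^ n) ≤ 1 := fun n => by
    rw [map_pow]
    exact pow_le_one₀ hwy0 hwy.le
  have hxy : ∀ i, i ≤ Q → x ^ i * y ^ Q = y ^ (Q - i) := fun i hi => by
    have h1 : y ^ Q = y ^ i * y ^ (Q - i) := by
      rw [← pow_add, Nat.add_sub_cancel' hi]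
    rw [h1, ← mul_assoc, ← mul_pow, hy, mul_inv_cancel₀ hx0, one_pow, one_mul]
  -- the numerator
  have hA : y ^ Q * A.eval x - 1 = ∑ i ∈ Finset.range Q, A.coeff i * y ^ (Q - i) := by
    rw [eval_eq_sum_range' (Nat.lt_succ_of_le h.A_deg) x, Nat.succ_eq_add_one,
      Finset.sum_range_succ, h.A_top, mul_add, Finset.mul_sum]
    have h2 : y ^ Q * (1 * x ^ Q) = 1 := by
      rw [one_mul, mul_comm, hxy Q le_rfl, Nat.sub_self, pow_zero]
    rw [h2, add_sub_cancel_right]
    refine Finset.sum_congr rfl fun i hi => ?_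
    rw [← hxy i (Finset.mem_range.1 hi).le]
    ring
  have hwA : w (y ^ Q * A.eval x - 1) ≤ ρ := by
    rw [hA]
    refine rev_sum_le na hρ0 fun i hi => ?_
    rw [map_mul]
    calc w (A.coeff i) * w (y ^ (Q - i)) ≤ ρ * 1 :=
          mul_le_mul (h.A_low i (Finset.mem_range.1 hi)) (hwyp _) (w.nonneg _) hρ0
      _ = ρ := mul_one _
  have hwA1 : w (y ^ Q * A.eval x) = 1 := rev_eq_one na (lt_of_le_of_lt hwA hρ1)
  have hAne : A.eval x ≠ 0 := by
    intro h0
    rw [h0, mul_zero, map_zero] at hwA1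
    exact absurd hwA1 (by norm_num)
  -- the denominator
  have hB' : y ^ Q * B.eval x - y ^ Q =
      ∑ i ∈ Finset.range Q, (if i = 0 then (B.coeff 0 - 1) * y ^ Q
        else B.coeff i * y ^ (Q - i)) := by
    rw [eval_eq_sum_range' h.B_deg x, Finset.mul_sum]
    obtain ⟨q, rfl⟩ : ∃ q, Q = q + 1 := ⟨Q - 1, by omega⟩
    rw [Finset.sum_range_succ', Finset.sum_range_succ']
    simp only [if_true, Nat.add_eq_zero_iff, one_ne_zero, and_false, if_false]
    have h3 : ∀ i ∈ Finset.range q, y ^ (q + 1) * (B.coeff (i + 1) * x ^ (i + 1)) =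
        B.coeff (i + 1) * y ^ (q + 1 - (i + 1)) := fun i hi => by
      rw [← hxy (i + 1) (by have := Finset.mem_range.1 hi; omega)]
      ring
    rw [Finset.sum_congr rfl h3]
    ring
  have hwB : w (y ^ Q * B.eval x - y ^ Q) ≤ ρ := by
    rw [hB']
    refine rev_sum_le na hρ0 fun i hi => ?_
    split_ifs with hi0
    · rw [map_mul]
      calc w (B.coeff 0 - 1) * w (y ^ Q) ≤ ρ * 1 :=
            mul_le_mul h.B_zero (hwyp _) (w.nonneg _) hρ0
        _ = ρ := mul_one _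
    · rw [map_mul]
      calc w (B.coeff i) * w (y ^ (Q - i)) ≤ ρ * 1 :=
            mul_le_mul (h.B_low i (by omega)) (hwyp _) (w.nonneg _) hρ0
        _ = ρ := mul_one _
  have hyQ0 : y ^ Q ≠ 0 := pow_ne_zero _ hy0
  have hkey : (A.eval x / B.eval x)⁻¹ - y ^ Q =
      ((y ^ Q * B.eval x - y ^ Q) + (-(y ^ Q * (y ^ Q * A.eval x - 1)))) /
        (y ^ Q * A.eval x) := by
    field_simp
    ring
  have h1 : w ((A.eval x / B.eval x)⁻¹ - y ^ Q) ≤ ρ := by
    rw [hkey, map_div₀, hwA1, div_one]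
    refine (na _ _).trans (max_le hwB ?_)
    rw [AbsoluteValue.map_neg, map_mul]
    calc w (y ^ Q) * w (y ^ Q * A.eval x - 1) ≤ 1 * ρ :=
          mul_le_mul (hwyp _) hwA (w.nonneg _) zero_le_one
      _ = ρ := one_mul _
  refine ⟨h1, ?_, hAne, hwA1⟩
  have hyQ : w (y ^ Q) < 1 := by
    rw [map_pow]
    exact pow_lt_one₀ hwy0 hwy (by omega)
  have h4 : (A.eval x / B.eval x)⁻¹ = ((A.eval x / B.eval x)⁻¹ - y ^ Q) + y ^ Q := by ring
  rw [h4]
  exact lt_of_le_of_lt (na _ _) (max_lt (lt_of_le_of_lt h1 hρ1) hyQ)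

end LEH
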