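/-
LH/Pwr (S-M)  MP_022f22_nt, Lehmer project, table modleh. Paper proof: /team-store/lehmer_proof.md
(P) of the paper proof: cd w (f x) (x^Q) <= rho, f x = A.eval x/B.eval x, B.eval x != 0.
w x <= 1: both f x and x^Q are integral: cd = w(f x - x^Q) = w(A x - x^Q B x) (w(B x) = 1) and A x - x^Q B x = (A x - x^Q) - x^Q (B x - 1), good_int.
w x > 1: x != 0, f x != 0 (good_rev), cd w (f x)(x^Q) = cd w (f x)^-1 ((x^-1)^Q) = w(..) <= rho (both w <= 1).
Second statement: cdi w (f x) <= max (rho * cdi w x) (cdi w x ^ Q).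
w x <= 1: cdi w x = 1, the right side is >= 1 and cdi <= 1.  w x > 1: with a = x^-1, cdi w x = w a, and (f x)^-1 = beta(a)/alpha(a) with w(alpha(a)) = 1 and
beta(a) = B_0 a^Q + sum_{1<=i<Q} B_i a^(Q-i) [see the header of Ctr], so w((f x)^-1) <= max (w a ^ Q)(rho * w a) and cdi w (f x) = w((f x)^-1) because w((f x)^-1) < 1
(good_rev; 1 / max (w(f x)) 1 = w((f x)^-1)).
-/
import Mathlib
import Pool.Agent.Work.MP_022f22_nt.LH.Defs
import Pool.Agent.Work.MP_022f22_nt.LH.Cdb
import Pool.Agent.Work.MP_022f22_nt.LH.Itg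
import Pool.Agent.Work.MP_022f22_nt.LH.Rev

open NumberField IsDedekindDomain Polynomial Height Filter Topology

namespace LEH

private theorem nonarch_sum {L : Type*} [Field L] {w : AbsoluteValue L ℝ}
    (hw : IsNonarchimedean w) {ι : Type*} (s : Finset ι) (g : ι → L) {M : ℝ} (hM : 0 ≤ M)
    (h : ∀ i ∈ s, w (g i) ≤ M) : w (∑ i ∈ s, g i) ≤ M := by
  classical
  induction s using Finset.induction_on with
  | empty => simpa using hM
  | insert a s ha ih =>
    rw [Finset.sum_insert ha]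
    refine (hw _ _).trans (max_le (h a (Finset.mem_insert_self a s)) ?_)
    exact ih (fun i hi => h i (Finset.mem_insert_of_mem hi))

private theorem nonarch_sub {L : Type*} [Field L] {w : AbsoluteValue L ℝ}
    (hw : IsNonarchimedean w) {a b : L} {M : ℝ} (ha : w a ≤ M) (hb : w b ≤ M) :
    w (a - b) ≤ M := by
  rw [sub_eq_add_neg]
  refine (hw _ _).trans (max_le ha ?_)
  rwa [AbsoluteValue.map_neg]

private theorem ne_zero_of_one_lt {L : Type*} [Field L] {w : AbsoluteValue L ℝ} {x : L}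
    (hx : 1 < w x) : x ≠ 0 := by
  rintro rfl
  rw [AbsoluteValue.map_zero] at hx
  linarith

theorem good_pwr {L : Type*} [Field L] {w : AbsoluteValue L ℝ} {ρ : ℝ} {p Q : ℕ} {A B : L[X]}
    (h : GoodMap w ρ p Q A B) {x : L} (hx : B.eval x ≠ 0) :
    cd w (A.eval x / B.eval x) (x ^ Q) ≤ ρ := by
  rcases le_or_gt (w x) 1 with h1 | h1
  · obtain ⟨hB, hf, hA, hB1⟩ := good_int h h1
    have hxQ : w (x ^ Q) ≤ 1 := by
      rw [AbsoluteValue.map_pow]
      exact pow_le_one₀ (w.nonneg x) h1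
    rw [cd_of_le w hf hxQ]
    have e : A.eval x / B.eval x - x ^ Q =
        ((A.eval x - x ^ Q) - x ^ Q * (B.eval x - 1)) / B.eval x := by
      field_simp
      ring
    rw [e, map_div₀, hB, div_one]
    refine nonarch_sub h.nonarch hA ?_
    rw [AbsoluteValue.map_mul]
    calc w (x ^ Q) * w (B.eval x - 1) ≤ 1 * ρ :=
          mul_le_mul hxQ hB1 (w.nonneg _) zero_le_one
      _ = ρ := one_mul ρ
  · obtain ⟨hr, hlt, hA, -⟩ := good_rev h h1 hx
    have hx0 : x ≠ 0 := ne_zero_of_one_lt h1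
    have hf0 : A.eval x / B.eval x ≠ 0 := div_ne_zero hA hx
    rw [← cd_inv w hf0 (pow_ne_zero Q hx0)]
    have hy : w ((x ^ Q)⁻¹) ≤ 1 := by
      rw [map_inv₀, AbsoluteValue.map_pow]
      exact inv_le_one_of_one_le₀ (one_le_pow₀ h1.le)
    rw [cd_of_le w hlt.le hy, ← inv_pow]
    exact hr

theorem good_cdi {L : Type*} [Field L] {w : AbsoluteValue L ℝ} {ρ : ℝ} {p Q : ℕ} {A B : L[X]}
    (h : GoodMap w ρ p Q A B) {x : L} (hx : B.eval x ≠ 0) :
    cdi w (A.eval x / B.eval x) ≤ max (ρ * cdi w x) (cdi w x ^ Q) := by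
  rcases le_or_gt (w x) 1 with h1 | h1
  · have e : cdi w x = 1 := by
      unfold cdi
      rw [max_eq_right h1, div_one]
    rw [e, one_pow]
    exact (cdi_le_one w _).trans (le_max_right _ _)
  · obtain ⟨-, hlt, hA, hAu⟩ := good_rev h h1 hx
    have hx0 : x ≠ 0 := ne_zero_of_one_lt h1
    have hf0 : A.eval x / B.eval x ≠ 0 := div_ne_zero hA hx
    have e : cdi w x = w x⁻¹ := by
      unfold cdi
      rw [max_eq_left h1.le, map_inv₀, one_div]
    have e2 : cdi w (A.eval x / B.eval x) ≤ w ((A.eval x / B.eval x)⁻¹) := by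
      unfold cdi
      rw [map_inv₀, ← one_div]
      refine one_div_le_one_div_of_le (w.pos hf0) (le_max_left _ _)
    have hwy : w x⁻¹ ≤ 1 := by
      rw [map_inv₀]
      exact inv_le_one_of_one_le₀ h1.le
    have e3 : w ((A.eval x / B.eval x)⁻¹) = w ((x⁻¹) ^ Q * B.eval x) := by
      have e4 : (A.eval x / B.eval x)⁻¹ =
          ((x⁻¹) ^ Q * B.eval x) / ((x⁻¹) ^ Q * A.eval x) := by
        rw [inv_div, mul_div_mul_left]
        exact pow_ne_zero _ (inv_ne_zero hx0)
      rw [e4, map_div₀, hAu, div_one]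
    rw [e]
    refine e2.trans (e3.le.trans ?_)
    have hQ : 0 < Q := lt_of_lt_of_le (by norm_num) h.four
    have e5 : (x⁻¹) ^ Q * B.eval x = ∑ i ∈ Finset.range Q, (x⁻¹) ^ Q * (B.coeff i * x ^ i) := by
      rw [← Finset.mul_sum, Polynomial.eval_eq_sum_range' h.B_deg]
    rw [e5]
    refine nonarch_sum h.nonarch _ _ ?_ ?_
    · exact le_max_of_le_right (pow_nonneg (w.nonneg _) _)
    · intro i hi
      have hiQ : i < Q := Finset.mem_range.mp hi
      have e6 : (x⁻¹) ^ Q * (B.coeff i * x ^ i) = B.coeff i * (x⁻¹) ^ (Q - i) := by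
        have : (x⁻¹) ^ Q = (x⁻¹) ^ (Q - i) * (x⁻¹) ^ i := by
          rw [← pow_add, Nat.sub_add_cancel hiQ.le]
        rw [this]
        have h5 : (x⁻¹) ^ i * x ^ i = 1 := by
          rw [← mul_pow, inv_mul_cancel₀ hx0, one_pow]
        calc (x⁻¹) ^ (Q - i) * (x⁻¹) ^ i * (B.coeff i * x ^ i)
            = B.coeff i * (x⁻¹) ^ (Q - i) * ((x⁻¹) ^ i * x ^ i) := by ring
          _ = _ := by rw [h5, mul_one]
      rw [e6, AbsoluteValue.map_mul, AbsoluteValue.map_pow]
      rcases Nat.eq_zero_or_pos i with h0 | hi0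
      · subst h0
        refine le_max_of_le_right ?_
        have hB0 : w (B.coeff 0) ≤ 1 := by
          have : B.coeff 0 = (B.coeff 0 - 1) + 1 := by ring
          rw [this]
          refine (h.nonarch _ _).trans (max_le (h.B_zero.trans h.rho_lt.le) ?_)
          rw [AbsoluteValue.map_one]
        rw [Nat.sub_zero]
        calc w (B.coeff 0) * w x⁻¹ ^ Q ≤ 1 * w x⁻¹ ^ Q :=
              mul_le_mul_of_nonneg_right hB0 (pow_nonneg (w.nonneg _) _)
          _ = _ := one_mul _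
      · refine le_max_of_le_left ?_
        have hp : w x⁻¹ ^ (Q - i) ≤ w x⁻¹ := by
          calc w x⁻¹ ^ (Q - i) ≤ w x⁻¹ ^ 1 :=
                pow_le_pow_of_le_one (w.nonneg _) hwy (by omega)
            _ = _ := pow_one _
        exact mul_le_mul (h.B_low i hi0) hp (pow_nonneg (w.nonneg _) _) h.rho_pos.le

end LEH
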