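/-
LH/Itp (M)  MP_022f22_nt, Lehmer project, table modleh. Paper proof: /team-store/lehmer_proof.md
f^[r] x is close to x^(Q^r): cd w (f^[r] x) (x^(Q^r)) <= rho for r >= 1 (f x = A.eval x/B.eval x; B != 0 along the orbit).
Induction on r: r = 1 is good_pwr.  Step: y = f^[r] x, cd w (f y)(y^Q) <= rho (good_pwr), cd w (y^Q)((x^(Q^r))^Q) <= max(rho * c)(c^Q) <= rho with c = cd w y (x^(Q^r)) <= rho <= 1
(pow_contr with Q = p^m from h.pow; c^Q <= c), and cd_ultra; (x^(Q^r))^Q = x^(Q^(r+1)).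
-/
import Mathlib
import Pool.Agent.Work.MP_022f22_nt.LH.Defs
import Pool.Agent.Work.MP_022f22_nt.LH.Cdb
import Pool.Agent.Work.MP_022f22_nt.LH.Pwr
import Pool.Agent.Work.MP_022f22_nt.LH.Pmp

open NumberField IsDedekindDomain Polynomial Height Filter Topology

namespace LEH

theorem good_itp {L : Type*} [Field L] {w : AbsoluteValue L ℝ} {ρ : ℝ} {p Q : ℕ} {A B : L[X]}
    (h : GoodMap w ρ p Q A B) (r : ℕ) (hr : 1 ≤ r) {x : L}
    (hx : ∀ i < r, B.eval ((fun u => A.eval u / B.eval u)^[i] x) ≠ 0) :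
    cd w ((fun u => A.eval u / B.eval u)^[r] x) (x ^ (Q ^ r)) ≤ ρ := by
  obtain ⟨m, hm, hQ⟩ := h.pow
  induction r, hr using Nat.le_induction with
  | base =>
    have h0 := hx 0 (by norm_num)
    rw [Function.iterate_zero, id_eq] at h0
    rw [Function.iterate_one, pow_one]
    exact good_pwr h h0
  | succ r hr ih =>
    have h1 := ih (fun i hi => hx i (Nat.lt_succ_of_lt hi))
    have h2 := hx r (Nat.lt_succ_self r)
    rw [Function.iterate_succ_apply']
    generalize (fun u => A.eval u / B.eval u)^[r] x = y at h1 h2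
    have h3 := good_pwr h h2
    have h4 := pow_contr h.nonarch h.prime hm h.rho_pos h.char y (x ^ (Q ^ r))
    rw [← hQ] at h4
    have hc0 := cd_nonneg w y (x ^ (Q ^ r))
    have hc1 : cd w y (x ^ (Q ^ r)) ≤ 1 := h1.trans h.rho_lt.le
    have h5 : cd w (y ^ Q) ((x ^ (Q ^ r)) ^ Q) ≤ ρ := by
      refine h4.trans (max_le ?_ ?_)
      · exact mul_le_of_le_one_right h.rho_pos.le hc1
      · refine (pow_le_of_le_one hc0 hc1 ?_).trans h1
        have := h.four
        omega
    have h6 : x ^ (Q ^ (r + 1)) = (x ^ (Q ^ r)) ^ Q := by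
      rw [← pow_mul, pow_succ]
    rw [h6]
    exact (cd_ultra w h.nonarch _ (y ^ Q) _).trans (max_le h3 h5)

end LEH
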