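/-
LH/Phi (S-M)  MP_022f22_nt, Lehmer project, table modleh. Paper proof: /team-store/lehmer_proof.md
Real inequalities for ph Q t = min (Q t)(t+1), Q >= 4.
 * ph_mono: Q t and t+1 are monotone.  ph_nonneg.
 * ph_lin: for 0 <= t: (1+m) * min 1 t <= (ph Q)^[m] t.
   First for 0 <= t <= 1, by induction on m with the statement (1+m) t <= t_m where t_m = (ph Q)^[m] t (use Function.iterate_succ_apply'): t_m >= t (as (1+m) t >= t), and
   ph Q t_m - t_m = min((Q-1) t_m, 1) >= min(3t, 1) >= t.   For t > 1: monotonicity of the iterate: t_m(t) >= t_m(1) >= 1+m.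
 * ph_pow: for o > 0 and Q^b <= o: Q^b/o <= (ph Q)^[b] (1/o): induction on j <= b: Q^j/o <= (ph Q)^[j](1/o).  Step: by monotonicity
   (ph Q)^[j+1](1/o) >= ph Q (Q^j/o) = min(Q^(j+1)/o, Q^j/o + 1), and Q^(j+1)/o <= Q^j/o + 1 because Q^(j+1)/o <= Q^b/o <= 1.
-/
import Mathlib
import Pool.Agent.Work.MP_022f22_nt.LH.Defs

open NumberField IsDedekindDomain Polynomial Height Filter Topology

namespace LEH

theorem ph_mono (Q : ℕ) : Monotone (ph Q) := by
  intro s t h
  unfold ph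
  exact min_le_min (mul_le_mul_of_nonneg_left h (Nat.cast_nonneg Q)) (by linarith)

theorem ph_iter_mono (Q m : ℕ) : Monotone ((ph Q)^[m]) := (ph_mono Q).iterate m

theorem ph_nonneg (Q : ℕ) {t : ℝ} (ht : 0 ≤ t) : 0 ≤ ph Q t :=
  le_min (mul_nonneg (Nat.cast_nonneg Q) ht) (by linarith)

private theorem ph_lin_aux {Q : ℕ} (hQ : 4 ≤ Q) (m : ℕ) {t : ℝ} (ht : 0 ≤ t) (ht1 : t ≤ 1) :
    (1 + (m : ℝ)) * t ≤ (ph Q)^[m] t := by
  have hQ' : (4 : ℝ) ≤ (Q : ℝ) := by exact_mod_cast hQ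
  induction m with
  | zero => simp
  | succ m ih =>
    rw [Function.iterate_succ_apply']
    have hm : (0 : ℝ) ≤ (m : ℝ) := Nat.cast_nonneg m
    have h1 : t ≤ (ph Q)^[m] t := by nlinarith
    push_cast
    unfold ph at *
    refine le_min ?_ ?_
    · nlinarith
    · nlinarith

theorem ph_lin {Q : ℕ} (hQ : 4 ≤ Q) (m : ℕ) {t : ℝ} (ht : 0 ≤ t) :
    (1 + (m : ℝ)) * min 1 t ≤ (ph Q)^[m] t := by
  rcases le_total t 1 with h | h
  · rw [min_eq_right h]
    exact ph_lin_aux hQ m ht h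
  · rw [min_eq_left h]
    exact (ph_lin_aux hQ m zero_le_one le_rfl).trans (ph_iter_mono Q m h)

theorem ph_pow {Q : ℕ} (hQ : 4 ≤ Q) (b : ℕ) {o : ℝ} (ho : 0 < o) (hb : (Q : ℝ) ^ b ≤ o) :
    (Q : ℝ) ^ b / o ≤ (ph Q)^[b] (1 / o) := by
  have hQ' : (4 : ℝ) ≤ (Q : ℝ) := by exact_mod_cast hQ
  have key : ∀ j ≤ b, (Q : ℝ) ^ j / o ≤ (ph Q)^[j] (1 / o) := by
    intro j
    induction j with
    | zero => intro _; simp
    | succ j ih =>
      intro hj
      rw [Function.iterate_succ_apply']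
      refine le_trans ?_ (ph_mono Q (ih (by omega)))
      unfold ph
      refine le_min ?_ ?_
      · rw [pow_succ]
        apply le_of_eq
        ring
      · have h1 : (Q : ℝ) ^ (j + 1) / o ≤ 1 := by
          rw [div_le_one ho]
          exact (pow_le_pow_right₀ (by linarith) hj).trans hb
        have h2 : 0 ≤ (Q : ℝ) ^ j / o := by positivity
        linarith
  exact key b le_rfl

end LEH
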