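/-
LH/Crs (M-L)  MP_022f22_nt, Lehmer project, table modleh. Paper proof: /team-store/lehmer_proof.md
Cross level gain (Prop A).  w above v, rho = w ϖ, a Nice, dg(F^[m] a) = dg a (no drop at level m), m < n, x in orbF top (F^[n] a).   Claim: 1 + m <= sum over beta in orbF top (F^[m] a) of tt w rho x beta.
x = F^[n] a' with a' = sigma a (Fm_iter_gal), r = n - m >= 1, y = F^[r] a', x = F^[m] y (Function.iterate_add_apply).
InertiaData (I, phi) for Q from exists_data (Setup: p_mem, N_pow, Q_eq, q0), h.pw r: (phi^r, Q^r); O = orbF I (phi^r a'), a subset of orbF top a.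
(1) frob_orbit: prod_{c in O} cd w u c <= rho, u = a'^(Q^r); good_itp: cd w y u <= rho (B != 0 along the orbit: Nice of a').
(2) y != c for c in O (Nice.disj for a' and r != 0).  sum_{c in O} min 1 (tt y c) >= 1: if cd u c <= rho for some c: cd y c <= rho by cd_ultra, tt y c >= 1, the other terms are >= 0.  Otherwise
    cd y c <= max rho (cd u c) = cd u c, so tt y c >= t_c := log(cd u c)/log rho in [0,1] (cd u c > rho > 0), and sum t_c = log(prod)/log rho >= 1.
(3) F^[m] is injective on orbF top a: fib_card with dg(F^[m] a) = dg a: all fibres have exactly one element.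
(4) F^[m] y != F^[m] c (Nice.disj: F^[m+r] a' = F^[m] (tau a') forces r = 0), tt_iter and ph_lin: tt (F^[m] y)(F^[m] c) >= (1+m) min 1 (tt y c).  F^[m] c in orbF top (F^[m] a).
    Sum over c in O, injective, the remaining terms are >= 0 (tt_nonneg).
(Fm A B is definitionally fun u => (A.map _).eval u / (B.map _).eval u.)
-/
import Mathlib
import Pool.Agent.Work.MP_022f22_nt.LH.Defs
import Pool.Agent.Work.MP_022f22_nt.LH.Cdb
import Pool.Agent.Work.MP_022f22_nt.LH.Phi
import Pool.Agent.Work.MP_022f22_nt.LH.Tti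
import Pool.Agent.Work.MP_022f22_nt.LH.Itp
import Pool.Agent.Work.MP_022f22_nt.LH.Org
import Pool.Agent.Work.MP_022f22_nt.LH.InP
import Pool.Agent.Work.MP_022f22_nt.LH.Frb
import Pool.Agent.Work.MP_022f22_nt.LH.InEx
import Pool.Agent.Work.MP_022f22_nt.LH.Fmc
import Pool.Agent.Work.MP_022f22_nt.LH.GMp

open NumberField IsDedekindDomain Polynomial Height Filter Topology

namespace LEH

theorem cross_level {K : Type} [Field K] [NumberField K] {v : HeightOneSpectrum (𝓞 K)}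
    {W : WeierstrassCurve K} {p N Q : ℕ} {A B : K[X]} (hs : Setup K v W p N Q A B)
    {L : Type} [Field L] [NumberField L] [Algebra K L] [FiniteDimensional K L] [IsGalois K L]
    {w : FinitePlace L} (h : Above v w) {ϖ : K} (hϖ : Unif v ϖ) {a : L} (ha : Nice W Q A B a)
    {m n : ℕ} (hmn : m < n) (hd : dg K ((Fm A B)^[m] a) = dg K a) {x : L}
    (hx : x ∈ orbF (⊤ : Subgroup (L ≃ₐ[K] L)) ((Fm A B)^[n] a)) :
    1 + (m : ℝ) ≤ ∑ β ∈ orbF (⊤ : Subgroup (L ≃ₐ[K] L)) ((Fm A B)^[m] a),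
      tt w.val (w (algebraMap K L ϖ)) x β := by
  classical
  obtain ⟨σ, -, hσ⟩ := mem_orbF.mp hx
  obtain ⟨a', ha'⟩ : ∃ a', a' = σ a := ⟨_, rfl⟩
  have hNa' : Nice W Q A B a' := ha' ▸ nice_smul ha σ
  have horb : orbF (⊤ : Subgroup (L ≃ₐ[K] L)) a' = orbF (⊤ : Subgroup (L ≃ₐ[K] L)) a := by
    rw [ha']; exact orbF_smul (Subgroup.mem_top σ) a
  obtain ⟨r, hr⟩ : ∃ r, n = m + r := ⟨n - m, by omega⟩
  have hr1 : 1 ≤ r := by omega
  obtain ⟨y, hy⟩ : ∃ y, y = (Fm (L := L) A B)^[r] a' := ⟨_, rfl⟩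
  have hxy : x = (Fm A B)^[m] y := by
    rw [hy, ← Function.iterate_add_apply, ← hr, ha', Fm_iter_gal, hσ]
  have hQp : ∃ k, 0 < k ∧ Q = p ^ k := by
    obtain ⟨s, hs0, hs1⟩ := hs.N_pow
    exact ⟨s * 2, by omega, by rw [hs.Q_eq, hs1, pow_mul]⟩
  obtain ⟨I, ⟨φ, hI⟩, -⟩ := exists_data (K := K) (L := L) h hϖ hs.prime hs.p_mem hQp hs.q0
  have hIr := hI.pw r hr1
  have hprod := frob_orbit hIr a'
  obtain ⟨hG, -⟩ := good_of_setup hs h hϖ
  obtain ⟨ρ, hρ⟩ : ∃ ρ, ρ = w (algebraMap K L ϖ) := ⟨_, rfl⟩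
  rw [← hρ] at hprod hG ⊢
  have h0 : 0 < ρ := hG.rho_pos
  have h1 : ρ < 1 := hG.rho_lt
  have hlog : Real.log ρ < 0 := Real.log_neg h0 h1
  have hyu : cd w.val y (a' ^ (Q ^ r)) ≤ ρ := by
    rw [hy]
    exact good_itp hG r hr1 (fun i _ => hNa'.ne i)
  obtain ⟨u, hu⟩ : ∃ u, u = a' ^ (Q ^ r) := ⟨_, rfl⟩
  rw [← hu] at hprod hyu
  obtain ⟨O, hO⟩ : ∃ O, O = orbF I ((φ ^ r) a') := ⟨_, rfl⟩
  rw [← hO] at hprod
  have hOtop : ∀ c ∈ O, ∃ τ : L ≃ₐ[K] L, τ a' = c := by
    intro c hc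
    rw [hO, mem_orbF] at hc
    obtain ⟨τ, -, hτ⟩ := hc
    exact ⟨τ * φ ^ r, hτ⟩
  have hyc : ∀ c ∈ O, y ≠ c := by
    intro c hc hyc
    obtain ⟨τ, hτ⟩ := hOtop c hc
    have := hNa'.disj τ r 0 (by rw [← hy, Function.iterate_zero_apply, hτ, hyc])
    omega
  have hcdpos : ∀ c ∈ O, 0 < cd w.val y c := fun c hc => cd_pos w.val (hyc c hc)
  have hsum : 1 ≤ ∑ c ∈ O, min 1 (tt w.val ρ y c) := by
    have hnn : ∀ c ∈ O, 0 ≤ min 1 (tt w.val ρ y c) := fun c _ =>
      le_min zero_le_one (tt_nonneg hG.nonarch h0 h1 y c)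
    by_cases hex : ∃ c ∈ O, cd w.val u c ≤ ρ
    · obtain ⟨c, hc, hcu⟩ := hex
      have h2 : cd w.val y c ≤ ρ :=
        (cd_ultra w.val hG.nonarch y u c).trans (max_le hyu hcu)
      have h3 : 1 ≤ tt w.val ρ y c := by
        unfold tt
        rw [le_div_iff_of_neg hlog, one_mul]
        exact Real.log_le_log (hcdpos c hc) h2
      calc (1 : ℝ) = min 1 (tt w.val ρ y c) := (min_eq_left h3).symm
        _ ≤ _ := Finset.single_le_sum hnn hc
    · push Not at hex
      have h2 : ∀ c ∈ O, Real.log (cd w.val u c) / Real.log ρ ≤ min 1 (tt w.val ρ y c) := by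
        intro c hc
        have h3 : ρ < cd w.val u c := hex c hc
        refine le_min ?_ ?_
        · rw [div_le_iff_of_neg hlog, one_mul]
          exact Real.log_le_log h0 h3.le
        · unfold tt
          have h4 : cd w.val y c ≤ cd w.val u c :=
            (cd_ultra w.val hG.nonarch y u c).trans (max_le (hyu.trans h3.le) le_rfl)
          have h5 := Real.log_le_log (hcdpos c hc) h4
          exact (div_le_div_right_of_neg hlog).mpr h5
      calc (1 : ℝ) ≤ (∑ c ∈ O, Real.log (cd w.val u c)) / Real.log ρ := by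
            rw [le_div_iff_of_neg hlog, one_mul, ← Real.log_prod]
            · refine Real.log_le_log ?_ hprod
              exact Finset.prod_pos fun c hc => h0.trans (hex c hc)
            · intro c hc
              exact (h0.trans (hex c hc)).ne'
        _ = ∑ c ∈ O, Real.log (cd w.val u c) / Real.log ρ := by rw [Finset.sum_div]
        _ ≤ _ := Finset.sum_le_sum h2
  -- injectivity of the iterate on the orbit
  have hOa : ∀ c ∈ O, c ∈ orbF (⊤ : Subgroup (L ≃ₐ[K] L)) a := by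
    intro c hc
    obtain ⟨τ, hτ⟩ := hOtop c hc
    rw [← horb, mem_orbF]
    exact ⟨τ, Subgroup.mem_top τ, hτ⟩
  have hFa : ∀ c ∈ orbF (⊤ : Subgroup (L ≃ₐ[K] L)) a,
      (Fm A B)^[m] c ∈ orbF (⊤ : Subgroup (L ≃ₐ[K] L)) ((Fm A B)^[m] a) := by
    intro c hc
    obtain ⟨τ, hτ, hτc⟩ := mem_orbF.mp hc
    rw [mem_orbF]
    exact ⟨τ, hτ, by rw [← Fm_iter_gal, hτc]⟩
  have hinj : Set.InjOn (fun c : L => (Fm A B)^[m] c) (O : Set L) := by
    intro c1 hc1 c2 hc2 h12
    have hc1' := hOa c1 hc1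
    have hc2' := hOa c2 hc2
    have hfib := fib_card A B m a ((Fm A B)^[m] c1) (hFa c1 hc1')
    rw [hd] at hfib
    have hpos := dg_pos (K := K) a
    have hone := Nat.eq_of_mul_eq_mul_right hpos (hfib.trans (one_mul _).symm)
    obtain ⟨z, hz⟩ := Finset.card_eq_one.mp hone
    have e1 : c1 = z := by
      rw [← Finset.mem_singleton, ← hz, Finset.mem_filter]
      exact ⟨hc1', rfl⟩
    have e2 : c2 = z := by
      rw [← Finset.mem_singleton, ← hz, Finset.mem_filter]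
      exact ⟨hc2', h12.symm⟩
    rw [e1, e2]
  have hterm : ∀ c ∈ O, (1 + (m : ℝ)) * min 1 (tt w.val ρ y c) ≤
      tt w.val ρ x ((Fm A B)^[m] c) := by
    intro c hc
    obtain ⟨τ, hτ⟩ := hOtop c hc
    have hNc : Nice W Q A B c := hτ ▸ nice_smul hNa' τ
    refine (ph_lin hG.four m (tt_nonneg hG.nonarch h0 h1 y c)).trans ?_
    have hne : (Fm A B)^[m] y ≠ (Fm A B)^[m] c := by
      intro heq
      have := hNa'.disj τ (m + r) m (by
        rw [Function.iterate_add_apply, ← hy, heq, hτ])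
      omega
    have := tt_iter hG m (x := y) (y := c) (fun i _ => by
      have h6 := hNa'.ne (i + r)
      rw [Function.iterate_add_apply, ← hy] at h6
      exact h6) (fun i _ => hNc.ne i) hne
    rw [hxy]
    exact this
  calc 1 + (m : ℝ) ≤ (1 + (m : ℝ)) * ∑ c ∈ O, min 1 (tt w.val ρ y c) :=
        le_mul_of_one_le_right (by positivity) hsum
    _ = ∑ c ∈ O, (1 + (m : ℝ)) * min 1 (tt w.val ρ y c) := Finset.mul_sum _ _ _
    _ ≤ ∑ c ∈ O, tt w.val ρ x ((Fm A B)^[m] c) := Finset.sum_le_sum hterm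
    _ = ∑ β ∈ O.image (fun c : L => (Fm A B)^[m] c), tt w.val ρ x β :=
        (Finset.sum_image hinj).symm
    _ ≤ _ := by
        refine Finset.sum_le_sum_of_subset_of_nonneg ?_ fun β _ _ =>
          tt_nonneg hG.nonarch h0 h1 x β
        intro β hβ
        obtain ⟨c, hc, rfl⟩ := Finset.mem_image.mp hβ
        exact hFa c (hOa c hc)

end LEH
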