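/-
LH/Itg (S)  MP_022f22_nt, Lehmer project, table modleh. Paper proof: /team-store/lehmer_proof.md
GoodMap w rho p Q A B and w x <= 1: B.eval x = B_0 + sum_{i>=1} B_i x^i, w(B_0) = 1 (since w(B_0 - 1) <= rho < 1), all other terms have w <= rho < 1,
so w(B.eval x) = 1 (nonarchimedean).  w(A.eval x) <= 1: all coefficients A_i (i <= Q) have w <= 1.
Useful: Polynomial.eval_eq_sum_range, IsNonarchimedean.apply_sum_le or an induction over finite sums.
Third statement (first order form): w(A.eval x - x^Q) <= rho (A = X^Q + terms with coefficients of w <= rho), w(B.eval x - 1) <= rho.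
-/
import Mathlib
import Pool.Agent.Work.MP_022f22_nt.LH.Defs

open NumberField IsDedekindDomain Polynomial Height Filter Topology

namespace LEH

private lemma sum_le' {L : Type*} [Field L] {w : AbsoluteValue L ℝ} {ρ : ℝ}
    (hn : IsNonarchimedean w) (h0 : 0 ≤ ρ) (f : ℕ → L) (s : Finset ℕ)
    (hf : ∀ i ∈ s, w (f i) ≤ ρ) : w (∑ i ∈ s, f i) ≤ ρ := by
  classical
  induction s using Finset.induction_on with
  | empty => simpa using h0
  | insert a s ha ih =>
    rw [Finset.sum_insert ha]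
    refine (hn _ _).trans (max_le (hf a (Finset.mem_insert_self a s)) (ih ?_))
    exact fun i hi => hf i (Finset.mem_insert_of_mem hi)

private lemma term_le {L : Type*} [Field L] {w : AbsoluteValue L ℝ} {ρ : ℝ} (h0 : 0 ≤ ρ)
    {c x : L} (hc : w c ≤ ρ) (hx : w x ≤ 1) (i : ℕ) : w (c * x ^ i) ≤ ρ := by
  rw [map_mul, map_pow]
  calc w c * w x ^ i ≤ ρ * 1 :=
        mul_le_mul hc (pow_le_one₀ (w.nonneg x) hx) (pow_nonneg (w.nonneg x) i) h0
    _ = ρ := mul_one ρ

private lemma eq_one_of {L : Type*} [Field L] {w : AbsoluteValue L ℝ} {ρ : ℝ}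
    (hn : IsNonarchimedean w) (h1 : ρ < 1) {y : L} (hy : w (y - 1) ≤ ρ) : w y = 1 := by
  have ha : w y ≤ 1 := by
    have := hn (y - 1) 1
    rw [sub_add_cancel, map_one] at this
    exact this.trans (max_le (hy.trans h1.le) le_rfl)
  have hb : 1 ≤ w y := by
    by_contra hlt
    push Not at hlt
    have := hn (1 - y) y
    rw [sub_add_cancel, map_one] at this
    have h2 : w (1 - y) ≤ ρ := by
      rw [← AbsoluteValue.map_neg w, neg_sub]; exact hy
    exact absurd this (not_le.mpr (max_lt (h2.trans_lt h1) hlt))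
  exact le_antisymm ha hb

theorem good_int {L : Type*} [Field L] {w : AbsoluteValue L ℝ} {ρ : ℝ} {p Q : ℕ} {A B : L[X]}
    (h : GoodMap w ρ p Q A B) {x : L} (hx : w x ≤ 1) :
    w (B.eval x) = 1 ∧ w (A.eval x / B.eval x) ≤ 1 ∧ w (A.eval x - x ^ Q) ≤ ρ ∧
      w (B.eval x - 1) ≤ ρ := by
  have h0 := h.rho_pos.le
  have hB : w (B.eval x - 1) ≤ ρ := by
    rw [Polynomial.eval_eq_sum_range, Finset.sum_range_succ']
    simp only [pow_zero, mul_one]
    rw [add_sub_assoc]
    refine (h.nonarch _ _).trans (max_le ?_ h.B_zero)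
    exact sum_le' h.nonarch h0 _ _ fun i _ => term_le h0 (h.B_low (i + 1) (by omega)) hx _
  have hA : w (A.eval x - x ^ Q) ≤ ρ := by
    rw [Polynomial.eval_eq_sum_range' (Nat.lt_succ_of_le h.A_deg), Finset.sum_range_succ,
      h.A_top, one_mul, add_sub_cancel_right]
    exact sum_le' h.nonarch h0 _ _ fun i hi =>
      term_le h0 (h.A_low i (Finset.mem_range.mp hi)) hx _
  have hB1 : w (B.eval x) = 1 := eq_one_of h.nonarch h.rho_lt hB
  refine ⟨hB1, ?_, hA, hB⟩
  rw [map_div₀, hB1, div_one]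
  have h3 := h.nonarch (A.eval x - x ^ Q) (x ^ Q)
  rw [sub_add_cancel] at h3
  refine h3.trans (max_le (hA.trans h.rho_lt.le) ?_)
  rw [map_pow]
  exact pow_le_one₀ (w.nonneg x) hx

end LEH
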