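/-
LH/Ctr (M-L)  MP_022f22_nt, Lehmer project, table modleh. Paper proof: /team-store/lehmer_proof.md
CONTRACTION of a good map (statement (C) of the paper proof).  f x = A.eval x / B.eval x.
Case 1: w x <= 1, w y <= 1: by good_int w(B x) = w(B y) = 1 and f x, f y integral, so cd w (f x)(f y) = w(f x - f y) = w(A x * B y - A y * B x).
   A x B y - A y B x = (A x - A y) B y - A y (B x - B y).
   w(B x - B y) <= rho * w(x-y): B x - B y = sum_{i>=1} B_i (x^i - y^i), w(B_i) <= rho and (x-y) divides x^i - y^i with integral quotient.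
   A x - A y = (x^Q - y^Q) + sum_{1<=i<Q} A_i (x^i - y^i): first term by pow_contr_int, the others <= rho * w(x-y).
Case 2: 1 < w x, 1 < w y: put a = x^-1, b = y^-1; cd w (f x)(f y) = cd w (f x)^-1 (f y)^-1 = w((f x)^-1 - (f y)^-1) (good_rev: both have w < 1; f x, f y != 0),
   (f x)^-1 = beta(a)/alpha(a), alpha(a) = a^Q A(x) = 1 + sum_{i<Q} A_i a^(Q-i), beta(a) = a^Q B(x) = sum_{i<Q} B_i a^(Q-i), w(alpha) = 1.
   So it is w(beta(a) alpha(b) - beta(b) alpha(a)) = w((beta(a)-beta(b)) alpha(b) - beta(b)(alpha(a)-alpha(b))), and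
   beta(a)-beta(b) = B_0 (a^Q - b^Q) + sum_{1<=i<Q} B_i (a^(Q-i) - b^(Q-i)),  alpha(a)-alpha(b) = A_0 (a^Q-b^Q) + sum_{1<=i<Q} A_i (..): same estimates
   (w B_0 <= 1, w A_0 <= 1).  And w(a - b) = cd w x y.
Case 3: w x <= 1 < w y (or conversely): cd w x y = 1, so the right side is >= 1 (1^Q = 1), the left side is <= 1.
-/
import Mathlib
import Pool.Agent.Work.MP_022f22_nt.LH.Defs
import Pool.Agent.Work.MP_022f22_nt.LH.Cdb
import Pool.Agent.Work.MP_022f22_nt.LH.Itg
import Pool.Agent.Work.MP_022f22_nt.LH.Rev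
import Pool.Agent.Work.MP_022f22_nt.LH.Pmp

open NumberField IsDedekindDomain Polynomial Height Filter Topology

namespace LEH

private theorem sum_le' {L : Type*} [Field L] {w : AbsoluteValue L ℝ} (hw : IsNonarchimedean w)
    {ι : Type*} (s : Finset ι) (f : ι → L) {c : ℝ} (hc : 0 ≤ c) (h : ∀ i ∈ s, w (f i) ≤ c) :
    w (∑ i ∈ s, f i) ≤ c := by
  classical
  induction s using Finset.induction_on with
  | empty => simpa using hc
  | insert a s ha ih =>
    rw [Finset.sum_insert ha]
    refine (hw _ _).trans (max_le (h a (Finset.mem_insert_self _ _)) (ih fun i hi => ?_))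
    exact h i (Finset.mem_insert_of_mem hi)

private theorem sub_le' {L : Type*} [Field L] {w : AbsoluteValue L ℝ} (hw : IsNonarchimedean w)
    {x y : L} {c : ℝ} (hx : w x ≤ c) (hy : w y ≤ c) : w (x - y) ≤ c := by
  rw [sub_eq_add_neg]
  refine (hw _ _).trans (max_le hx ?_)
  rw [w.map_neg]
  exact hy

private theorem pw_le {L : Type*} [Field L] {w : AbsoluteValue L ℝ} (hw : IsNonarchimedean w)
    {x y : L} (hx : w x ≤ 1) (hy : w y ≤ 1) (n : ℕ) : w (x ^ n - y ^ n) ≤ w (x - y) := by
  rw [← geom_sum₂_mul, w.map_mul]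
  have h1 : w (∑ i ∈ Finset.range n, x ^ i * y ^ (n - 1 - i)) ≤ 1 := by
    refine sum_le' hw _ _ zero_le_one fun i _ => ?_
    rw [w.map_mul, w.map_pow, w.map_pow]
    exact mul_le_one₀ (pow_le_one₀ (w.nonneg _) hx) (pow_nonneg (w.nonneg _) _)
      (pow_le_one₀ (w.nonneg _) hy)
  calc _ ≤ 1 * w (x - y) := mul_le_mul_of_nonneg_right h1 (w.nonneg _)
    _ = _ := one_mul _

private theorem sm_le {L : Type*} [Field L] {w : AbsoluteValue L ℝ} (hw : IsNonarchimedean w)
    {ρ : ℝ} (hρ : 0 ≤ ρ) {x y : L} (hx : w x ≤ 1) (hy : w y ≤ 1) (s : Finset ℕ) (c : ℕ → L)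
    (e : ℕ → ℕ) (hc : ∀ i ∈ s, w (c i) ≤ ρ) :
    w (∑ i ∈ s, c i * (x ^ e i - y ^ e i)) ≤ ρ * w (x - y) := by
  refine sum_le' hw _ _ (mul_nonneg hρ (w.nonneg _)) fun i hi => ?_
  rw [w.map_mul]
  exact mul_le_mul (hc i hi) (pw_le hw hx hy _) (w.nonneg _) hρ

theorem good_contr {L : Type*} [Field L] {w : AbsoluteValue L ℝ} {ρ : ℝ} {p Q : ℕ} {A B : L[X]}
    (h : GoodMap w ρ p Q A B) {x y : L} (hx : B.eval x ≠ 0) (hy : B.eval y ≠ 0) :
    cd w (A.eval x / B.eval x) (A.eval y / B.eval y) ≤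
      max (ρ * cd w x y) (cd w x y ^ Q) := by
  have hw := h.nonarch
  have hρ := h.rho_pos.le
  obtain ⟨m, hm, hQ⟩ := h.pow
  have hQ0 : 0 < Q := by have := h.four; omega
  have hpc : ∀ {a b : L}, w a ≤ 1 → w b ≤ 1 →
      w (a ^ Q - b ^ Q) ≤ max (ρ * w (a - b)) (w (a - b) ^ Q) := by
    intro a b ha hb
    rw [hQ]
    exact pow_contr_int hw h.prime hm h.rho_pos h.char ha hb
  have hAe : ∀ u : L, A.eval u = ∑ i ∈ Finset.range Q, A.coeff i * u ^ i + u ^ Q := by
    intro u
    rw [Polynomial.eval_eq_sum_range' (n := Q + 1) (Nat.lt_succ_of_le h.A_deg) u,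
      Finset.sum_range_succ, h.A_top, one_mul]
  have hBe : ∀ u : L, B.eval u = ∑ i ∈ Finset.range Q, B.coeff i * u ^ i := fun u =>
    Polynomial.eval_eq_sum_range' h.B_deg u
  have key3 : ∀ {a b : L}, w a ≤ 1 → 1 < w b → ∀ u v : L, cd w u v ≤
      max (ρ * cd w a b) (cd w a b ^ Q) := by
    intro a b ha hb u v
    rw [cd_of_lt w hw ha hb]
    exact (cd_le_one w hw u v).trans (by rw [one_pow]; exact le_max_right _ _)
  by_cases hx1 : w x ≤ 1
  · by_cases hy1 : w y ≤ 1
    · obtain ⟨h1, h2, _, _⟩ := good_int h hx1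
      obtain ⟨h3, h4, _, _⟩ := good_int h hy1
      rw [cd_of_le w h2 h4, cd_of_le w hx1 hy1]
      have e1 : A.eval x / B.eval x - A.eval y / B.eval y =
          ((A.eval x - A.eval y) * B.eval y - A.eval y * (B.eval x - B.eval y)) /
            (B.eval x * B.eval y) := by
        field_simp
        ring
      have hAy : w (A.eval y) ≤ 1 := by
        rw [map_div₀, h3, div_one] at h4
        exact h4
      rw [e1, map_div₀, w.map_mul (B.eval x), h1, h3, one_mul, div_one]
      have hA : w (A.eval x - A.eval y) ≤ max (ρ * w (x - y)) (w (x - y) ^ Q) := by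
        have e2 : A.eval x - A.eval y =
            ∑ i ∈ Finset.range Q, A.coeff i * (x ^ i - y ^ i) + (x ^ Q - y ^ Q) := by
          rw [hAe x, hAe y]
          simp only [mul_sub, Finset.sum_sub_distrib]
          ring
        rw [e2]
        refine (hw _ _).trans (max_le ?_ (hpc hx1 hy1))
        refine (sm_le hw hρ hx1 hy1 _ _ (fun i => i) fun i hi => ?_).trans (le_max_left _ _)
        exact h.A_low i (Finset.mem_range.1 hi)
      have hB : w (B.eval x - B.eval y) ≤ ρ * w (x - y) := by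
        have e2 : B.eval x - B.eval y =
            ∑ i ∈ (Finset.range Q).erase 0, B.coeff i * (x ^ i - y ^ i) := by
          rw [hBe x, hBe y, ← Finset.sum_sub_distrib,
            ← Finset.add_sum_erase _ _ (Finset.mem_range.2 hQ0)]
          simp only [pow_zero, sub_self, zero_add, mul_sub]
        rw [e2]
        refine sm_le hw hρ hx1 hy1 _ _ (fun i => i) fun i hi => ?_
        have := Finset.ne_of_mem_erase hi
        exact h.B_low i (Nat.one_le_iff_ne_zero.2 this)
      refine sub_le' hw ?_ ?_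
      · rw [w.map_mul, h3, mul_one]
        exact hA
      · rw [w.map_mul]
        calc _ ≤ 1 * (ρ * w (x - y)) := mul_le_mul hAy hB (w.nonneg _) zero_le_one
          _ = ρ * w (x - y) := one_mul _
          _ ≤ _ := le_max_left _ _
    · exact key3 hx1 (not_le.1 hy1) _ _
  · by_cases hy1 : w y ≤ 1
    · rw [cd_comm w x y]
      exact key3 hy1 (not_le.1 hx1) _ _
    · have hx2 := not_le.1 hx1
      have hy2 := not_le.1 hy1
      have hx0 : x ≠ 0 := by
        rintro rfl
        rw [w.map_zero] at hx2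
        linarith
      have hy0 : y ≠ 0 := by
        rintro rfl
        rw [w.map_zero] at hy2
        linarith
      obtain ⟨_, r2, r3, r4⟩ := good_rev h hx2 hx
      obtain ⟨_, s2, s3, s4⟩ := good_rev h hy2 hy
      have hfx : A.eval x / B.eval x ≠ 0 := div_ne_zero r3 hx
      have hfy : A.eval y / B.eval y ≠ 0 := div_ne_zero s3 hy
      have ha : w x⁻¹ ≤ 1 := by
        rw [map_inv₀]
        exact inv_le_one_of_one_le₀ hx2.le
      have hb : w y⁻¹ ≤ 1 := by
        rw [map_inv₀]
        exact inv_le_one_of_one_le₀ hy2.le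
      rw [← cd_inv w hfx hfy, ← cd_inv w hx0 hy0, cd_of_le w r2.le s2.le, cd_of_le w ha hb]
      set a := x⁻¹ with hadef
      set b := y⁻¹ with hbdef
      have hcv : ∀ {u : L}, u ≠ 0 → ∀ i ∈ Finset.range Q, (u⁻¹) ^ Q * u ^ i = (u⁻¹) ^ (Q - i) := by
        intro u hu i hi
        have hi' : i ≤ Q := (Finset.mem_range.1 hi).le
        have : (u⁻¹) ^ Q = (u⁻¹) ^ (Q - i) * (u⁻¹) ^ i := by
          rw [← pow_add, Nat.sub_add_cancel hi']
        rw [this, mul_assoc, inv_pow u i, inv_mul_cancel₀ (pow_ne_zero _ hu), mul_one]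
      have hal : ∀ {u : L}, u ≠ 0 → (u⁻¹) ^ Q * A.eval u =
          ∑ i ∈ Finset.range Q, A.coeff i * (u⁻¹) ^ (Q - i) + 1 := by
        intro u hu
        rw [hAe u, mul_add, Finset.mul_sum]
        congr 1
        · refine Finset.sum_congr rfl fun i hi => ?_
          rw [← hcv hu i hi]
          ring
        · rw [inv_pow, inv_mul_cancel₀ (pow_ne_zero _ hu)]
      have hbe : ∀ {u : L}, u ≠ 0 → (u⁻¹) ^ Q * B.eval u =
          ∑ i ∈ Finset.range Q, B.coeff i * (u⁻¹) ^ (Q - i) := by
        intro u hu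
        rw [hBe u, Finset.mul_sum]
        refine Finset.sum_congr rfl fun i hi => ?_
        rw [← hcv hu i hi]
        ring
      have e1 : (A.eval x / B.eval x)⁻¹ - (A.eval y / B.eval y)⁻¹ =
          ((a ^ Q * B.eval x - b ^ Q * B.eval y) * (b ^ Q * A.eval y) -
            (b ^ Q * B.eval y) * (a ^ Q * A.eval x - b ^ Q * A.eval y)) /
            ((a ^ Q * A.eval x) * (b ^ Q * A.eval y)) := by
        have ha0 : a ^ Q ≠ 0 := pow_ne_zero _ (inv_ne_zero hx0)
        have hb0 : b ^ Q ≠ 0 := pow_ne_zero _ (inv_ne_zero hy0)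
        field_simp
        ring
      have hbb : w (b ^ Q * B.eval y) ≤ 1 := by
        have e3 : b ^ Q * B.eval y = (A.eval y / B.eval y)⁻¹ * (b ^ Q * A.eval y) := by
          field_simp
        rw [e3, w.map_mul, s4, mul_one]
        exact s2.le
      rw [e1, map_div₀, w.map_mul (a ^ Q * A.eval x), r4, s4, one_mul, div_one]
      have hB0 : w (B.coeff 0) ≤ 1 := by
        have e4 : B.coeff 0 = (B.coeff 0 - 1) + 1 := by ring
        rw [e4]
        refine (hw _ _).trans (max_le (h.B_zero.trans h.rho_lt.le) ?_)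
        rw [w.map_one]
      have hA : w (a ^ Q * A.eval x - b ^ Q * A.eval y) ≤ ρ * w (a - b) := by
        have e2 : a ^ Q * A.eval x - b ^ Q * A.eval y =
            ∑ i ∈ Finset.range Q, A.coeff i * (a ^ (Q - i) - b ^ (Q - i)) := by
          rw [hadef, hbdef, hal hx0, hal hy0]
          simp only [mul_sub, Finset.sum_sub_distrib]
          ring
        rw [e2]
        refine sm_le hw hρ ha hb _ _ (fun i => Q - i) fun i hi => ?_
        exact h.A_low i (Finset.mem_range.1 hi)
      have hB : w (a ^ Q * B.eval x - b ^ Q * B.eval y) ≤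
          max (ρ * w (a - b)) (w (a - b) ^ Q) := by
        have e2 : a ^ Q * B.eval x - b ^ Q * B.eval y =
            B.coeff 0 * (a ^ Q - b ^ Q) +
              ∑ i ∈ (Finset.range Q).erase 0, B.coeff i * (a ^ (Q - i) - b ^ (Q - i)) := by
          rw [hadef, hbdef, hbe hx0, hbe hy0, ← Finset.sum_sub_distrib,
            ← Finset.add_sum_erase _ _ (Finset.mem_range.2 hQ0)]
          simp only [mul_sub, Nat.sub_zero]
        rw [e2]
        refine (hw _ _).trans (max_le ?_ ?_)
        · rw [w.map_mul]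
          calc _ ≤ 1 * w (a ^ Q - b ^ Q) := mul_le_mul_of_nonneg_right hB0 (w.nonneg _)
            _ = w (a ^ Q - b ^ Q) := one_mul _
            _ ≤ _ := hpc ha hb
        · refine (sm_le hw hρ ha hb _ _ (fun i => Q - i) fun i hi => ?_).trans (le_max_left _ _)
          have := Finset.ne_of_mem_erase hi
          exact h.B_low i (Nat.one_le_iff_ne_zero.2 this)
      refine sub_le' hw ?_ ?_
      · rw [w.map_mul, s4, mul_one]
        exact hB
      · rw [w.map_mul]
        calc _ ≤ 1 * (ρ * w (a - b)) := mul_le_mul hbb hA (w.nonneg _) zero_le_one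
          _ = ρ * w (a - b) := one_mul _
          _ ≤ _ := le_max_left _ _

end LEH
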