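/-
LH/Tti (M)  MP_022f22_nt, Lehmer project, table modleh. Paper proof: /team-store/lehmer_proof.md
Iterated contraction in logarithmic form.  f x = A.eval x/B.eval x, tt w rho x y = log(cd w x y)/log rho.
One step: if f x != f y (so x != y): cd > 0 everywhere, log is monotone, log rho < 0:
 log cd(f x,f y) <= max(log rho + log cd(x,y), Q log cd(x,y)), divide by log rho: tt(f x,f y) >= min(1+tt, Q tt) = ph Q (tt x y).
Iterate: f^[m] x != f^[m] y implies f^[i] x != f^[i] y for i <= m (an equality would propagate), use ph_mono and Function.iterate_succ_apply'.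
tt_nonneg: 0 <= tt (cd <= 1).   tt_comm.   tt_of_le: cd w x y <= rho^s (s real >= 0) and x != y gives s <= tt; in the form cd w x y <= rho gives 1 <= tt.
-/
import Mathlib
import Pool.Agent.Work.MP_022f22_nt.LH.Defs
import Pool.Agent.Work.MP_022f22_nt.LH.Cdb
import Pool.Agent.Work.MP_022f22_nt.LH.Ctr
import Pool.Agent.Work.MP_022f22_nt.LH.Phi

open NumberField IsDedekindDomain Polynomial Height Filter Topology

namespace LEH

variable {L : Type*} [Field L] {w : AbsoluteValue L ℝ} {ρ : ℝ} {p Q : ℕ} {A B : L[X]}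

theorem tt_nonneg (hw : IsNonarchimedean w) (h0 : 0 < ρ) (h1 : ρ < 1) (x y : L) :
    0 ≤ tt w ρ x y := by
  unfold tt
  exact div_nonneg_of_nonpos (Real.log_nonpos (cd_nonneg w x y) (cd_le_one w hw x y))
    (Real.log_nonpos h0.le h1.le)

theorem tt_comm (x y : L) : tt w ρ x y = tt w ρ y x := by
  unfold tt
  rw [cd_comm]

private theorem tt_step (h : GoodMap w ρ p Q A B) {x y : L} (hx : B.eval x ≠ 0)
    (hy : B.eval y ≠ 0) (hne : A.eval x / B.eval x ≠ A.eval y / B.eval y) :
    ph Q (tt w ρ x y) ≤ tt w ρ (A.eval x / B.eval x) (A.eval y / B.eval y) := by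
  have hxy : x ≠ y := fun e => hne (by rw [e])
  have hl : Real.log ρ < 0 := Real.log_neg h.rho_pos h.rho_lt
  have hp := cd_pos w hxy
  have hq := cd_pos w hne
  have hc := good_contr h hx hy
  unfold ph tt
  rcases le_max_iff.1 hc with h1 | h1
  · refine (min_le_right _ _).trans ?_
    have h2 := Real.log_le_log hq h1
    rw [Real.log_mul h.rho_pos.ne' hp.ne'] at h2
    rw [le_div_iff_of_neg hl, add_mul, div_mul_cancel₀ _ hl.ne]
    linarith
  · refine (min_le_left _ _).trans ?_
    have h2 := Real.log_le_log hq h1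
    rw [Real.log_pow] at h2
    rw [le_div_iff_of_neg hl, mul_assoc, div_mul_cancel₀ _ hl.ne]
    exact h2

theorem tt_iter (h : GoodMap w ρ p Q A B) (m : ℕ) {x y : L}
    (hx : ∀ i < m, B.eval ((fun u => A.eval u / B.eval u)^[i] x) ≠ 0)
    (hy : ∀ i < m, B.eval ((fun u => A.eval u / B.eval u)^[i] y) ≠ 0)
    (hne : (fun u => A.eval u / B.eval u)^[m] x ≠ (fun u => A.eval u / B.eval u)^[m] y) :
    (ph Q)^[m] (tt w ρ x y) ≤
      tt w ρ ((fun u => A.eval u / B.eval u)^[m] x) ((fun u => A.eval u / B.eval u)^[m] y) := by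
  induction m with
  | zero => exact le_rfl
  | succ m ih =>
    have hne' : (fun u => A.eval u / B.eval u)^[m] x ≠ (fun u => A.eval u / B.eval u)^[m] y := by
      intro e
      apply hne
      rw [Function.iterate_succ_apply', Function.iterate_succ_apply', e]
    have h1 := ih (fun i hi => hx i (by omega)) (fun i hi => hy i (by omega)) hne'
    rw [Function.iterate_succ_apply', Function.iterate_succ_apply', Function.iterate_succ_apply']
    refine (ph_mono Q h1).trans ?_
    rw [Function.iterate_succ_apply', Function.iterate_succ_apply'] at hne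
    exact tt_step h (hx m (by omega)) (hy m (by omega)) hne

end LEH
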