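/-
LH/CrS (M)  MP_022f22_nt, Lehmer project, table modleh. Paper proof: /team-store/lehmer_proof.md
Total gain of the levels 0..R in the no drop case.  S_n = orbF top (F^[n] a), |S_n| = dg a =: D, pairwise disjoint (Nice.disj: sigma F^n a = tau F^m a means F^n a = F^m (sigma^-1 tau a)).  S = union over n <= R.
card S = (R+1) D, sum over S of hx beta <= 2 D Q^R hx a (hx = Q^n hx a on S_n by Nice.ht, sum_{n<=R} Q^n <= 2 Q^R for Q >= 2, hx a >= 0),
sum over S.offDiag of tt >= 2 sum_{m<n<=R} sum_{x in S_n} sum_{beta in S_m} tt x beta (the pairs (x,beta) and (beta,x) with x in S_n, beta in S_m, m < n, are distinct off-diagonal pairs; tt_comm, tt_nonneg)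
 >= 2 sum_{m<n<=R} D (1+m) = D R(R+1)(R+2)/3 >= D R^3/3.
-/
import Mathlib
import Pool.Agent.Work.MP_022f22_nt.LH.Defs
import Pool.Agent.Work.MP_022f22_nt.LH.Tti
import Pool.Agent.Work.MP_022f22_nt.LH.Org
import Pool.Agent.Work.MP_022f22_nt.LH.Fmc
import Pool.Agent.Work.MP_022f22_nt.LH.GMp
import Pool.Agent.Work.MP_022f22_nt.LH.Crs
import Pool.Agent.Work.MP_022f22_nt.LH.Hxl

open NumberField IsDedekindDomain Polynomial Height Filter Topology

namespace LEH

private theorem double_sum {D : ℝ} (G : ℕ → ℕ → ℝ) (h0 : ∀ n m, 0 ≤ G n m)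
    (hsym : ∀ n m, G n m = G m n) (hlow : ∀ n m : ℕ, m < n → D * (1 + (m : ℝ)) ≤ G n m) (R : ℕ) :
    D * ((R : ℝ) * (R + 1) * (R + 2) / 3) ≤
      ∑ n ∈ Finset.range (R + 1), ∑ m ∈ Finset.range (R + 1), G n m := by
  have hg : ∀ n : ℕ, D * ((n : ℝ) * (n + 1) / 2) = ∑ m ∈ Finset.range n, D * (1 + (m : ℝ)) := by
    intro n
    induction n with
    | zero => simp
    | succ k ih =>
      rw [Finset.sum_range_succ, ← ih]
      push_cast
      ring
  induction R with
  | zero => simpa using h0 0 0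
  | succ R ih =>
    have e1 : ∑ n ∈ Finset.range (R + 1 + 1), ∑ m ∈ Finset.range (R + 1 + 1), G n m =
        (∑ n ∈ Finset.range (R + 1), ∑ m ∈ Finset.range (R + 1), G n m) +
          2 * (∑ m ∈ Finset.range (R + 1), G (R + 1) m) + G (R + 1) (R + 1) := by
      rw [Finset.sum_range_succ]
      simp only [Finset.sum_range_succ _ (R + 1)]
      rw [Finset.sum_add_distrib]
      have e2 : ∑ n ∈ Finset.range (R + 1), G n (R + 1) =
          ∑ m ∈ Finset.range (R + 1), G (R + 1) m :=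
        Finset.sum_congr rfl fun n _ => hsym _ _
      rw [e2]
      ring
    have e3 : ∑ m ∈ Finset.range (R + 1), D * (1 + (m : ℝ)) ≤
        ∑ m ∈ Finset.range (R + 1), G (R + 1) m :=
      Finset.sum_le_sum fun m hm => hlow _ _ (Finset.mem_range.1 hm)
    rw [← hg] at e3
    rw [e1]
    have e4 := h0 (R + 1) (R + 1)
    push_cast at e3 ⊢
    linarith

private theorem geom2 {Q : ℝ} (hQ : 2 ≤ Q) (R : ℕ) :
    ∑ n ∈ Finset.range (R + 1), Q ^ n ≤ 2 * Q ^ R := by
  induction R with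
  | zero => simp
  | succ R ih =>
    rw [Finset.sum_range_succ]
    have h1 : 2 * Q ^ R ≤ Q * Q ^ R := mul_le_mul_of_nonneg_right hQ (by positivity)
    have h2 : Q ^ (R + 1) = Q * Q ^ R := pow_succ' Q R
    linarith

open Classical in
theorem cross_sum {K : Type} [Field K] [NumberField K] {v : HeightOneSpectrum (𝓞 K)}
    {W : WeierstrassCurve K} {p N Q : ℕ} {A B : K[X]} (hs : Setup K v W p N Q A B)
    {L : Type} [Field L] [NumberField L] [Algebra K L] [FiniteDimensional K L] [IsGalois K L]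
    {ϖ : K} (hϖ : Unif v ϖ) {a : L} (ha : Nice W Q A B a)
    (hd : ∀ n, dg K ((Fm A B)^[n] a) = dg K a) (R : ℕ) (S : Finset L)
    (hS : S = (Finset.range (R + 1)).biUnion
      (fun n => orbF (⊤ : Subgroup (L ≃ₐ[K] L)) ((Fm A B)^[n] a))) :
    S.card = (R + 1) * dg K a ∧
      (∑ β ∈ S, hx (W.baseChange L) β ≤ 2 * (dg K a : ℝ) * (Q : ℝ) ^ R * hx (W.baseChange L) a) ∧
      ∀ w : FinitePlace L, Above v w →
        (dg K a : ℝ) * (R : ℝ) ^ 3 / 3 ≤
          ∑ q ∈ S.offDiag, tt w.val (w (algebraMap K L ϖ)) q.1 q.2 := by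
  have hmem : ∀ n b, b ∈ orbF (⊤ : Subgroup (L ≃ₐ[K] L)) ((Fm A B)^[n] a) →
      ∃ σ : L ≃ₐ[K] L, (Fm A B)^[n] (σ a) = b := by
    intro n b hb
    obtain ⟨σ, _, hσ⟩ := mem_orbF.1 hb
    exact ⟨σ, by rw [Fm_iter_gal, hσ]⟩
  have hdis : ∀ n m b, b ∈ orbF (⊤ : Subgroup (L ≃ₐ[K] L)) ((Fm A B)^[n] a) →
      b ∈ orbF (⊤ : Subgroup (L ≃ₐ[K] L)) ((Fm A B)^[m] a) → n = m := by
    intro n m b hn hm
    obtain ⟨σ, _, hσ⟩ := mem_orbF.1 hn
    obtain ⟨τ, _, hτ⟩ := mem_orbF.1 hm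
    refine ha.disj (σ⁻¹ * τ) n m ?_
    rw [Fm_iter_gal, AlgEquiv.mul_apply, hτ, ← hσ, ← AlgEquiv.mul_apply, inv_mul_cancel]
    rfl
  have hpd : ((Finset.range (R + 1) : Finset ℕ) : Set ℕ).PairwiseDisjoint
      (fun n => orbF (⊤ : Subgroup (L ≃ₐ[K] L)) ((Fm A B)^[n] a)) := by
    intro n _ m _ hnm
    refine Finset.disjoint_left.2 fun b hn hm => hnm (hdis n m b hn hm)
  have hcard : ∀ n, (orbF (⊤ : Subgroup (L ≃ₐ[K] L)) ((Fm A B)^[n] a)).card = dg K a := hd
  have hΔ : W.Δ ≠ 0 := by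
    intro h0
    have h1 := hs.good.disc
    rw [h0, map_zero] at h1
    exact zero_ne_one h1
  have hQ4 : 4 ≤ Q := by
    obtain ⟨s, hs0, hN⟩ := hs.N_pow
    have h2 : 2 ≤ N := by
      rw [hN]
      exact hs.prime.two_le.trans (Nat.le_self_pow hs0.ne' p)
    rw [hs.Q_eq]
    nlinarith
  have hQ2 : (2 : ℝ) ≤ (Q : ℝ) := by
    have : (4 : ℝ) ≤ (Q : ℝ) := by exact_mod_cast hQ4
    linarith
  refine ⟨?_, ?_, ?_⟩
  · rw [hS, Finset.card_biUnion hpd, Finset.sum_congr rfl fun n _ => hcard n]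
    simp
  · rw [hS, Finset.sum_biUnion hpd]
    have e1 : ∀ n ∈ Finset.range (R + 1),
        ∑ β ∈ orbF (⊤ : Subgroup (L ≃ₐ[K] L)) ((Fm A B)^[n] a), hx (W.baseChange L) β =
          ((dg K a : ℝ) * hx (W.baseChange L) a) * (Q : ℝ) ^ n := by
      intro n _
      have e2 : ∀ β ∈ orbF (⊤ : Subgroup (L ≃ₐ[K] L)) ((Fm A B)^[n] a),
          hx (W.baseChange L) β = (Q : ℝ) ^ n * hx (W.baseChange L) a := by
        intro β hβ
        obtain ⟨σ, rfl⟩ := hmem n β hβ
        exact ha.ht σ n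
      rw [Finset.sum_congr rfl e2, Finset.sum_const, hcard, nsmul_eq_mul]
      ring
    rw [Finset.sum_congr rfl e1, ← Finset.mul_sum]
    have h1 := geom2 hQ2 R
    have h2 : 0 ≤ (dg K a : ℝ) * hx (W.baseChange L) a :=
      mul_nonneg (Nat.cast_nonneg _) (hx_nonneg W hΔ L a)
    calc (dg K a : ℝ) * hx (W.baseChange L) a * ∑ n ∈ Finset.range (R + 1), (Q : ℝ) ^ n
        ≤ (dg K a : ℝ) * hx (W.baseChange L) a * (2 * (Q : ℝ) ^ R) :=
          mul_le_mul_of_nonneg_left h1 h2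
      _ = 2 * (dg K a : ℝ) * (Q : ℝ) ^ R * hx (W.baseChange L) a := by ring
  · intro w hw
    obtain ⟨hG, _⟩ := good_of_setup hs hw hϖ
    set ρ : ℝ := w (algebraMap K L ϖ) with hρ
    have htn : ∀ x y : L, 0 ≤ tt w.val ρ x y := fun x y =>
      tt_nonneg hG.nonarch hG.rho_pos hG.rho_lt x y
    set g : L → L → ℝ := fun x y => if x = y then 0 else tt w.val ρ x y with hg
    have hg0 : ∀ x y, 0 ≤ g x y := by
      intro x y
      simp only [hg]
      split_ifs
      · exact le_rfl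
      · exact htn x y
    have hgs : ∀ x y, g x y = g y x := by
      intro x y
      simp only [hg]
      by_cases hxy : x = y
      · simp [hxy]
      · rw [if_neg hxy, if_neg (Ne.symm hxy), tt_comm]
    set G : ℕ → ℕ → ℝ := fun n m =>
      ∑ x ∈ orbF (⊤ : Subgroup (L ≃ₐ[K] L)) ((Fm A B)^[n] a),
        ∑ y ∈ orbF (⊤ : Subgroup (L ≃ₐ[K] L)) ((Fm A B)^[m] a), g x y with hGd
    have hG0 : ∀ n m, 0 ≤ G n m := fun n m =>
      Finset.sum_nonneg fun x _ => Finset.sum_nonneg fun y _ => hg0 x y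
    have hGs : ∀ n m, G n m = G m n := by
      intro n m
      simp only [hGd]
      rw [Finset.sum_comm]
      exact Finset.sum_congr rfl fun y _ => Finset.sum_congr rfl fun x _ => hgs x y
    have hGl : ∀ n m : ℕ, m < n → (dg K a : ℝ) * (1 + (m : ℝ)) ≤ G n m := by
      intro n m hmn
      simp only [hGd]
      have e1 : ∀ x ∈ orbF (⊤ : Subgroup (L ≃ₐ[K] L)) ((Fm A B)^[n] a), (1 + (m : ℝ)) ≤
          ∑ y ∈ orbF (⊤ : Subgroup (L ≃ₐ[K] L)) ((Fm A B)^[m] a), g x y := by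
        intro x hx
        have e2 := cross_level hs hw hϖ ha hmn (hd m) hx
        refine e2.trans (le_of_eq (Finset.sum_congr rfl fun y hy => ?_))
        have hxy : x ≠ y := by
          intro hxy
          rw [hxy] at hx
          exact hmn.ne' (hdis n m y hx hy)
        simp only [hg]
        rw [if_neg hxy]
      have e3 := Finset.sum_le_sum e1
      rw [Finset.sum_const, hcard, nsmul_eq_mul] at e3
      exact e3
    have hmain := double_sum G hG0 hGs hGl R
    have hsum : ∑ q ∈ S.offDiag, tt w.val ρ q.1 q.2 =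
        ∑ n ∈ Finset.range (R + 1), ∑ m ∈ Finset.range (R + 1), G n m := by
      have e1 : ∑ q ∈ S.offDiag, tt w.val ρ q.1 q.2 = ∑ q ∈ S ×ˢ S, g q.1 q.2 := by
        have e2 : ∑ q ∈ S.offDiag, tt w.val ρ q.1 q.2 = ∑ q ∈ S.offDiag, g q.1 q.2 := by
          refine Finset.sum_congr rfl fun q hq => ?_
          have h3 := (Finset.mem_offDiag.1 hq).2.2
          simp only [hg]
          rw [if_neg h3]
        rw [e2]
        refine Finset.sum_subset ?_ ?_
        · intro q hq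
          have h3 := Finset.mem_offDiag.1 hq
          exact Finset.mem_product.2 ⟨h3.1, h3.2.1⟩
        · intro q hq hq2
          have h3 := Finset.mem_product.1 hq
          have h4 : q.1 = q.2 := by
            by_contra h5
            exact hq2 (Finset.mem_offDiag.2 ⟨h3.1, h3.2, h5⟩)
          simp only [hg]
          rw [if_pos h4]
      rw [e1, Finset.sum_product, hS, Finset.sum_biUnion hpd]
      refine Finset.sum_congr rfl fun n _ => ?_
      have e3 : ∀ x ∈ orbF (⊤ : Subgroup (L ≃ₐ[K] L)) ((Fm A B)^[n] a),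
          ∑ y ∈ (Finset.range (R + 1)).biUnion
            (fun n => orbF (⊤ : Subgroup (L ≃ₐ[K] L)) ((Fm A B)^[n] a)), g x y =
          ∑ m ∈ Finset.range (R + 1),
            ∑ y ∈ orbF (⊤ : Subgroup (L ≃ₐ[K] L)) ((Fm A B)^[m] a), g x y :=
        fun x _ => Finset.sum_biUnion hpd
      rw [Finset.sum_congr rfl e3, Finset.sum_comm]
    rw [hsum]
    refine le_trans ?_ hmain
    have hD : (0 : ℝ) ≤ (dg K a : ℝ) := Nat.cast_nonneg _
    have hR : (0 : ℝ) ≤ (R : ℝ) := Nat.cast_nonneg _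
    have h5 : (R : ℝ) ^ 3 / 3 ≤ (R : ℝ) * (R + 1) * (R + 2) / 3 := by
      nlinarith [mul_nonneg hR hR]
    calc (dg K a : ℝ) * (R : ℝ) ^ 3 / 3 = (dg K a : ℝ) * ((R : ℝ) ^ 3 / 3) := by ring
      _ ≤ _ := mul_le_mul_of_nonneg_left h5 hD

end LEH
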