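/-
LH/PrA (S)  MP_022f22_nt, Lehmer project, table modleh. Paper proof: /team-store/lehmer_proof.md
Prop A (no drop): assembly of energy (Enr), cross_sum (CrS) with T = D R^3/6, anaA.  hx a >= 0 (hx_nonneg, Δ != 0 from GoodRed).  Λ = log(absNorm v)/[K:Q] > 0 (absNorm v >= 2: one_lt_absNorm).
A uniformizer ϖ exists (exists_unif).  S nonempty as card = (R+1) dg a > 0 (dg_pos).
-/
import Mathlib
import Pool.Agent.Work.MP_022f22_nt.LH.Defs
import Pool.Agent.Work.MP_022f22_nt.LH.Enr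
import Pool.Agent.Work.MP_022f22_nt.LH.CrS
import Pool.Agent.Work.MP_022f22_nt.LH.AnA
import Pool.Agent.Work.MP_022f22_nt.LH.Vab
import Pool.Agent.Work.MP_022f22_nt.LH.Org
import Pool.Agent.Work.MP_022f22_nt.LH.Hxl

open NumberField IsDedekindDomain Polynomial Height Filter Topology

namespace LEH

theorem propA {K : Type} [Field K] [NumberField K] {v : HeightOneSpectrum (𝓞 K)}
    {W : WeierstrassCurve K} {p N Q : ℕ} {A B : K[X]} (hs : Setup K v W p N Q A B) :
    ∃ C2 : ℝ, 0 < C2 ∧ ∀ (L : Type) [Field L] [NumberField L] [Algebra K L]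
      [FiniteDimensional K L] [IsGalois K L] (a : L) (_ : Nice W Q A B a)
      (_ : ∀ n, dg K ((Fm A B)^[n] a) = dg K a),
      Real.exp (-(C2 * Real.sqrt (Real.log (dg K a) + 1))) ≤
        (dg K a : ℝ) * hx (W.baseChange L) a := by
  classical
  obtain ⟨ϖ, hϖ⟩ := exists_unif v
  obtain ⟨C1, hC1, hE⟩ := energy v W hs.good hϖ
  have hΔ : W.Δ ≠ 0 := by
    intro h0
    have h1 := hs.good.disc
    rw [h0, map_zero] at h1
    exact zero_ne_one h1
  have hQ : 4 ≤ Q := by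
    obtain ⟨s, hs0, hN⟩ := hs.N_pow
    have h2 : 2 ≤ N := by
      rw [hN]
      exact le_trans hs.prime.two_le (Nat.le_self_pow (Nat.pos_iff_ne_zero.1 hs0) p)
    rw [hs.Q_eq]
    nlinarith
  have hΛ : 0 < Real.log (Ideal.absNorm v.asIdeal) / (Module.finrank ℚ K : ℝ) := by
    have h1 : 1 < Ideal.absNorm v.asIdeal := by
      have := NumberField.HeightOneSpectrum.one_lt_absNorm v
      exact_mod_cast this
    have h2 : (0 : ℝ) < (Module.finrank ℚ K : ℝ) := by
      exact_mod_cast Module.finrank_pos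
    exact div_pos (Real.log_pos (by exact_mod_cast h1)) h2
  obtain ⟨C2, hC2, hA⟩ := anaA _ C1 hΛ hC1 Q hQ
  refine ⟨C2, hC2, ?_⟩
  intro L _ _ _ _ _ a ha hd
  refine hA (dg K a) (dg_pos a) (hx (W.baseChange L) a) (hx_nonneg W hΔ L a) ?_
  intro R _
  obtain ⟨hcard, hsum, hoff⟩ := cross_sum hs hϖ ha hd R _ rfl
  have hSn : ((Finset.range (R + 1)).biUnion
      (fun n => orbF (⊤ : Subgroup (L ≃ₐ[K] L)) ((Fm A B)^[n] a))).Nonempty := by
    rw [← Finset.card_pos, hcard]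
    exact Nat.mul_pos (Nat.succ_pos R) (dg_pos a)
  have hen := hE L _ hSn ((dg K a : ℝ) * (R : ℝ) ^ 3 / 6) (by positivity)
    (fun w hw => by
      have := hoff w hw
      linarith)
  rw [hcard] at hen
  have h3 : 4 * (((R + 1) * dg K a : ℕ) : ℝ) *
      ∑ β ∈ (Finset.range (R + 1)).biUnion
        (fun n => orbF (⊤ : Subgroup (L ≃ₐ[K] L)) ((Fm A B)^[n] a)), hx (W.baseChange L) β ≤
      4 * (((R + 1) * dg K a : ℕ) : ℝ) *
        (2 * (dg K a : ℝ) * (Q : ℝ) ^ R * hx (W.baseChange L) a) :=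
    mul_le_mul_of_nonneg_left hsum (by positivity)
  have h4 : Real.log (Ideal.absNorm v.asIdeal) / (Module.finrank ℚ K : ℝ) *
      ((dg K a : ℝ) * (R : ℝ) ^ 3 / 6) ≤ _ := hen
  linarith

end LEH
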