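/-
LH/Cop (M)  MP_022f22_nt, Lehmer project, table modleh. Paper proof: /team-store/lehmer_proof.md
Degrees and coprimality of the iterated duplication polynomials (A_l, B_l) = dupP W l over a field F.
dupP_eval: evaluation commutes (dupIt of the mapped curve at X, then Polynomial.eval = ring hom): induction on l; (W.map C).b₂ = C W.b₂ etc.
dupP_deg: A_l monic of natDegree 4^l, B_l natDegree < 4^l.  Induction: A_(l+1) = A^4 - b4 A^2B^2 - 2b6 AB^3 - b8 B^4: the first term is monic of degree 4*4^l, the others have smaller degree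
(each has at least one factor B with natDegree <= 4^l - 1).  B_(l+1): every term of 4A^3B + b2A^2B^2 + 2b4AB^3 + b6B^4 contains a factor B: degree <= 4*4^l - 1.
dupP_coprime: IsCoprime A_l B_l when Δ != 0: induction on l; l = 0: B_0 = 1.  Step: dup_ident over F[X] for W.map C (discriminant C Δ is a unit) at (A_l, B_l):
the ideal (A_(l+1), B_(l+1)) contains A_l^8 and B_l^8, which are coprime (IsCoprime.pow).
dupP_int: coefficients are integral for a nonarchimedean w if the b_i are (induction; the set of polynomials with integral coefficients is a subring).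
-/
import Mathlib
import Pool.Agent.Work.MP_022f22_nt.LH.Defs
import Pool.Agent.Work.MP_022f22_nt.LH.Dpi

open NumberField IsDedekindDomain Polynomial Height Filter Topology

namespace LEH

variable {F : Type*} [Field F]

private theorem dupP_succ (W : WeierstrassCurve F) (l : ℕ) :
    dupP W (l + 1) = (dupA (W.map (C : F →+* F[X])) (dupP W l).1 (dupP W l).2,
      dupB (W.map (C : F →+* F[X])) (dupP W l).1 (dupP W l).2) := rfl

private theorem dupIt_succ (W : WeierstrassCurve F) (l : ℕ) (x : F) :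
    dupIt W (l + 1) x = (dupA W (dupIt W l x).1 (dupIt W l x).2,
      dupB W (dupIt W l x).1 (dupIt W l x).2) := rfl

theorem dupP_eval (W : WeierstrassCurve F) (l : ℕ) (x : F) :
    (dupP W l).1.eval x = (dupIt W l x).1 ∧ (dupP W l).2.eval x = (dupIt W l x).2 := by
  induction l with
  | zero => exact ⟨by simp [dupP, dupIt], by simp [dupP, dupIt]⟩
  | succ l ih =>
    obtain ⟨h1, h2⟩ := ih
    rw [dupP_succ, dupIt_succ]
    constructor
    · simp only [dupA, WeierstrassCurve.map_b₄, WeierstrassCurve.map_b₆, WeierstrassCurve.map_b₈]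
      simp [h1, h2]
    · simp only [dupB, WeierstrassCurve.map_b₂, WeierstrassCurve.map_b₄, WeierstrassCurve.map_b₆]
      simp [h1, h2]

private theorem nd_term {A B : F[X]} {n : ℕ} (hn : 1 ≤ n) (hA : A.natDegree ≤ n)
    (hB : B.natDegree ≤ n - 1) (c : F[X]) (hc : c.natDegree ≤ 0) (i j : ℕ) (hij : i + j = 4)
    (hj : 1 ≤ j) : (c * A ^ i * B ^ j).natDegree ≤ 4 * n - 1 := by
  have h1 : (A ^ i).natDegree ≤ i * n := natDegree_pow_le_of_le i hA
  have h2 : (B ^ j).natDegree ≤ j * (n - 1) := natDegree_pow_le_of_le j hB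
  have h3 : (c * A ^ i * B ^ j).natDegree ≤ (0 + i * n) + j * (n - 1) :=
    natDegree_mul_le_of_le (natDegree_mul_le_of_le hc h1) h2
  refine h3.trans ?_
  obtain ⟨m, rfl⟩ := Nat.exists_eq_add_of_le hn
  have h4 : 1 + m - 1 = m := by omega
  have h5 : i = 4 - j := by omega
  have h6 : j ≤ 4 := by omega
  rw [h4]
  interval_cases j <;> subst h5 <;> omega

theorem dupP_deg (W : WeierstrassCurve F) (l : ℕ) :
    (dupP W l).1.Monic ∧ (dupP W l).1.natDegree = 4 ^ l ∧ (dupP W l).2.natDegree < 4 ^ l := by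
  induction l with
  | zero =>
    refine ⟨?_, ?_, ?_⟩
    · show (X : F[X]).Monic
      exact monic_X
    · show (X : F[X]).natDegree = 4 ^ 0
      simp
    · show (1 : F[X]).natDegree < 4 ^ 0
      simp
  | succ l ih =>
    obtain ⟨hm, hA, hB⟩ := ih
    rw [dupP_succ]
    set A := (dupP W l).1
    set B := (dupP W l).2
    have hn : 1 ≤ 4 ^ l := Nat.one_le_pow _ _ (by norm_num)
    have hB' : B.natDegree ≤ 4 ^ l - 1 := by omega
    have hC : ∀ (a : F) (k : ℕ), ((k : F[X]) * C a).natDegree ≤ 0 := fun a k =>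
      (natDegree_mul_le_of_le (natDegree_natCast k).le (natDegree_C a).le).trans (by simp)
    have t1 := nd_term hn hA.le hB' _ (hC W.b₄ 1) 2 2 rfl (by norm_num)
    have t2 := nd_term hn hA.le hB' _ (hC W.b₆ 2) 1 3 rfl (by norm_num)
    have t3 := nd_term hn hA.le hB' _ (hC W.b₈ 1) 0 4 rfl (by norm_num)
    have s1 := nd_term hn hA.le hB' _ (hC 1 4) 3 1 rfl (by norm_num)
    have s2 := nd_term hn hA.le hB' _ (hC W.b₂ 1) 2 2 rfl (by norm_num)
    have s3 := nd_term hn hA.le hB' _ (hC W.b₄ 2) 1 3 rfl (by norm_num)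
    have s4 := nd_term hn hA.le hB' _ (hC W.b₆ 1) 0 4 rfl (by norm_num)
    have hA4 : (A ^ 4).natDegree = 4 * 4 ^ l := by
      rw [hm.natDegree_pow, hA]
    have eA : dupA (W.map (C : F →+* F[X])) A B = A ^ 4 - (((1 : ℕ) : F[X]) * C W.b₄ * A ^ 2 * B ^ 2 +
        ((2 : ℕ) : F[X]) * C W.b₆ * A ^ 1 * B ^ 3 + ((1 : ℕ) : F[X]) * C W.b₈ * A ^ 0 * B ^ 4) := by
      simp only [dupA, WeierstrassCurve.map_b₄, WeierstrassCurve.map_b₆, WeierstrassCurve.map_b₈]
      push_cast
      ring
    have eB : dupB (W.map (C : F →+* F[X])) A B = ((4 : ℕ) : F[X]) * C 1 * A ^ 3 * B ^ 1 +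
        ((1 : ℕ) : F[X]) * C W.b₂ * A ^ 2 * B ^ 2 +
        ((2 : ℕ) : F[X]) * C W.b₄ * A ^ 1 * B ^ 3 + ((1 : ℕ) : F[X]) * C W.b₆ * A ^ 0 * B ^ 4 := by
      simp only [dupB, WeierstrassCurve.map_b₂, WeierstrassCurve.map_b₄, WeierstrassCurve.map_b₆]
      rw [C_1]
      push_cast
      ring
    have hR := natDegree_add_le_of_degree_le (natDegree_add_le_of_degree_le t1 t2) t3
    have hS := natDegree_add_le_of_degree_le (natDegree_add_le_of_degree_le
      (natDegree_add_le_of_degree_le s1 s2) s3) s4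
    have hp : 4 ^ (l + 1) = 4 * 4 ^ l := by ring
    refine ⟨?_, ?_, ?_⟩
    · show (dupA (W.map (C : F →+* F[X])) A B).Monic
      rw [eA]
      apply (hm.pow 4).sub_of_left
      apply degree_lt_degree
      rw [hA4]
      omega
    · show (dupA (W.map (C : F →+* F[X])) A B).natDegree = _
      rw [eA, natDegree_sub_eq_left_of_natDegree_lt, hA4, hp]
      rw [hA4]
      omega
    · show (dupB (W.map (C : F →+* F[X])) A B).natDegree < _
      rw [eB, hp]
      omega

theorem dupP_coprime (W : WeierstrassCurve F) (hΔ : W.Δ ≠ 0) (l : ℕ) :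
    IsCoprime (dupP W l).1 (dupP W l).2 := by
  induction l with
  | zero =>
    show IsCoprime (X : F[X]) 1
    exact isCoprime_one_right
  | succ l ih =>
    rw [dupP_succ]
    set A := (dupP W l).1
    set B := (dupP W l).2
    have hu : IsUnit (W.map (C : F →+* F[X])).Δ := by
      rw [WeierstrassCurve.map_Δ]
      exact isUnit_C.2 (isUnit_iff_ne_zero.2 hΔ)
    obtain ⟨g1, g2, g3, g4, h1, h2⟩ := dup_ident (W.map (C : F →+* F[X])) hu A B
    obtain ⟨u, v, huv⟩ := (ih.pow_left (m := 8)).pow_right (n := 8)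
    refine ⟨u * g1 + v * g3, u * g2 + v * g4, ?_⟩
    show (u * g1 + v * g3) * dupA (W.map (C : F →+* F[X])) A B +
      (u * g2 + v * g4) * dupB (W.map (C : F →+* F[X])) A B = 1
    rw [← huv, ← h1, ← h2]
    ring

private def intRing (w : AbsoluteValue F ℝ) (hw : IsNonarchimedean w) : Subring F where
  carrier := {x | w x ≤ 1}
  mul_mem' := fun {a b} ha hb => by
    show w (a * b) ≤ 1
    rw [map_mul]
    exact mul_le_one₀ ha (w.nonneg b) hb
  one_mem' := by
    show w 1 ≤ 1
    rw [map_one]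
  add_mem' := fun {a b} ha hb => (hw a b).trans (max_le ha hb)
  zero_mem' := by
    show w 0 ≤ 1
    rw [map_zero]
    exact zero_le_one
  neg_mem' := fun {a} ha => by
    show w (-a) ≤ 1
    rw [map_neg_eq_map]
    exact ha

theorem dupP_int (W : WeierstrassCurve F) (w : AbsoluteValue F ℝ)
    (hw : IsNonarchimedean w) (h2 : w W.b₂ ≤ 1) (h4 : w W.b₄ ≤ 1) (h6 : w W.b₆ ≤ 1)
    (h8 : w W.b₈ ≤ 1) (l : ℕ) (i : ℕ) :
    w ((dupP W l).1.coeff i) ≤ 1 ∧ w ((dupP W l).2.coeff i) ≤ 1 := by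
  set R : Subring F[X] := (mapRingHom (intRing w hw).subtype).range with hR
  have hC : ∀ a : F, w a ≤ 1 → C a ∈ R := fun a ha => by
    refine ⟨C (⟨a, ha⟩ : intRing w hw), ?_⟩
    rw [coe_mapRingHom, map_C]
    rfl
  have hX : (X : F[X]) ∈ R := ⟨X, by rw [coe_mapRingHom, map_X]⟩
  have key : ∀ l, (dupP W l).1 ∈ R ∧ (dupP W l).2 ∈ R := by
    intro l
    induction l with
    | zero => exact ⟨hX, R.one_mem⟩
    | succ l ih =>
      obtain ⟨hA, hB⟩ := ih
      rw [dupP_succ]
      have c2 := hC _ h2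
      have c4 := hC _ h4
      have c6 := hC _ h6
      have c8 := hC _ h8
      have n2 : (2 : F[X]) ∈ R := ofNat_mem R 2
      have n4 : (4 : F[X]) ∈ R := ofNat_mem R 4
      constructor
      · simp only [dupA, WeierstrassCurve.map_b₄, WeierstrassCurve.map_b₆, WeierstrassCurve.map_b₈]
        exact R.sub_mem (R.sub_mem (R.sub_mem (R.pow_mem hA 4)
          (R.mul_mem (R.mul_mem c4 (R.pow_mem hA 2)) (R.pow_mem hB 2)))
          (R.mul_mem (R.mul_mem (R.mul_mem n2 c6) hA) (R.pow_mem hB 3)))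
          (R.mul_mem c8 (R.pow_mem hB 4))
      · simp only [dupB, WeierstrassCurve.map_b₂, WeierstrassCurve.map_b₄, WeierstrassCurve.map_b₆]
        exact R.add_mem (R.add_mem (R.add_mem (R.mul_mem (R.mul_mem n4 (R.pow_mem hA 3)) hB)
          (R.mul_mem (R.mul_mem c2 (R.pow_mem hA 2)) (R.pow_mem hB 2)))
          (R.mul_mem (R.mul_mem (R.mul_mem n2 c4) hA) (R.pow_mem hB 3)))
          (R.mul_mem c6 (R.pow_mem hB 4))
  have hco : ∀ p ∈ R, w (p.coeff i) ≤ 1 := by
    rintro p ⟨q, rfl⟩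
    rw [coe_mapRingHom, coeff_map]
    exact (q.coeff i).2
  exact ⟨hco _ (key l).1, hco _ (key l).2⟩

theorem dupIt_ne (W : WeierstrassCurve F) (hΔ : W.Δ ≠ 0) (l : ℕ) (x : F) :
    (dupIt W l x).1 ≠ 0 ∨ (dupIt W l x).2 ≠ 0 := by
  induction l with
  | zero => exact Or.inr one_ne_zero
  | succ l ih =>
    rw [dupIt_succ]
    exact dup_ne W hΔ ih

end LEH
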