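/-
LH/Dbd (S)  MP_022f22_nt, Lehmer project, table modleh. Paper proof: /team-store/lehmer_proof.md
Crude determinant bounds: entries w(M i j) <= m j.  Leibniz formula (Matrix.det_apply): w(det) <= sum over perms of prod_j m_j = n! prod m_j (w(sign) = 1); nonarchimedean: w(det) <= prod_j m_j.
-/
import Mathlib
import Pool.Agent.Work.MP_022f22_nt.LH.Defs

open NumberField IsDedekindDomain Polynomial Height Filter Topology

namespace LEH

private theorem signP_smul {F : Type*} [Field F] (w : AbsoluteValue F ℝ) {n : ℕ}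
    (σ : Equiv.Perm (Fin n)) (x : F) : w (Equiv.Perm.sign σ • x) = w x := by
  rcases Int.units_eq_one_or (Equiv.Perm.sign σ) with h | h
  · rw [h, one_smul]
  · rw [h, Units.neg_smul, one_smul, AbsoluteValue.map_neg]

theorem det_arch {F : Type*} [Field F] (w : AbsoluteValue F ℝ) (n : ℕ)
    (M : Matrix (Fin n) (Fin n) F) (m : Fin n → ℝ) (h : ∀ i j, w (M i j) ≤ m j) :
    w M.det ≤ (n.factorial : ℝ) * ∏ j, m j := by
  rw [Matrix.det_apply]
  refine (w.sum_le _ _).trans ?_
  have h1 : ∀ σ ∈ (Finset.univ : Finset (Equiv.Perm (Fin n))),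
      w (Equiv.Perm.sign σ • ∏ i, M (σ i) i) ≤ ∏ j, m j := by
    intro σ _
    rw [signP_smul w σ, map_prod]
    exact Finset.prod_le_prod (fun _ _ => w.nonneg _) fun i _ => h _ _
  refine (Finset.sum_le_sum h1).trans (le_of_eq ?_)
  rw [Finset.sum_const, Finset.card_univ, Fintype.card_perm, Fintype.card_fin, nsmul_eq_mul]

theorem det_nonarch {F : Type*} [Field F] (w : AbsoluteValue F ℝ) (hw : IsNonarchimedean w)
    (n : ℕ) (M : Matrix (Fin n) (Fin n) F) (m : Fin n → ℝ) (h : ∀ i j, w (M i j) ≤ m j) :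
    w M.det ≤ ∏ j, m j := by
  rw [Matrix.det_apply]
  have h1 : ∀ σ : Equiv.Perm (Fin n),
      w (Equiv.Perm.sign σ • ∏ i, M (σ i) i) ≤ ∏ j, m j := by
    intro σ
    rw [signP_smul w σ, map_prod]
    exact Finset.prod_le_prod (fun _ _ => w.nonneg _) fun i _ => h _ _
  obtain ⟨σ, -, hσ⟩ := hw.finset_image_add_of_nonempty (t := Finset.univ)
    (fun σ : Equiv.Perm (Fin n) => Equiv.Perm.sign σ • ∏ i, M (σ i) i) Finset.univ_nonempty
  exact hσ.trans (h1 σ)

end LEH
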