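/-
LH/Ind (M)  MP_022f22_nt, Lehmer project, table modleh. Paper proof: /team-store/lehmer_proof.md
Linear independence of f_I = prod_{l<k} A_l^(I l) B_l^(3 - I l), I : Fin k -> Fin 4, where natDegree A_l = 4^l, natDegree B_l < 4^l, A_l and B_l coprime.
Induction on k.  k = 0: one function, the constant 1.  Step k -> k+1: index Fin (k+1) -> Fin 4 is (Fin k -> Fin 4) x Fin 4 (last coordinate; Fin.snoc / Fin.prod_univ_castSucc), with
A = A_k, B = B_k: a relation reads sum_{i=0..3} c_i A^i B^(3-i) = 0 with c_i = sum_I lambda_{I,i} f_I, natDegree c_i <= sum_{l<k} 3*4^l = 4^k - 1 < natDegree A = 4^k.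
A divides c_0 B^3, coprime to B, so A | c_0, so c_0 = 0 (degree); cancel A (A != 0): c_1 B^2 + c_2 A B + c_3 A^2 = 0 => A | c_1, c_1 = 0; etc.  All c_i = 0, induction hypothesis.
deg_f: natDegree f_I < 4^k (sum of 3*4^l is 4^k - 1).
-/
import Mathlib
import Pool.Agent.Work.MP_022f22_nt.LH.Defs

open NumberField IsDedekindDomain Polynomial Height Filter Topology

namespace LEH

theorem f_deg {F : Type*} [Field F] (A B : ℕ → F[X]) (hA : ∀ l, (A l).natDegree = 4 ^ l)
    (hB : ∀ l, (B l).natDegree < 4 ^ l) (k : ℕ) (I : Fin k → Fin 4) :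
    (∏ l : Fin k, A l ^ (I l : ℕ) * B l ^ (3 - (I l : ℕ))).natDegree < 4 ^ k := by
  induction k with
  | zero => simp
  | succ k ih =>
    rw [Fin.prod_univ_castSucc]
    have h1 := ih (fun l => I l.castSucc)
    have h2 : (A (Fin.last k : ℕ) ^ (I (Fin.last k) : ℕ)
        * B (Fin.last k : ℕ) ^ (3 - (I (Fin.last k) : ℕ))).natDegree ≤ 3 * 4 ^ k := by
      refine natDegree_mul_le.trans ?_
      refine (add_le_add natDegree_pow_le natDegree_pow_le).trans ?_
      rw [Fin.val_last, hA k]
      have h3 : (3 - (I (Fin.last k) : ℕ)) * (B k).natDegree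
          ≤ (3 - (I (Fin.last k) : ℕ)) * 4 ^ k := Nat.mul_le_mul_left _ (hB k).le
      have h4 : (I (Fin.last k) : ℕ) ≤ 3 := by
        have := (I (Fin.last k)).isLt
        omega
      calc (I (Fin.last k) : ℕ) * 4 ^ k + (3 - (I (Fin.last k) : ℕ)) * (B k).natDegree
          ≤ (I (Fin.last k) : ℕ) * 4 ^ k + (3 - (I (Fin.last k) : ℕ)) * 4 ^ k := by
            exact Nat.add_le_add_left h3 _
        _ = ((I (Fin.last k) : ℕ) + (3 - (I (Fin.last k) : ℕ))) * 4 ^ k := by ring
        _ = 3 * 4 ^ k := by rw [Nat.add_sub_cancel' h4]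
    refine lt_of_le_of_lt natDegree_mul_le ?_
    have h5 : (∏ i : Fin k, A (i.castSucc : ℕ) ^ (I i.castSucc : ℕ)
        * B (i.castSucc : ℕ) ^ (3 - (I i.castSucc : ℕ))).natDegree < 4 ^ k := by
      simpa using h1
    have h6 : (4 : ℕ) ^ (k + 1) = 4 ^ k + 3 * 4 ^ k := by ring
    omega

private theorem four_aux {F : Type*} [Field F] {A B : F[X]} (hc : IsCoprime A B)
    {c : ℕ → F[X]} (hA : 0 < A.natDegree) (hd : ∀ i, (c i).natDegree < A.natDegree) :
    ∀ n : ℕ, (∑ i ∈ Finset.range (n + 1), c i * (A ^ i * B ^ (n - i)) = 0) →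
      ∀ i, i ≤ n → c i = 0 := by
  intro n
  induction n generalizing c with
  | zero =>
    intro h i hi
    have : i = 0 := by omega
    subst this
    simpa using h
  | succ n ih =>
    intro h
    have h0 : c 0 = 0 := by
      have hdvd : A ∣ c 0 * B ^ (n + 1) := by
        rw [Finset.sum_range_succ'] at h
        have : c 0 * B ^ (n + 1)
            = - ∑ i ∈ Finset.range (n + 1), c (i + 1) * (A ^ (i + 1) * B ^ (n + 1 - (i + 1))) := by
          have h' := h
          simp only [pow_zero, one_mul, Nat.sub_zero] at h'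
          linear_combination h'
        rw [this]
        refine (dvd_neg).2 (Finset.dvd_sum fun i _ => ?_)
        refine dvd_mul_of_dvd_right (dvd_mul_of_dvd_left ?_ _) _
        exact dvd_pow_self _ (Nat.succ_ne_zero i)
      have hdvd2 : A ∣ c 0 := (hc.pow_right).dvd_of_dvd_mul_right hdvd
      exact eq_zero_of_dvd_of_natDegree_lt hdvd2 (hd 0)
    have hA0 : A ≠ 0 := by
      intro hz
      rw [hz] at hA
      simp at hA
    have h1 : ∑ i ∈ Finset.range (n + 1), c (i + 1) * (A ^ i * B ^ (n - i)) = 0 := by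
      rw [Finset.sum_range_succ', h0, zero_mul, add_zero] at h
      have h2 : A * ∑ i ∈ Finset.range (n + 1), c (i + 1) * (A ^ i * B ^ (n - i)) = 0 := by
        rw [Finset.mul_sum, ← h]
        refine Finset.sum_congr rfl fun i _ => ?_
        rw [Nat.add_sub_add_right, pow_succ]
        ring
      exact (mul_eq_zero.1 h2).resolve_left hA0
    have h3 := ih (c := fun i => c (i + 1)) (fun i => hd (i + 1)) h1
    intro i hi
    rcases Nat.eq_zero_or_pos i with h4 | h4
    · rw [h4, h0]
    · obtain ⟨j, rfl⟩ : ∃ j, i = j + 1 := ⟨i - 1, by omega⟩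
      exact h3 j (by omega)

theorem f_indep {F : Type*} [Field F] (A B : ℕ → F[X]) (hA : ∀ l, (A l).natDegree = 4 ^ l)
    (hB : ∀ l, (B l).natDegree < 4 ^ l) (hc : ∀ l, IsCoprime (A l) (B l)) (k : ℕ) :
    LinearIndependent F (fun I : Fin k → Fin 4 =>
      ∏ l : Fin k, A l ^ (I l : ℕ) * B l ^ (3 - (I l : ℕ))) := by
  induction k with
  | zero =>
    rw [Fintype.linearIndependent_iff]
    intro g hg I
    have h1 : ∀ J : Fin 0 → Fin 4, J = I := fun J => Subsingleton.elim _ _
    have h2 : (∑ J : Fin 0 → Fin 4, g J • (∏ l : Fin 0, A l ^ (J l : ℕ) * B l ^ (3 - (J l : ℕ))))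
        = C (g I) := by
      rw [Fintype.sum_subsingleton _ I]
      simp [smul_eq_C_mul]
    rw [h2] at hg
    exact C_eq_zero.1 hg
  | succ k ih =>
    rw [Fintype.linearIndependent_iff] at ih ⊢
    intro g hg
    set f : (Fin k → Fin 4) → F[X] := fun J =>
      ∏ l : Fin k, A l ^ (J l : ℕ) * B l ^ (3 - (J l : ℕ)) with hf
    have hpos : 0 < (4 : ℕ) ^ k := by positivity
    -- coefficients
    set c : ℕ → F[X] := fun i => if h : i < 4 then
      ∑ J : Fin k → Fin 4, g (Fin.snoc J (⟨i, h⟩ : Fin 4) : Fin (k + 1) → Fin 4) • f J else 0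
      with hcdef
    have hcd : ∀ i, (c i).natDegree < (A k).natDegree := by
      intro i
      rw [hA k]
      by_cases h : i < 4
      · simp only [hcdef, h, dif_pos]
        refine lt_of_le_of_lt (natDegree_sum_le_of_forall_le (n := 4 ^ k - 1) _ _ ?_) (by omega)
        intro J _
        refine (natDegree_smul_le _ _).trans ?_
        have := f_deg A B hA hB k J
        simp only [hf]
        omega
      · simp only [hcdef, h, dif_neg, not_false_eq_true, natDegree_zero]
        exact hpos
    have hsum : ∑ i ∈ Finset.range (3 + 1), c i * (A k ^ i * B k ^ (3 - i)) = 0 := by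
      rw [← hg, ← (Fin.snocEquiv (fun _ : Fin (k + 1) => Fin 4)).sum_comp, Fintype.sum_prod_type,
        Finset.sum_range]
      refine Finset.sum_congr rfl fun i _ => ?_
      have hi : (i : ℕ) < 4 := i.isLt
      simp only [hcdef, hi, dif_pos]
      rw [Finset.sum_mul]
      refine Finset.sum_congr rfl fun J _ => ?_
      rw [Fin.prod_univ_castSucc]
      simp only [Fin.snocEquiv_apply, Fin.snoc_castSucc, Fin.snoc_last, Fin.val_castSucc,
        Fin.val_last, hf, smul_mul_assoc]
      rfl
    have hz := four_aux (hc k) (c := c) (by rw [hA k]; exact hpos) hcd 3 hsum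
    intro I
    have h1 := hz (I (Fin.last k)) (by have := (I (Fin.last k)).isLt; omega)
    have h2 : (I (Fin.last k) : ℕ) < 4 := (I (Fin.last k)).isLt
    simp only [hcdef, h2, dif_pos] at h1
    have h3 := ih (fun J => g (Fin.snoc J (⟨(I (Fin.last k) : ℕ), h2⟩ : Fin 4) :
      Fin (k + 1) → Fin 4)) h1 (Fin.init I)
    have h4 : (Fin.snoc (Fin.init I) (⟨(I (Fin.last k) : ℕ), h2⟩ : Fin 4) :
      Fin (k + 1) → Fin 4) = I := by
      have : (⟨(I (Fin.last k) : ℕ), h2⟩ : Fin 4) = I (Fin.last k) := by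
        ext
        rfl
      rw [this]
      exact Fin.snoc_init_self I
    simpa [h4] using h3

end LEH
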