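/-
LH/Mnr (M)  MP_022f22_nt, Lehmer project, table modleh. Paper proof: /team-store/lehmer_proof.md
A nonzero minor.  f : ι -> F[X] linearly independent, natDegree < N = card ι, n <= N distinct points beta_j.  There is I : Fin n -> ι with det (f_{I i}(beta_j)) != 0.
Proof.  The span of the f_i is the space of polynomials of degree < N (dimension N: Polynomial.degreeLT, finrank N; finrank_eq_card_basis / LinearIndependent.span_eq_top_of_card...).
The evaluation map degreeLT N -> (Fin n -> F) is surjective (Lagrange interpolation, n <= N), so the vectors r_i = (f_i(beta_j))_j span Fin n -> F.  From a spanning family of F^n choose n vectors forming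
a basis (exists_fun_fin_finrank_span_eq, or Module.Basis.ofSpan / exists_linearIndependent), so the square matrix has linearly independent rows, det != 0
(Matrix.linearIndependent_rows_iff_isUnit).
-/
import Mathlib
import Pool.Agent.Work.MP_022f22_nt.LH.Defs

open NumberField IsDedekindDomain Polynomial Height Filter Topology

namespace LEH

theorem exists_minor {F : Type*} [Field F] {ι : Type*} [Fintype ι] (f : ι → F[X])
    (hf : LinearIndependent F f) (hd : ∀ i, (f i).natDegree < Fintype.card ι) (n : ℕ)
    (hn : n ≤ Fintype.card ι) (β : Fin n → F) (hβ : Function.Injective β) :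
    ∃ I : Fin n → ι, (Matrix.of fun i j => (f (I i)).eval (β j)).det ≠ 0 := by
  classical
  let r : ι → (Fin n → F) := fun i j => (f i).eval (β j)
  -- the evaluation map
  let ev : F[X] →ₗ[F] (Fin n → F) := LinearMap.pi fun j => Polynomial.leval (β j)
  have hev : ∀ p j, ev p j = p.eval (β j) := fun p j => rfl
  -- the span of the family
  have hsub : Submodule.span F (Set.range f) = Polynomial.degreeLT F (Fintype.card ι) := by
    have hle : Submodule.span F (Set.range f) ≤ Polynomial.degreeLT F (Fintype.card ι) := by
      rw [Submodule.span_le]
      rintro _ ⟨i, rfl⟩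
      rw [SetLike.mem_coe, Polynomial.mem_degreeLT]
      exact lt_of_le_of_lt Polynomial.degree_le_natDegree (by exact_mod_cast hd i)
    have hfin : FiniteDimensional F (Polynomial.degreeLT F (Fintype.card ι)) :=
      Module.Finite.equiv (Polynomial.degreeLTEquiv F (Fintype.card ι)).symm
    refine Submodule.eq_of_le_of_finrank_eq hle ?_
    rw [finrank_span_eq_card hf, (Polynomial.degreeLTEquiv F (Fintype.card ι)).finrank_eq]
    simp
  have hspan : Submodule.span F (Set.range r) = ⊤ := by
    have h1 : Submodule.span F (Set.range r) = (Submodule.span F (Set.range f)).map ev := by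
      rw [Submodule.map_span, ← Set.range_comp]
      rfl
    rw [h1, hsub, eq_top_iff]
    intro v _
    refine ⟨Lagrange.interpolate Finset.univ β v, ?_, ?_⟩
    · rw [SetLike.mem_coe, Polynomial.mem_degreeLT]
      refine lt_of_lt_of_le (Lagrange.degree_interpolate_lt v (hβ.injOn)) ?_
      simpa using hn
    · funext j
      rw [hev]
      exact Lagrange.eval_interpolate_at_node v (hβ.injOn) (Finset.mem_univ j)
  obtain ⟨g, hg1, -, hg3⟩ := Submodule.exists_fun_fin_finrank_span_eq F (Set.range r)
  have hn' : Module.finrank F (Submodule.span F (Set.range r)) = n := by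
    rw [hspan, finrank_top]
    simp
  choose I0 hI0 using hg1
  refine ⟨fun i => I0 (Fin.cast hn'.symm i), ?_⟩
  have hli : LinearIndependent F (fun i : Fin n => g (Fin.cast hn'.symm i)) :=
    hg3.comp _ (Fin.cast_injective _)
  have hrow : (Matrix.of fun i j => (f (I0 (Fin.cast hn'.symm i))).eval (β j)).row
      = fun i : Fin n => g (Fin.cast hn'.symm i) := by
    funext i
    rw [← hI0]
    rfl
  have hunit : IsUnit (Matrix.of fun i j => (f (I0 (Fin.cast hn'.symm i))).eval (β j)) := by
    rw [← Matrix.linearIndependent_rows_iff_isUnit, hrow]
    exact hli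
  exact ((Matrix.isUnit_iff_isUnit_det _).mp hunit).ne_zero

end LEH
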