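/-
LH/Pl1 (M)  MP_022f22_nt, Lehmer project, table modleh. Paper proof: /team-store/lehmer_proof.md
Peeling off one point.  w nonarchimedean; f integral (w(coeff) <= 1), natDegree f <= d+1; (x0,z0) normalised: max (w x0)(w z0) = 1.
There are h integral with natDegree h <= d and e : F x F -> F (the form l^(d+1)) such that for all x z
  hev (d+1) f x z = hev (d+1) f x0 z0 * e x z + (x*z0 - z*x0) * hev d h x z.   (e does not depend on f !)
Case w z0 = 1: e x z = (z/z0)^(d+1).  r = x0/z0, w r <= 1.  c = hev (d+1) f x0 z0.  f1 = f - C(c/z0^(d+1)) has f1(r) = 0 [hev (d+1) f x0 z0 = z0^(d+1) f.eval r], so f1 = (X - C r) q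
with q integral, natDegree q <= d (Polynomial.divByMonic / synthetic division: q_(i) = sum_{j>i} f1_j r^(j-1-i)); hev (d+1) f1 x z = (x - r z) hev d q x z = (x z0 - z x0) z0^-1 hev d q x z;
h = C z0^-1 * q.   Case w x0 = 1 (and w z0 < 1): e x z = (x/x0)^(d+1), use the reversal: hev (d+1) f x z = hev (d+1) (reflect (d+1) f) z x
(Polynomial.reflect; coefficients f_(d+1-i)) and the first case with the roles of x and z exchanged (sign: z x0 - x z0 = -(x z0 - z x0), put the sign into h; reflect back).
-/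
import Mathlib
import Pool.Agent.Work.MP_022f22_nt.LH.Defs

open NumberField IsDedekindDomain Polynomial Height Filter Topology

namespace LEH

private theorem hevP_add {R : Type*} [CommRing R] (d : ℕ) (f g : R[X]) (x z : R) :
    hev d (f + g) x z = hev d f x z + hev d g x z := by
  unfold hev
  rw [← Finset.sum_add_distrib]
  refine Finset.sum_congr rfl fun i _ => ?_
  rw [coeff_add]; ring

private theorem hevP_C {R : Type*} [CommRing R] (d : ℕ) (c x z : R) :
    hev d (C c) x z = c * z ^ d := by
  unfold hev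
  rw [Finset.sum_eq_single 0]
  · simp
  · intro i _ hi
    rw [coeff_C, if_neg hi]; ring
  · intro h; exact absurd (Finset.mem_range.2 (Nat.succ_pos d)) h

private theorem hevP_Cmul {R : Type*} [CommRing R] (d : ℕ) (c : R) (f : R[X]) (x z : R) :
    hev d (C c * f) x z = c * hev d f x z := by
  unfold hev
  rw [Finset.mul_sum]
  refine Finset.sum_congr rfl fun i _ => ?_
  rw [coeff_C_mul]; ring

private theorem hevP_mul {R : Type*} [CommRing R] (d : ℕ) (r : R) (q : R[X])
    (hq : q.natDegree ≤ d) (x z : R) :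
    hev (d + 1) ((X - C r) * q) x z = (x - r * z) * hev d q x z := by
  have e1 : hev (d + 1) (X * q) x z = x * hev d q x z := by
    unfold hev
    rw [Finset.sum_range_succ', Finset.mul_sum]
    rw [mul_coeff_zero, coeff_X_zero, zero_mul, zero_mul, zero_mul, add_zero]
    refine Finset.sum_congr rfl fun i hi => ?_
    rw [coeff_X_mul]
    have : d + 1 - (i + 1) = d - i := by omega
    rw [this]; ring
  have e2 : hev (d + 1) (C (-r) * q) x z = -r * z * hev d q x z := by
    rw [hevP_Cmul]
    unfold hev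
    rw [Finset.sum_range_succ, coeff_eq_zero_of_natDegree_lt (Nat.lt_succ_of_le hq), zero_mul,
      zero_mul, add_zero, mul_assoc, Finset.mul_sum (a := z)]
    congr 1
    refine Finset.sum_congr rfl fun i hi => ?_
    have hi' : i < d + 1 := Finset.mem_range.1 hi
    have : d + 1 - i = (d - i) + 1 := by omega
    rw [this, pow_succ]; ring
  have e3 : (X - C r) * q = X * q + C (-r) * q := by
    rw [C_neg]; ring
  rw [e3, hevP_add, e1, e2]; ring

private theorem hevP_reflect {R : Type*} [CommRing R] (d : ℕ) (f : R[X]) (x z : R) :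
    hev d (f.reflect d) z x = hev d f x z := by
  unfold hev
  rw [← Finset.sum_range_reflect]
  refine Finset.sum_congr rfl fun i hi => ?_
  have hi' : i < d + 1 := Finset.mem_range.1 hi
  have e : d + 1 - 1 - i = d - i := by omega
  rw [e, coeff_reflect, revAt_le (by omega)]
  have e2 : d - (d - i) = i := by omega
  rw [e2]; ring

private theorem peelP_core {F : Type*} [Field F] (w : AbsoluteValue F ℝ)
    (hw : IsNonarchimedean w) (d : ℕ) (x0 z0 : F) (hz : w z0 = 1) (hx : w x0 ≤ 1)
    (f : F[X]) (hf : ∀ i, w (f.coeff i) ≤ 1) (hd : f.natDegree ≤ d + 1) :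
    ∃ h : F[X], (∀ i, w (h.coeff i) ≤ 1) ∧ h.natDegree ≤ d ∧
        ∀ x z, hev (d + 1) f x z = hev (d + 1) f x0 z0 * (z / z0) ^ (d + 1) +
          (x * z0 - z * x0) * hev d h x z := by
  have hz0 : z0 ≠ 0 := by
    rintro rfl
    rw [AbsoluteValue.map_zero] at hz
    exact zero_ne_one hz
  set r : F := x0 / z0 with hr
  have hwr : w r ≤ 1 := by rw [hr, map_div₀, hz, div_one]; exact hx
  obtain ⟨q, hq⟩ : ∃ q : F[X], f - C (f.eval r) = (X - C r) * q := by
    have : (X - C r) ∣ f - C (f.eval r) := by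
      rw [dvd_iff_isRoot]; simp
    exact this
  have hf1 : f = C (f.eval r) + (X - C r) * q := by rw [← hq]; ring
  have hqd : q.natDegree ≤ d := by
    by_cases hq0 : q = 0
    · rw [hq0]; simp
    have h1 : ((X - C r) * q).natDegree = 1 + q.natDegree := by
      rw [natDegree_mul (X_sub_C_ne_zero r) hq0, natDegree_X_sub_C]
    have h2 : (f - C (f.eval r)).natDegree ≤ d + 1 := by
      refine (natDegree_sub_le _ _).trans ?_
      rw [natDegree_C]; omega
    rw [hq, h1] at h2; omega
  have hrec : ∀ i, q.coeff i = f.coeff (i + 1) + r * q.coeff (i + 1) := by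
    intro i
    have h1 := congrArg (fun g : F[X] => g.coeff (i + 1)) hq
    simp only [coeff_sub, coeff_C_succ, sub_zero, sub_mul, coeff_X_mul, coeff_C_mul] at h1
    rw [h1]; ring
  have hqi : ∀ k i, d + 1 ≤ i + k → w (q.coeff i) ≤ 1 := by
    intro k
    induction k with
    | zero =>
      intro i hi
      rw [coeff_eq_zero_of_natDegree_lt (by omega), AbsoluteValue.map_zero]
      exact zero_le_one
    | succ k ih =>
      intro i hi
      rw [hrec]
      refine (hw _ _).trans (max_le (hf _) ?_)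
      rw [AbsoluteValue.map_mul]
      exact mul_le_one₀ hwr (w.nonneg _) (ih (i + 1) (by omega))
  refine ⟨C z0⁻¹ * q, fun i => ?_, ?_, fun x z => ?_⟩
  · rw [coeff_C_mul, AbsoluteValue.map_mul, map_inv₀, hz, inv_one, one_mul]
    exact hqi (d + 1) i (by omega)
  · exact (natDegree_C_mul_le _ _).trans hqd
  · have h1 : ∀ x z, hev (d + 1) f x z = f.eval r * z ^ (d + 1) + (x - r * z) * hev d q x z := by
      intro x z
      conv_lhs => rw [hf1]
      rw [hevP_add, hevP_C, hevP_mul d r q hqd]
    rw [h1 x z, h1 x0 z0, hevP_Cmul]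
    have e1 : x0 - r * z0 = 0 := by rw [hr]; field_simp; ring
    rw [e1, zero_mul, add_zero, div_pow]
    have e2 : z0 ^ (d + 1) ≠ 0 := pow_ne_zero _ hz0
    have e3 : f.eval r * z0 ^ (d + 1) * (z ^ (d + 1) / z0 ^ (d + 1)) = f.eval r * z ^ (d + 1) := by
      field_simp
    have e4 : (x * z0 - z * x0) * (z0⁻¹ * hev d q x z) = (x - r * z) * hev d q x z := by
      rw [hr]; field_simp
    rw [e3, e4]

theorem peel_one {F : Type*} [Field F] (w : AbsoluteValue F ℝ) (hw : IsNonarchimedean w) (d : ℕ)
    (x0 z0 : F) (h0 : max (w x0) (w z0) = 1) :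
    ∃ e : F → F → F, ∀ f : F[X], (∀ i, w (f.coeff i) ≤ 1) → f.natDegree ≤ d + 1 →
      ∃ h : F[X], (∀ i, w (h.coeff i) ≤ 1) ∧ h.natDegree ≤ d ∧
        ∀ x z, hev (d + 1) f x z = hev (d + 1) f x0 z0 * e x z +
          (x * z0 - z * x0) * hev d h x z := by
  have hx1 : w x0 ≤ 1 := h0 ▸ le_max_left _ _
  have hz1 : w z0 ≤ 1 := h0 ▸ le_max_right _ _
  rcases max_choice (w x0) (w z0) with hm | hm
  · have hx : w x0 = 1 := by rw [← hm, h0]
    refine ⟨fun x _ => (x / x0) ^ (d + 1), fun f hf hd => ?_⟩
    have hg : ∀ i, w ((f.reflect (d + 1)).coeff i) ≤ 1 := fun i => by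
      rw [coeff_reflect]; exact hf _
    have hgd : (f.reflect (d + 1)).natDegree ≤ d + 1 := by
      rw [natDegree_le_iff_coeff_eq_zero]
      intro i hi
      rw [coeff_reflect, revAt_eq_self_of_lt hi]
      exact coeff_eq_zero_of_natDegree_lt (by omega)
    obtain ⟨h, h1, h2, h3⟩ := peelP_core w hw d z0 x0 hx hz1 _ hg hgd
    refine ⟨-(h.reflect d), fun i => ?_, ?_, fun x z => ?_⟩
    · rw [coeff_neg, AbsoluteValue.map_neg, coeff_reflect]; exact h1 _
    · rw [natDegree_neg, natDegree_le_iff_coeff_eq_zero]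
      intro i hi
      rw [coeff_reflect, revAt_eq_self_of_lt hi]
      exact coeff_eq_zero_of_natDegree_lt (by omega)
    · have h4 := h3 z x
      rw [hevP_reflect, hevP_reflect] at h4
      rw [h4]
      have h5 : hev d (-(h.reflect d)) x z = -hev d h z x := by
        have h6 : -(h.reflect d) = C (-1) * h.reflect d := by rw [C_neg, C_1]; ring
        rw [h6, hevP_Cmul, hevP_reflect]; ring
      rw [h5]; ring
  · have hz : w z0 = 1 := by rw [← hm, h0]
    exact ⟨fun _ z => (z / z0) ^ (d + 1), fun f hf hd =>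
      peelP_core w hw d x0 z0 hz hx1 f hf hd⟩

end LEH
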