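/-
LH/Pel (M-L)  MP_022f22_nt, Lehmer project, table modleh. Paper proof: /team-store/lehmer_proof.md
Determinants of integral forms at normalised points are divisible by the Vandermonde product.
Claim: n <= d+1, f_i integral with natDegree <= d, (x_j, z_j) normalised: w(det (hev d f_i x_j z_j)) <= prod_{i<j} w(x_i z_j - x_j z_i).
Induction on n, for all d and f.  n = 0: det = 1 <= 1.  n = 1: w(hev) <= 1 (integral form at integral point), product empty.
Step n+1 >= 2, so d >= n >= 1, d = d'+1.  Apply peel_one to (x_0,z_0): f_i(u_j) = f_i(u_0) e(u_j) + (x_j z_0 - z_j x_0) h_i(u_j), for j >= 1.  Subtract e(u_j) times column 0 from column j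
(Matrix.det_updateCol_... or: det of the matrix with columns j >= 1 replaced; Matrix.det_eq_of_forall_col_eq_smul_add_const), so det = det [ f_i(u_0) | (x_j z_0 - z_j x_0) h_i(u_j) ]; take out the scalars
(Matrix.det_mul_row / column): det = prod_{j>=1}(x_j z_0 - z_j x_0) * det [f_i(u_0) | h_i(u_j)].  Expand along column 0 (Matrix.det_succ_column_zero): w(..) <= max_i w(f_i(u_0)) w(minor_i) and minor_i is a
determinant of the same kind of size n for the forms h_{i'} (i' != i) of degree d' with n <= d'+1: <= prod_{1<=i<j} w(x_i z_j - x_j z_i).  (Fin.prod_univ_succ, Ioi.)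
-/
import Mathlib
import Pool.Agent.Work.MP_022f22_nt.LH.Defs
import Pool.Agent.Work.MP_022f22_nt.LH.Pl1

open NumberField IsDedekindDomain Polynomial Height Filter Topology

namespace LEH

private theorem hevL_le {F : Type*} [Field F] (w : AbsoluteValue F ℝ) (hw : IsNonarchimedean w)
    (d : ℕ) (f : F[X]) (hf : ∀ k, w (f.coeff k) ≤ 1) (x z : F) (h : max (w x) (w z) = 1) :
    w (hev d f x z) ≤ 1 := by
  have hx1 : w x ≤ 1 := h ▸ le_max_left _ _
  have hz1 : w z ≤ 1 := h ▸ le_max_right _ _
  unfold hev
  obtain ⟨i, -, hi⟩ := hw.finset_image_add_of_nonempty (t := Finset.range (d + 1))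
    (fun i => f.coeff i * x ^ i * z ^ (d - i)) ⟨0, Finset.mem_range.2 (Nat.succ_pos d)⟩
  refine hi.trans ?_
  rw [AbsoluteValue.map_mul, AbsoluteValue.map_mul, AbsoluteValue.map_pow, AbsoluteValue.map_pow]
  exact mul_le_one₀ (mul_le_one₀ (hf i) (pow_nonneg (w.nonneg _) _) (pow_le_one₀ (w.nonneg _) hx1))
    (pow_nonneg (w.nonneg _) _) (pow_le_one₀ (w.nonneg _) hz1)

theorem det_forms {F : Type*} [Field F] (w : AbsoluteValue F ℝ) (hw : IsNonarchimedean w)
    (n d : ℕ) (hn : n ≤ d + 1) (f : Fin n → F[X]) (hf : ∀ i k, w ((f i).coeff k) ≤ 1)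
    (hd : ∀ i, (f i).natDegree ≤ d) (x z : Fin n → F) (hxz : ∀ j, max (w (x j)) (w (z j)) = 1) :
    w (Matrix.of fun i j => hev d (f i) (x j) (z j)).det ≤
      ∏ i : Fin n, ∏ j ∈ Finset.Ioi i, w (x i * z j - x j * z i) := by
  induction n generalizing d with
  | zero => simp
  | succ n ih =>
    rcases Nat.eq_zero_or_pos n with hn0 | hn0
    · subst hn0
      have h1 : (Matrix.of fun i j => hev d (f i) (x j) (z j)).det = hev d (f 0) (x 0) (z 0) := by
        rw [Matrix.det_fin_one]; rfl
      rw [h1]
      refine (hevL_le w hw d (f 0) (hf 0) _ _ (hxz 0)).trans (le_of_eq ?_)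
      symm
      refine Finset.prod_eq_one fun i _ => ?_
      refine Finset.prod_eq_one fun j hj => ?_
      rw [Finset.mem_Ioi] at hj
      have h1 : (i : ℕ) < j := hj
      have h2 := j.2
      omega
    obtain ⟨d', rfl⟩ : ∃ d', d = d' + 1 := ⟨d - 1, by omega⟩
    obtain ⟨e, he⟩ := peel_one w hw d' (x 0) (z 0) (hxz 0)
    choose h hh1 hh2 hh3 using fun i => he (f i) (hf i) (hd i)
    set N : Matrix (Fin (n + 1)) (Fin (n + 1)) F := Matrix.of fun i j =>
      if j = 0 then hev (d' + 1) (f i) (x 0) (z 0) else hev d' (h i) (x j) (z j) with hN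
    set v : Fin (n + 1) → F := fun j => if j = 0 then 1 else x j * z 0 - z j * x 0 with hv
    have hdet : (Matrix.of fun i j => hev (d' + 1) (f i) (x j) (z j)).det =
        (Matrix.of fun i j => v j * N i j).det := by
      rw [← Matrix.det_transpose, ← Matrix.det_transpose (Matrix.of fun i j => v j * N i j)]
      refine Matrix.det_eq_of_forall_row_eq_smul_add_const
        (fun j => if j = 0 then 0 else e (x j) (z j)) 0 (by simp) ?_
      intro j i
      simp only [Matrix.transpose_apply, Matrix.of_apply, hN, hv]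
      by_cases hj : j = 0
      · subst hj; simp
      · simp only [hj, if_false, if_true]
        rw [hh3 i (x j) (z j)]; ring
    rw [hdet, Matrix.det_mul_row, AbsoluteValue.map_mul, map_prod]
    have hprod : ∏ i : Fin (n + 1), w (v i) = ∏ j ∈ Finset.Ioi (0 : Fin (n + 1)),
        w (x 0 * z j - x j * z 0) := by
      rw [Fin.prod_univ_succ, Fin.prod_Ioi_zero]
      have h0 : w (v 0) = 1 := by simp [hv]
      rw [h0, one_mul]
      refine Finset.prod_congr rfl fun j _ => ?_
      have h1 : v j.succ = -(x 0 * z j.succ - x j.succ * z 0) := by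
        simp only [hv, Fin.succ_ne_zero, if_false]; ring
      rw [h1, AbsoluteValue.map_neg]
    rw [hprod, Fin.prod_univ_succ (fun i : Fin (n + 1) => ∏ j ∈ Finset.Ioi i,
      w (x i * z j - x j * z i))]
    refine mul_le_mul_of_nonneg_left ?_ (Finset.prod_nonneg fun _ _ => w.nonneg _)
    rw [Matrix.det_succ_column_zero]
    obtain ⟨i, -, hi⟩ := hw.finset_image_add_of_nonempty (t := Finset.univ)
      (fun i : Fin (n + 1) => (-1) ^ (i : ℕ) * N i 0 * (N.submatrix i.succAbove Fin.succ).det)
      Finset.univ_nonempty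
    refine hi.trans ?_
    rw [AbsoluteValue.map_mul, AbsoluteValue.map_mul, AbsoluteValue.map_pow,
      AbsoluteValue.map_neg, AbsoluteValue.map_one, one_pow, one_mul]
    have h1 : w (N i 0) ≤ 1 := by
      have : N i 0 = hev (d' + 1) (f i) (x 0) (z 0) := by simp [hN]
      rw [this]
      exact hevL_le w hw _ _ (hf i) _ _ (hxz 0)
    have h2 := ih d' (by omega) (fun a => h (i.succAbove a)) (fun a k => hh1 _ k)
      (fun a => hh2 _) (fun j => x j.succ) (fun j => z j.succ) (fun j => hxz j.succ)
    have h3 : N.submatrix i.succAbove Fin.succ =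
        Matrix.of fun a b => hev d' (h (i.succAbove a)) (x (Fin.succ b)) (z (Fin.succ b)) := by
      ext a b
      simp [hN, Fin.succ_ne_zero]
    rw [h3]
    refine (mul_le_mul_of_nonneg_right h1 (w.nonneg _)).trans ?_
    rw [one_mul]
    refine h2.trans (le_of_eq ?_)
    refine Finset.prod_congr rfl fun a _ => ?_
    rw [Fin.prod_Ioi_succ]

end LEH
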