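/-
LH/Nad (S-M)  MP_022f22_nt, Lehmer project, table modleh. Paper proof: /team-store/lehmer_proof.md
Scaling of det_forms.  beta_j in F, mu_j = max (w beta_j) 1.  lambda_j = beta_j if 1 < w beta_j, else 1: w lambda_j = mu_j; x_j = beta_j/lambda_j, z_j = 1/lambda_j is normalised.
f_i.eval beta_j = hev d f_i beta_j 1 = lambda_j^d * hev d f_i x_j z_j (natDegree f_i <= d; homogeneity of hev).  det scales by prod lambda_j^d (Matrix.det_mul_row).
w(x_i z_j - x_j z_i) = w(beta_i - beta_j)/(mu_i mu_j) = cd w beta_i beta_j.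
-/
import Mathlib
import Pool.Agent.Work.MP_022f22_nt.LH.Defs
import Pool.Agent.Work.MP_022f22_nt.LH.Pel

open NumberField IsDedekindDomain Polynomial Height Filter Topology

namespace LEH

private theorem nad_lam {F : Type*} [Field F] (w : AbsoluteValue F ℝ) (b : F) :
    ∃ l : F, w l = max (w b) 1 := by
  by_cases h : 1 < w b
  · exact ⟨b, (max_eq_left h.le).symm⟩
  · refine ⟨1, ?_⟩
    rw [map_one, max_eq_right (not_lt.1 h)]

private theorem nad_hev {F : Type*} [Field F] (d : ℕ) (f : F[X]) (hd : f.natDegree ≤ d) (b l : F)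
    (hl : l ≠ 0) : f.eval b = l ^ d * hev d f (b / l) (1 / l) := by
  rw [Polynomial.eval_eq_sum_range' (Nat.lt_succ_of_le hd), hev, Finset.mul_sum]
  refine Finset.sum_congr rfl fun i hi => ?_
  have hi' : i ≤ d := Nat.lt_succ_iff.1 (Finset.mem_range.1 hi)
  have e : l ^ d = l ^ i * l ^ (d - i) := by rw [← pow_add, Nat.add_sub_cancel' hi']
  rw [e, div_pow, div_pow, one_pow]
  field_simp

theorem det_points {F : Type*} [Field F] (w : AbsoluteValue F ℝ) (hw : IsNonarchimedean w)
    (n d : ℕ) (hn : n ≤ d + 1) (f : Fin n → F[X]) (hf : ∀ i k, w ((f i).coeff k) ≤ 1)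
    (hd : ∀ i, (f i).natDegree ≤ d) (β : Fin n → F) :
    w (Matrix.of fun i j => (f i).eval (β j)).det ≤
      (∏ i : Fin n, ∏ j ∈ Finset.Ioi i, cd w (β i) (β j)) * ∏ j, (max (w (β j)) 1) ^ d := by
  choose l hl using fun j => nad_lam w (β j)
  have hmpos : ∀ j, 0 < max (w (β j)) 1 := fun j => lt_of_lt_of_le one_pos (le_max_right _ _)
  have hl0 : ∀ j, l j ≠ 0 := by
    intro j h
    have := hl j
    rw [h, map_zero] at this
    exact (hmpos j).ne this
  have hxz : ∀ j, max (w (β j / l j)) (w (1 / l j)) = 1 := by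
    intro j
    rw [map_div₀, map_div₀, map_one, hl j, max_div_div_right (hmpos j).le, div_self (hmpos j).ne']
  have hmat : (Matrix.of fun i j => (f i).eval (β j)) =
      Matrix.of fun i j => (fun j => l j ^ d) j *
        (Matrix.of fun i j => hev d (f i) (β j / l j) (1 / l j)) i j := by
    ext i j
    exact nad_hev d (f i) (hd i) (β j) (l j) (hl0 j)
  have key := det_forms w hw n d hn f hf hd (fun j => β j / l j) (fun j => 1 / l j) hxz
  have hcd : ∀ i j, w (β i / l i * (1 / l j) - β j / l j * (1 / l i)) = cd w (β i) (β j) := by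
    intro i j
    have hi := hl0 i
    have hj := hl0 j
    have e : β i / l i * (1 / l j) - β j / l j * (1 / l i) = (β i - β j) / (l i * l j) := by
      field_simp
    rw [e, map_div₀, map_mul, hl i, hl j, cd]
  simp only [hcd] at key
  rw [hmat, Matrix.det_mul_row, map_mul, map_prod, mul_comm]
  have hp : ∏ j, w (l j ^ d) = ∏ j, (max (w (β j)) 1) ^ d :=
    Finset.prod_congr rfl fun j _ => by rw [map_pow, hl j]
  rw [hp]
  exact mul_le_mul_of_nonneg_right key (Finset.prod_nonneg fun j _ => pow_nonneg (hmpos j).le _)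

end LEH
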