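/-
LH/Pfi (M)  MP_022f22_nt, Lehmer project, table modleh. Paper proof: /team-store/lehmer_proof.md
Product formula inequality.  M != 0 in the number field L, finitely many nonzero vectors y_s in L^2, e natural, c > 0, V finite set of finite places with numbers eps_w > 0;
 v M <= c prod_s (max (v (y_s 0))(v (y_s 1)))^e at infinite v,  <= prod_s (..)^e at finite places outside V,  <= eps_w prod_s (..)^e for w in V.   Then
 0 <= [L:Q] log c + sum_{w in V} log eps_w + e sum_s logHeight (y_s).
Proof.  Product formula NumberField.prod_abs_eq_one: (prod_v (v M)^mult) * (finprod_w w M) = 1, and NumberField.mulHeight_eq for each y_s (iSup over Fin 2 is the max; logHeight = log mulHeight).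
Multiply the local inequalities (Finset.prod_le_prod for infinite places, sum of mult = [L:Q]: NumberField.InfinitePlace.sum_mult_eq; finprod_le_finprod [Mathlib, used in Height/MvPolynomial.lean]
for finite places with finite multiplicative supports: w M (FinitePlace.hasFiniteMulSupport), the maxima (see hasFiniteMulSupport lemmas in Height/Basic.lean: fun_prop), and the function eps_w on V, 1 outside).
1 <= c^[L:Q] * prod_{w in V} eps_w * prod_s mulHeight(y_s)^e; take logs.
-/
import Mathlib
import Pool.Agent.Work.MP_022f22_nt.LH.Defs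

open NumberField IsDedekindDomain Polynomial Height Filter Topology

namespace LEH

private lemma max_pos_aux {L : Type*} [Field L] (a : AbsoluteValue L ℝ) {y : Fin 2 → L}
    (hy : y ≠ 0) : 0 < max (a (y 0)) (a (y 1)) := by
  by_contra h
  rw [not_lt, max_le_iff] at h
  have h0 : y 0 = 0 := a.eq_zero.1 (le_antisymm h.1 (a.nonneg _))
  have h1 : y 1 = 0 := a.eq_zero.1 (le_antisymm h.2 (a.nonneg _))
  apply hy
  funext i
  fin_cases i
  · exact h0
  · exact h1

private lemma iSup_fin_two (f : Fin 2 → ℝ) : ⨆ i, f i = max (f 0) (f 1) := by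
  apply le_antisymm
  · apply ciSup_le
    intro i
    fin_cases i
    · exact le_max_left _ _
    · exact le_max_right _ _
  · exact max_le (Finite.le_ciSup_of_le 0 le_rfl) (Finite.le_ciSup_of_le 1 le_rfl)

private lemma finite_max {L : Type*} [Field L] [NumberField L] (y : Fin 2 → L) (hy : y ≠ 0) :
    {w : FinitePlace L | max (w (y 0)) (w (y 1)) ≠ 1}.Finite := by
  by_cases h0 : y 0 = 0
  · by_cases h1 : y 1 = 0
    · exfalso
      apply hy
      funext i
      fin_cases i
      · exact h0
      · exact h1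
    · refine (FinitePlace.hasFiniteMulSupport h1).subset ?_
      intro w hw hw1
      apply hw
      have : w (y 0) = 0 := by rw [h0, map_zero]
      rw [this]
      have hw1' : w (y 1) = 1 := hw1
      rw [hw1']
      exact max_eq_right zero_le_one
  · by_cases h1 : y 1 = 0
    · refine (FinitePlace.hasFiniteMulSupport h0).subset ?_
      intro w hw hw1
      apply hw
      have : w (y 1) = 0 := by rw [h1, map_zero]
      rw [this]
      have hw1' : w (y 0) = 1 := hw1
      rw [hw1']
      exact max_eq_left zero_le_one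
    · refine ((FinitePlace.hasFiniteMulSupport h0).union (FinitePlace.hasFiniteMulSupport h1)).subset ?_
      intro w hw
      by_contra hcon
      rw [Set.mem_union, not_or] at hcon
      apply hw
      have a0 : w (y 0) = 1 := by
        by_contra h
        exact hcon.1 h
      have a1 : w (y 1) = 1 := by
        by_contra h
        exact hcon.2 h
      rw [a0, a1, max_self]

private lemma logHeight_sum {L : Type*} [Field L] [NumberField L] (y : Fin 2 → L) (hy : y ≠ 0)
    (T : Finset (FinitePlace L)) (hT : ∀ w, w ∉ T → max (w (y 0)) (w (y 1)) = 1) :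
    logHeight y = ∑ u : InfinitePlace L, (u.mult : ℝ) * Real.log (max (u (y 0)) (u (y 1))) +
      ∑ w ∈ T, Real.log (max (w (y 0)) (w (y 1))) := by
  have hi : ∀ u : InfinitePlace L, 0 < max (u (y 0)) (u (y 1)) := fun u => max_pos_aux u.val hy
  have hf : ∀ w : FinitePlace L, 0 < max (w (y 0)) (w (y 1)) := fun w => max_pos_aux w.val hy
  rw [logHeight_eq_log_mulHeight, NumberField.mulHeight_eq hy]
  have e1 : ∀ u : InfinitePlace L, (⨆ i, u (y i)) = max (u (y 0)) (u (y 1)) :=
    fun u => iSup_fin_two (fun i => u (y i))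
  have e2 : ∀ w : FinitePlace L, (⨆ i, w (y i)) = max (w (y 0)) (w (y 1)) :=
    fun w => iSup_fin_two (fun i => w (y i))
  simp only [e1, e2]
  have e3 : ∏ᶠ w : FinitePlace L, max (w (y 0)) (w (y 1)) = ∏ w ∈ T, max (w (y 0)) (w (y 1)) := by
    apply finprod_eq_prod_of_mulSupport_subset
    intro w hw
    by_contra h
    exact hw (hT w (fun h' => h (Finset.mem_coe.2 h')))
  rw [e3, Real.log_mul, Real.log_prod, Real.log_prod]
  · congr 1
    apply Finset.sum_congr rfl
    intro u _
    rw [Real.log_pow]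
  · intro w _
    exact (hf w).ne'
  · intro u _
    exact (pow_pos (hi u) _).ne'
  · exact (Finset.prod_pos fun u _ => pow_pos (hi u) _).ne'
  · exact (Finset.prod_pos fun w _ => hf w).ne'

private lemma prod_formula_log {L : Type*} [Field L] [NumberField L] (M : L) (hM : M ≠ 0)
    (T : Finset (FinitePlace L)) (hT : ∀ w, w ∉ T → w M = 1) :
    ∑ u : InfinitePlace L, (u.mult : ℝ) * Real.log (u M) + ∑ w ∈ T, Real.log (w M) = 0 := by
  have hi : ∀ u : InfinitePlace L, 0 < u M := fun u => u.val.pos hM
  have hf : ∀ w : FinitePlace L, 0 < w M := fun w => w.val.pos hM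
  have h := NumberField.prod_abs_eq_one hM
  have e3 : ∏ᶠ w : FinitePlace L, w M = ∏ w ∈ T, w M := by
    apply finprod_eq_prod_of_mulSupport_subset
    intro w hw
    by_contra h
    exact hw (hT w (fun h' => h (Finset.mem_coe.2 h')))
  rw [e3] at h
  have h2 := congrArg Real.log h
  rw [Real.log_one, Real.log_mul, Real.log_prod, Real.log_prod] at h2
  · rw [← h2]
    congr 1
    apply Finset.sum_congr rfl
    intro u _
    rw [Real.log_pow]
  · intro w _
    exact (hf w).ne'
  · intro u _
    exact (pow_pos (hi u) _).ne'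
  · exact (Finset.prod_pos fun u _ => pow_pos (hi u) _).ne'
  · exact (Finset.prod_pos fun w _ => hf w).ne'

private lemma log_prod_pow {S : Type*} [Fintype S] (f : S → ℝ) (hf : ∀ s, 0 < f s) (e : ℕ) :
    Real.log (∏ s, f s ^ e) = (e : ℝ) * ∑ s, Real.log (f s) := by
  rw [Real.log_prod, Finset.mul_sum]
  · apply Finset.sum_congr rfl
    intro s _
    rw [Real.log_pow]
  · intro s _
    exact (pow_pos (hf s) _).ne'

theorem prod_ineq {L : Type*} [Field L] [NumberField L] {S : Type*} [Fintype S]
    (y : S → Fin 2 → L) (hy : ∀ s, y s ≠ 0) (e : ℕ) (M : L) (hM : M ≠ 0) (c : ℝ) (hc : 0 < c)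
    (V : Finset (FinitePlace L)) (ε : FinitePlace L → ℝ) (hε : ∀ w ∈ V, 0 < ε w)
    (hinf : ∀ u : InfinitePlace L, u M ≤ c * ∏ s, (max (u (y s 0)) (u (y s 1))) ^ e)
    (hfin : ∀ w : FinitePlace L, w ∉ V → w M ≤ ∏ s, (max (w (y s 0)) (w (y s 1))) ^ e)
    (hV : ∀ w ∈ V, w M ≤ ε w * ∏ s, (max (w (y s 0)) (w (y s 1))) ^ e) :
    0 ≤ (Module.finrank ℚ L : ℝ) * Real.log c + ∑ w ∈ V, Real.log (ε w) +
      (e : ℝ) * ∑ s, logHeight (y s) := by
  classical
  have hpi : ∀ (u : InfinitePlace L) (s : S), 0 < max (u (y s 0)) (u (y s 1)) :=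
    fun u s => max_pos_aux u.val (hy s)
  have hpf : ∀ (w : FinitePlace L) (s : S), 0 < max (w (y s 0)) (w (y s 1)) :=
    fun w s => max_pos_aux w.val (hy s)
  have hMi : ∀ u : InfinitePlace L, 0 < u M := fun u => u.val.pos hM
  have hMf : ∀ w : FinitePlace L, 0 < w M := fun w => w.val.pos hM
  have hfinM : {w : FinitePlace L | w M ≠ 1}.Finite := FinitePlace.hasFiniteMulSupport hM
  set T : Finset (FinitePlace L) :=
    V ∪ hfinM.toFinset ∪ Finset.univ.biUnion (fun s => (finite_max (y s) (hy s)).toFinset) with hTdef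
  have hVT : V ⊆ T := by
    intro w hw
    rw [hTdef, Finset.mem_union, Finset.mem_union]
    exact Or.inl (Or.inl hw)
  have hTM : ∀ w, w ∉ T → w M = 1 := by
    intro w hw
    by_contra h
    apply hw
    rw [hTdef, Finset.mem_union, Finset.mem_union]
    exact Or.inl (Or.inr (by simpa using h))
  have hTy : ∀ s w, w ∉ T → max (w (y s 0)) (w (y s 1)) = 1 := by
    intro s w hw
    by_contra h
    apply hw
    rw [hTdef, Finset.mem_union, Finset.mem_biUnion]
    exact Or.inr ⟨s, Finset.mem_univ _, (Set.Finite.mem_toFinset _).2 h⟩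
  have key := prod_formula_log M hM T hTM
  have hH : ∀ s, logHeight (y s) =
      ∑ u : InfinitePlace L, (u.mult : ℝ) * Real.log (max (u (y s 0)) (u (y s 1))) +
      ∑ w ∈ T, Real.log (max (w (y s 0)) (w (y s 1))) := fun s => logHeight_sum (y s) (hy s) T (hTy s)
  have A : ∑ u : InfinitePlace L, (u.mult : ℝ) * Real.log (u M) ≤
      (Module.finrank ℚ L : ℝ) * Real.log c + (e : ℝ) *
        ∑ s, ∑ u : InfinitePlace L, (u.mult : ℝ) * Real.log (max (u (y s 0)) (u (y s 1))) := by
    have h1 : ∀ u : InfinitePlace L, (u.mult : ℝ) * Real.log (u M) ≤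
        (u.mult : ℝ) * Real.log c + (e : ℝ) *
          ∑ s, (u.mult : ℝ) * Real.log (max (u (y s 0)) (u (y s 1))) := by
      intro u
      have h2 : Real.log (u M) ≤ Real.log c + (e : ℝ) * ∑ s, Real.log (max (u (y s 0)) (u (y s 1))) := by
        rw [← log_prod_pow (fun s => max (u (y s 0)) (u (y s 1))) (hpi u) e, ← Real.log_mul hc.ne'
          (Finset.prod_pos fun s _ => pow_pos (hpi u s) _).ne']
        exact Real.log_le_log (hMi u) (hinf u)
      have h3 := mul_le_mul_of_nonneg_left h2 (Nat.cast_nonneg (α := ℝ) u.mult)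
      have h4 : ∑ s, (u.mult : ℝ) * Real.log (max (u (y s 0)) (u (y s 1))) =
          (u.mult : ℝ) * ∑ s, Real.log (max (u (y s 0)) (u (y s 1))) := by
        rw [Finset.mul_sum]
      rw [h4]
      calc (u.mult : ℝ) * Real.log (u M) ≤ _ := h3
        _ = _ := by ring
    have h5 := Finset.sum_le_sum (fun u (_ : u ∈ (Finset.univ : Finset (InfinitePlace L))) => h1 u)
    refine h5.trans (le_of_eq ?_)
    rw [Finset.sum_add_distrib, ← Finset.sum_mul, ← Finset.mul_sum, Finset.sum_comm]
    congr 2
    rw [← InfinitePlace.sum_mult_eq (K := L)]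
    push_cast
    rfl
  have B : ∑ w ∈ T, Real.log (w M) ≤ ∑ w ∈ V, Real.log (ε w) + (e : ℝ) *
        ∑ s, ∑ w ∈ T, Real.log (max (w (y s 0)) (w (y s 1))) := by
    have h1 : ∀ w ∈ T, Real.log (w M) ≤ (if w ∈ V then Real.log (ε w) else 0) + (e : ℝ) *
          ∑ s, Real.log (max (w (y s 0)) (w (y s 1))) := by
      intro w _
      by_cases hwV : w ∈ V
      · rw [if_pos hwV, ← log_prod_pow (fun s => max (w (y s 0)) (w (y s 1))) (hpf w) e,
          ← Real.log_mul (hε w hwV).ne' (Finset.prod_pos fun s _ => pow_pos (hpf w s) _).ne']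
        exact Real.log_le_log (hMf w) (hV w hwV)
      · rw [if_neg hwV, zero_add, ← log_prod_pow (fun s => max (w (y s 0)) (w (y s 1))) (hpf w) e]
        exact Real.log_le_log (hMf w) (hfin w hwV)
    refine (Finset.sum_le_sum h1).trans (le_of_eq ?_)
    rw [Finset.sum_add_distrib, ← Finset.mul_sum, Finset.sum_comm, ← Finset.sum_filter]
    congr 2
    ext w
    simp only [Finset.mem_filter]
    exact ⟨fun h => h.2, fun h => ⟨hVT h, h⟩⟩
  have C : (e : ℝ) * ∑ s, logHeight (y s) =
      (e : ℝ) * ∑ s, ∑ u : InfinitePlace L, (u.mult : ℝ) * Real.log (max (u (y s 0)) (u (y s 1))) +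
      (e : ℝ) * ∑ s, ∑ w ∈ T, Real.log (max (w (y s 0)) (w (y s 1))) := by
    rw [← mul_add, ← Finset.sum_add_distrib]
    congr 1
    exact Finset.sum_congr rfl fun s _ => hH s
  rw [C]
  linarith

end LEH
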