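/-
LH/Raw (M-L)  MP_022f22_nt, Lehmer project, table modleh. Paper proof: /team-store/lehmer_proof.md
Raw energy inequality over one number field L.  W over L, Δ != 0, beta_j (j : Fin n) distinct, n <= 4^k, V finite set of finite places of good reduction.
(A_l,B_l) = dupP W l; f_I = prod_{l<k} A_l^(I l) B_l^(3 - I l).  f_indep + f_deg + exists_minor (card (Fin k -> Fin 4) = 4^k) give I with M = det(f_{I i}(beta_j)) != 0.
S = Fin n x Fin k, y (j,l) = ![A_l(beta_j), B_l(beta_j)] = ![(dupIt W l beta_j).1, (dupIt W l beta_j).2] (dupP_eval), nonzero (dupIt_ne), e = 3.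
|f_I(beta_j)|_u <= prod_l max(|A_l|,|B_l|)^3 =: m_j for every absolute value (x^i y^(3-i) <= max^3).
infinite: det_arch, c = n!.  finite outside V: det_nonarch.  w in V: det_points with d = 4^k - 1 (f_I integral by dupP_int and products), n <= d+1:
 w M <= prod_{i<j} cd * prod_j max(w beta_j)1^(4^k-1), and prod_l max(w A_l, w B_l)^3 = prod_l (max (w beta_j) 1)^(3*4^l) = max^(4^k-1) by iterating dup_good (dupIt: max(w A_l(beta))(w B_l(beta)) =
 (max (w beta) 1)^(4^l)).  eps_w = prod_{i<j} cd w beta_i beta_j > 0 (distinct points, cd_pos).  Apply prod_ineq.  log eps_w = sum of logs.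
-/
import Mathlib
import Pool.Agent.Work.MP_022f22_nt.LH.Defs
import Pool.Agent.Work.MP_022f22_nt.LH.Cdb
import Pool.Agent.Work.MP_022f22_nt.LH.Dpi
import Pool.Agent.Work.MP_022f22_nt.LH.Cop
import Pool.Agent.Work.MP_022f22_nt.LH.Ind
import Pool.Agent.Work.MP_022f22_nt.LH.Mnr
import Pool.Agent.Work.MP_022f22_nt.LH.Nad
import Pool.Agent.Work.MP_022f22_nt.LH.Dbd
import Pool.Agent.Work.MP_022f22_nt.LH.Pfi

open NumberField IsDedekindDomain Polynomial Height Filter Topology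

namespace LEH

private theorem r_int_mul {F : Type*} [Field F] (w : AbsoluteValue F ℝ)
    (hw : IsNonarchimedean w) {p q : F[X]} (hp : ∀ i, w (p.coeff i) ≤ 1)
    (hq : ∀ i, w (q.coeff i) ≤ 1) (i : ℕ) : w ((p * q).coeff i) ≤ 1 := by
  rw [coeff_mul]
  obtain ⟨b, -, hb⟩ := hw.finset_image_add_of_nonempty
    (fun x : ℕ × ℕ => p.coeff x.1 * q.coeff x.2)
    (t := Finset.HasAntidiagonal.antidiagonal i) ⟨(0, i), by simp⟩
  refine hb.trans ?_
  rw [map_mul]
  exact mul_le_one₀ (hp _) (w.nonneg _) (hq _)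

private theorem r_int_one {F : Type*} [Field F] (w : AbsoluteValue F ℝ) (i : ℕ) :
    w ((1 : F[X]).coeff i) ≤ 1 := by
  rw [coeff_one]
  split_ifs
  · rw [map_one]
  · rw [map_zero]
    exact zero_le_one

private theorem r_int_pow {F : Type*} [Field F] (w : AbsoluteValue F ℝ)
    (hw : IsNonarchimedean w) {p : F[X]} (hp : ∀ i, w (p.coeff i) ≤ 1) (n : ℕ) :
    ∀ i, w ((p ^ n).coeff i) ≤ 1 := by
  induction n with
  | zero =>
    intro i
    rw [pow_zero]
    exact r_int_one w i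
  | succ n ih =>
    intro i
    rw [pow_succ]
    exact r_int_mul w hw ih hp i

private theorem r_int_prod {F : Type*} [Field F] (w : AbsoluteValue F ℝ)
    (hw : IsNonarchimedean w) {ι : Type*} (s : Finset ι) (p : ι → F[X])
    (hp : ∀ j ∈ s, ∀ i, w ((p j).coeff i) ≤ 1) :
    ∀ i, w ((∏ j ∈ s, p j).coeff i) ≤ 1 :=
  Finset.prod_induction p (fun q : F[X] => ∀ i, w (q.coeff i) ≤ 1)
    (fun _ _ ha hb => r_int_mul w hw ha hb) (r_int_one w) hp

private theorem r_max {F : Type*} [Field F] (W : WeierstrassCurve F) (w : AbsoluteValue F ℝ)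
    (hw : IsNonarchimedean w) (h2 : w W.b₂ ≤ 1) (h4 : w W.b₄ ≤ 1) (h6 : w W.b₆ ≤ 1)
    (h8 : w W.b₈ ≤ 1) (hΔ : w W.Δ = 1) (x : F) (l : ℕ) :
    max (w (dupIt W l x).1) (w (dupIt W l x).2) = (max (w x) 1) ^ (4 ^ l) := by
  induction l with
  | zero =>
    show max (w x) (w 1) = (max (w x) 1) ^ (4 ^ 0)
    rw [map_one, pow_zero, pow_one]
  | succ l ih =>
    show max (w (dupA W (dupIt W l x).1 (dupIt W l x).2))
      (w (dupB W (dupIt W l x).1 (dupIt W l x).2)) = (max (w x) 1) ^ (4 ^ (l + 1))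
    rw [dup_good W w hw h2 h4 h6 h8 hΔ, ih, ← pow_mul, pow_succ]

private theorem r_loc {F : Type*} [Field F] (W : WeierstrassCurve F) (w : AbsoluteValue F ℝ)
    (k : ℕ) (I : Fin k → Fin 4) (x : F) :
    w ((∏ l : Fin k, (dupP W l).1 ^ (I l : ℕ) * (dupP W l).2 ^ (3 - (I l : ℕ))).eval x) ≤
      ∏ l : Fin k, (max (w (dupIt W l x).1) (w (dupIt W l x).2)) ^ 3 := by
  rw [eval_prod, map_prod]
  refine Finset.prod_le_prod (fun _ _ => w.nonneg _) fun l _ => ?_
  rw [eval_mul, eval_pow, eval_pow, (dupP_eval W l x).1, (dupP_eval W l x).2, map_mul, map_pow,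
    map_pow]
  have h1 : w (dupIt W l x).1 ≤ max (w (dupIt W l x).1) (w (dupIt W l x).2) := le_max_left _ _
  have h2 : w (dupIt W l x).2 ≤ max (w (dupIt W l x).1) (w (dupIt W l x).2) := le_max_right _ _
  have h0 : 0 ≤ max (w (dupIt W l x).1) (w (dupIt W l x).2) := le_trans (w.nonneg _) h1
  have h3 : (I l : ℕ) ≤ 3 := by
    have := (I l).isLt
    omega
  calc w (dupIt W l x).1 ^ (I l : ℕ) * w (dupIt W l x).2 ^ (3 - (I l : ℕ))
      ≤ (max (w (dupIt W l x).1) (w (dupIt W l x).2)) ^ (I l : ℕ) *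
        (max (w (dupIt W l x).1) (w (dupIt W l x).2)) ^ (3 - (I l : ℕ)) :=
        mul_le_mul (pow_le_pow_left₀ (w.nonneg _) h1 _) (pow_le_pow_left₀ (w.nonneg _) h2 _)
          (pow_nonneg (w.nonneg _) _) (pow_nonneg h0 _)
    _ = (max (w (dupIt W l x).1) (w (dupIt W l x).2)) ^ 3 := by
        rw [← pow_add, Nat.add_sub_cancel' h3]

private theorem r_geom (k : ℕ) : ∑ l : Fin k, 4 ^ (l : ℕ) * 3 = 4 ^ k - 1 := by
  induction k with
  | zero => simp
  | succ k ih =>
    rw [Fin.sum_univ_castSucc]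
    have h : ∑ i : Fin k, 4 ^ ((i.castSucc : Fin (k + 1)) : ℕ) * 3 = 4 ^ k - 1 := by
      simpa using ih
    rw [h, Fin.val_last, pow_succ]
    have : 1 ≤ 4 ^ k := Nat.one_le_pow _ _ (by norm_num)
    omega

theorem energy_raw {L : Type*} [Field L] [NumberField L] (W : WeierstrassCurve L) (hΔ : W.Δ ≠ 0)
    (n k : ℕ) (hn : n ≤ 4 ^ k) (β : Fin n → L) (hβ : Function.Injective β)
    (V : Finset (FinitePlace L))
    (hV : ∀ w ∈ V, w W.b₂ ≤ 1 ∧ w W.b₄ ≤ 1 ∧ w W.b₆ ≤ 1 ∧ w W.b₈ ≤ 1 ∧ w W.Δ = 1) :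
    ∑ w ∈ V, ∑ i : Fin n, ∑ j ∈ Finset.Ioi i, -Real.log (cd w.val (β i) (β j)) ≤
      (Module.finrank ℚ L : ℝ) * Real.log (n.factorial : ℝ) +
        3 * ∑ j : Fin n, ∑ l ∈ Finset.range k,
          logHeight ![(dupIt W l (β j)).1, (dupIt W l (β j)).2] := by
  classical
  obtain ⟨I, hI⟩ := exists_minor
    (fun J : Fin k → Fin 4 =>
      ∏ l : Fin k, (dupP W l).1 ^ (J l : ℕ) * (dupP W l).2 ^ (3 - (J l : ℕ)))
    (f_indep (fun l => (dupP W l).1) (fun l => (dupP W l).2) (fun l => (dupP_deg W l).2.1)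
      (fun l => (dupP_deg W l).2.2) (fun l => dupP_coprime W hΔ l) k)
    (fun J => by
      have h := f_deg (fun l => (dupP W l).1) (fun l => (dupP W l).2)
        (fun l => (dupP_deg W l).2.1) (fun l => (dupP_deg W l).2.2) k J
      simpa using h)
    n (by simpa using hn) β hβ
  obtain ⟨y, hy⟩ : ∃ y : Fin n × Fin k → Fin 2 → L, ∀ s, y s =
      ![(dupIt W (s.2 : ℕ) (β s.1)).1, (dupIt W (s.2 : ℕ) (β s.1)).2] := ⟨_, fun _ => rfl⟩
  have hy0 : ∀ s, y s 0 = (dupIt W (s.2 : ℕ) (β s.1)).1 := fun s => by rw [hy]; rfl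
  have hy1 : ∀ s, y s 1 = (dupIt W (s.2 : ℕ) (β s.1)).2 := fun s => by rw [hy]; rfl
  have hyne : ∀ s, y s ≠ 0 := by
    intro s hs
    rcases dupIt_ne W hΔ (s.2 : ℕ) (β s.1) with h | h
    · exact h (by rw [← hy0, hs]; rfl)
    · exact h (by rw [← hy1, hs]; rfl)
  -- the local bound
  have hprod : ∀ w : AbsoluteValue L ℝ, ∏ s, (max (w (y s 0)) (w (y s 1))) ^ 3 =
      ∏ j : Fin n, ∏ l : Fin k,
        (max (w (dupIt W (l : ℕ) (β j)).1) (w (dupIt W (l : ℕ) (β j)).2)) ^ 3 := by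
    intro w
    rw [Fintype.prod_prod_type]
    refine Finset.prod_congr rfl fun j _ => Finset.prod_congr rfl fun l _ => ?_
    rw [hy0, hy1]
  have hent : ∀ (w : AbsoluteValue L ℝ) (i j : Fin n),
      w ((Matrix.of fun i j => ((fun J : Fin k → Fin 4 =>
        ∏ l : Fin k, (dupP W l).1 ^ (J l : ℕ) * (dupP W l).2 ^ (3 - (J l : ℕ))) (I i)).eval
          (β j)) i j) ≤
      (fun j : Fin n => ∏ l : Fin k,
        (max (w (dupIt W (l : ℕ) (β j)).1) (w (dupIt W (l : ℕ) (β j)).2)) ^ 3) j :=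
    fun w i j => r_loc W w k (I i) (β j)
  have hna : ∀ w : FinitePlace L, IsNonarchimedean w.val := fun w x y => FinitePlace.add_le w x y
  have key := prod_ineq y hyne 3 _ hI (n.factorial : ℝ) (by positivity) V
    (fun w => ∏ i : Fin n, ∏ j ∈ Finset.Ioi i, cd w.val (β i) (β j))
    (fun w _ => Finset.prod_pos fun i _ => Finset.prod_pos fun j hj =>
      cd_pos w.val fun h => (Finset.mem_Ioi.1 hj).ne (hβ h))
    (fun u => by
      have h := det_arch u.val n _ _ (hent u.val)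
      have h2 := hprod u.val
      refine h.trans (le_of_eq ?_)
      rw [← h2]
      rfl)
    (fun w _ => by
      have h := det_nonarch w.val (hna w) n _ _ (hent w.val)
      have h2 := hprod w.val
      refine h.trans (le_of_eq ?_)
      rw [← h2]
      rfl)
    (fun w hw => by
      obtain ⟨h2, h4, h6, h8, hD⟩ := hV w hw
      have hpos : 1 ≤ 4 ^ k := Nat.one_le_pow _ _ (by norm_num)
      have h := det_points w.val (hna w) n (4 ^ k - 1) (by omega)
        (fun i => ∏ l : Fin k, (dupP W l).1 ^ (I i l : ℕ) * (dupP W l).2 ^ (3 - (I i l : ℕ)))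
        (fun i => r_int_prod w.val (hna w) Finset.univ _ fun l _ =>
          r_int_mul w.val (hna w)
            (r_int_pow w.val (hna w) (fun m => (dupP_int W w.val (hna w) h2 h4 h6 h8 l m).1) _)
            (r_int_pow w.val (hna w) (fun m => (dupP_int W w.val (hna w) h2 h4 h6 h8 l m).2) _))
        (fun i => Nat.le_sub_one_of_lt
          (f_deg (fun l => (dupP W l).1) (fun l => (dupP W l).2)
            (fun l => (dupP_deg W l).2.1) (fun l => (dupP_deg W l).2.2) k (I i))) β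
      have e : ∏ j : Fin n, (max (w.val (β j)) 1) ^ (4 ^ k - 1) =
          ∏ s, (max (w.val (y s 0)) (w.val (y s 1))) ^ 3 := by
        rw [hprod w.val]
        refine Finset.prod_congr rfl fun j _ => ?_
        rw [← r_geom k, ← Finset.prod_pow_eq_pow_sum]
        refine Finset.prod_congr rfl fun l _ => ?_
        rw [r_max W w.val (hna w) h2 h4 h6 h8 hD (β j) l, ← pow_mul]
      rw [e] at h
      exact h)
  have hlog : ∑ w ∈ V, Real.log (∏ i : Fin n, ∏ j ∈ Finset.Ioi i, cd w.val (β i) (β j)) =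
      - ∑ w ∈ V, ∑ i : Fin n, ∑ j ∈ Finset.Ioi i, -Real.log (cd w.val (β i) (β j)) := by
    rw [← Finset.sum_neg_distrib]
    refine Finset.sum_congr rfl fun w _ => ?_
    have hc : ∀ i : Fin n, ∀ j ∈ Finset.Ioi i, cd w.val (β i) (β j) ≠ 0 := fun i j hj =>
      (cd_pos w.val fun h => (Finset.mem_Ioi.1 hj).ne (hβ h)).ne'
    rw [Real.log_prod fun i _ => Finset.prod_ne_zero_iff.2 (hc i), ← Finset.sum_neg_distrib]
    refine Finset.sum_congr rfl fun i _ => ?_
    rw [Real.log_prod (hc i), Finset.sum_neg_distrib, neg_neg]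
  have hsum : ∑ s, logHeight (y s) = ∑ j : Fin n, ∑ l ∈ Finset.range k,
      logHeight ![(dupIt W l (β j)).1, (dupIt W l (β j)).2] := by
    rw [Fintype.sum_prod_type]
    refine Finset.sum_congr rfl fun j _ => ?_
    rw [Finset.sum_range]
    refine Finset.sum_congr rfl fun l _ => ?_
    rw [hy]
  rw [hlog, hsum] at key
  push_cast at key
  linarith

end LEH
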