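/-
LH/Enr (M)  MP_022f22_nt, Lehmer project, table modleh. Paper proof: /team-store/lehmer_proof.md
Energy inequality (section 1 of the paper proof).  Lambda0 = log(absNorm v)/[K:Q].
S a nonempty finite set of elements of L, n = |S|; enumerate S = {beta_j}, j : Fin n (S.equivFin), injective.  V from places_above.
 * the hypothesis for w above v: 2T <= sum_{offDiag} tt w (w ϖ) x y = 2 sum_{i<j} tt(beta_i,beta_j) (cd symmetric), and tt = log cd/log(w ϖ), so
   sum_{i<j} -log cd w beta_i beta_j >= T * (-log (w ϖ)).   Sum over w in V: T [L:K] log(absNorm v) <= left side of energy_raw.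
 * good reduction at w in V: above_le, above_eq applied to a_i, Δ (b_i are integer polynomials in the a_i; or v.valuation b_i <= 1) from GoodRed; Δ != 0.
 * k minimal with n <= 4^k: 4^k <= 4n (k = Nat.clog 4 n), k <= log n/log 4 + 1 <= log n + 1.   log n! <= n log n.
 * hx_upper (module Hxl): logHeight(dupIt l beta) <= (4^l hx beta + C) [L:Q]; 3 sum_{l<k} 4^l = 4^k - 1 <= 4n; hx >= 0.
 So T [L:K] log(absNorm v) <= [L:Q] ( n log n + 4n sum_beta hx beta + 3 k C n ); divide by [L:Q] = [L:K][K:Q].   C1 = 1 + 3C (+ something).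
-/
import Mathlib
import Pool.Agent.Work.MP_022f22_nt.LH.Defs
import Pool.Agent.Work.MP_022f22_nt.LH.Raw
import Pool.Agent.Work.MP_022f22_nt.LH.Plc
import Pool.Agent.Work.MP_022f22_nt.LH.Vab
import Pool.Agent.Work.MP_022f22_nt.LH.Hxl

open NumberField IsDedekindDomain Polynomial Height Filter Topology

namespace LEH

private theorem enr_two {n : ℕ} (f : Fin n → Fin n → ℝ) (hf : ∀ i j, f i j = f j i) :
    ∑ q ∈ (Finset.univ : Finset (Fin n)).offDiag, f q.1 q.2 =
      2 * ∑ i, ∑ j ∈ Finset.Ioi i, f i j := by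
  classical
  have h1 : ∑ q ∈ Finset.univ.filter (fun q : Fin n × Fin n => q.1 < q.2), f q.1 q.2 =
      ∑ i, ∑ j ∈ Finset.Ioi i, f i j := by
    rw [Finset.sum_finset_product _ Finset.univ (fun i => Finset.Ioi i)]
    intro p
    simp
  have h2 : ∑ q ∈ Finset.univ.filter (fun q : Fin n × Fin n => q.2 < q.1), f q.1 q.2 =
      ∑ q ∈ Finset.univ.filter (fun q : Fin n × Fin n => q.1 < q.2), f q.1 q.2 := by
    refine Finset.sum_nbij' Prod.swap Prod.swap ?_ ?_ ?_ ?_ ?_
    · intro q hq
      simpa using hq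
    · intro q hq
      simpa using hq
    · intro q _
      simp
    · intro q _
      simp
    · intro q _
      exact hf _ _
  have h3 : (Finset.univ : Finset (Fin n)).offDiag =
      Finset.univ.filter (fun q : Fin n × Fin n => q.1 < q.2) ∪
        Finset.univ.filter (fun q : Fin n × Fin n => q.2 < q.1) := by
    ext q
    simp only [Finset.mem_offDiag, Finset.mem_univ, true_and, Finset.mem_union, Finset.mem_filter]
    exact ne_iff_lt_or_gt
  rw [h3, Finset.sum_union, h2, h1, two_mul]
  rw [Finset.disjoint_filter]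
  intro q _ h4 h5
  exact absurd h4 (not_lt.2 h5.le)

private theorem enr_enum {α : Type*} [DecidableEq α] (S : Finset α) {n : ℕ} (β : Fin n → α)
    (hβ : Function.Injective β) (hS : ∀ x, x ∈ S ↔ ∃ j, β j = x) (g : α → α → ℝ) :
    ∑ q ∈ S.offDiag, g q.1 q.2 =
      ∑ q ∈ (Finset.univ : Finset (Fin n)).offDiag, g (β q.1) (β q.2) := by
  symm
  refine Finset.sum_bij (fun q _ => (β q.1, β q.2)) ?_ ?_ ?_ ?_
  · intro q hq
    rw [Finset.mem_offDiag] at hq ⊢
    exact ⟨(hS _).2 ⟨_, rfl⟩, (hS _).2 ⟨_, rfl⟩, fun h => hq.2.2 (hβ h)⟩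
  · intro q _ q' _ h
    have h1 := (Prod.mk.injEq _ _ _ _).mp h
    exact Prod.ext (hβ h1.1) (hβ h1.2)
  · intro b hb
    rw [Finset.mem_offDiag] at hb
    obtain ⟨i, hi⟩ := (hS _).1 hb.1
    obtain ⟨j, hj⟩ := (hS _).1 hb.2.1
    refine ⟨(i, j), ?_, Prod.ext hi hj⟩
    rw [Finset.mem_offDiag]
    refine ⟨Finset.mem_univ _, Finset.mem_univ _, fun h => hb.2.2 ?_⟩
    have h' : i = j := h
    rw [← hi, ← hj, h']
  · intro q _
    rfl

theorem energy {K : Type} [Field K] [NumberField K] (v : HeightOneSpectrum (𝓞 K))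
    (W : WeierstrassCurve K) (hW : GoodRed v W) {ϖ : K} (hϖ : Unif v ϖ) :
    ∃ C1 : ℝ, 0 < C1 ∧ ∀ (L : Type) [Field L] [NumberField L] [Algebra K L] (S : Finset L)
      (_ : S.Nonempty) (T : ℝ) (_ : 0 ≤ T)
      (_ : ∀ w : FinitePlace L, Above v w →
        2 * T ≤ ∑ q ∈ S.offDiag, tt w.val (w (algebraMap K L ϖ)) q.1 q.2),
      Real.log (Ideal.absNorm v.asIdeal) / (Module.finrank ℚ K : ℝ) * T ≤
        C1 * (S.card : ℝ) * (Real.log S.card + 1) +
          4 * (S.card : ℝ) * ∑ β ∈ S, hx (W.baseChange L) β := by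
  classical
  have hΔ : W.Δ ≠ 0 := by
    intro h0
    have := hW.disc
    rw [h0, map_zero] at this
    exact zero_ne_one this
  obtain ⟨C, hC, hup⟩ := hx_upper W hΔ
  refine ⟨1 + 3 * C, by positivity, ?_⟩
  intro L _ _ _ S hS T hT hyp
  haveI : FiniteDimensional K L := Module.Finite.of_restrictScalars_finite ℚ K L
  obtain ⟨V, hV, hVsum⟩ := places_above (L := L) v hϖ
  have hΔL : (W.baseChange L).Δ ≠ 0 := by
    simp only [WeierstrassCurve.baseChange, WeierstrassCurve.map_Δ]
    exact (_root_.map_ne_zero _).2 hΔ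
  have hn0 : 0 < S.card := Finset.card_pos.2 hS
  -- enumeration
  let β : Fin S.card → L := fun j => (S.equivFin.symm j : L)
  have hβ : Function.Injective β := fun i j h =>
    S.equivFin.symm.injective (Subtype.ext h)
  have hβS : ∀ x, x ∈ S ↔ ∃ j, β j = x := by
    intro x
    constructor
    · intro hx
      exact ⟨S.equivFin ⟨x, hx⟩, by simp [β]⟩
    · rintro ⟨j, rfl⟩
      exact (S.equivFin.symm j).2
  -- the exponent k
  set k := Nat.clog 4 S.card with hk
  have hk1 : S.card ≤ 4 ^ k := Nat.le_pow_clog (by norm_num) _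
  have hk2 : 4 ^ k ≤ 4 * S.card := by
    rcases Nat.lt_or_ge 1 S.card with h1 | h1
    · have h2 := Nat.pow_pred_clog_lt_self (b := 4) (by norm_num) h1
      rw [← hk] at h2
      have h3 : 0 < k := Nat.clog_pos (by norm_num) h1
      obtain ⟨k', hk'⟩ : ∃ k', k = k' + 1 := ⟨k - 1, by omega⟩
      rw [hk'] at h2 ⊢
      rw [Nat.pred_succ] at h2
      rw [pow_succ]
      omega
    · have h2 : k = 0 := by
        rw [hk]
        exact Nat.clog_of_right_le_one h1 4
      rw [h2]
      omega
  have hk3 : (k : ℝ) ≤ Real.log S.card + 1 := by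
    have h1 : (4 : ℝ) ^ k ≤ 4 * S.card := by exact_mod_cast hk2
    have h2 := Real.log_le_log (by positivity) h1
    have hn1 : (1 : ℝ) ≤ S.card := by exact_mod_cast hn0
    rw [Real.log_pow, Real.log_mul (by norm_num) (by positivity)] at h2
    have h3 : (1 : ℝ) ≤ Real.log 4 := by
      rw [Real.le_log_iff_exp_le (by norm_num)]
      have := Real.exp_one_lt_d9
      linarith
    have h4 : 0 ≤ Real.log S.card := Real.log_nonneg hn1
    by_contra h5
    push Not at h5
    have h6 : (Real.log S.card + 1) * Real.log 4 < k * Real.log 4 :=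
      mul_lt_mul_of_pos_right h5 (by linarith)
    nlinarith
  -- good reduction
  have hgood : ∀ w ∈ V, w (W.baseChange L).b₂ ≤ 1 ∧ w (W.baseChange L).b₄ ≤ 1 ∧
      w (W.baseChange L).b₆ ≤ 1 ∧ w (W.baseChange L).b₈ ≤ 1 ∧ w (W.baseChange L).Δ = 1 := by
    intro w hw
    have hab := (hV w).1 hw
    have hint : ∀ x ∈ (v.valuation K).valuationSubring, w (algebraMap K L x) ≤ 1 :=
      fun x hx => above_le hab hx
    set R := (v.valuation K).valuationSubring with hR
    have m1 : W.a₁ ∈ R := hW.a₁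
    have m2 : W.a₂ ∈ R := hW.a₂
    have m3 : W.a₃ ∈ R := hW.a₃
    have m4 : W.a₄ ∈ R := hW.a₄
    have m6 : W.a₆ ∈ R := hW.a₆
    have q2 : (2 : K) ∈ R := by exact_mod_cast natCast_mem R 2
    have q4 : (4 : K) ∈ R := by exact_mod_cast natCast_mem R 4
    simp only [WeierstrassCurve.baseChange, WeierstrassCurve.map_b₂, WeierstrassCurve.map_b₄,
      WeierstrassCurve.map_b₆, WeierstrassCurve.map_b₈, WeierstrassCurve.map_Δ]
    refine ⟨hint _ ?_, hint _ ?_, hint _ ?_, hint _ ?_, above_eq hab hW.disc⟩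
    · rw [WeierstrassCurve.b₂]
      exact add_mem (pow_mem m1 2) (mul_mem q4 m2)
    · rw [WeierstrassCurve.b₄]
      exact add_mem (mul_mem q2 m4) (mul_mem m1 m3)
    · rw [WeierstrassCurve.b₆]
      exact add_mem (pow_mem m3 2) (mul_mem q4 m6)
    · rw [WeierstrassCurve.b₈]
      exact sub_mem (add_mem (sub_mem (add_mem (mul_mem (pow_mem m1 2) m6)
        (mul_mem (mul_mem q4 m2) m6)) (mul_mem (mul_mem m1 m3) m4))
        (mul_mem m2 (pow_mem m3 2))) (pow_mem m4 2)
  have hraw := energy_raw (W.baseChange L) hΔL S.card k hk1 β hβ V hgood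
  -- left side
  have hleft : (Module.finrank K L : ℝ) * Real.log (Ideal.absNorm v.asIdeal) * T ≤
      ∑ w ∈ V, ∑ i : Fin S.card, ∑ j ∈ Finset.Ioi i, -Real.log (cd w.val (β i) (β j)) := by
    rw [← hVsum, Finset.sum_mul]
    refine Finset.sum_le_sum fun w hw => ?_
    have hab := (hV w).1 hw
    obtain ⟨hρ0, hρ1⟩ := above_unif hab hϖ
    have hlog : Real.log (w (algebraMap K L ϖ)) < 0 := Real.log_neg hρ0 hρ1
    have h1 := hyp w hab
    rw [enr_enum S β hβ hβS (fun x y => tt w.val (w (algebraMap K L ϖ)) x y),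
      enr_two (fun i j => tt w.val (w (algebraMap K L ϖ)) (β i) (β j)) ?_] at h1
    · have h2 : T ≤ ∑ i : Fin S.card, ∑ j ∈ Finset.Ioi i,
          tt w.val (w (algebraMap K L ϖ)) (β i) (β j) := by linarith
      have h3 : ∑ i : Fin S.card, ∑ j ∈ Finset.Ioi i, -Real.log (cd w.val (β i) (β j)) =
          -Real.log (w (algebraMap K L ϖ)) * ∑ i : Fin S.card, ∑ j ∈ Finset.Ioi i,
          tt w.val (w (algebraMap K L ϖ)) (β i) (β j) := by
        rw [Finset.mul_sum]
        refine Finset.sum_congr rfl fun i _ => ?_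
        rw [Finset.mul_sum]
        refine Finset.sum_congr rfl fun j _ => ?_
        unfold tt
        have h5 := hlog.ne
        field_simp
      rw [h3]
      exact mul_le_mul_of_nonneg_left h2 (by linarith)
    · intro i j
      unfold tt cd
      rw [show w.val (β i - β j) = w.val (β j - β i) from by
        rw [← neg_sub, AbsoluteValue.map_neg], mul_comm (max (w.val (β i)) 1)]
  -- right side
  have hLpos : (0 : ℝ) < (Module.finrank ℚ L : ℝ) := by exact_mod_cast Module.finrank_pos
  have hKpos : (0 : ℝ) < (Module.finrank ℚ K : ℝ) := by exact_mod_cast Module.finrank_pos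
  have hKLpos : (0 : ℝ) < (Module.finrank K L : ℝ) := by exact_mod_cast Module.finrank_pos
  have htower : (Module.finrank ℚ L : ℝ) = Module.finrank ℚ K * Module.finrank K L := by
    exact_mod_cast (Module.finrank_mul_finrank ℚ K L).symm
  have hn1 : (1 : ℝ) ≤ S.card := by exact_mod_cast hn0
  have hlogn : 0 ≤ Real.log S.card := Real.log_nonneg hn1
  have hfac : Real.log (S.card.factorial : ℝ) ≤ S.card * Real.log S.card := by
    rw [← Real.log_pow]
    apply Real.log_le_log (by exact_mod_cast Nat.factorial_pos _)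
    exact_mod_cast Nat.factorial_le_pow S.card
  have hsum : ∀ j : Fin S.card, ∑ l ∈ Finset.range k,
      logHeight ![(dupIt (W.baseChange L) l (β j)).1, (dupIt (W.baseChange L) l (β j)).2] ≤
      ((4 * S.card / 3) * hx (W.baseChange L) (β j) + k * C) * (Module.finrank ℚ L : ℝ) := by
    intro j
    have hxn := hx_nonneg W hΔ L (β j)
    have hgeo : (∑ l ∈ Finset.range k, (4 : ℝ) ^ l) ≤ 4 * S.card / 3 := by
      rw [geom_sum_eq (by norm_num)]
      have h1 : (4 : ℝ) ^ k ≤ 4 * S.card := by exact_mod_cast hk2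
      rw [div_le_div_iff₀ (by norm_num) (by norm_num)]
      linarith
    calc _ ≤ ∑ l ∈ Finset.range k,
          (4 ^ l * hx (W.baseChange L) (β j) + C) * (Module.finrank ℚ L : ℝ) :=
        Finset.sum_le_sum fun l _ => hup L (β j) l
      _ = ((∑ l ∈ Finset.range k, (4 : ℝ) ^ l) * hx (W.baseChange L) (β j) + k * C) *
          (Module.finrank ℚ L : ℝ) := by
        rw [← Finset.sum_mul, Finset.sum_add_distrib, ← Finset.sum_mul, Finset.sum_const,
          Finset.card_range, nsmul_eq_mul]
      _ ≤ _ := by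
        apply mul_le_mul_of_nonneg_right _ hLpos.le
        have := mul_le_mul_of_nonneg_right hgeo hxn
        linarith
  have hhx : ∑ j : Fin S.card, hx (W.baseChange L) (β j) = ∑ x ∈ S, hx (W.baseChange L) x := by
    rw [← Finset.sum_coe_sort S (fun x => hx (W.baseChange L) x)]
    exact Equiv.sum_comp S.equivFin.symm (fun x : S => hx (W.baseChange L) (x : L))
  have hright := Finset.sum_le_sum fun (j : Fin S.card) (_ : j ∈ Finset.univ) => hsum j
  rw [← Finset.sum_mul, Finset.sum_add_distrib, ← Finset.mul_sum, hhx, Finset.sum_const,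
    Finset.card_univ, Fintype.card_fin, nsmul_eq_mul] at hright
  set H := ∑ x ∈ S, hx (W.baseChange L) x with hH
  set F := (Module.finrank ℚ L : ℝ) with hF
  have hall : (Module.finrank K L : ℝ) * Real.log (Ideal.absNorm v.asIdeal) * T ≤
      F * ((S.card : ℝ) * Real.log S.card + 4 * S.card * H + 3 * (S.card * (k * C))) := by
    have h1 := hleft.trans hraw
    have h2 := mul_le_mul_of_nonneg_left hfac hLpos.le
    linarith
  rw [htower] at hall
  have h5 : Real.log (Ideal.absNorm v.asIdeal) / (Module.finrank ℚ K : ℝ) * T ≤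
      (S.card : ℝ) * Real.log S.card + 4 * S.card * H + 3 * (S.card * (k * C)) := by
    rw [div_mul_eq_mul_div, div_le_iff₀ hKpos]
    have h6 : (Module.finrank K L : ℝ) * (Real.log (Ideal.absNorm v.asIdeal) * T) ≤
        (Module.finrank K L : ℝ) * (((S.card : ℝ) * Real.log S.card + 4 * S.card * H +
          3 * (S.card * (k * C))) * Module.finrank ℚ K) := by linarith
    exact le_of_mul_le_mul_left h6 hKLpos
  refine h5.trans ?_
  have h7 : (S.card : ℝ) * (k * C) ≤ S.card * ((Real.log S.card + 1) * C) := by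
    apply mul_le_mul_of_nonneg_left _ (by positivity)
    exact mul_le_mul_of_nonneg_right hk3 hC
  nlinarith

end LEH
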