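/-
LH/Tau (M)  MP_022f22_nt, Lehmer project, table modleh. Paper proof: /team-store/lehmer_proof.md
Lemma 0.5 of the paper proof.  Here phi = 1: w(x - x^Q) < 1 for w x <= 1.
Let S = orbF I a, o = |S|.  For r >= 1: h_r = h.pw r (1^r = 1) and frob_orbit give prod_{c in S} cd w (a^(Q^r)) c <= rho.
(1) For r large: cd w (a^(Q^r)) (sigma (a^(Q^r))) <= rho for all sigma in I.  Indeed with c_r = cd w (a^(Q^r)) ((sigma a)^(Q^r)):
    c_0 < 1: if w a <= 1: w(sigma a - a) < 1 (inert); if w a > 1 use inverses (w(sigma a^-1 - a^-1) < 1, cd_inv).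
    c_{r+1} <= max (rho c_r)(c_r^Q) (pow_contr, Q = p^m, Q >= 2), so c_r <= (max rho c_0)^(r+1) -> 0 (induction: rho c_r <= M^(r+2), c_r^Q <= c_r^2 <= M^(r+2)); the orbit is finite,
    so one r works for all sigma (I finite: take the maximum, or note that M can be taken as max over the finite group).
(2) Let u = a^(Q^r).  For sigma in I, c in S: cd w u (sigma c) <= max (cd w u (sigma u)) (cd w (sigma u)(sigma c)) <= max rho (cd w u c) (cd_map).
    So for c, c' in S: max rho (cd w u c) = max rho (cd w u c') =: mu (S is one orbit).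
(3) mu^o <= rho: if mu = rho: rho^o <= rho (o >= 1).  If mu > rho then cd w u c = mu for all c in S and mu^o = prod <= rho.
(4) cd w a c <= max (cd w a u)(cd w u c) <= mu (a, c in S, cd_comm).  So cd w a c ^ o <= mu^o <= rho.
-/
import Mathlib
import Pool.Agent.Work.MP_022f22_nt.LH.Defs
import Pool.Agent.Work.MP_022f22_nt.LH.Cdb
import Pool.Agent.Work.MP_022f22_nt.LH.Org
import Pool.Agent.Work.MP_022f22_nt.LH.InP
import Pool.Agent.Work.MP_022f22_nt.LH.Frb
import Pool.Agent.Work.MP_022f22_nt.LH.Pmp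

open NumberField IsDedekindDomain Polynomial Height Filter Topology

namespace LEH

theorem tau_orbit {K L : Type*} [Field K] [Field L] [Algebra K L] [FiniteDimensional K L]
    {w : AbsoluteValue L ℝ} {ρ : ℝ} {p Q : ℕ} {I : Subgroup (L ≃ₐ[K] L)}
    (h : InertiaData w ρ p Q I 1) (a : L) {c : L} (hc : c ∈ orbF I a) :
    cd w a c ^ (orbF I a).card ≤ ρ := by
  obtain ⟨m, hm, hQ⟩ := h.pow
  have hQ2 : 2 ≤ Q := by
    rw [hQ]
    calc 2 ≤ p := h.prime.two_le
      _ = p ^ 1 := (pow_one p).symm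
      _ ≤ p ^ m := Nat.pow_le_pow_right h.prime.pos hm
  have hρ1 : ρ ≤ 1 := h.rho_lt.le
  have hfin : Finite I := inferInstance
  -- step 0
  have h0 : ∀ σ ∈ I, cd w a (σ a) < 1 := by
    intro σ hσ
    rcases le_or_gt (w a) 1 with ha | ha
    · have h2 : w (σ a) ≤ 1 := by rw [h.inert_abs σ hσ]; exact ha
      rw [cd_of_le w ha h2, w.map_sub]
      exact h.inert σ hσ a ha
    · have ha0 : a ≠ 0 := by
        rintro rfl
        rw [map_zero] at ha
        linarith
      have hs0 : σ a ≠ 0 := by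
        intro h3
        exact ha0 ((map_eq_zero σ).mp h3)
      have hi : w a⁻¹ ≤ 1 := by
        rw [map_inv₀]
        exact inv_le_one_of_one_le₀ ha.le
      have hi2 : w (σ a⁻¹) ≤ 1 := by rw [h.inert_abs σ hσ]; exact hi
      rw [← cd_inv w ha0 hs0, ← map_inv₀ σ a, cd_of_le w hi hi2, w.map_sub]
      exact h.inert σ hσ _ hi
  have hstep : ∀ x y : L, cd w (x ^ Q) (y ^ Q) ≤ max (ρ * cd w x y) (cd w x y ^ Q) := by
    intro x y
    rw [hQ]
    exact pow_contr h.nonarch h.prime hm h.rho_pos h.char x y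
  have hev : ∀ σ : I, ∀ᶠ r : ℕ in atTop,
      cd w (a ^ (Q ^ r)) (((σ : L ≃ₐ[K] L) a) ^ (Q ^ r)) ≤ ρ := by
    intro σ
    set b : L := (σ : L ≃ₐ[K] L) a with hb
    set M : ℝ := max ρ (cd w a b) with hM
    have hM0 : 0 < M := lt_max_of_lt_left h.rho_pos
    have hM1 : M < 1 := max_lt h.rho_lt (h0 σ.1 σ.2)
    have hc : ∀ r : ℕ, cd w (a ^ (Q ^ r)) (b ^ (Q ^ r)) ≤ M ^ (r + 1) := by
      intro r
      induction r with
      | zero =>
        rw [pow_zero, pow_one, pow_one, zero_add, pow_one]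
        exact le_max_right _ _
      | succ r ih =>
        have e1 : a ^ (Q ^ (r + 1)) = (a ^ (Q ^ r)) ^ Q := by rw [pow_succ, pow_mul]
        have e2 : b ^ (Q ^ (r + 1)) = (b ^ (Q ^ r)) ^ Q := by rw [pow_succ, pow_mul]
        rw [e1, e2]
        refine (hstep _ _).trans (max_le ?_ ?_)
        · calc ρ * cd w (a ^ (Q ^ r)) (b ^ (Q ^ r)) ≤ M * M ^ (r + 1) :=
                mul_le_mul (le_max_left _ _) ih (cd_nonneg w _ _) hM0.le
            _ = M ^ (r + 1 + 1) := by ring
        · calc cd w (a ^ (Q ^ r)) (b ^ (Q ^ r)) ^ Q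
              ≤ cd w (a ^ (Q ^ r)) (b ^ (Q ^ r)) ^ 2 :=
                pow_le_pow_of_le_one (cd_nonneg w _ _) (cd_le_one w h.nonarch _ _) hQ2
            _ ≤ (M ^ (r + 1)) ^ 2 := pow_le_pow_left₀ (cd_nonneg w _ _) ih 2
            _ = M ^ ((r + 1) * 2) := by rw [← pow_mul]
            _ ≤ M ^ (r + 1 + 1) := pow_le_pow_of_le_one hM0.le hM1.le (by omega)
    have ht : Tendsto (fun r : ℕ => M ^ (r + 1)) atTop (𝓝 0) :=
      (tendsto_pow_atTop_nhds_zero_of_lt_one hM0.le hM1).comp (tendsto_add_atTop_nat 1)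
    have := ht.eventually (gt_mem_nhds h.rho_pos)
    filter_upwards [this] with r hr
    exact (hc r).trans hr.le
  have hall : ∀ᶠ r : ℕ in atTop, ∀ σ : I,
      cd w (a ^ (Q ^ r)) (((σ : L ≃ₐ[K] L) a) ^ (Q ^ r)) ≤ ρ := eventually_all.mpr hev
  obtain ⟨r, hr1, hr⟩ := ((eventually_ge_atTop 1).and hall).exists
  set u : L := a ^ (Q ^ r) with hu
  have hus : ∀ σ ∈ I, cd w u (σ u) ≤ ρ := by
    intro σ hσ
    have := hr ⟨σ, hσ⟩
    rwa [hu, map_pow]
  have hprod : ∏ c ∈ orbF I a, cd w u c ≤ ρ := by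
    have h2 := frob_orbit (h.pw r hr1) a
    rw [one_pow, AlgEquiv.one_apply] at h2
    exact h2
  have hmove : ∀ σ ∈ I, ∀ x, cd w u (σ x) ≤ max ρ (cd w u x) := by
    intro σ hσ x
    refine (cd_ultra w h.nonarch u (σ u) (σ x)).trans (max_le_max (hus σ hσ) ?_)
    have := cd_map w (σ : L →+* L) (fun y => h.inert_abs σ hσ y) u x
    exact this.le
  set μ : ℝ := max ρ (cd w u a) with hμ
  have hmu : ∀ x ∈ orbF I a, max ρ (cd w u x) = μ := by
    intro x hx
    obtain ⟨σ, hσ, rfl⟩ := mem_orbF.mp hx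
    apply le_antisymm
    · exact max_le (le_max_left _ _) (hmove σ hσ a)
    · refine max_le (le_max_left _ _) ?_
      have h3 := hmove σ⁻¹ (I.inv_mem hσ) (σ a)
      have e : σ⁻¹ (σ a) = a := by
        rw [← AlgEquiv.mul_apply, inv_mul_cancel]; rfl
      rwa [e] at h3
  have hcard : 1 ≤ (orbF I a).card := orbF_card_pos I a
  have hμpow : μ ^ (orbF I a).card ≤ ρ := by
    rcases le_or_gt (cd w u a) ρ with h4 | h4
    · have : μ = ρ := max_eq_left h4
      rw [this]
      calc ρ ^ (orbF I a).card ≤ ρ ^ 1 := pow_le_pow_of_le_one h.rho_pos.le hρ1 hcard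
        _ = ρ := pow_one ρ
    · have h5 : ρ < μ := lt_of_lt_of_le h4 (le_max_right _ _)
      have h6 : ∏ c ∈ orbF I a, cd w u c = μ ^ (orbF I a).card := by
        rw [Finset.prod_congr rfl (g := fun _ => μ) ?_, Finset.prod_const]
        intro x hx
        have h7 := hmu x hx
        rcases le_total ρ (cd w u x) with h8 | h8
        · rwa [max_eq_right h8] at h7
        · rw [max_eq_left h8] at h7
          exact absurd h7 h5.ne
      rw [← h6]
      exact hprod
  have hfinal : cd w a c ≤ μ := by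
    refine (cd_ultra w h.nonarch a u c).trans (max_le ?_ ?_)
    · rw [cd_comm]
      exact le_max_right _ _
    · rw [← hmu c hc]
      exact le_max_right _ _
  exact (pow_le_pow_left₀ (cd_nonneg w _ _) hfinal _).trans hμpow

end LEH
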