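/-
LH/Sml (M)  MP_022f22_nt, Lehmer project, table modleh. Paper proof: /team-store/lehmer_proof.md
Same level gain (Case 1 of Prop B).  a Nice, b, w above v, InertiaData w.val rho p Q' I 1, every y in orbF top a has |orbF I y| >= Q^b.  x in orbF top (F^[b] a) =: S_b.
Claim: Q^b * D_b/D - 1 <= sum over beta in S_b, beta != x, of tt w rho x beta, where D = dg a, D_b = dg(F^[b] a).
x = F^[b] y, y in orbF top a; O = orbF I y, o = |O| >= Q^b.  For c in O: cd w y c ^ o <= rho (tau_orbit); if c != y: tt y c >= 1/o.  For c in O with F^[b] c != x: tt_iter, ph_iter_mono, ph_pow: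
tt (x)(F^[b] c) >= (ph Q)^[b](tt y c) >= (ph Q)^[b](1/o) >= Q^b/o.
The set X = F^[b](O), a subset of S_b, has at least o/m elements, m = D/D_b the size of the fibres (fib_card: fibre * D_b = D; Finset.card_le_mul_card_image).  So X minus {x} has >= o D_b/D - 1 elements and the sum is
>= (o D_b/D - 1) Q^b/o >= Q^b D_b/D - 1 (Q^b/o <= 1).  Remaining terms >= 0.
-/
import Mathlib
import Pool.Agent.Work.MP_022f22_nt.LH.Defs
import Pool.Agent.Work.MP_022f22_nt.LH.Cdb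
import Pool.Agent.Work.MP_022f22_nt.LH.Phi
import Pool.Agent.Work.MP_022f22_nt.LH.Tti
import Pool.Agent.Work.MP_022f22_nt.LH.Tau
import Pool.Agent.Work.MP_022f22_nt.LH.Org
import Pool.Agent.Work.MP_022f22_nt.LH.Fmc
import Pool.Agent.Work.MP_022f22_nt.LH.GMp

open NumberField IsDedekindDomain Polynomial Height Filter Topology

namespace LEH

open Classical in
theorem same_level {K : Type} [Field K] [NumberField K] {v : HeightOneSpectrum (𝓞 K)}
    {W : WeierstrassCurve K} {p N Q : ℕ} {A B : K[X]} (hs : Setup K v W p N Q A B)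
    {L : Type} [Field L] [NumberField L] [Algebra K L] [FiniteDimensional K L] [IsGalois K L]
    {w : FinitePlace L} (h : Above v w) {ϖ : K} (hϖ : Unif v ϖ) {a : L} (ha : Nice W Q A B a)
    (b : ℕ) {Q' : ℕ} {I : Subgroup (L ≃ₐ[K] L)}
    (hI : InertiaData w.val (w (algebraMap K L ϖ)) p Q' I 1)
    (hc : ∀ y ∈ orbF (⊤ : Subgroup (L ≃ₐ[K] L)) a, (Q : ℝ) ^ b ≤ ((orbF I y).card : ℝ)) {x : L}
    (hx : x ∈ orbF (⊤ : Subgroup (L ≃ₐ[K] L)) ((Fm A B)^[b] a)) :
    (Q : ℝ) ^ b * (dg K ((Fm A B)^[b] a) : ℝ) / (dg K a : ℝ) - 1 ≤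
      ∑ β ∈ (orbF (⊤ : Subgroup (L ≃ₐ[K] L)) ((Fm A B)^[b] a)).erase x,
        tt w.val (w (algebraMap K L ϖ)) x β := by
  have good := (good_of_setup hs h hϖ).1
  set ρ : ℝ := w (algebraMap K L ϖ) with hρ
  set S : Finset L := orbF (⊤ : Subgroup (L ≃ₐ[K] L)) a with hS
  set Sb : Finset L := orbF (⊤ : Subgroup (L ≃ₐ[K] L)) ((Fm A B)^[b] a) with hSb
  have h0 : 0 < ρ := good.rho_pos
  have h1 : ρ < 1 := good.rho_lt
  have hlog : Real.log ρ < 0 := Real.log_neg h0 h1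
  obtain ⟨σ, -, hσ⟩ := mem_orbF.1 hx
  set y : L := σ a with hy
  have hyS : y ∈ S := mem_orbF.2 ⟨σ, Subgroup.mem_top σ, rfl⟩
  have hyx : (Fm A B)^[b] y = x := by rw [hy, Fm_iter_gal, hσ]
  set O : Finset L := orbF I y with hO
  have hOS : ∀ c ∈ O, c ∈ S := by
    intro c hc'
    have h2 : c ∈ orbF (⊤ : Subgroup (L ≃ₐ[K] L)) y := orbF_sub_top I y hc'
    rwa [orbF_eq_of_mem hyS] at h2
  have hOb : ∀ c ∈ O, (Fm A B)^[b] c ∈ Sb := by
    intro c hc'
    obtain ⟨τ, -, hτ⟩ := mem_orbF.1 (hOS c hc')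
    rw [← hτ, Fm_iter_gal]
    exact mem_orbF.2 ⟨τ, Subgroup.mem_top τ, rfl⟩
  have hOpos : 0 < O.card := orbF_card_pos I y
  set o : ℝ := (O.card : ℝ) with ho
  have hopos : 0 < o := by rw [ho]; exact_mod_cast hOpos
  have hob : (Q : ℝ) ^ b ≤ o := hc y hyS
  have hQb : 0 ≤ (Q : ℝ) ^ b / o := by positivity
  -- the lower bound for one point
  have hpt : ∀ c ∈ O, (Fm A B)^[b] c ≠ x → (Q : ℝ) ^ b / o ≤ tt w.val ρ x ((Fm A B)^[b] c) := by
    intro c hc' hne
    have hcy : y ≠ c := by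
      intro e
      apply hne
      rw [← e, hyx]
    have h2 := tau_orbit hI y hc'
    have h3 : 0 < cd w.val y c := cd_pos w.val hcy
    have h4 : o * Real.log (cd w.val y c) ≤ Real.log ρ := by
      have h5 := Real.log_le_log (pow_pos h3 _) h2
      rwa [Real.log_pow] at h5
    have h5 : 1 / o ≤ tt w.val ρ y c := by
      unfold tt
      rw [div_le_iff₀ hopos, div_mul_eq_mul_div, le_div_iff_of_neg hlog, one_mul, mul_comm]
      exact h4
    have h6 := tt_iter good b (x := y) (y := c) (fun i _ => (nice_mem ha hyS).ne i)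
      (fun i _ => (nice_mem ha (hOS c hc')).ne i) (by
        change (Fm A B)^[b] y ≠ (Fm A B)^[b] c
        rw [hyx]
        exact fun e => hne e.symm)
    calc (Q : ℝ) ^ b / o ≤ (ph Q)^[b] (1 / o) := ph_pow good.four b hopos hob
      _ ≤ (ph Q)^[b] (tt w.val ρ y c) := ph_iter_mono Q b h5
      _ ≤ tt w.val ρ ((Fm A B)^[b] y) ((Fm A B)^[b] c) := h6
      _ = tt w.val ρ x ((Fm A B)^[b] c) := by rw [hyx]
  -- the number of the images
  set X : Finset L := O.image ((Fm A B)^[b]) with hX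
  have hDb : 0 < dg K ((Fm A B)^[b] a) := dg_pos _
  have hD : 0 < dg K a := dg_pos _
  have hfx := fib_card (K := K) A B b a x hx
  set m : ℕ := (S.filter (fun c => (Fm A B)^[b] c = x)).card with hm
  have hcard : O.card ≤ m * X.card := by
    apply Finset.card_le_mul_card_image
    intro z hz
    have hzS : z ∈ Sb := by
      obtain ⟨c, hc', rfl⟩ := Finset.mem_image.1 hz
      exact hOb c hc'
    have h2 := fib_card (K := K) A B b a z hzS
    have h3 : (S.filter (fun c => (Fm A B)^[b] c = z)).card = m :=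
      Nat.eq_of_mul_eq_mul_right hDb (h2.trans hfx.symm)
    rw [← h3]
    exact Finset.card_le_card (Finset.filter_subset_filter _ (fun c hc' => hOS c hc'))
  have hcard' : o * (dg K ((Fm A B)^[b] a) : ℝ) / (dg K a : ℝ) ≤ (X.card : ℝ) := by
    rw [div_le_iff₀ (by exact_mod_cast hD)]
    have h2 : O.card * dg K ((Fm A B)^[b] a) ≤ X.card * dg K a := by
      calc O.card * dg K ((Fm A B)^[b] a) ≤ m * X.card * dg K ((Fm A B)^[b] a) :=
            Nat.mul_le_mul_right _ hcard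
        _ = X.card * (m * dg K ((Fm A B)^[b] a)) := by ring
        _ = X.card * dg K a := by rw [hfx]
    rw [ho]
    exact_mod_cast h2
  have hXS : X.erase x ⊆ Sb.erase x := by
    apply Finset.erase_subset_erase
    intro z hz
    obtain ⟨c, hc', rfl⟩ := Finset.mem_image.1 hz
    exact hOb c hc'
  have hsum1 : ∑ β ∈ X.erase x, tt w.val ρ x β ≤ ∑ β ∈ Sb.erase x, tt w.val ρ x β :=
    Finset.sum_le_sum_of_subset_of_nonneg hXS (fun β _ _ => tt_nonneg good.nonarch h0 h1 x β)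
  have hsum2 : ((X.erase x).card : ℝ) * ((Q : ℝ) ^ b / o) ≤ ∑ β ∈ X.erase x, tt w.val ρ x β := by
    rw [← nsmul_eq_mul]
    apply Finset.card_nsmul_le_sum
    intro z hz
    obtain ⟨hzx, hzX⟩ := Finset.mem_erase.1 hz
    obtain ⟨c, hc', rfl⟩ := Finset.mem_image.1 hzX
    exact hpt c hc' hzx
  have hX1 : (X.card : ℝ) - 1 ≤ ((X.erase x).card : ℝ) := by
    have h2 := Finset.pred_card_le_card_erase (s := X) (a := x)
    have h3 : X.card ≤ (X.erase x).card + 1 := by omega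
    have h4 : (X.card : ℝ) ≤ ((X.erase x).card : ℝ) + 1 := by exact_mod_cast h3
    linarith
  have hfin : (Q : ℝ) ^ b * (dg K ((Fm A B)^[b] a) : ℝ) / (dg K a : ℝ) - 1 ≤
      (o * (dg K ((Fm A B)^[b] a) : ℝ) / (dg K a : ℝ) - 1) * ((Q : ℝ) ^ b / o) := by
    have h2 : (Q : ℝ) ^ b / o ≤ 1 := by
      rw [div_le_one hopos]
      exact hob
    have h3 : (o * (dg K ((Fm A B)^[b] a) : ℝ) / (dg K a : ℝ) - 1) * ((Q : ℝ) ^ b / o)
        = (Q : ℝ) ^ b * (dg K ((Fm A B)^[b] a) : ℝ) / (dg K a : ℝ) - (Q : ℝ) ^ b / o := by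
      have hD' : (dg K a : ℝ) ≠ 0 := by exact_mod_cast hD.ne'
      field_simp
    rw [h3]
    linarith
  calc (Q : ℝ) ^ b * (dg K ((Fm A B)^[b] a) : ℝ) / (dg K a : ℝ) - 1
      ≤ (o * (dg K ((Fm A B)^[b] a) : ℝ) / (dg K a : ℝ) - 1) * ((Q : ℝ) ^ b / o) := hfin
    _ ≤ ((X.erase x).card : ℝ) * ((Q : ℝ) ^ b / o) :=
      mul_le_mul_of_nonneg_right ((sub_le_sub_right hcard' 1).trans hX1) hQb
    _ ≤ ∑ β ∈ X.erase x, tt w.val ρ x β := hsum2
    _ ≤ ∑ β ∈ Sb.erase x, tt w.val ρ x β := hsum1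

end LEH
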