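/-
LH/PrB (M)  MP_022f22_nt, Lehmer project, table modleh. Paper proof: /team-store/lehmer_proof.md
Case 1 of Prop B.  S = orbF top (F^[b] a), D_b = card, q = Q^b D_b/D.  sum over S.offDiag = sum over x in S of sum over S.erase x >= D_b (q - 1) (same_level), T = D_b (q-1)/2 (q >= 1 as q >= C3 >= 2).
hx beta = Q^b hx a for beta in S (Nice.ht).  Energy: Λ D_b (q-1)/2 <= C1 D_b (log D_b + 1) + 4 D_b * D_b Q^b hx a, divide by D_b; D_b Q^b = q D; D_b <= D:
Λ (q-1)/2 <= C1 (log D + 1) + 4 q D hx a.  With C3 = 2 + 8 C1/Λ and q >= C3 (log D + 1): (q-1)/2 >= q/4, C1 (log D+1) <= (C1/C3) q <= Λ q/8.  So 4 q D hx a >= Λ q/8, D hx a >= Λ/32 =: c5.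
-/
import Mathlib
import Pool.Agent.Work.MP_022f22_nt.LH.Defs
import Pool.Agent.Work.MP_022f22_nt.LH.Enr
import Pool.Agent.Work.MP_022f22_nt.LH.Sml
import Pool.Agent.Work.MP_022f22_nt.LH.Org
import Pool.Agent.Work.MP_022f22_nt.LH.Fmc
import Pool.Agent.Work.MP_022f22_nt.LH.Tti
import Pool.Agent.Work.MP_022f22_nt.LH.GMp

open NumberField IsDedekindDomain Polynomial Height Filter Topology

namespace LEH

theorem propB1 {K : Type} [Field K] [NumberField K] {v : HeightOneSpectrum (𝓞 K)}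
    {W : WeierstrassCurve K} {p N Q : ℕ} {A B : K[X]} (hs : Setup K v W p N Q A B)
    {ϖ : K} (hϖ : Unif v ϖ) :
    ∃ C3 c5 : ℝ, 0 < C3 ∧ 0 < c5 ∧ ∀ (L : Type) [Field L] [NumberField L] [Algebra K L]
      [FiniteDimensional K L] [IsGalois K L] (a : L) (_ : Nice W Q A B a) (b : ℕ)
      (_ : ∀ w : FinitePlace L, Above v w → ∃ (I : Subgroup (L ≃ₐ[K] L)) (Q' : ℕ),
        InertiaData w.val (w (algebraMap K L ϖ)) p Q' I 1 ∧
        ∀ y ∈ orbF (⊤ : Subgroup (L ≃ₐ[K] L)) a, (Q : ℝ) ^ b ≤ ((orbF I y).card : ℝ))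
      (_ : C3 * (Real.log (dg K a) + 1) ≤
        (Q : ℝ) ^ b * (dg K ((Fm A B)^[b] a) : ℝ) / (dg K a : ℝ)),
      c5 ≤ (dg K a : ℝ) * hx (W.baseChange L) a := by
  obtain ⟨C1, hC1, hE⟩ := energy v W hs.good hϖ
  have hN1 : 1 < Ideal.absNorm v.asIdeal := by
    have h0 : Ideal.absNorm v.asIdeal ≠ 0 := by
      rw [Ne, Ideal.absNorm_eq_zero_iff]; exact v.ne_bot
    have h1 : Ideal.absNorm v.asIdeal ≠ 1 := by
      rw [Ne, Ideal.absNorm_eq_one_iff]; exact v.isPrime.ne_top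
    omega
  have hlog : 0 < Real.log (Ideal.absNorm v.asIdeal) := Real.log_pos (by exact_mod_cast hN1)
  have hfr : 0 < (Module.finrank ℚ K : ℝ) := by exact_mod_cast Module.finrank_pos
  set Λ : ℝ := Real.log (Ideal.absNorm v.asIdeal) / (Module.finrank ℚ K : ℝ) with hΛ
  have hΛ0 : 0 < Λ := div_pos hlog hfr
  refine ⟨2 + 8 * C1 / Λ, Λ / 32, by positivity, by positivity, ?_⟩
  intro L _ _ _ _ _ a ha b hI hC
  set S : Finset L := orbF (⊤ : Subgroup (L ≃ₐ[K] L)) ((Fm A B)^[b] a) with hS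
  have hDb : (0 : ℝ) < (dg K ((Fm A B)^[b] a) : ℝ) := by exact_mod_cast dg_pos _
  have hD : (0 : ℝ) < (dg K a : ℝ) := by exact_mod_cast dg_pos _
  have hD1 : (1 : ℝ) ≤ (dg K a : ℝ) := by exact_mod_cast dg_pos _
  have hDb1 : (1 : ℝ) ≤ (dg K ((Fm A B)^[b] a) : ℝ) := by exact_mod_cast dg_pos _
  have hDbD : (dg K ((Fm A B)^[b] a) : ℝ) ≤ (dg K a : ℝ) := by
    exact_mod_cast dg_iter_le (K := K) A B (Nat.zero_le b) a
  have hcard : (S.card : ℝ) = (dg K ((Fm A B)^[b] a) : ℝ) := rfl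
  set Db : ℝ := (dg K ((Fm A B)^[b] a) : ℝ) with hDbdef
  set D : ℝ := (dg K a : ℝ) with hDdef
  set q : ℝ := (Q : ℝ) ^ b * Db / D with hq
  have hlD : 0 ≤ Real.log D := Real.log_nonneg hD1
  have hlDb : Real.log Db ≤ Real.log D := Real.log_le_log hDb hDbD
  have hC3 : 0 < 8 * C1 / Λ := by positivity
  have hq2 : 2 ≤ q := by nlinarith
  have hT : 0 ≤ Db * (q - 1) / 2 := by
    have : 0 ≤ q - 1 := by linarith
    positivity
  have hne : S.Nonempty := ⟨_, self_mem_orbF _ _⟩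
  have key := hE L S hne (Db * (q - 1) / 2) hT ?_
  · have hsum : ∑ β ∈ S, hx (W.baseChange L) β = Db * ((Q : ℝ) ^ b * hx (W.baseChange L) a) := by
      rw [Finset.sum_congr rfl (g := fun _ => (Q : ℝ) ^ b * hx (W.baseChange L) a)]
      · rw [Finset.sum_const, nsmul_eq_mul, hcard]
      · intro β hβ
        obtain ⟨σ, -, hσ⟩ := mem_orbF.mp hβ
        rw [← hσ, ← Fm_iter_gal]
        exact ha.ht σ b
    rw [hsum, hcard] at key
    have hqD : (Q : ℝ) ^ b * Db = q * D := by rw [hq]; field_simp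
    set H : ℝ := hx (W.baseChange L) a with hH
    have k2 : Λ * (q - 1) / 2 ≤ C1 * (Real.log Db + 1) + 4 * (q * D * H) := by
      have e1 : Λ * (Db * (q - 1) / 2) = Db * (Λ * (q - 1) / 2) := by ring
      have e2 : C1 * Db * (Real.log Db + 1) + 4 * Db * (Db * ((Q : ℝ) ^ b * H)) =
          Db * (C1 * (Real.log Db + 1) + 4 * (q * D * H)) := by
        rw [← hqD]; ring
      rw [e1, e2] at key
      exact le_of_mul_le_mul_left key hDb
    have k3 : C1 * (Real.log D + 1) ≤ Λ * q / 8 := by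
      have e3 : (2 + 8 * C1 / Λ) * (Real.log D + 1) ≤ q := hC
      have e4 : 8 * C1 / Λ * (Real.log D + 1) ≤ q := by nlinarith
      have e5 : Λ * (8 * C1 / Λ * (Real.log D + 1)) = 8 * (C1 * (Real.log D + 1)) := by
        field_simp
      have e6 : Λ * (8 * C1 / Λ * (Real.log D + 1)) ≤ Λ * q :=
        mul_le_mul_of_nonneg_left e4 hΛ0.le
      rw [e5] at e6
      linarith
    have k4 : C1 * (Real.log Db + 1) ≤ C1 * (Real.log D + 1) :=
      mul_le_mul_of_nonneg_left (by linarith) hC1.le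
    have k5 : Λ * q / 4 ≤ Λ * (q - 1) / 2 := by nlinarith
    have k6 : Λ * q / 8 ≤ 4 * (q * D * H) := by linarith
    have k7 : q * (Λ / 32) ≤ q * (D * H) := by nlinarith
    exact le_of_mul_le_mul_left k7 (by linarith)
  · intro w hw
    obtain ⟨I, Q', hI1, hI2⟩ := hI w hw
    classical
    have hsplit : ∑ r ∈ S.offDiag, tt w.val (w (algebraMap K L ϖ)) r.1 r.2 =
        ∑ x ∈ S, ∑ β ∈ S.erase x, tt w.val (w (algebraMap K L ϖ)) x β := by
      rw [Finset.sum_finset_product S.offDiag S (fun x => S.erase x)]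
      rintro ⟨x, y⟩
      simp only [Finset.mem_offDiag, Finset.mem_erase]
      constructor
      · rintro ⟨h1, h2, h3⟩
        exact ⟨h1, fun h => h3 h.symm, h2⟩
      · rintro ⟨h1, h2, h3⟩
        exact ⟨h1, h3, fun h => h2 h.symm⟩
    rw [hsplit]
    have hlow : ∀ x ∈ S, q - 1 ≤ ∑ β ∈ S.erase x, tt w.val (w (algebraMap K L ϖ)) x β := by
      intro x hx
      have := same_level hs hw hϖ ha b hI1 hI2 hx
      convert this using 2
    have := Finset.sum_le_sum hlow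
    rw [Finset.sum_const, nsmul_eq_mul, hcard] at this
    linarith

end LEH
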