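/-
LH/Drp (M)  MP_022f22_nt, Lehmer project, table modleh. Paper proof: /team-store/lehmer_proof.md
Last drop level.  The sequence dg(F^[n] a) is non-increasing, so there is a least k with dg(F^[n] a) = dg(F^[k] a) for all n >= k.  If k >= 1 then dg(F^[k] a) < dg(F^[k-1] a) (otherwise k-1 would do), and then there is
sigma with sigma(F^[k] a) = F^[k] a and sigma(F^[k-1] a) != F^[k-1] a: otherwise every sigma fixing F^[k] a fixes F^[k-1] a, so the map orbF top (F^[k-1] a) -> orbF top (F^[k] a), y -> F y, is injective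
(tau1 F^[k-1]a, tau2 F^[k-1] a with the same image: sigma = tau2^-1 tau1 fixes F^[k] a), and the orbits have the same cardinality.
-/
import Mathlib
import Pool.Agent.Work.MP_022f22_nt.LH.Defs
import Pool.Agent.Work.MP_022f22_nt.LH.Org
import Pool.Agent.Work.MP_022f22_nt.LH.Fmc

open NumberField IsDedekindDomain Polynomial Height Filter Topology

namespace LEH

theorem exists_drop {K L : Type*} [Field K] [Field L] [Algebra K L] [FiniteDimensional K L]
    (A B : K[X]) (a : L) :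
    ∃ k : ℕ, (∀ n, k ≤ n → dg K ((Fm A B)^[n] a) = dg K ((Fm A B)^[k] a)) ∧
      (k = 0 ∨ ∃ σ : L ≃ₐ[K] L, σ ((Fm A B)^[k] a) = (Fm A B)^[k] a ∧
        σ ((Fm A B)^[k - 1] a) ≠ (Fm A B)^[k - 1] a) := by
  classical
  have hex : ∃ k : ℕ, ∀ n, k ≤ n → dg K ((Fm A B)^[n] a) = dg K ((Fm A B)^[k] a) := by
    have h1 : ∃ d, ∃ k : ℕ, dg K ((Fm A B)^[k] a) = d := ⟨_, 0, rfl⟩
    obtain ⟨k, hk⟩ := Nat.find_spec h1
    refine ⟨k, fun n hn => le_antisymm (dg_iter_le A B hn a) ?_⟩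
    rw [hk]
    exact Nat.find_min' h1 ⟨n, rfl⟩
  set k := Nat.find hex with hk
  have hkspec := Nat.find_spec hex
  refine ⟨k, hkspec, ?_⟩
  by_cases hk0 : k = 0
  · exact Or.inl hk0
  right
  obtain ⟨m, hm⟩ : ∃ m, k = m + 1 := ⟨k - 1, by omega⟩
  have hnot : ¬ ∀ n, m ≤ n → dg K ((Fm A B)^[n] a) = dg K ((Fm A B)^[m] a) :=
    Nat.find_min hex (by omega)
  push Not at hnot
  obtain ⟨n, hn, hne⟩ := hnot
  have hnk : k ≤ n := by
    rcases Nat.lt_or_ge n k with h | h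
    · have : n = m := by omega
      rw [this] at hne
      exact absurd rfl hne
    · exact h
  have hlt : dg K ((Fm A B)^[k] a) < dg K ((Fm A B)^[m] a) := by
    refine lt_of_le_of_ne (dg_iter_le A B (by omega) a) ?_
    rw [← hkspec n hnk]
    exact hne
  have hm1 : k - 1 = m := by omega
  rw [hm1]
  by_contra hcon
  push Not at hcon
  apply absurd hlt
  rw [not_lt]
  unfold dg
  refine Finset.card_le_card_of_injOn (Fm A B) ?_ ?_
  · intro y hy
    obtain ⟨τ, _, rfl⟩ := mem_orbF.1 (Finset.mem_coe.1 hy)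
    refine Finset.mem_coe.2 (mem_orbF.2 ⟨τ, Subgroup.mem_top τ, ?_⟩)
    rw [Fm_gal, hm, Function.iterate_succ_apply']
  · intro y1 hy1 y2 hy2 h12
    obtain ⟨τ1, _, rfl⟩ := mem_orbF.1 (Finset.mem_coe.1 hy1)
    obtain ⟨τ2, _, rfl⟩ := mem_orbF.1 (Finset.mem_coe.1 hy2)
    have e : Fm A B ((Fm A B)^[m] a) = (Fm A B)^[k] a := by
      rw [hm, Function.iterate_succ_apply']
    rw [Fm_gal, Fm_gal, e] at h12
    have h3 : (τ2⁻¹ * τ1) ((Fm A B)^[k] a) = (Fm A B)^[k] a := by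
      rw [AlgEquiv.mul_apply, h12, ← AlgEquiv.mul_apply, inv_mul_cancel]
      rfl
    have h4 := hcon _ h3
    have h5 : τ2 ((τ2⁻¹ * τ1) ((Fm A B)^[m] a)) = τ1 ((Fm A B)^[m] a) := by
      rw [← AlgEquiv.mul_apply, mul_inv_cancel_left]
    rw [← h5, h4]

end LEH
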