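/-
LH/Ob1 (S)  MP_022f22_nt, Lehmer project, table modleh. Paper proof: /team-store/lehmer_proof.md
(b) in Prop B: w z > 1.  y = z^-1, w y < 1, cdi w z = w y.  u = prod_{c in orbF I z} c^-1 is fixed by every sigma in I (sigma permutes the orbit) and
w u = (w y)^(card) < 1 (inert_abs; card > 0), so w u <= rho by unram.
-/
import Mathlib
import Pool.Agent.Work.MP_022f22_nt.LH.Defs
import Pool.Agent.Work.MP_022f22_nt.LH.Org

open NumberField IsDedekindDomain Polynomial Height Filter Topology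

namespace LEH

theorem orb_inf {K L : Type*} [Field K] [Field L] [Algebra K L] [FiniteDimensional K L]
    {w : AbsoluteValue L ℝ} {ρ : ℝ} {p Q : ℕ} {I : Subgroup (L ≃ₐ[K] L)} {φ : L ≃ₐ[K] L}
    (h : InertiaData w ρ p Q I φ) {z : L} (hz : 1 < w z) :
    (cdi w z) ^ (orbF I z).card ≤ ρ := by
  classical
  have hperm : ∀ σ ∈ I, (orbF I z).image (fun c => σ c) = orbF I z := by
    intro σ hσ
    apply Finset.eq_of_subset_of_card_le
    · intro b hb
      obtain ⟨c, hc, rfl⟩ := Finset.mem_image.1 hb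
      obtain ⟨τ, hτ, rfl⟩ := mem_orbF.1 hc
      exact mem_orbF.2 ⟨σ * τ, I.mul_mem hσ hτ, rfl⟩
    · rw [Finset.card_image_of_injective _ (fun a b hab => σ.injective hab)]
  have hfix : ∀ σ ∈ I, σ (∏ c ∈ orbF I z, c⁻¹) = ∏ c ∈ orbF I z, c⁻¹ := by
    intro σ hσ
    rw [map_prod]
    have h1 : ∏ c ∈ orbF I z, σ (c⁻¹) = ∏ c ∈ (orbF I z).image (fun c => σ c), c⁻¹ := by
      rw [Finset.prod_image (fun a _ b _ hab => σ.injective hab)]
      exact Finset.prod_congr rfl (fun c _ => map_inv₀ σ c)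
    rw [h1, hperm σ hσ]
  have hcd : cdi w z = (w z)⁻¹ := by
    unfold cdi
    rw [max_eq_left hz.le, one_div]
  have hval : w (∏ c ∈ orbF I z, c⁻¹) = (cdi w z) ^ (orbF I z).card := by
    rw [map_prod, hcd, ← Finset.prod_const]
    refine Finset.prod_congr rfl (fun c hc => ?_)
    obtain ⟨τ, hτ, rfl⟩ := mem_orbF.1 hc
    rw [map_inv₀, h.inert_abs τ hτ]
  have hlt : w (∏ c ∈ orbF I z, c⁻¹) < 1 := by
    rw [hval, hcd]
    exact pow_lt_one₀ (by positivity) (inv_lt_one_of_one_lt₀ hz) (orbF_card_pos I z).ne'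
  rw [← hval]
  exact h.unram _ hfix hlt

end LEH
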