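/-
LH/Ob2 (M)  MP_022f22_nt, Lehmer project, table modleh. Paper proof: /team-store/lehmer_proof.md
Pure group action count ((a) in Prop B).  I finite group acting on L; y, y', z, z' in L.
Hypotheses: (h1) every tau in I with tau y = y maps y' into S, |S| <= m; (h2) every tau in I fixing y and y' maps z to z or z'.
Claim |I z| <= 2 |I y| m.
Proof.  Let O = {(tau y, tau y')}, O3 = {(tau y, tau y', tau z)} (finite images over tau in I).  Projection O -> I y: the fibre over tau0 y consists of (tau0 y, tau y') with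
tau y = tau0 y, i.e. tau = tau0 tau1, tau1 y = y, tau y' = tau0(tau1 y') in tau0(S): at most m elements.  So |O| <= |I y| m (Finset.card_le_mul_card_image).
Projection O3 -> O: fibre over (tau0 y, tau0 y'): tau = tau0 tau1, tau1 fixes y, y', tau z = tau0(tau1 z) in {tau0 z, tau0 z'}: at most 2.  So |O3| <= 2|O|.
O3 -> I z is onto.
-/
import Mathlib
import Pool.Agent.Work.MP_022f22_nt.LH.Defs
import Pool.Agent.Work.MP_022f22_nt.LH.Org

open NumberField IsDedekindDomain Polynomial Height Filter Topology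

namespace LEH

private theorem conj_step {K L : Type*} [Field K] [Field L] [Algebra K L]
    (I : Subgroup (L ≃ₐ[K] L)) {τ0 τ : L ≃ₐ[K] L} (h0 : τ0 ∈ I) (h : τ ∈ I) :
    ∃ τ1 ∈ I, ∀ x, τ x = τ0 (τ1 x) :=
  ⟨τ0⁻¹ * τ, I.mul_mem (I.inv_mem h0) h, fun x => by
    change τ x = τ0 (τ0.symm (τ x))
    rw [AlgEquiv.apply_symm_apply]⟩

theorem orb_growth {K L : Type*} [Field K] [Field L] [Algebra K L] [FiniteDimensional K L]
    (I : Subgroup (L ≃ₐ[K] L)) (y y' z z' : L) (m : ℕ) (S : Finset L) (hS : S.card ≤ m)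
    (h1 : ∀ τ ∈ I, τ y = y → τ y' ∈ S)
    (h2 : ∀ τ ∈ I, τ y = y → τ y' = y' → τ z = z ∨ τ z = z') :
    (orbF I z).card ≤ 2 * ((orbF I y).card * m) := by
  classical
  set O : Finset (L × L) := Finset.univ.image
    (fun σ : I => ((σ : L ≃ₐ[K] L) y, (σ : L ≃ₐ[K] L) y')) with hO
  set O3 : Finset (L × L × L) := Finset.univ.image
    (fun σ : I => ((σ : L ≃ₐ[K] L) y, (σ : L ≃ₐ[K] L) y', (σ : L ≃ₐ[K] L) z)) with hO3
  have e1 : O.image Prod.fst = orbF I y := by
    rw [hO, Finset.image_image]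
    unfold orbF
    ext x
    simp [Finset.mem_image]
  have e2 : O3.image (fun t : L × L × L => (t.1, t.2.1)) = O := by
    rw [hO3, hO, Finset.image_image]
    rfl
  have e3 : O3.image (fun t : L × L × L => t.2.2) = orbF I z := by
    rw [hO3, Finset.image_image]
    unfold orbF
    ext x
    simp [Finset.mem_image]
  have c1 : O.card ≤ m * (O.image Prod.fst).card := by
    refine Finset.card_le_mul_card_image O m fun a ha => ?_
    obtain ⟨t, ht, rfl⟩ := Finset.mem_image.mp ha
    obtain ⟨⟨τ0, h0⟩, -, rfl⟩ := Finset.mem_image.mp ht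
    refine le_trans (Finset.card_le_card (t := (S.image τ0).image fun b => (τ0 y, b)) ?_)
      (le_trans Finset.card_image_le (le_trans Finset.card_image_le hS))
    intro u hu
    obtain ⟨hu1, hu2⟩ := Finset.mem_filter.mp hu
    obtain ⟨⟨τ, h⟩, -, rfl⟩ := Finset.mem_image.mp hu1
    simp only at hu2
    obtain ⟨τ1, hτ1, hx⟩ := conj_step I h0 h
    have h3 : τ1 y = y := by
      have h4 := hx y
      rw [hu2] at h4
      exact (τ0.injective h4).symm
    refine Finset.mem_image.mpr ⟨τ y', Finset.mem_image.mpr ⟨τ1 y', h1 τ1 hτ1 h3, (hx y').symm⟩, ?_⟩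
    simp only [hu2]
  have c2 : O3.card ≤ 2 * (O3.image (fun t : L × L × L => (t.1, t.2.1))).card := by
    refine Finset.card_le_mul_card_image O3 2 fun a ha => ?_
    obtain ⟨t, ht, rfl⟩ := Finset.mem_image.mp ha
    obtain ⟨⟨τ0, h0⟩, -, rfl⟩ := Finset.mem_image.mp ht
    refine le_trans (Finset.card_le_card
      (t := {(τ0 y, τ0 y', τ0 z), (τ0 y, τ0 y', τ0 z')}) ?_) Finset.card_le_two
    intro u hu
    obtain ⟨hu1, hu2⟩ := Finset.mem_filter.mp hu
    obtain ⟨⟨τ, h⟩, -, rfl⟩ := Finset.mem_image.mp hu1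
    simp only [Prod.mk.injEq] at hu2
    obtain ⟨τ1, hτ1, hx⟩ := conj_step I h0 h
    have h3 : τ1 y = y := by
      have h4 := hx y
      rw [hu2.1] at h4
      exact (τ0.injective h4).symm
    have h5 : τ1 y' = y' := by
      have h4 := hx y'
      rw [hu2.2] at h4
      exact (τ0.injective h4).symm
    rw [Finset.mem_insert, Finset.mem_singleton]
    rcases h2 τ1 hτ1 h3 h5 with h6 | h6
    · left
      simp only [hu2.1, hu2.2, hx z, h6]
    · right
      simp only [hu2.1, hu2.2, hx z, h6]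
  calc (orbF I z).card = (O3.image (fun t : L × L × L => t.2.2)).card := by rw [e3]
    _ ≤ O3.card := Finset.card_image_le
    _ ≤ 2 * O.card := by rw [e2] at c2; exact c2
    _ ≤ 2 * (m * (orbF I y).card) := by rw [e1] at c1; exact Nat.mul_le_mul_left 2 c1
    _ = 2 * ((orbF I y).card * m) := by ring

end LEH
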