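/-
LH/Tor (M-L)  MP_022f22_nt, Lehmer project, table modleh. Paper proof: /team-store/lehmer_proof.md
Distance of a torsion x-coordinate to infinity ((c) in Prop B of the paper proof).  f u = A.eval u/B.eval u, z_i = f^[i] z, tau_i = log(cdi w z_i)/log rho.
Hypotheses: z_0,...,z_{k-2} have B != 0, B.eval z_{k-1} = 0; B.coeff(Q-1) = Q; rho^e <= w(Q).
1. For i <= k-1: 1 < w z_i.  If w z_i <= 1 then all later z_j have w <= 1 (good_int) and w(B.eval z_{k-1}) = 1, contradiction.
2. tau_{k-1} <= e: x = z_{k-1}, y = x^-1, w y < 1: multiply B.eval x = 0 by y^(Q-1): Q + sum_{i<Q-1} B_i y^(Q-1-i) = 0 (natDegree B < Q), all terms of the sum have w <= w y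
   (w B_i <= 1), so rho^e <= w(Q) <= w y = cdi w x.
3. tau_{i+1} >= ph Q tau_i for i+1 <= k-1 (good_cdi, take logs as in Tti; cdi > 0), i.e. tau_i <= max(tau_{i+1}/Q, tau_{i+1} - 1).
4. Backward induction on j (i = k-1-j): for j <= e: tau_{k-1-j} <= max(e-j) 1;  for j >= e: tau_{k-1-j} <= 1/Q^(j-e).
   (if M <= max(e-j)1 then M-1 <= max(e-j-1) 1 and M/4 <= max(e-j-1) 1; if M <= 1 then M - 1 <= 0.)
5. j = k-1: if k-1 >= e: tau_0 <= Q^(e+1)/Q^k; else tau_0 <= e+1 <= (e+1) Q^(e+1)/Q^k since k <= e.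
-/
import Mathlib
import Pool.Agent.Work.MP_022f22_nt.LH.Defs
import Pool.Agent.Work.MP_022f22_nt.LH.Cdb
import Pool.Agent.Work.MP_022f22_nt.LH.Itg
import Pool.Agent.Work.MP_022f22_nt.LH.Pwr
import Pool.Agent.Work.MP_022f22_nt.LH.Phi

open NumberField IsDedekindDomain Polynomial Height Filter Topology

namespace LEH

private theorem sum_le' {L : Type*} [Field L] {w : AbsoluteValue L ℝ} (hw : IsNonarchimedean w)
    {ι : Type*} (s : Finset ι) (f : ι → L) {c : ℝ} (hc : 0 ≤ c) (h : ∀ i ∈ s, w (f i) ≤ c) :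
    w (∑ i ∈ s, f i) ≤ c := by
  classical
  induction s using Finset.induction_on with
  | empty => simpa using hc
  | insert a s ha ih =>
    rw [Finset.sum_insert ha]
    refine (hw _ _).trans (max_le (h a (Finset.mem_insert_self _ _)) (ih fun i hi => ?_))
    exact h i (Finset.mem_insert_of_mem hi)

private noncomputable def TT (Q e j : ℕ) : ℝ :=
  if j ≤ e then max ((e : ℝ) - j) 1 else 1 / (Q : ℝ) ^ (j - e)

private theorem TT_step {Q : ℕ} (hQ : 4 ≤ Q) (e j : ℕ) {a b : ℝ} (ha : a ≤ TT Q e j)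
    (hab : b ≤ max (a / Q) (a - 1)) : b ≤ TT Q e (j + 1) := by
  have hQ4 : (4 : ℝ) ≤ Q := by exact_mod_cast hQ
  have hQ0 : (0 : ℝ) < Q := by linarith
  have h1 : b ≤ max (TT Q e j / Q) (TT Q e j - 1) :=
    hab.trans (max_le_max (div_le_div_of_nonneg_right ha hQ0.le) (by linarith))
  refine h1.trans (max_le ?_ ?_)
  · unfold TT
    by_cases hj : j + 1 ≤ e
    · have hj' : j ≤ e := by omega
      have hr : (j : ℝ) + 1 ≤ e := by exact_mod_cast hj
      rw [if_pos hj', if_pos hj, max_eq_left (by linarith : (1 : ℝ) ≤ (e : ℝ) - j)]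
      have h2 : ((e : ℝ) - j) / Q ≤ ((e : ℝ) - j) / 4 :=
        div_le_div_of_nonneg_left (by linarith) (by norm_num) hQ4
      refine h2.trans ?_
      push_cast
      by_cases h4 : (e : ℝ) - j ≤ 4
      · exact le_max_of_le_right (by linarith)
      · exact le_max_of_le_left (by linarith)
    · rw [if_neg hj]
      by_cases hj' : j ≤ e
      · have hje : j = e := by omega
        subst hje
        rw [if_pos hj', sub_self, max_eq_right (by norm_num : (0 : ℝ) ≤ 1)]
        rw [show j + 1 - j = 1 by omega, pow_one]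
      · rw [if_neg hj', show j + 1 - e = (j - e) + 1 by omega, pow_succ, div_div]
  · unfold TT
    by_cases hj : j + 1 ≤ e
    · have hj' : j ≤ e := by omega
      have hr : (j : ℝ) + 1 ≤ e := by exact_mod_cast hj
      rw [if_pos hj', if_pos hj, max_eq_left (by linarith : (1 : ℝ) ≤ (e : ℝ) - j)]
      push_cast
      exact le_max_of_le_left (by linarith)
    · rw [if_neg hj]
      have h0 : 0 ≤ 1 / (Q : ℝ) ^ (j + 1 - e) := by positivity
      refine le_trans ?_ h0
      by_cases hj' : j ≤ e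
      · have hje : j = e := by omega
        subst hje
        rw [if_pos hj', sub_self, max_eq_right (by norm_num : (0 : ℝ) ≤ 1)]
        norm_num
      · rw [if_neg hj', sub_nonpos]
        rw [div_le_one (by positivity)]
        exact one_le_pow₀ (by linarith)

theorem tor_bound {L : Type*} [Field L] {w : AbsoluteValue L ℝ} {ρ : ℝ} {p Q : ℕ} {A B : L[X]}
    (h : GoodMap w ρ p Q A B) (hB : B.coeff (Q - 1) = (Q : L)) (e : ℕ) (he : ρ ^ e ≤ w (Q : L))
    (z : L) (k : ℕ) (hk : 1 ≤ k)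
    (hne : ∀ i, i + 1 < k → B.eval ((fun u => A.eval u / B.eval u)^[i] z) ≠ 0)
    (h0 : B.eval ((fun u => A.eval u / B.eval u)^[k - 1] z) = 0) :
    1 < w z ∧ Real.log (cdi w z) / Real.log ρ ≤ ((e : ℝ) + 1) * (Q : ℝ) ^ (e + 1) / (Q : ℝ) ^ k := by
  set f : L → L := fun u => A.eval u / B.eval u with hf
  have hw := h.nonarch
  have hQ4 : (4 : ℝ) ≤ Q := by exact_mod_cast h.four
  have hQ0 : (0 : ℝ) < Q := by linarith
  have hlρ : Real.log ρ < 0 := Real.log_neg h.rho_pos h.rho_lt
  -- step 1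
  have hbig : ∀ i, i ≤ k - 1 → 1 < w (f^[i] z) := by
    intro i hi
    by_contra hcon
    have hcon' : w (f^[i] z) ≤ 1 := not_lt.1 hcon
    have hall : ∀ j, w (f^[i + j] z) ≤ 1 := by
      intro j
      induction j with
      | zero => exact hcon'
      | succ j ih =>
        rw [← add_assoc, Function.iterate_succ_apply']
        exact (good_int h ih).2.1
    have h1 := hall (k - 1 - i)
    rw [show i + (k - 1 - i) = k - 1 by omega] at h1
    have h2 := (good_int h h1).1
    rw [h0, w.map_zero] at h2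
    exact zero_ne_one h2
  set τ : ℕ → ℝ := fun i => Real.log (cdi w (f^[i] z)) / Real.log ρ with hτ
  -- step 2
  have hlast : τ (k - 1) ≤ e := by
    have hx1 := hbig (k - 1) le_rfl
    set x := f^[k - 1] z with hx
    have hx0 : x ≠ 0 := by
      intro h'
      rw [h', w.map_zero] at hx1
      linarith
    have hwy : w x⁻¹ < 1 := by
      rw [map_inv₀]
      exact inv_lt_one_of_one_lt₀ hx1
    have hcdi : cdi w x = w x⁻¹ := by
      unfold cdi
      rw [max_eq_left hx1.le, map_inv₀, one_div]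
    have hQ1 : Q = (Q - 1) + 1 := by
      have := h.four
      omega
    have hsum : (Q : L) = - ∑ i ∈ Finset.range (Q - 1), B.coeff i * (x⁻¹) ^ (Q - 1 - i) := by
      have h1 : B.eval x = ∑ i ∈ Finset.range ((Q - 1) + 1), B.coeff i * x ^ i :=
        Polynomial.eval_eq_sum_range' (by rw [← hQ1]; exact h.B_deg) x
      rw [h0, Finset.sum_range_succ, hB] at h1
      have h2 : (x⁻¹) ^ (Q - 1) * (∑ i ∈ Finset.range (Q - 1), B.coeff i * x ^ i +
          (Q : L) * x ^ (Q - 1)) = 0 := by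
        rw [← h1, mul_zero]
      rw [mul_add, Finset.mul_sum] at h2
      have h3 : (x⁻¹) ^ (Q - 1) * ((Q : L) * x ^ (Q - 1)) = Q := by
        rw [mul_left_comm, inv_pow, inv_mul_cancel₀ (pow_ne_zero _ hx0), mul_one]
      have h4 : ∀ i ∈ Finset.range (Q - 1), (x⁻¹) ^ (Q - 1) * (B.coeff i * x ^ i) =
          B.coeff i * (x⁻¹) ^ (Q - 1 - i) := by
        intro i hi
        have hi' : i ≤ Q - 1 := (Finset.mem_range.1 hi).le
        have h5 : (x⁻¹) ^ (Q - 1) = (x⁻¹) ^ (Q - 1 - i) * (x⁻¹) ^ i := by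
          rw [← pow_add, Nat.sub_add_cancel hi']
        rw [h5, mul_mul_mul_comm, mul_comm _ (B.coeff i), mul_assoc, inv_pow x i,
          inv_mul_cancel₀ (pow_ne_zero _ hx0), mul_one]
      rw [h3, Finset.sum_congr rfl h4] at h2
      exact eq_neg_of_add_eq_zero_right h2
    have hwQ : w (Q : L) ≤ w x⁻¹ := by
      rw [hsum, w.map_neg]
      refine sum_le' hw _ _ (w.nonneg _) fun i hi => ?_
      rw [w.map_mul, w.map_pow]
      have hi' : i < Q - 1 := Finset.mem_range.1 hi
      have hBi : w (B.coeff i) ≤ 1 := by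
        rcases Nat.eq_zero_or_pos i with h' | h'
        · subst h'
          have e4 : B.coeff 0 = (B.coeff 0 - 1) + 1 := by ring
          rw [e4]
          refine (hw _ _).trans (max_le (h.B_zero.trans h.rho_lt.le) ?_)
          rw [w.map_one]
        · exact (h.B_low i h').trans h.rho_lt.le
      have hpw : w x⁻¹ ^ (Q - 1 - i) ≤ w x⁻¹ := by
        have := pow_le_pow_of_le_one (w.nonneg x⁻¹) hwy.le (show 1 ≤ Q - 1 - i by omega)
        rwa [pow_one] at this
      calc _ ≤ 1 * w x⁻¹ := mul_le_mul hBi hpw (pow_nonneg (w.nonneg _) _) zero_le_one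
        _ = w x⁻¹ := one_mul _
    have h6 : ρ ^ e ≤ cdi w x := by
      rw [hcdi]
      exact he.trans hwQ
    have h7 := Real.log_le_log (pow_pos h.rho_pos e) h6
    rw [Real.log_pow] at h7
    change Real.log (cdi w x) / Real.log ρ ≤ e
    rw [div_le_iff_of_neg hlρ]
    exact h7
  -- step 3
  have hstep : ∀ i, i + 1 ≤ k - 1 → τ i ≤ max (τ (i + 1) / Q) (τ (i + 1) - 1) := by
    intro i hi
    have h1 := good_cdi h (hne i (by omega))
    have h2 : f^[i + 1] z = A.eval (f^[i] z) / B.eval (f^[i] z) := by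
      rw [Function.iterate_succ_apply']
    rw [← h2] at h1
    have hp0 := cdi_pos w (f^[i] z)
    have hp1 := cdi_pos w (f^[i + 1] z)
    rcases le_max_iff.1 h1 with h3 | h3
    · refine le_max_of_le_right ?_
      have h4 := Real.log_le_log hp1 h3
      rw [Real.log_mul h.rho_pos.ne' hp0.ne'] at h4
      change Real.log (cdi w (f^[i] z)) / Real.log ρ ≤ Real.log (cdi w (f^[i + 1] z)) / Real.log ρ - 1
      rw [le_sub_iff_add_le, div_add_one hlρ.ne, div_le_div_right_of_neg hlρ]
      linarith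
    · refine le_max_of_le_left ?_
      have h4 := Real.log_le_log hp1 h3
      rw [Real.log_pow] at h4
      change Real.log (cdi w (f^[i] z)) / Real.log ρ ≤ Real.log (cdi w (f^[i + 1] z)) / Real.log ρ / Q
      rw [le_div_iff₀ hQ0, div_mul_eq_mul_div, div_le_div_right_of_neg hlρ]
      linarith
  -- step 4
  have hind : ∀ j, j ≤ k - 1 → τ (k - 1 - j) ≤ TT Q e j := by
    intro j
    induction j with
    | zero =>
      intro _
      unfold TT
      rw [if_pos (Nat.zero_le _), Nat.sub_zero]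
      refine hlast.trans (le_max_of_le_left ?_)
      simp
    | succ j ih =>
      intro hj
      have h1 := ih (by omega)
      have h2 := hstep (k - 1 - (j + 1)) (by omega)
      rw [show k - 1 - (j + 1) + 1 = k - 1 - j by omega] at h2
      exact TT_step h.four e j h1 h2
  refine ⟨hbig 0 (Nat.zero_le _), ?_⟩
  have h5 := hind (k - 1) le_rfl
  rw [Nat.sub_self] at h5
  change τ 0 ≤ _
  refine h5.trans ?_
  have hQk : (0 : ℝ) < (Q : ℝ) ^ k := by positivity
  unfold TT
  by_cases hke : k - 1 ≤ e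
  · rw [if_pos hke]
    have h6 : (Q : ℝ) ^ k ≤ (Q : ℝ) ^ (e + 1) := pow_le_pow_right₀ (by linarith) (by omega)
    have h7 : ((e : ℝ) + 1) ≤ ((e : ℝ) + 1) * (Q : ℝ) ^ (e + 1) / (Q : ℝ) ^ k := by
      rw [le_div_iff₀ hQk]
      exact mul_le_mul_of_nonneg_left h6 (by positivity)
    refine le_trans (max_le ?_ ?_) h7
    · have : (0 : ℝ) ≤ ((k - 1 : ℕ) : ℝ) := Nat.cast_nonneg _
      linarith
    · have : (0 : ℝ) ≤ (e : ℝ) := Nat.cast_nonneg _
      linarith
  · rw [if_neg hke]
    have h8 : (Q : ℝ) ^ k = (Q : ℝ) ^ (k - 1 - e) * (Q : ℝ) ^ (e + 1) := by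
      rw [← pow_add]
      congr 1
      omega
    rw [h8, mul_div_mul_right _ _ (by positivity : (Q : ℝ) ^ (e + 1) ≠ 0)]
    refine div_le_div_of_nonneg_right ?_ (by positivity)
    have : (0 : ℝ) ≤ (e : ℝ) := Nat.cast_nonneg _
    linarith

end LEH
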