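/-
LH/Tpt (M)  MP_022f22_nt, Lehmer project, table modleh. Paper proof: /team-store/lehmer_proof.md
The torsion point (Case 2 of Prop B).  P non-torsion in E(L), y = xc P, k >= 1, sigma(F^[k] y) = F^[k] y, sigma(F^[k-1] y) != F^[k-1] y.  By nice_point F^[i] y = xc(N^i P).
So xc(N^k cj sigma P) = xc(N^k P): N^k sigmaP = e N^k P, e = +-1 (eq_or_neg).  T = sigmaP - eP, T' = sigmaP + eP.  N^k T = 0.  N^(k-1) T != 0: otherwise N^(k-1) sigmaP = e N^(k-1) P and sigma(F^[k-1]y) = F^[k-1] y.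
If tau fixes y and sigma y then tau P = +-P and tau sigmaP = +-sigmaP (eq_or_neg, cj_xc), so cj tau T = +-T or +-T' and (T != 0, so cj tau T != 0) tau(xc T) = xc(cj tau T) = xc T or xc T'
(xRep_neg: xc(-R) = xc R).   Moreover F^[i](xc T) = xc(N^i T) for i <= k-1 and B(xc(N^i T)) != 0 for i+1 < k (Setup.mul, N^(i+1) T != 0 because N^(k-1) T != 0), B(xc(N^(k-1) T)) = 0 (N^k T = 0).
-/
import Mathlib
import Pool.Agent.Work.MP_022f22_nt.LH.Defs
import Pool.Agent.Work.MP_022f22_nt.LH.CjP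
import Pool.Agent.Work.MP_022f22_nt.LH.Fmc
import Pool.Agent.Work.MP_022f22_nt.LH.NiP

open NumberField IsDedekindDomain Polynomial Height Filter Topology

namespace LEH

private theorem xc_neg {F : Type*} [Field F] {E : WeierstrassCurve F} (P : E.toAffine.Point) :
    xc (-P) = xc P := by
  unfold xc
  rw [WeierstrassCurve.Affine.Point.xRep_neg]

private theorem pm {K L : Type*} [Field K] [Field L] [Algebra K L] [DecidableEq L]
    {W : WeierstrassCurve K} (τ : L ≃ₐ[K] L) {R : (W.baseChange L).toAffine.Point} (hR : R ≠ 0)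
    (h : τ (xc R) = xc R) : cj τ R = R ∨ cj τ R = -R := by
  apply eq_or_neg
  · exact fun h0 => hR ((cj_eq_zero τ R).mp h0)
  · exact hR
  · rw [cj_xc, h]

theorem exists_torsion {K : Type} [Field K] [NumberField K] {v : HeightOneSpectrum (𝓞 K)}
    {W : WeierstrassCurve K} {p N Q : ℕ} {A B : K[X]} (hs : Setup K v W p N Q A B)
    {L : Type} [Field L] [NumberField L] [Algebra K L] [FiniteDimensional K L] [DecidableEq L]
    (P : (W.baseChange L).toAffine.Point) (hP : NT P) (k : ℕ) (hk : 1 ≤ k) (σ : L ≃ₐ[K] L)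
    (h1 : σ ((Fm A B)^[k] (xc P)) = (Fm A B)^[k] (xc P))
    (h2 : σ ((Fm A B)^[k - 1] (xc P)) ≠ (Fm A B)^[k - 1] (xc P)) :
    ∃ z z' : L, (∀ τ : L ≃ₐ[K] L, τ (xc P) = xc P → τ (σ (xc P)) = σ (xc P) →
        τ z = z ∨ τ z = z') ∧
      (∀ i, i + 1 < k → (B.map (algebraMap K L)).eval ((Fm A B)^[i] z) ≠ 0) ∧
      (B.map (algebraMap K L)).eval ((Fm A B)^[k - 1] z) = 0 := by
  obtain ⟨s, hs0, hN⟩ := hs.N_pow
  have hNpos : 0 < N := by rw [hN]; exact pow_pos hs.prime.pos _
  have hNk : ∀ n, 0 < N ^ n := fun n => pow_pos hNpos n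
  set S := cj σ P with hS
  have hSNT : NT S := cj_NT σ hP
  have hP0 : P ≠ 0 := by
    have := hP 1 one_pos
    rwa [one_nsmul] at this
  have hS0 : S ≠ 0 := by
    have := hSNT 1 one_pos
    rwa [one_nsmul] at this
  have hxP : ∀ n : ℕ, xc (N ^ n • P) = (Fm A B)^[n] (xc P) := (nice_point hs P hP).2
  have hxS : ∀ n : ℕ, xc (N ^ n • S) = σ ((Fm A B)^[n] (xc P)) := by
    intro n
    rw [(nice_point hs S hSNT).2 n, hS, cj_xc, Fm_iter_gal]
  have hkP : N ^ k • P ≠ 0 := hP _ (hNk k)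
  have hkS : N ^ k • S ≠ 0 := hSNT _ (hNk k)
  -- the sign
  obtain ⟨P1, hP1, hkeq⟩ : ∃ P1 : (W.baseChange L).toAffine.Point, (P1 = P ∨ P1 = -P) ∧
      N ^ k • S = N ^ k • P1 := by
    have hx : xc (N ^ k • S) = xc (N ^ k • P) := by rw [hxS, hxP, h1]
    rcases eq_or_neg hkS hkP hx with h | h
    · exact ⟨P, Or.inl rfl, h⟩
    · refine ⟨-P, Or.inr rfl, ?_⟩
      rw [h, smul_neg]
  have hxP1 : ∀ n : ℕ, xc (N ^ n • P1) = xc (N ^ n • P) := by
    intro n
    rcases hP1 with h | h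
    · rw [h]
    · rw [h, smul_neg, xc_neg]
  have hP1x : xc P1 = xc P := by
    rcases hP1 with h | h
    · rw [h]
    · rw [h, xc_neg]
  have hP10 : P1 ≠ 0 := by
    rcases hP1 with h | h
    · rw [h]; exact hP0
    · rw [h]; exact neg_ne_zero.mpr hP0
  set T := S - P1 with hT
  set T' := S + P1 with hT'
  have hkT : N ^ k • T = 0 := by
    rw [hT, smul_sub, hkeq, sub_self]
  have hk1T : N ^ (k - 1) • T ≠ 0 := by
    intro h0
    rw [hT, smul_sub, sub_eq_zero] at h0
    apply h2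
    rw [← hxS, ← hxP, h0, hxP1]
  have hiT : ∀ i, i ≤ k - 1 → N ^ i • T ≠ 0 := by
    intro i hi h0
    apply hk1T
    have e : N ^ (k - 1) = N ^ (k - 1 - i) * N ^ i := by
      rw [← pow_add]; congr 1; omega
    rw [e, mul_smul, h0, smul_zero]
  have hstep : ∀ i, N • (N ^ i • T) = N ^ (i + 1) • T := by
    intro i
    rw [← mul_smul, pow_succ']
  have hiter : ∀ i, i ≤ k - 1 → (Fm A B)^[i] (xc T) = xc (N ^ i • T) := by
    intro i
    induction i with
    | zero => intro _; simp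
    | succ i ih =>
      intro hi
      rw [Function.iterate_succ_apply', ih (by omega)]
      have h3 := (hs.mul L (N ^ i • T) (hiT i (by omega))).2
      rw [hstep] at h3
      exact (h3 (hiT (i + 1) hi)).symm
  refine ⟨xc T, xc T', ?_, ?_, ?_⟩
  · intro τ hτ1 hτ2
    have e1 : cj τ P1 = P1 ∨ cj τ P1 = -P1 := pm τ hP10 (by rw [hP1x, hτ1])
    have e2 : cj τ S = S ∨ cj τ S = -S := by
      apply pm τ hS0
      rw [hS, cj_xc]
      exact hτ2
    have hcT : cj τ T = cj τ S - cj τ P1 := by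
      rw [hT, sub_eq_add_neg, cj_add, cj_neg, ← sub_eq_add_neg]
    rw [← cj_xc]
    rw [hcT]
    rcases e1 with e1 | e1 <;> rcases e2 with e2 | e2
    · left; rw [e1, e2]
    · right
      rw [e1, e2]
      have : -S - P1 = -T' := by rw [hT']; abel
      rw [this, xc_neg]
    · right
      rw [e1, e2]
      have : S - -P1 = T' := by rw [hT']; abel
      rw [this]
    · left
      rw [e1, e2]
      have : -S - -P1 = -T := by rw [hT]; abel
      rw [this, xc_neg]
  · intro i hi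
    rw [hiter i (by omega)]
    intro h0
    have h3 := (hs.mul L (N ^ i • T) (hiT i (by omega))).1.mpr h0
    rw [hstep] at h3
    exact hiT (i + 1) (by omega) h3
  · rw [hiter (k - 1) le_rfl]
    apply (hs.mul L (N ^ (k - 1) • T) hk1T).1.mp
    rw [hstep, Nat.sub_add_cancel hk]
    exact hkT

end LEH
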