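/-
LH/PrB2 (M)  MP_022f22_nt, Lehmer project, table modleh. Paper proof: /team-store/lehmer_proof.md
Case 2 of Prop B.  y in orbF top (xc P), |orbF I y| < Q^b; y = xc P1 with P1 = cj sigma0 P, non-torsion.  exists_drop for y gives k (dg(F^[n] y) = dg(F^[n] a) for conjugates: dg_smul).
k = 0: Q^0 * dg a/dg a = 1 <= C4 Q^b.
k >= 1: sigma, then exists_torsion: z, z'.  tor_bound (GoodMap from good_of_setup, e from exists_ord: rho^e <= w(Q)): 1 < w z, log(cdi w z)/log rho <= C'/Q^k, C' = (e+1) Q^(e+1).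
orb_inf: (cdi w z)^c <= rho, c = |orbF I z|, so c * log(cdi)/log rho >= 1 (log rho < 0), Q^k <= C' c.
orb_growth with y, y' = sigma y, z, z', S = {c in orbF top y | F^[k] c = F^[k] y} (filter), m = |S|, m * dg(F^[k] y) = dg y (fib_card): for tau in I fixing y: F^[k](tau sigma y) = tau(F^[k] sigma y) = tau(sigma F^[k] y)
= tau F^[k] y = F^[k] y.  So c <= 2 |orbF I y| m <= 2 Q^b m.  Q^k dg(F^[k]a)/dg a = Q^k/m <= 2 C' Q^b.  C4 = 2C' + 1.
-/
import Mathlib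
import Pool.Agent.Work.MP_022f22_nt.LH.Defs
import Pool.Agent.Work.MP_022f22_nt.LH.Tor
import Pool.Agent.Work.MP_022f22_nt.LH.Ob1
import Pool.Agent.Work.MP_022f22_nt.LH.Ob2
import Pool.Agent.Work.MP_022f22_nt.LH.Org
import Pool.Agent.Work.MP_022f22_nt.LH.Fmc
import Pool.Agent.Work.MP_022f22_nt.LH.GMp
import Pool.Agent.Work.MP_022f22_nt.LH.CjP
import Pool.Agent.Work.MP_022f22_nt.LH.Drp
import Pool.Agent.Work.MP_022f22_nt.LH.Tpt

open NumberField IsDedekindDomain Polynomial Height Filter Topology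

namespace LEH

private theorem aux_final {c m : ℕ} {Qk d d' C' X : ℝ} {u : ℕ} (hm : (m : ℝ) * d' = d)
    (hd : 0 < d) (hd' : 0 < d')
    (h1 : Qk ≤ (c : ℝ) * C') (hC' : 0 < C') (h2 : c ≤ 2 * (u * m)) (h3 : (u : ℝ) < X) :
    Qk * d' / d ≤ (2 * C' + 1) * X := by
  have hX : 0 < X := lt_of_le_of_lt (Nat.cast_nonneg u) h3
  have h2' : (c : ℝ) ≤ 2 * ((u : ℝ) * (m : ℝ)) := by exact_mod_cast h2
  rw [div_le_iff₀ hd, ← hm]
  have hm0 : (0 : ℝ) ≤ m := Nat.cast_nonneg m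
  have e1 : Qk * d' ≤ (c : ℝ) * C' * d' := mul_le_mul_of_nonneg_right h1 hd'.le
  have e2 : (c : ℝ) * C' * d' ≤ 2 * ((u : ℝ) * (m : ℝ)) * C' * d' := by gcongr
  have e3 : 2 * ((u : ℝ) * (m : ℝ)) * C' * d' ≤ 2 * (X * (m : ℝ)) * C' * d' := by gcongr
  have e4 : 2 * (X * (m : ℝ)) * C' * d' ≤ (2 * C' + 1) * X * ((m : ℝ) * d') := by
    have : 0 ≤ X * ((m : ℝ) * d') := by positivity
    nlinarith
  linarith

private theorem aux_log {ρ s t : ℝ} {c k : ℕ} {Q : ℝ} (hQ : 0 < Q) (hρ0 : 0 < ρ) (hρ1 : ρ < 1) (hs : 0 < s)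
    (h1 : s ^ c ≤ ρ) (h2 : Real.log s / Real.log ρ ≤ t / Q ^ k) : Q ^ k ≤ (c : ℝ) * t := by
  have hl : Real.log ρ < 0 := Real.log_neg hρ0 hρ1
  have h3 : Real.log (s ^ c) ≤ Real.log ρ := Real.log_le_log (by positivity) h1
  rw [Real.log_pow] at h3
  have h4 : 1 ≤ (c : ℝ) * (Real.log s / Real.log ρ) := by
    rw [← mul_div_assoc, le_div_iff_of_neg hl]
    linarith
  have h5 : (1 : ℝ) ≤ (c : ℝ) * (t / Q ^ k) := le_trans h4 (mul_le_mul_of_nonneg_left h2 (Nat.cast_nonneg c))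
  have hQk : 0 < Q ^ k := by positivity
  rw [← mul_div_assoc, le_div_iff₀ hQk] at h5
  linarith

theorem propB2 {K : Type} [Field K] [NumberField K] {v : HeightOneSpectrum (𝓞 K)}
    {W : WeierstrassCurve K} {p N Q : ℕ} {A B : K[X]} (hs : Setup K v W p N Q A B)
    {ϖ : K} (hϖ : Unif v ϖ) :
    ∃ C4 : ℝ, 0 < C4 ∧ ∀ (L : Type) [Field L] [NumberField L] [Algebra K L]
      [FiniteDimensional K L] [IsGalois K L] [DecidableEq L]
      (P : (W.baseChange L).toAffine.Point) (_ : NT P) (w : FinitePlace L) (_ : Above v w)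
      (I : Subgroup (L ≃ₐ[K] L)) (φ : L ≃ₐ[K] L) (Q' : ℕ)
      (_ : InertiaData w.val (w (algebraMap K L ϖ)) p Q' I φ) (b : ℕ) (y : L)
      (_ : y ∈ orbF (⊤ : Subgroup (L ≃ₐ[K] L)) (xc P))
      (_ : ((orbF I y).card : ℝ) < (Q : ℝ) ^ b),
      ∃ k : ℕ, (∀ n, k ≤ n → dg K ((Fm A B)^[n] (xc P)) = dg K ((Fm A B)^[k] (xc P))) ∧
        (Q : ℝ) ^ k * (dg K ((Fm A B)^[k] (xc P)) : ℝ) / (dg K (xc P) : ℝ) ≤
          C4 * (Q : ℝ) ^ b := by
  classical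
  obtain ⟨e, he⟩ := exists_ord hs hϖ
  have hQ4 : 0 < Q := by
    rw [hs.Q_eq]
    obtain ⟨s, -, hN⟩ := hs.N_pow
    rw [hN]
    have := hs.prime.pos
    positivity
  have hQ1 : (1 : ℝ) ≤ (Q : ℝ) := by exact_mod_cast hQ4
  have hQ0 : (0 : ℝ) < (Q : ℝ) := by linarith
  set C' : ℝ := ((e : ℝ) + 1) * (Q : ℝ) ^ (e + 1) with hC'
  have hC'0 : 0 < C' := by positivity
  refine ⟨2 * C' + 1, by positivity, ?_⟩
  intro L _ _ _ _ _ _ P hP w hw I φ Q' hI b y hy hlt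
  obtain ⟨σ0, -, hσ0⟩ := mem_orbF.mp hy
  have hit : ∀ n, dg K ((Fm A B)^[n] y) = dg K ((Fm A B)^[n] (xc P)) := by
    intro n
    rw [← hσ0, Fm_iter_gal, dg_smul]
  obtain ⟨k, hk1, hk2⟩ := exists_drop A B y
  refine ⟨k, fun n hn => by rw [← hit, ← hit]; exact hk1 n hn, ?_⟩
  rcases Nat.eq_zero_or_pos k with hk0 | hkpos
  · subst hk0
    have hd : (0 : ℝ) < (dg K (xc P) : ℝ) := by exact_mod_cast dg_pos (xc P)
    simp only [pow_zero, Function.iterate_zero, id_eq, one_mul]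
    rw [div_self hd.ne']
    have hQb : (1 : ℝ) ≤ (Q : ℝ) ^ b := one_le_pow₀ hQ1
    nlinarith
  · rcases hk2 with hk0 | ⟨σ, h1, h2⟩
    · omega
    have hxP1 : xc (cj σ0 P) = y := by rw [cj_xc, hσ0]
    obtain ⟨z, z', hz1, hz2, hz3⟩ := exists_torsion hs (cj σ0 P) (cj_NT σ0 hP) k hkpos σ
      (by rw [hxP1]; exact h1) (by rw [hxP1]; exact h2)
    rw [hxP1] at hz1
    obtain ⟨hG, hBt⟩ := good_of_setup hs hw hϖ
    obtain ⟨ht1, ht2⟩ := tor_bound hG hBt e (le_of_eq (he L w hw).symm) z k hkpos hz2 hz3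
    have hinf := orb_inf hI ht1
    have hcdi : 0 < cdi w.val z := by
      unfold cdi
      positivity
    have hQk : (Q : ℝ) ^ k ≤ ((orbF I z).card : ℝ) * C' :=
      aux_log hQ0 hG.rho_pos hG.rho_lt hcdi hinf ht2
    set S : Finset L := (orbF (⊤ : Subgroup (L ≃ₐ[K] L)) y).filter
      (fun c => (Fm A B)^[k] c = (Fm A B)^[k] y) with hS
    have hgr := orb_growth I y (σ y) z z' S.card S le_rfl
      (by
        intro τ hτ hτy
        rw [hS, Finset.mem_filter]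
        refine ⟨mem_orbF.mpr ⟨τ * σ, Subgroup.mem_top _, rfl⟩, ?_⟩
        rw [Fm_iter_gal, Fm_iter_gal, h1, ← Fm_iter_gal, hτy])
      (fun τ _ h3 h4 => hz1 τ h3 h4)
    have hfib := fib_card (K := K) A B k y ((Fm A B)^[k] y) (self_mem_orbF _ _)
    have hm0 : S.card * dg K ((Fm A B)^[k] y) = dg K y := by
      rw [hS]
      convert hfib
    have hm : (S.card : ℝ) * (dg K ((Fm A B)^[k] y) : ℝ) = (dg K y : ℝ) := by
      exact_mod_cast hm0
    rw [← hit k]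
    have hdg0 : dg K (xc P) = dg K y := by
      have := hit 0
      simpa using this.symm
    rw [hdg0]
    exact aux_final hm (by exact_mod_cast dg_pos y) (by exact_mod_cast dg_pos _) hQk hC'0 hgr hlt

end LEH
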