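/-
LH/PrC (M)  MP_022f22_nt, Lehmer project, table modleh. Paper proof: /team-store/lehmer_proof.md
Induction (section 3 of the paper proof).  Constants: propA (C2), exists_unif, propB1 (C3, c5), propB2 (C4), anaC (C, b).  Fix L; strong induction on D for all non-torsion P in E(L) with dg(xc P) = D.
a = xc P, Nice a (nice_point), b = b(D), D_b = dg(F^[b] a), q = Q^b D_b/D > 0.
Case 1: for every w above v the inertia data (I, phi = 1, Q') of exists_data satisfies Q^b <= |orbF I y| for all y in orbF top a.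
   If q >= C3 (log D + 1): propB1: c5 <= D hx a, and exp(-C loss D) <= c5.
   If q < C3(log D+1): anaC with D' = D_b (D_b = D q/Q^b): D_b < D, induction for N^b P (non-torsion; xc(N^b P) = F^[b] a): exp(-C loss D_b) <= D_b hx(F^[b] a) = D_b Q^b hx a = q D hx a (Nice.ht with sigma = 1).
   So D hx a >= exp(-C loss D_b)/q >= exp(-C loss D).
Case 2: some w, y with |orbF I y| < Q^b: propB2: k.  P' = N^k P, a' = F^[k] a, dg(F^[n] a') = dg a' for all n (F^[n] F^[k] = F^[n+k]), Nice a'.  propA: exp(-C2 sqrt(log D_k + 1)) <= D_k hx a' = D_k Q^k hx a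
   = q_k D hx a, q_k = Q^k D_k/D <= C4 Q^b; D_k <= D (dg_iter_le).  So D hx a >= exp(-C2 sqrt(log D+1))/(C4 Q^b) >= exp(-C loss D) (hx a >= 0).
-/
import Mathlib
import Pool.Agent.Work.MP_022f22_nt.LH.Defs
import Pool.Agent.Work.MP_022f22_nt.LH.InEx
import Pool.Agent.Work.MP_022f22_nt.LH.Fmc
import Pool.Agent.Work.MP_022f22_nt.LH.NiP
import Pool.Agent.Work.MP_022f22_nt.LH.PrA
import Pool.Agent.Work.MP_022f22_nt.LH.PrB
import Pool.Agent.Work.MP_022f22_nt.LH.PrB2
import Pool.Agent.Work.MP_022f22_nt.LH.AnC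
import Pool.Agent.Work.MP_022f22_nt.LH.Vab
import Pool.Agent.Work.MP_022f22_nt.LH.Hxl

open NumberField IsDedekindDomain Polynomial Height Filter Topology

namespace LEH

theorem propC {K : Type} [Field K] [NumberField K] {v : HeightOneSpectrum (𝓞 K)}
    {W : WeierstrassCurve K} {p N Q : ℕ} {A B : K[X]} (hs : Setup K v W p N Q A B) :
    ∃ C : ℝ, 0 < C ∧ ∀ (L : Type) [Field L] [NumberField L] [Algebra K L]
      [FiniteDimensional K L] [IsGalois K L] [DecidableEq L]
      (P : (W.baseChange L).toAffine.Point) (_ : NT P),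
      Real.exp (-(C * loss (dg K (xc P)))) ≤ (dg K (xc P) : ℝ) * hx (W.baseChange L) (xc P) := by
  obtain ⟨C2, hC2, hA⟩ := propA hs
  obtain ⟨ϖ, hϖ⟩ := exists_unif v
  obtain ⟨C3, c5, hC3, hc5, hB1⟩ := propB1 hs hϖ
  obtain ⟨C4, hC4, hB2⟩ := propB2 hs hϖ
  obtain ⟨s, hs0, hNs⟩ := hs.N_pow
  have hp2 : 2 ≤ p := hs.prime.two_le
  have hN2 : 2 ≤ N := by
    rw [hNs]
    calc 2 ≤ p := hp2
      _ = p ^ 1 := (pow_one p).symm
      _ ≤ p ^ s := Nat.pow_le_pow_right (by omega) hs0
  have hQ4 : 4 ≤ Q := by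
    rw [hs.Q_eq]
    nlinarith
  have hQpow : ∃ n, 0 < n ∧ Q = p ^ n := by
    refine ⟨s * 2, by omega, ?_⟩
    rw [hs.Q_eq, hNs, pow_mul]
  have hQpos : (0 : ℝ) < (Q : ℝ) := by
    have : 0 < Q := by omega
    exact_mod_cast this
  have hΔ : W.Δ ≠ 0 := by
    intro h0
    have h1 := hs.good.disc
    rw [h0, map_zero] at h1
    exact zero_ne_one h1
  obtain ⟨C, b, hC, han⟩ := anaC C2 C3 C4 c5 hC2 hC3 hC4 hc5 Q hQ4
  refine ⟨C, hC, ?_⟩
  intro L _ _ _ _ _ _
  have key : ∀ D : ℕ, ∀ P : (W.baseChange L).toAffine.Point, NT P → dg K (xc P) = D →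
      Real.exp (-(C * loss D)) ≤ (D : ℝ) * hx (W.baseChange L) (xc P) := by
    intro D
    induction D using Nat.strong_induction_on with
    | _ D ih =>
      intro P hP hD
      obtain ⟨hnice, hxc⟩ := nice_point hs P hP
      obtain ⟨a, ha⟩ : ∃ a, a = xc P := ⟨_, rfl⟩
      rw [← ha] at hnice hxc hD
      rw [← ha]
      have hD1 : 1 ≤ D := by
        rw [← hD]
        exact dg_pos a
      have hD0 : (0 : ℝ) < (D : ℝ) := by exact_mod_cast hD1
      obtain ⟨h1, h2, h3⟩ := han D hD1
      have hhx : 0 ≤ hx (W.baseChange L) a := hx_nonneg W hΔ L a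
      have hQb : (0 : ℝ) < (Q : ℝ) ^ (b D) := pow_pos hQpos _
      have hht : ∀ n, hx (W.baseChange L) ((Fm A B)^[n] a) =
          (Q : ℝ) ^ n * hx (W.baseChange L) a := by
        intro n
        exact hnice.ht 1 n
      have hdata : ∀ (w : FinitePlace L), Above v w → ∃ I : Subgroup (L ≃ₐ[K] L),
          (∃ φ, InertiaData w.val (w (algebraMap K L ϖ)) p Q I φ) ∧
          ∃ Q', InertiaData w.val (w (algebraMap K L ϖ)) p Q' I 1 := by
        intro w hw
        exact exists_data hw hϖ hs.prime hs.p_mem hQpow hs.q0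
      choose I hI using hdata
      by_cases hcase : ∀ (w : FinitePlace L) (hw : Above v w),
          ∀ y ∈ orbF (⊤ : Subgroup (L ≃ₐ[K] L)) a,
            (Q : ℝ) ^ (b D) ≤ ((orbF (I w hw) y).card : ℝ)
      · by_cases hq : C3 * (Real.log D + 1) ≤
            (Q : ℝ) ^ (b D) * (dg K ((Fm A B)^[b D] a) : ℝ) / (D : ℝ)
        · refine h1.trans ?_
          have h5 := hB1 L a hnice (b D) (fun w hw => by
            obtain ⟨Q', hQ'⟩ := (hI w hw).2
            exact ⟨I w hw, Q', hQ', fun y hy => hcase w hw y hy⟩) (by rw [hD]; exact hq)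
          rw [hD] at h5
          exact h5
        · push Not at hq
          have hDb1 : 1 ≤ dg K ((Fm A B)^[b D] a) := dg_pos _
          have hDb0 : (0 : ℝ) < (dg K ((Fm A B)^[b D] a) : ℝ) := by exact_mod_cast hDb1
          have hq0 : 0 < (Q : ℝ) ^ (b D) * (dg K ((Fm A B)^[b D] a) : ℝ) / (D : ℝ) :=
            div_pos (mul_pos hQb hDb0) hD0
          obtain ⟨h6, h7⟩ := h2 _ (dg K ((Fm A B)^[b D] a)) hq0 hq hDb1 (by
            field_simp)
          have hNT' : NT (N ^ (b D) • P) := by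
            intro n hn h0
            rw [smul_smul] at h0
            exact hP (n * N ^ (b D)) (Nat.mul_pos hn (Nat.pow_pos (by omega))) h0
          have h8 := ih _ h6 (N ^ (b D) • P) hNT' (by rw [hxc])
          rw [hxc, hht] at h8
          have h9 := h7.trans h8
          have h10 : (dg K ((Fm A B)^[b D] a) : ℝ) * ((Q : ℝ) ^ (b D) * hx (W.baseChange L) a) =
              ((D : ℝ) * hx (W.baseChange L) a) *
                ((Q : ℝ) ^ (b D) * (dg K ((Fm A B)^[b D] a) : ℝ) / (D : ℝ)) := by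
            field_simp
          rw [h10] at h9
          exact le_of_mul_le_mul_right h9 hq0
      · push Not at hcase
        obtain ⟨w, hw, y, hy, hlt⟩ := hcase
        obtain ⟨φ, hφ⟩ := (hI w hw).1
        obtain ⟨k, hk1, hk2⟩ := hB2 L P hP w hw (I w hw) φ Q hφ (b D) y (by rw [← ha]; exact hy) hlt
        rw [← ha] at hk1 hk2
        have h5 := hA L ((Fm A B)^[k] a) (nice_iter hnice k) (by
          intro n
          rw [← Function.iterate_add_apply]
          exact hk1 (n + k) (by omega))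
        rw [hht] at h5
        have hDk1 : 1 ≤ dg K ((Fm A B)^[k] a) := dg_pos _
        have hDkD : dg K ((Fm A B)^[k] a) ≤ D := by
          have h6 := dg_iter_le A B (Nat.zero_le k) a
          rw [Function.iterate_zero, id_eq, hD] at h6
          exact h6
        have hDk0 : (0 : ℝ) < (dg K ((Fm A B)^[k] a) : ℝ) := by exact_mod_cast hDk1
        have h6 : Real.exp (-(C2 * Real.sqrt (Real.log D + 1))) ≤
            Real.exp (-(C2 * Real.sqrt (Real.log (dg K ((Fm A B)^[k] a)) + 1))) := by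
          apply Real.exp_le_exp.2
          apply neg_le_neg
          apply mul_le_mul_of_nonneg_left _ hC2.le
          apply Real.sqrt_le_sqrt
          have h7 : Real.log (dg K ((Fm A B)^[k] a)) ≤ Real.log D :=
            Real.log_le_log hDk0 (by exact_mod_cast hDkD)
          linarith
        have h8 := (h3.trans h6).trans h5
        have h9 : (dg K ((Fm A B)^[k] a) : ℝ) * ((Q : ℝ) ^ k * hx (W.baseChange L) a) =
            ((Q : ℝ) ^ k * (dg K ((Fm A B)^[k] a) : ℝ) / (dg K a : ℝ)) *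
              ((D : ℝ) * hx (W.baseChange L) a) := by
          rw [hD]
          field_simp
        rw [h9] at h8
        have h10 : ((Q : ℝ) ^ k * (dg K ((Fm A B)^[k] a) : ℝ) / (dg K a : ℝ)) *
              ((D : ℝ) * hx (W.baseChange L) a) ≤ (C4 * (Q : ℝ) ^ (b D)) *
              ((D : ℝ) * hx (W.baseChange L) a) :=
          mul_le_mul_of_nonneg_right hk2 (mul_nonneg hD0.le hhx)
        have h11 := h8.trans h10
        rw [mul_comm (C4 * (Q : ℝ) ^ (b D))] at h11
        exact le_of_mul_le_mul_right h11 (mul_pos hC4 hQb)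
  intro P hP
  exact key _ P hP rfl

end LEH
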