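import Mathlib
import Pool.Agent.Work.MP_022f22_nt.LH.Defs
import Pool.Agent.Work.MP_022f22_nt.LH.FinDefs
import Pool.Agent.Work.MP_022f22_nt.LH.PrC
import Pool.Agent.Work.MP_022f22_nt.LH.Stp
import Pool.Agent.Work.MP_022f22_nt.LH.Abs
import Pool.Agent.Work.MP_022f22_nt.LH.Nrm
import Pool.Agent.Work.MP_022f22_nt.LH.Dgr
import Pool.Agent.Work.MP_022f22_nt.LH.Hxl
import Pool.Agent.Work.MP_022f22_nt.LH.Lnk

open NumberField IsDedekindDomain Polynomial Height Filter Topology

namespace LEH

theorem loss_mono {D D' : ℕ} (h1 : 1 ≤ D) (h : D ≤ D') : loss D ≤ loss D' := by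
  unfold loss
  have hD : (1 : ℝ) ≤ D := by exact_mod_cast h1
  have hDD : (D : ℝ) ≤ D' := by exact_mod_cast h
  have hl : 0 ≤ Real.log D := Real.log_nonneg hD
  have hll : Real.log D ≤ Real.log D' := Real.log_le_log (by linarith) hDD
  apply Real.sqrt_le_sqrt
  apply mul_le_mul (by linarith) (Real.log_le_log (by linarith) (by linarith))
    (Real.log_nonneg (by linarith)) (by linarith)

open Classical in
theorem lehmer_setup {K : Type} [Field K] [NumberField K] {v : HeightOneSpectrum (𝓞 K)}
    {W : WeierstrassCurve K} {p N Q : ℕ} {A B : K[X]} (hs : Setup K v W p N Q A B) :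
    ∃ C : ℝ, 0 < C ∧ ∀ P : (W.baseChange (AlgebraicClosure K)).toAffine.Point, InfOrder P →
      Tendsto (fun n : ℕ => naiveHeight (2 ^ n • P) / 4 ^ n) atTop (𝓝 (canonicalHeight P)) ∧
      Real.exp (-(C * loss (ptDegree K P))) / (ptDegree K P : ℝ) ≤ canonicalHeight P := by
  obtain ⟨C, hC, H⟩ := propC hs
  refine ⟨C, hC, fun P hP => ?_⟩
  obtain ⟨L, hfin, hgal, P', hP'⟩ := exists_descent W P
  have : NumberField L := NumberField.of_module_finite K L
  have hΔ : W.Δ ≠ 0 := by
    intro h0
    have := hs.good.disc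
    rw [h0] at this
    simp at this
  have hNT : NT P' := by
    intro n hn h0
    apply hP n hn
    rw [← hP', ← map_nsmul, h0, map_zero]
  have hne : ∀ n : ℕ, 2 ^ n • P' ≠ 0 := fun n => hNT _ (by positivity)
  have hP0 : P' ≠ 0 := by simpa using hne 0
  have hΔL : (W.baseChange L).Δ ≠ 0 := by
    simp only [WeierstrassCurve.baseChange, WeierstrassCurve.map_Δ]
    exact (_root_.map_ne_zero _).2 hΔ
  -- naive heights of the multiples
  have hnaive : ∀ n : ℕ, naiveHeight (2 ^ n • P) / 4 ^ n =
      logHeight ![(dupIt (W.baseChange L) n (xc P')).1,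
        (dupIt (W.baseChange L) n (xc P')).2] / (4 ^ n * (Module.finrank ℚ L : ℝ)) := by
    intro n
    rw [logHeight_point (W.baseChange L) hΔL P' hP0 n]
    have h1 : 2 ^ n • P = WeierstrassCurve.Affine.Point.map (W' := W) L.val (2 ^ n • P') := by
      rw [map_nsmul, hP']
    rw [h1]
    generalize hR : 2 ^ n • P' = R
    have hR0 : R ≠ 0 := hR ▸ hne n
    rcases R with _ | ⟨x, y, hxy⟩
    · exact absurd rfl hR0
    · rw [WeierstrassCurve.Affine.Point.map_some]
      simp only [naiveHeight, WeierstrassCurve.Affine.Point.xRep_some]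
      have := absLogHeight_eq (L := L) (F := AlgebraicClosure K) x
      have h2 : (L.val x) = algebraMap L (AlgebraicClosure K) x := rfl
      rw [h2, this, Height.logHeight₁_eq_logHeight]
      field_simp
  have ht := hx_tendsto W hΔ L (xc P')
  have ht2 : Tendsto (fun n : ℕ => naiveHeight (2 ^ n • P) / 4 ^ n) atTop
      (𝓝 (hx (W.baseChange L) (xc P'))) := by
    refine ht.congr fun n => ?_
    rw [hnaive n]
  have hcan : canonicalHeight P = hx (W.baseChange L) (xc P') := ht2.limUnder_eq
  refine ⟨hcan ▸ ht2, ?_⟩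
  rw [hcan]
  have hH := H L P' hNT
  set D0 := dg K (xc P') with hD0
  have hD0pos : 1 ≤ D0 := by
    have h := dg_pos (K := K) (xc P')
    omega
  have hdeg : D0 ≤ ptDegree K P := by
    rcases P' with _ | ⟨x, y, hxy⟩
    · exact absurd rfl hP0
    · rw [WeierstrassCurve.Affine.Point.map_some] at hP'
      rw [← hP']
      simp only [ptDegree]
      have hy : IsIntegral K (L.val y) := Algebra.IsIntegral.isIntegral _
      have := dg_le (K := K) L x (L.val y) hy
      exact this
  have hD0r : (0 : ℝ) < D0 := by exact_mod_cast hD0pos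
  have hDr : (0 : ℝ) < ptDegree K P := by
    have : 0 < ptDegree K P := by omega
    exact_mod_cast this
  have h1 : Real.exp (-(C * loss (ptDegree K P))) ≤ Real.exp (-(C * loss D0)) := by
    apply Real.exp_le_exp.2
    have := mul_le_mul_of_nonneg_left (loss_mono hD0pos hdeg) hC.le
    linarith
  have h2 : Real.exp (-(C * loss D0)) / D0 ≤ hx (W.baseChange L) (xc P') := by
    rw [div_le_iff₀ hD0r]
    linarith
  refine le_trans ?_ h2
  apply div_le_div₀ (Real.exp_pos _).le h1 hD0r
  exact_mod_cast hdeg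

end LEH
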