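/-
LH/AnC (M)  MP_022f22_nt, Lehmer project, table modleh. Paper proof: /team-store/lehmer_proof.md
Pure analysis for the induction.  l = log D + 3 >= 3, g = loss D = sqrt(l log l), log l >= 1 (log 3 > 1), g >= 1, g >= log l (l >= log l), sqrt(log D + 1) <= g.
Let K3 = 1 + |log C3|: log(C3 (log D + 1)) <= log(C3 l) <= K3 log l (log l >= 1).  Let kappa >= 0 with kappa log Q = K3 + 1, b(D) = ceil(kappa g).
(i) C >= |log c5|.
(ii) q > 0, q < C3 (log D+1), D' >= 1, D' = D q/Q^b: s := b log Q - log q = log D - log D'.  s >= g: b log Q >= (K3+1) g and log q <= K3 log l <= K3 g.  So s > 0, D' < D, l' = log D' + 3 = l - s >= 3.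
   loss D - loss D' >= (l log l - l' log l')/(2 sqrt(l log l)) >= s log l/(2g) >= (log l)/2 (l' log l' <= (l - s) log l; sqrt A - sqrt B = (A-B)/(sqrt A + sqrt B)).  So C (loss D - loss D') >= C (log l)/2 >= K3 log l >= log q if C >= 2 K3.
   That is exp(-C loss D) * q <= exp(-C loss D').
(iii) log C4 + b log Q + C2 sqrt(log D + 1) <= |log C4| g + (K3 + 1) g + log Q g + C2 g <= C g.
-/
import Mathlib
import Pool.Agent.Work.MP_022f22_nt.LH.Defs

open NumberField IsDedekindDomain Polynomial Height Filter Topology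

namespace LEH

theorem anaC (C2 C3 C4 c5 : ℝ) (h2 : 0 < C2) (h3 : 0 < C3) (h4 : 0 < C4) (h5 : 0 < c5) (Q : ℕ)
    (hQ : 4 ≤ Q) :
    ∃ (C : ℝ) (b : ℕ → ℕ), 0 < C ∧ ∀ D : ℕ, 1 ≤ D →
      Real.exp (-(C * loss D)) ≤ c5 ∧
      (∀ (q : ℝ) (D' : ℕ), 0 < q → q < C3 * (Real.log D + 1) → 1 ≤ D' →
        (D' : ℝ) = (D : ℝ) * q / (Q : ℝ) ^ (b D) →
        D' < D ∧ Real.exp (-(C * loss D)) * q ≤ Real.exp (-(C * loss D'))) ∧
      Real.exp (-(C * loss D)) * (C4 * (Q : ℝ) ^ (b D)) ≤
        Real.exp (-(C2 * Real.sqrt (Real.log D + 1))) := by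
  have hQ0 : (0 : ℝ) < Q := by
    have : (4 : ℝ) ≤ Q := by exact_mod_cast hQ
    linarith
  have hlogQ : 0 < Real.log Q := by
    apply Real.log_pos
    have : (4 : ℝ) ≤ Q := by exact_mod_cast hQ
    linarith
  have hlog3 : 1 < Real.log 3 := by
    rw [Real.lt_log_iff_exp_lt (by norm_num)]
    exact Real.exp_one_lt_three
  obtain ⟨K3, hK3⟩ : ∃ K3 : ℝ, K3 = 1 + |Real.log C3| := ⟨_, rfl⟩
  have hK3p : 1 ≤ K3 := by rw [hK3]; linarith [abs_nonneg (Real.log C3)]
  obtain ⟨κ, hκ⟩ : ∃ κ : ℝ, κ = (K3 + 1) / Real.log Q := ⟨_, rfl⟩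
  have hκp : 0 < κ := by rw [hκ]; positivity
  have hκQ : κ * Real.log Q = K3 + 1 := by rw [hκ]; field_simp
  obtain ⟨C, hC⟩ : ∃ C : ℝ, C = |Real.log c5| + 2 * K3 + |Real.log C4| + K3 + 1 + Real.log Q + C2 :=
    ⟨_, rfl⟩
  have a5 := abs_nonneg (Real.log c5)
  have a4 := abs_nonneg (Real.log C4)
  have hCp : 0 < C := by rw [hC]; positivity
  refine ⟨C, fun D => ⌈κ * loss D⌉₊, hCp, ?_⟩
  intro D hD
  have hDr : (1 : ℝ) ≤ D := by exact_mod_cast hD
  have hD0 : (0 : ℝ) < D := by linarith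
  obtain ⟨l, hl⟩ : ∃ l : ℝ, l = Real.log D + 3 := ⟨_, rfl⟩
  have hlD : 0 ≤ Real.log D := Real.log_nonneg hDr
  have hl3 : 3 ≤ l := by rw [hl]; linarith
  have hl0 : 0 < l := by linarith
  have hLl : 1 < Real.log l := lt_of_lt_of_le hlog3 (Real.log_le_log (by norm_num) hl3)
  obtain ⟨g, hg⟩ : ∃ g : ℝ, g = loss D := ⟨_, rfl⟩
  have hg' : g = Real.sqrt (l * Real.log l) := by rw [hg, loss, hl]
  have hA0 : 0 ≤ l * Real.log l := by positivity
  have hgg : g ^ 2 = l * Real.log l := by rw [hg']; exact Real.sq_sqrt hA0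
  have hlogl : Real.log l ≤ l := by linarith [Real.log_le_sub_one_of_pos hl0]
  have hgl : Real.log l ≤ g := by
    rw [hg']
    apply Real.le_sqrt_of_sq_le
    nlinarith
  have hg1 : 1 ≤ g := by linarith
  have hgs : Real.sqrt (Real.log D + 1) ≤ g := by
    rw [hg']
    apply Real.sqrt_le_sqrt
    nlinarith
  obtain ⟨b, hb⟩ : ∃ b : ℕ, b = ⌈κ * loss D⌉₊ := ⟨_, rfl⟩
  have hb1 : κ * g ≤ b := by rw [hb, hg]; exact Nat.le_ceil _
  have hb2 : (b : ℝ) < κ * g + 1 := by
    rw [hb, hg]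
    apply Nat.ceil_lt_add_one
    rw [← hg]; positivity
  have hbQ1 : (K3 + 1) * g ≤ b * Real.log Q := by
    calc (K3 + 1) * g = (κ * g) * Real.log Q := by rw [← hκQ]; ring
      _ ≤ b * Real.log Q := by gcongr
  have hbQ2 : b * Real.log Q ≤ (K3 + 1) * g + Real.log Q := by
    calc b * Real.log Q ≤ (κ * g + 1) * Real.log Q := by gcongr
      _ = (K3 + 1) * g + Real.log Q := by rw [← hκQ]; ring
  show Real.exp (-(C * loss D)) ≤ c5 ∧
      (∀ (q : ℝ) (D' : ℕ), 0 < q → q < C3 * (Real.log D + 1) → 1 ≤ D' →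
        (D' : ℝ) = (D : ℝ) * q / (Q : ℝ) ^ (⌈κ * loss D⌉₊) →
        D' < D ∧ Real.exp (-(C * loss D)) * q ≤ Real.exp (-(C * loss D'))) ∧
      Real.exp (-(C * loss D)) * (C4 * (Q : ℝ) ^ (⌈κ * loss D⌉₊)) ≤
        Real.exp (-(C2 * Real.sqrt (Real.log D + 1)))
  rw [← hb, ← hg]
  refine ⟨?_, ?_, ?_⟩
  · rw [← Real.le_log_iff_exp_le h5]
    have : -|Real.log c5| ≤ Real.log c5 := neg_abs_le _
    have h1 : |Real.log c5| * 1 ≤ C * g := by
      apply mul_le_mul _ hg1 (by norm_num) hCp.le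
      rw [hC]; linarith
    linarith
  · intro q D' hq hq3 hD' hDD
    have hD'r : (1 : ℝ) ≤ D' := by exact_mod_cast hD'
    have hD'0 : (0 : ℝ) < D' := by linarith
    obtain ⟨s, hs⟩ : ∃ s : ℝ, s = b * Real.log Q - Real.log q := ⟨_, rfl⟩
    have hlogD' : Real.log D' = Real.log D - s := by
      rw [hDD, Real.log_div (by positivity) (by positivity), Real.log_mul (by positivity)
        (by positivity), Real.log_pow, hs]
      ring
    have hlq : Real.log q ≤ K3 * Real.log l := by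
      have e1 : Real.log q ≤ Real.log (C3 * (Real.log D + 1)) := Real.log_le_log hq hq3.le
      rw [Real.log_mul (by positivity) (by positivity)] at e1
      have e2 : Real.log (Real.log D + 1) ≤ Real.log l := by
        apply Real.log_le_log (by positivity)
        rw [hl]; linarith
      have e3 : Real.log C3 ≤ |Real.log C3| := le_abs_self _
      have e4 : |Real.log C3| * 1 ≤ |Real.log C3| * Real.log l := by gcongr
      rw [hK3]; nlinarith
    have hsg : g ≤ s := by
      have : K3 * Real.log l ≤ K3 * g := by gcongr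
      rw [hs]; nlinarith
    have hs0 : 0 < s := by linarith
    have hlt : (D' : ℝ) < D := by
      rw [← Real.log_lt_log_iff hD'0 hD0]; linarith
    refine ⟨by exact_mod_cast hlt, ?_⟩
    have hl' : Real.log D' + 3 = l - s := by rw [hlogD', hl]; ring
    have hl'3 : 3 ≤ l - s := by rw [← hl']; linarith [Real.log_nonneg hD'r]
    have hgD' : loss D' ≤ g - Real.log l / 2 := by
      rw [loss, hl']
      rw [Real.sqrt_le_left (by linarith)]
      have e1 : Real.log (l - s) ≤ Real.log l := Real.log_le_log (by linarith) (by linarith)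
      have e2 : (l - s) * Real.log (l - s) ≤ (l - s) * Real.log l := by gcongr
      have e3 : g * Real.log l ≤ s * Real.log l := by gcongr
      nlinarith [sq_nonneg (Real.log l)]
    have hfin : Real.log q ≤ C * g - C * loss D' := by
      have e1 : C * (Real.log l / 2) ≤ C * (g - loss D') := by
        apply mul_le_mul_of_nonneg_left _ hCp.le; linarith
      have e2 : 2 * K3 * (Real.log l / 2) ≤ C * (Real.log l / 2) := by
        apply mul_le_mul_of_nonneg_right _ (by linarith)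
        rw [hC]; linarith
      linarith
    calc Real.exp (-(C * g)) * q = Real.exp (-(C * g)) * Real.exp (Real.log q) := by
          rw [Real.exp_log hq]
      _ = Real.exp (-(C * g) + Real.log q) := by rw [Real.exp_add]
      _ ≤ Real.exp (-(C * loss D')) := by
          apply Real.exp_le_exp.mpr; linarith
  · have e0 : C4 * (Q : ℝ) ^ b = Real.exp (Real.log C4 + b * Real.log Q) := by
      rw [Real.exp_add, Real.exp_log h4, mul_comm (b : ℝ), Real.exp_mul, Real.exp_log hQ0,
        Real.rpow_natCast]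
    rw [e0, ← Real.exp_add]
    apply Real.exp_le_exp.mpr
    have e1 : Real.log C4 ≤ |Real.log C4| := le_abs_self _
    have e2 : |Real.log C4| * 1 ≤ |Real.log C4| * g := by gcongr
    have e3 : Real.log Q * 1 ≤ Real.log Q * g := by gcongr
    have e4 : C2 * Real.sqrt (Real.log D + 1) ≤ C2 * g := by gcongr
    have e5 : (|Real.log C4| + (K3 + 1) + Real.log Q + C2) * g ≤ C * g := by
      apply mul_le_mul_of_nonneg_right _ (by linarith)
      rw [hC]; linarith
    nlinarith

end LEH
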