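import Mathlib
import Pool.Agent.Work.MP_022f22_nt.LH.Defs

namespace LEH

/-- the epsilon form of the lower bound -/
theorem eps_form (C ε : ℝ) (hC : 0 < C) (hε : 0 < ε) :
    ∃ c : ℝ, 0 < c ∧ ∀ D : ℕ, 1 ≤ D →
      c / (D : ℝ) ^ (1 + ε) ≤ Real.exp (-(C * loss D)) / D := by
  set η : ℝ := ε ^ 2 / C ^ 2 with hη
  have hη0 : 0 < η := by positivity
  set K : ℝ := C ^ 2 / (2 * ε) * |Real.log η| with hK
  have hK0 : 0 ≤ K := by positivity
  refine ⟨Real.exp (-(3 * ε + K)), Real.exp_pos _, fun D hD => ?_⟩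
  have hD1 : (1 : ℝ) ≤ D := by exact_mod_cast hD
  have hD0 : (0 : ℝ) < D := by linarith
  set l : ℝ := Real.log D + 3 with hl
  have hl3 : 3 ≤ l := by
    have := Real.log_nonneg hD1
    linarith
  have hl0 : 0 < l := by linarith
  have hll : 0 ≤ Real.log l := Real.log_nonneg (by linarith)
  -- C * loss D <= ε * l + K
  have hloss : loss D = Real.sqrt (l * Real.log l) := rfl
  have hlog : Real.log l ≤ η * l + |Real.log η| := by
    have h1 := Real.log_le_sub_one_of_pos (x := η * l) (by positivity)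
    rw [Real.log_mul hη0.ne' hl0.ne'] at h1
    have h2 := neg_abs_le (Real.log η)
    linarith
  have hmain : C * loss D ≤ ε * l + K := by
    rw [hloss, Real.sqrt_mul hl0.le]
    set a := Real.sqrt l
    set b := Real.sqrt (Real.log l)
    have ha : a ^ 2 = l := Real.sq_sqrt hl0.le
    have hb : b ^ 2 = Real.log l := Real.sq_sqrt hll
    have h1 : C * (a * b) ≤ ε / 2 * a ^ 2 + C ^ 2 / (2 * ε) * b ^ 2 := by
      have h := sq_nonneg (ε * a - C * b)
      have h2 : C * (a * b) * (2 * ε) ≤ (ε / 2 * a ^ 2 + C ^ 2 / (2 * ε) * b ^ 2) * (2 * ε) := by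
        have : (ε / 2 * a ^ 2 + C ^ 2 / (2 * ε) * b ^ 2) * (2 * ε) = ε ^ 2 * a ^ 2 + C ^ 2 * b ^ 2 := by
          field_simp
        rw [this]
        nlinarith
      exact le_of_mul_le_mul_right h2 (by positivity)
    have h3 : C ^ 2 / (2 * ε) * b ^ 2 ≤ ε / 2 * l + K := by
      rw [hb]
      have h4 : C ^ 2 / (2 * ε) * Real.log l ≤ C ^ 2 / (2 * ε) * (η * l + |Real.log η|) :=
        mul_le_mul_of_nonneg_left hlog (by positivity)
      have h5 : C ^ 2 / (2 * ε) * (η * l + |Real.log η|) = ε / 2 * l + K := by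
        rw [hK, hη]
        field_simp
      linarith
    rw [ha] at h1
    linarith
  have hpow : (D : ℝ) ^ (1 + ε) = D * Real.exp (ε * Real.log D) := by
    rw [Real.rpow_add hD0, Real.rpow_one, Real.rpow_def_of_pos hD0, mul_comm (Real.log _)]
  rw [hpow, div_le_div_iff₀ (by positivity) hD0]
  have h6 : Real.exp (-(3 * ε + K)) ≤ Real.exp (-(C * loss D)) * Real.exp (ε * Real.log D) := by
    rw [← Real.exp_add]
    apply Real.exp_le_exp.2
    have : ε * l = ε * Real.log D + 3 * ε := by rw [hl]; ring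
    linarith
  nlinarith [mul_le_mul_of_nonneg_right h6 hD0.le]

end LEH
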